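import Pool.Agent.Y303.NF.Pub

/-!
Maximal strong solutions: blow-up of the gradient when there is no strong solution on `[0, T]`.
-/

set_option autoImplicit false
set_option linter.unusedSectionVars false
set_option maxHeartbeats 1000000

open MeasureTheory Set Filter Topology
open scoped InnerProductSpace

namespace Pool.Agent.T2H10

open Pool.Agent.W795.TQ Pool.Agent.Y303.NF Pool.Agent.Y303.RA
open H772R2.NSR (Frame prim_cont grad_unique)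

section

variable {H K : Type} [NormedAddCommGroup H] [InnerProductSpace ℝ H] [CompleteSpace H]
  [NormedAddCommGroup K] [InnerProductSpace ℝ K] [CompleteSpace K]
  {W : Submodule ℝ (H × K)} {m : H → K} {C ν T : ℝ}

theorem fh_zero (T : ℝ) : FH T (fun _ => (0 : K)) (fun _ => 0) :=
  ⟨by simp, fun a b _ _ _ => by simp⟩

/-- If there is no strong solution on `[0, T]`, then there is a maximal one, whose gradient is
unbounded. -/
theorem alternative (hloc : S_loc) (huni : S_uni) (Fr : Frame W m C)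
    (hcomp : ∀ R : ℝ, TotallyBounded {v : H | ∃ z, (v, z) ∈ W ∧ ‖z‖ ≤ R})
    (hν : 0 < ν) (hT : 0 < T) {x0 g0 : H} {z0 : K} (h0 : (x0, z0) ∈ W)
    (hg : ∀ p ∈ W, ⟪(0 : K) - ν • z0 + m x0, p.2⟫_ℝ = ⟪g0, p.1⟫_ℝ)
    (hno : ∀ (u u1 : ℝ → H) (z z1 : ℝ → K), Str W m ν T (fun _ => 0) u u1 z z1 → u 0 ≠ x0) :
    ∃ (τ : ℝ) (v : ℝ → H), 0 < τ ∧ τ ≤ T ∧ v 0 = x0 ∧
      (∀ t ∈ Ioo 0 τ, Str W m ν t (fun _ => 0) v (deriv v) (gz W v) (deriv (gz W v))) ∧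
      (∀ N : ℝ, ∃ t ∈ Ioo 0 τ, N ≤ ‖gz W v t‖) ∧
      (∀ t, τ ≤ t → ∀ (u u1 : ℝ → H) (z z1 : ℝ → K), Str W m ν t (fun _ => 0) u u1 z z1 →
        u 0 ≠ x0) := by
  classical
  set I : Set ℝ := {t | 0 < t ∧ ∃ (u u1 : ℝ → H) (z z1 : ℝ → K),
    Str W m ν t (fun _ => 0) u u1 z z1 ∧ u 0 = x0} with hI
  have hIdown : ∀ s t, 0 < s → s ≤ t → t ∈ I → s ∈ I := by
    rintro s t hs hst ⟨_, u, u1, z, z1, S, hu⟩
    exact ⟨hs, u, u1, z, z1, S.mono hst, hu⟩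
  have hIT : ∀ t ∈ I, t < T := by
    intro t ht
    by_contra hcon
    obtain ⟨_, u, u1, z, z1, S, hu⟩ := hIdown T t hT (not_lt.1 hcon) ht
    exact hno u u1 z z1 S hu
  have hlocN : ∀ N : ℝ, ‖z0‖ < N → ∃ (τ : ℝ) (u u1 : ℝ → H) (z z1 : ℝ → K), 0 < τ ∧ τ < T ∧
      Str W m ν τ (fun _ => 0) u u1 z z1 ∧ u 0 = x0 ∧ N ≤ ‖z τ‖ := by
    intro N hN
    obtain ⟨τ, u, u1, z, z1, h1, h2, S, hu, h3⟩ :=
      hloc H K W m C ν T (fun _ => 0) (fun _ => 0) x0 g0 z0 N Fr hcomp hν hT (fh_zero T) h0 hg hN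
    have h4 : τ < T := hIT τ ⟨h1, u, u1, z, z1, S, hu⟩
    exact ⟨τ, u, u1, z, z1, h1, h4, S, hu, h3.resolve_left h4.ne⟩
  obtain ⟨s0, _, _, _, _, hs0, _, S0, hu0, _⟩ := hlocN (‖z0‖ + 1) (by linarith)
  have hne : I.Nonempty := ⟨s0, hs0, _, _, _, _, S0, hu0⟩
  have hbdd : BddAbove I := ⟨T, fun t ht => (hIT t ht).le⟩
  set τ : ℝ := sSup I with hτ
  have hs0τ : s0 ≤ τ := le_csSup hbdd ⟨hs0, _, _, _, _, S0, hu0⟩
  have hτ0 : 0 < τ := hs0.trans_le hs0τ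
  have hτT : τ ≤ T := csSup_le hne fun t ht => (hIT t ht).le
  have hlt : ∀ t, 0 < t → t < τ → t ∈ I := by
    intro t ht htτ
    obtain ⟨s, hs, hts⟩ := exists_lt_of_lt_csSup hne htτ
    exact hIdown t s ht hts.le hs
  have hτI : τ ∉ I := by
    rintro ⟨_, u, u1, z, z1, S, hu⟩
    have hzc : ContinuousOn z (Icc 0 τ) := prim_cont S.z1m S.pz
    obtain ⟨B, hB⟩ := (isCompact_Icc.image_of_continuousOn hzc).isBounded.exists_norm_le
    have hB' : ∀ s ∈ Icc 0 τ, ‖z s‖ ≤ B := fun s hs => hB _ ⟨s, hs, rfl⟩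
    obtain ⟨s, v, v1, y, y1, h1, h2, S', hv, h3⟩ := hlocN (max B ‖z0‖ + 1) (by
      have := le_max_right B ‖z0‖
      linarith)
    rcases le_or_gt s τ with h4 | h4
    · have h5 := str_unique huni Fr hν hτ0 h1 h4 continuousOn_const S S' (hv.trans hu.symm)
        s ⟨h1.le, le_rfl⟩
      have h6 : z s = y s := by
        have k1 := S.mem s ⟨h1.le, h4⟩
        have k2 := S'.mem s ⟨h1.le, le_rfl⟩
        rw [h5] at k1
        exact grad_unique Fr k1 k2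
      have h7 := hB' s ⟨h1.le, h4⟩
      rw [h6] at h7
      have := le_max_left B ‖z0‖
      linarith
    · have h5 : s ∈ I := ⟨h1, v, v1, y, y1, S', hv⟩
      have := le_csSup hbdd h5
      linarith
  have hex : ∀ t ∈ Ioo 0 τ, ∃ (u u1 : ℝ → H) (z z1 : ℝ → K),
      Str W m ν t (fun _ => 0) u u1 z z1 ∧ u 0 = x0 := fun t ht => (hlt t ht.1 ht.2).2
  obtain ⟨v, hv0, hv⟩ := glue_all huni Fr hν (I := Ioo 0 τ) (fun t ht => ht.1)
    (fun t ht => continuousOn_const) hex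
  refine ⟨τ, v, hτ0, hτT, hv0, hv, ?_, ?_⟩
  · intro N
    obtain ⟨s, u, u1, z, z1, h1, h2, S, hu, h3⟩ := hlocN (max N ‖z0‖ + 1) (by
      have := le_max_right N ‖z0‖
      linarith)
    have hsI : s ∈ I := ⟨h1, u, u1, z, z1, S, hu⟩
    have hsτ : s < τ := lt_of_le_of_ne (le_csSup hbdd hsI) fun h => hτI (h ▸ hsI)
    refine ⟨s, ⟨h1, hsτ⟩, ?_⟩
    have h5 := str_unique huni Fr hν h1 h1 le_rfl continuousOn_const S (hv s ⟨h1, hsτ⟩)
      (hv0.trans hu.symm) s ⟨h1.le, le_rfl⟩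
    have h6 : gz W v s = z s := gz_eq Fr (by
      rw [← h5]
      exact S.mem s ⟨h1.le, le_rfl⟩)
    rw [h6]
    have := le_max_left N ‖z0‖
    linarith
  · intro t ht u u1 z z1 S hu
    exact hτI (hIdown τ t hτ0 ht ⟨hτ0.trans_le ht, u, u1, z, z1, S, hu⟩)

end

end Pool.Agent.T2H10
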