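import Pool.Agent.T2H10.Ode

/-!
The chain of modes: definition, positivity and the energy of the tail.
-/

set_option autoImplicit false
set_option maxHeartbeats 1000000

open Set Filter Topology

namespace Pool.Agent.T2H10

/-- The strength of the coupling. -/
noncomputable def kap (n : ℕ) : ℝ := 32 ^ n

noncomputable def LL : ℝ := 100000

noncomputable def Lam (n : ℕ) : ℝ := LL * ((n : ℝ) + 1) ^ 2

/-- The size of the seeds. -/
noncomputable def gg (n : ℕ) : ℝ := Real.exp (-Lam n)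

/-- The threshold. -/
noncomputable def bet (n : ℕ) : ℝ := Real.exp (-Lam n / 2)

noncomputable def TT : ℝ := 3 * LL

noncomputable def epsv : ℝ := 1 / 10 ^ 26

/-- The momentum received from the previous mode. -/
noncomputable def feed (b : ℕ → ℝ → ℝ) : ℕ → ℝ → ℝ
  | 0, _ => 0
  | n + 1, t => kap n * b n t ^ 2

/-- The chain on the time interval `[0, TT]`. -/
structure Chain (a b : ℕ → ℝ → ℝ) (e f : ℕ → ℝ) (γ : ℕ → ℝ → ℝ) (K : ℝ) : Prop where
  e0 : ∀ n, 0 ≤ e n
  e1 : ∀ n, e n ≤ epsv * 16 ^ n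
  f0 : ∀ n, 0 ≤ f n
  f1 : ∀ n, f n ≤ epsv * 16 ^ n
  da : ∀ n, ∀ t ∈ Icc 0 TT, HasDerivWithinAt (a n)
    (-(e n) * a n t - kap n * b n t ^ 2 + feed b n t) (Icc 0 TT) t
  db : ∀ n, ∀ t ∈ Icc 0 TT, HasDerivWithinAt (b n)
    (-(f n) * b n t + kap n * b n t * (a n t - a (n + 1) t) + γ n t) (Icc 0 TT) t
  g0 : ∀ n, ∀ t ∈ Icc 0 TT, gg n ≤ γ n t
  g1 : ∀ n, ∀ t ∈ Icc 0 TT, γ n t ≤ 16 * gg n
  en : ∀ n, ∀ t ∈ Icc 0 TT, a n t ^ 2 + b n t ^ 2 + a (n + 1) t ^ 2 + b (n + 1) t ^ 2
    + a (n + 2) t ^ 2 ≤ 1 + 1 / 10 ^ 6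
  ra : ∀ n, ∀ t ∈ Icc 0 TT, |a n t| * 4 ^ n ≤ K
  rb : ∀ n, ∀ t ∈ Icc 0 TT, |b n t| * 4 ^ n ≤ K
  a0 : a 0 0 = 1
  a1 : ∀ n, a (n + 1) 0 = 0
  b0 : b 0 0 = bet 0
  b1 : ∀ n, b (n + 1) 0 = 0

theorem kap_pos (n : ℕ) : 0 < kap n := by unfold kap; positivity

theorem gg_pos (n : ℕ) : 0 < gg n := Real.exp_pos _

theorem bet_pos (n : ℕ) : 0 < bet n := Real.exp_pos _

theorem TT_pos : 0 < TT := by unfold TT LL; norm_num

theorem kap_succ (n : ℕ) : kap (n + 1) = 32 * kap n := by unfold kap; ring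

theorem one_le_kap (n : ℕ) : 1 ≤ kap n := one_le_pow₀ (by norm_num)

theorem gg_half (n : ℕ) : gg (n + 1) ≤ gg n / 2 := by
  unfold gg
  have h : Real.exp (-Lam (n + 1)) = Real.exp (-Lam n) * Real.exp (-(Lam (n + 1) - Lam n)) := by
    rw [← Real.exp_add]; ring_nf
  rw [h]
  have h2 : 1 ≤ Lam (n + 1) - Lam n := by
    unfold Lam LL
    push_cast
    have : (0 : ℝ) ≤ n := Nat.cast_nonneg n
    nlinarith
  have h3 : Real.exp (-(Lam (n + 1) - Lam n)) ≤ 1 / 2 := by
    calc Real.exp (-(Lam (n + 1) - Lam n)) ≤ Real.exp (-1) := by gcongr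
      _ ≤ 1 / 2 := by
        rw [Real.exp_neg, ← one_div]
        apply one_div_le_one_div_of_le (by norm_num)
        have := Real.add_one_le_exp (1 : ℝ)
        linarith
  have := Real.exp_pos (-Lam n)
  nlinarith

theorem sum_gg (n m : ℕ) : ∑ k ∈ Finset.range m, 16 * gg (n + k) ≤ 32 * gg n := by
  have h : ∀ m, ∑ k ∈ Finset.range m, 16 * gg (n + k) ≤ 32 * gg n - 32 * gg (n + m) := by
    intro m
    induction m with
    | zero => simp
    | succ m ih =>
      rw [Finset.sum_range_succ]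
      have := gg_half (n + m)
      have e : n + (m + 1) = n + m + 1 := by ring
      rw [e]
      linarith
  have := h m
  have := gg_pos (n + m)
  linarith

variable {a b : ℕ → ℝ → ℝ} {e f : ℕ → ℝ} {γ : ℕ → ℝ → ℝ} {K : ℝ}

theorem Chain.ba (C : Chain a b e f γ K) (n : ℕ) {t : ℝ} (ht : t ∈ Icc 0 TT) :
    |a n t| ≤ 101 / 100 := by
  have h := C.en n t ht
  rw [abs_le]
  constructor <;> nlinarith [sq_nonneg (b n t), sq_nonneg (a (n + 1) t), sq_nonneg (b (n + 1) t),
    sq_nonneg (a (n + 2) t)]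

theorem Chain.bb (C : Chain a b e f γ K) (n : ℕ) {t : ℝ} (ht : t ∈ Icc 0 TT) :
    |b n t| ≤ 101 / 100 := by
  have h := C.en n t ht
  rw [abs_le]
  constructor <;> nlinarith [sq_nonneg (a n t), sq_nonneg (a (n + 1) t), sq_nonneg (b (n + 1) t),
    sq_nonneg (a (n + 2) t)]

theorem f_le (C : Chain a b e f γ K) (n : ℕ) : f n ≤ kap n / 10 := by
  have h := C.f1 n
  have h1 : (16 : ℝ) ^ n ≤ 32 ^ n := by gcongr; norm_num
  unfold epsv at h
  unfold kap
  have h2 : (0 : ℝ) < 16 ^ n := by positivity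
  nlinarith

/-- The rate in the equation of `b n` is bounded. -/
theorem Chain.rate (C : Chain a b e f γ K) (n : ℕ) {t : ℝ} (ht : t ∈ Icc 0 TT) :
    |-(f n) + kap n * (a n t - a (n + 1) t)| ≤ 5 * kap n := by
  have h1 := f_le C n
  have h2 := C.f0 n
  have h3 := abs_le.mp (C.ba n ht)
  have h4 := abs_le.mp (C.ba (n + 1) ht)
  have h5 := kap_pos n
  rw [abs_le]
  constructor <;> nlinarith [h3.1, h3.2, h4.1, h4.2]

theorem Chain.b_nonneg (C : Chain a b e f γ K) (n : ℕ) : ∀ t ∈ Icc 0 TT, 0 ≤ b n t := by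
  refine nonneg_of_deriv (R := 5 * kap n) (C.db n) (fun t ht h => ?_)
    (by have := kap_pos n; positivity) ?_
  · have h1 := abs_le.mp (C.rate n ht)
    have h2 := C.g0 n t ht
    have h3 := gg_pos n
    have h4 : -(f n) * b n t + kap n * b n t * (a n t - a (n + 1) t)
        = (-(f n) + kap n * (a n t - a (n + 1) t)) * b n t := by ring
    nlinarith [h1.2]
  · cases n with
    | zero => rw [C.b0]; exact (bet_pos 0).le
    | succ n => rw [C.b1]

/-- The floor of `b n`. -/
theorem Chain.floor (C : Chain a b e f γ K) (n : ℕ) {t : ℝ} (ht : t ∈ Icc 0 TT)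
    (ht1 : 1 ≤ kap n * t) : gg n / (10 * kap n) ≤ b n t := by
  have hk := kap_pos n
  have h := gron_floor (f := b n) (a := 0) (b := t) (R := 5 * kap n) (g := gg n) ht.1
    (by positivity) (deriv_mono (C.db n) le_rfl ht.2) (fun u hu => by
      have hu' : u ∈ Icc 0 TT := ⟨hu.1, hu.2.trans ht.2⟩
      have h1 := abs_le.mp (C.rate n hu')
      have h2 := C.g0 n u hu'
      have h3 := C.b_nonneg n u hu'
      have h4 : -(f n) * b n u + kap n * b n u * (a n u - a (n + 1) u)
        = (-(f n) + kap n * (a n u - a (n + 1) u)) * b n u := by ring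
      nlinarith [h1.1]) (C.b_nonneg n 0 ⟨le_rfl, TT_pos.le⟩)
  have h5 : Real.exp (-(5 * kap n) * (t - 0)) ≤ 1 / 2 := by
    calc Real.exp (-(5 * kap n) * (t - 0)) ≤ Real.exp (-1) := by
          gcongr; nlinarith
      _ ≤ 1 / 2 := by
        rw [Real.exp_neg, ← one_div]
        apply one_div_le_one_div_of_le (by norm_num)
        have := Real.add_one_le_exp (1 : ℝ)
        linarith
  have h6 : gg n / (5 * kap n) * (1 / 2) ≤ gg n / (5 * kap n)
      * (1 - Real.exp (-(5 * kap n) * (t - 0))) := by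
    have := gg_pos n
    gcongr
    linarith
  have h7 : gg n / (5 * kap n) * (1 / 2) = gg n / (10 * kap n) := by
    field_simp
    ring
  linarith

/-- The energy of a block. -/
noncomputable def blockE (a b : ℕ → ℝ → ℝ) (n m : ℕ) (t : ℝ) : ℝ :=
  ∑ k ∈ Finset.range m, (a (n + 1 + k) t ^ 2 + b (n + 1 + k) t ^ 2)

/-- The derivative of the energy of a block. -/
theorem Chain.dblock (C : Chain a b e f γ K) (n m : ℕ) : ∀ t ∈ Icc 0 TT,
    HasDerivWithinAt (blockE a b n m)
      (2 * kap n * b n t ^ 2 * a (n + 1) t - 2 * kap (n + m) * b (n + m) t ^ 2 * a (n + m + 1) t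
        + ∑ k ∈ Finset.range m, (-2 * e (n + 1 + k) * a (n + 1 + k) t ^ 2
          - 2 * f (n + 1 + k) * b (n + 1 + k) t ^ 2 + 2 * γ (n + 1 + k) t * b (n + 1 + k) t))
      (Icc 0 TT) t := by
  intro t ht
  induction m with
  | zero =>
    have : blockE a b n 0 = fun _ => 0 := by
      funext t; simp [blockE]
    rw [this]
    refine (hasDerivWithinAt_const t (Icc 0 TT) (0 : ℝ)).congr_deriv ?_
    simp
  | succ m ih =>
    have h1 : blockE a b n (m + 1) = fun t => blockE a b n m t
        + (a (n + 1 + m) t ^ 2 + b (n + 1 + m) t ^ 2) := by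
      funext t; simp [blockE, Finset.sum_range_succ]
    rw [h1]
    have e1 : n + 1 + m = (n + m) + 1 := by ring
    have h2 := ((C.da (n + 1 + m) t ht).pow 2).add ((C.db (n + 1 + m) t ht).pow 2)
    have h3 : feed b (n + 1 + m) t = kap (n + m) * b (n + m) t ^ 2 := by
      rw [e1]; rfl
    refine (ih.add h2).congr_deriv ?_
    rw [Finset.sum_range_succ, h3]
    have e2 : n + (m + 1) = n + m + 1 := by ring
    rw [e2, e1]
    simp only [Nat.cast_ofNat, Nat.add_one_sub_one, pow_one]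
    ring

theorem blockE_nonneg (n m : ℕ) (t : ℝ) : 0 ≤ blockE a b n m t :=
  Finset.sum_nonneg fun _ _ => by positivity

theorem sq_le_blockE (n m k : ℕ) (hk : k < m) (t : ℝ) :
    a (n + 1 + k) t ^ 2 + b (n + 1 + k) t ^ 2 ≤ blockE a b n m t :=
  Finset.single_le_sum (f := fun k => a (n + 1 + k) t ^ 2 + b (n + 1 + k) t ^ 2)
    (fun _ _ => by positivity) (Finset.mem_range.mpr hk)

/-- The bound of the tail before the threshold is reached. -/
noncomputable def tau (n : ℕ) : ℝ := TT * (kap n * bet n ^ 2 + 32 * gg (n + 1))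

theorem Chain.tail (C : Chain a b e f γ K) (n : ℕ) {te : ℝ} (hte : te ∈ Icc 0 TT)
    (hb : ∀ t ∈ Icc 0 te, b n t ≤ bet n) (k : ℕ) {t : ℝ} (ht : t ∈ Icc 0 te) :
    |a (n + 1 + k) t| ≤ tau n ∧ |b (n + 1 + k) t| ≤ tau n := by
  have hK : 0 ≤ K := by
    have := C.ra 0 0 ⟨le_rfl, TT_pos.le⟩
    rw [pow_zero, mul_one] at this
    exact (abs_nonneg _).trans this
  set p : ℝ := kap n * bet n ^ 2 + 32 * gg (n + 1) with hp
  have hp0 : 0 < p := by
    have := kap_pos n; have := bet_pos n; have := gg_pos (n + 1); positivity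
  have htT : t ∈ Icc 0 TT := ⟨ht.1, ht.2.trans hte.2⟩
  -- the main estimate
  have key : ∀ c : ℝ, 0 < c → ∀ m : ℕ, 0 < m → Real.sqrt (blockE a b n m t + c ^ 2)
      ≤ c + (p + K ^ 3 * (1 / 2) ^ m / c) * TT := by
    intro c hc m hm
    have hd : ∀ u ∈ Icc 0 t, HasDerivWithinAt (fun u => Real.sqrt (blockE a b n m u + c ^ 2))
        ((2 * kap n * b n u ^ 2 * a (n + 1) u
          - 2 * kap (n + m) * b (n + m) u ^ 2 * a (n + m + 1) u
        + ∑ k ∈ Finset.range m, (-2 * e (n + 1 + k) * a (n + 1 + k) u ^ 2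
          - 2 * f (n + 1 + k) * b (n + 1 + k) u ^ 2 + 2 * γ (n + 1 + k) u * b (n + 1 + k) u))
          / (2 * Real.sqrt (blockE a b n m u + c ^ 2))) (Icc 0 t) u := by
      intro u hu
      have h1 := (deriv_mono (C.dblock n m) le_rfl htT.2 u hu).add_const (c ^ 2)
      refine h1.sqrt ?_
      have := blockE_nonneg (a := a) (b := b) n m u
      positivity
    have h := mvt_up (C := p + K ^ 3 * (1 / 2) ^ m / c) ht.1 hd (fun u hu => by
      have huT : u ∈ Icc 0 TT := ⟨hu.1, hu.2.trans htT.2⟩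
      have hue : u ∈ Icc 0 te := ⟨hu.1, hu.2.trans ht.2⟩
      set F := Real.sqrt (blockE a b n m u + c ^ 2) with hF
      have hE := blockE_nonneg (a := a) (b := b) n m u
      have hFc : c ≤ F := by
        rw [hF]
        apply Real.le_sqrt_of_sq_le
        linarith
      have hF0 : 0 < F := lt_of_lt_of_le hc hFc
      have hFk : ∀ k < m, |a (n + 1 + k) u| ≤ F ∧ |b (n + 1 + k) u| ≤ F := by
        intro k hk
        have h1 := sq_le_blockE (a := a) (b := b) n m k hk u
        constructor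
        · rw [hF]
          apply Real.abs_le_sqrt
          nlinarith [sq_nonneg (b (n + 1 + k) u)]
        · rw [hF]
          apply Real.abs_le_sqrt
          nlinarith [sq_nonneg (a (n + 1 + k) u)]
      rw [div_le_iff₀ (by positivity)]
      -- the flux at the end
      have hflux : |2 * kap (n + m) * b (n + m) u ^ 2 * a (n + m + 1) u|
          ≤ 2 * (K ^ 3 * (1 / 2) ^ m) := by
        have h1 := C.rb (n + m) u huT
        have h2 := C.ra (n + m + 1) u huT
        have h3 : |b (n + m) u| ≤ K / 4 ^ (n + m) := by rw [le_div_iff₀ (by positivity)]; exact h1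
        have h4 : |a (n + m + 1) u| ≤ K / 4 ^ (n + m + 1) := by
          rw [le_div_iff₀ (by positivity)]; exact h2
        have hk := kap_pos (n + m)
        rw [abs_mul, abs_mul, abs_of_pos (by positivity : 0 < 2 * kap (n + m)),
          abs_of_nonneg (sq_nonneg (b (n + m) u)), ← sq_abs]
        calc 2 * kap (n + m) * |b (n + m) u| ^ 2 * |a (n + m + 1) u|
            ≤ 2 * kap (n + m) * (K / 4 ^ (n + m)) ^ 2 * (K / 4 ^ (n + m + 1)) := by gcongr
          _ = 2 * (K ^ 3 * ((1 / 2) ^ (n + m) / 4)) := by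
            unfold kap
            have h32 : (32 : ℝ) ^ (n + m) = (4 ^ (n + m)) ^ 2 * 2 ^ (n + m) := by
              rw [← pow_mul, mul_comm (n + m) 2, pow_mul, ← mul_pow]; norm_num
            have h4' : (4 : ℝ) ^ (n + m) = 2 ^ (n + m) * 2 ^ (n + m) := by
              rw [← mul_pow]; norm_num
            rw [h32, pow_succ (4 : ℝ), one_div_pow]
            field_simp
            rw [h4']
            ring
          _ ≤ 2 * (K ^ 3 * (1 / 2) ^ m) := by
            have h5 : ((1 : ℝ) / 2) ^ (n + m) ≤ (1 / 2) ^ m :=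
              pow_le_pow_of_le_one (by norm_num) (by norm_num) (by omega)
            have h6 : (0 : ℝ) < (1 / 2) ^ (n + m) := by positivity
            gcongr
            linarith
      have hflux' := (abs_le.mp hflux).1
      -- the input
      have hin : 2 * kap n * b n u ^ 2 * a (n + 1) u ≤ 2 * (kap n * bet n ^ 2) * F := by
        have h0 := C.b_nonneg n u huT
        have h1 := hb u hue
        have h2 : b n u ^ 2 ≤ bet n ^ 2 := by gcongr
        have hk := kap_pos n
        have h3 := (hFk 0 hm).1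
        rw [Nat.add_zero] at h3
        calc 2 * kap n * b n u ^ 2 * a (n + 1) u ≤ 2 * kap n * b n u ^ 2 * F := by
              gcongr
              exact (le_abs_self _).trans h3
          _ ≤ 2 * kap n * bet n ^ 2 * F := by gcongr
          _ = _ := by ring
      have hsum : ∑ k ∈ Finset.range m, (-2 * e (n + 1 + k) * a (n + 1 + k) u ^ 2
          - 2 * f (n + 1 + k) * b (n + 1 + k) u ^ 2 + 2 * γ (n + 1 + k) u * b (n + 1 + k) u)
          ≤ 2 * (32 * gg (n + 1)) * F := by
        calc _ ≤ ∑ k ∈ Finset.range m, (2 * F) * (16 * gg (n + 1 + k)) := by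
              refine Finset.sum_le_sum fun k hk => ?_
              have hk' := Finset.mem_range.mp hk
              have h1 := (hFk k hk').2
              have h2 := C.b_nonneg (n + 1 + k) u huT
              have h3 := C.g1 (n + 1 + k) u huT
              have h4 := C.e0 (n + 1 + k)
              have h5 := C.f0 (n + 1 + k)
              rw [abs_of_nonneg h2] at h1
              have h6 : γ (n + 1 + k) u * b (n + 1 + k) u ≤ 16 * gg (n + 1 + k) * F := by
                have := gg_pos (n + 1 + k)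
                calc _ ≤ 16 * gg (n + 1 + k) * b (n + 1 + k) u := by gcongr
                  _ ≤ _ := by gcongr
              nlinarith [mul_nonneg h4 (sq_nonneg (a (n + 1 + k) u)),
                mul_nonneg h5 (sq_nonneg (b (n + 1 + k) u))]
          _ = (2 * F) * ∑ k ∈ Finset.range m, 16 * gg (n + 1 + k) := by rw [Finset.mul_sum]
          _ ≤ (2 * F) * (32 * gg (n + 1)) := by
              gcongr
              exact sum_gg (n + 1) m
          _ = _ := by ring
      have hlast : 2 * (K ^ 3 * (1 / 2) ^ m) ≤ K ^ 3 * (1 / 2) ^ m / c * (2 * F) := by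
        have h1 : 0 ≤ K ^ 3 * (1 / 2) ^ m := by positivity
        calc 2 * (K ^ 3 * (1 / 2) ^ m) = K ^ 3 * (1 / 2) ^ m / c * (2 * c) := by
              field_simp
          _ ≤ _ := by gcongr
      nlinarith)
    have h0 : blockE a b n m 0 = 0 := by
      unfold blockE
      refine Finset.sum_eq_zero fun k _ => ?_
      have e1 : n + 1 + k = (n + k) + 1 := by ring
      rw [e1, C.a1, C.b1]
      ring
    rw [h0, zero_add, Real.sqrt_sq hc.le] at h
    refine h.trans ?_
    have h1 : 0 ≤ p + K ^ 3 * (1 / 2) ^ m / c := by positivity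
    have h2 : t - 0 ≤ TT := by linarith [htT.2]
    gcongr
  -- the limit
  have lim : ∀ δ : ℝ, 0 < δ → ∃ c : ℝ, 0 < c ∧ ∃ m : ℕ, k < m ∧
      c + (p + K ^ 3 * (1 / 2) ^ m / c) * TT ≤ tau n + δ := by
    intro δ hδ
    have hT := TT_pos
    refine ⟨δ / 2, by positivity, ?_⟩
    have h1 : Tendsto (fun m : ℕ => K ^ 3 * (1 / 2 : ℝ) ^ m / (δ / 2) * TT) atTop (𝓝 0) := by
      have h2 : Tendsto (fun m : ℕ => (1 / 2 : ℝ) ^ m) atTop (𝓝 0) :=
        tendsto_pow_atTop_nhds_zero_of_lt_one (by norm_num) (by norm_num)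
      have h3 := ((h2.const_mul (K ^ 3)).div_const (δ / 2)).mul_const TT
      simpa using h3
    have h2 : ∀ᶠ m : ℕ in atTop, K ^ 3 * (1 / 2 : ℝ) ^ m / (δ / 2) * TT < δ / 2 :=
      h1.eventually_lt_const (by positivity)
    obtain ⟨m, hm1, hm2⟩ := (h2.and (eventually_gt_atTop k)).exists
    refine ⟨m, hm2, ?_⟩
    have : tau n = TT * p := rfl
    rw [this]
    nlinarith
  constructor
  · refine le_of_forall_pos_le_add fun δ hδ => ?_
    obtain ⟨c, hc, m, hkm, h1⟩ := lim δ hδ
    refine le_trans ?_ ((key c hc m (by omega)).trans h1)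
    apply Real.abs_le_sqrt
    have h2 := sq_le_blockE (a := a) (b := b) n m k hkm t
    nlinarith [sq_nonneg (b (n + 1 + k) t), sq_nonneg c]
  · refine le_of_forall_pos_le_add fun δ hδ => ?_
    obtain ⟨c, hc, m, hkm, h1⟩ := lim δ hδ
    refine le_trans ?_ ((key c hc m (by omega)).trans h1)
    apply Real.abs_le_sqrt
    have h2 := sq_le_blockE (a := a) (b := b) n m k hkm t
    nlinarith [sq_nonneg (a (n + 1 + k) t), sq_nonneg c]

end Pool.Agent.T2H10
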