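import Pool.Agent.T2H10.Quad

/-!
The quadratic term on the closed subspace spanned by the fields of a cradle.
-/

set_option autoImplicit false
set_option linter.unusedSectionVars false
set_option maxHeartbeats 1000000

open MeasureTheory Set Filter Topology
open scoped InnerProductSpace ENNReal ContDiff NNReal

namespace Pool.Agent.T2H10

open H772R2.NS

variable {Ω : Set E3} {v : Md → E3 → E3} {k0 NP NS NZ w : ℝ}

theorem set_eq_univ_of_test {Ω : Set E3} {f : E3 → ℝ} (hf : ∀ x, x ∉ Ω → f x = 0) :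
    ∫ x in Ω, f x = ∫ x, f x := setIntegral_eq_integral_of_forall_compl_eq_zero hf

theorem off_test {φ : E3 → E3} (h : IsTest Ω φ) {x : E3} (hx : x ∉ Ω) :
    φ x = 0 ∧ jac φ x = 0 :=
  ⟨image_eq_zero_of_notMem_tsupport fun k => hx (h.supp k),
    image_eq_zero_of_notMem_tsupport fun k => hx (h.supp (tsupport_jac_subset k))⟩

theorem inner_il2 {φ ψ : E3 → E3} (hψ : IsTest Ω ψ) {p q : L2V Ω}
    (hp : p =ᵐ[volume.restrict Ω] φ) (hq : q =ᵐ[volume.restrict Ω] ψ) :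
    ⟪p, q⟫_ℝ = il2 φ ψ := by
  rw [L2.inner_def]
  have e : ∫ x in Ω, ⟪p x, q x⟫_ℝ = ∫ x in Ω, ∑ i, φ x i * ψ x i := by
    refine integral_congr_ae ?_
    filter_upwards [hp, hq] with x a b
    rw [a, b, inner_E3]
  rw [e]
  refine set_eq_univ_of_test fun x hx => ?_
  simp [(off_test hψ hx).1]

theorem inner_ih1 {φ ψ : E3 → E3} (hψ : IsTest Ω ψ) {p q : L2M Ω}
    (hp : p =ᵐ[volume.restrict Ω] jac φ) (hq : q =ᵐ[volume.restrict Ω] jac ψ) :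
    ⟪p, q⟫_ℝ = ih1 φ ψ := by
  rw [L2.inner_def]
  have e : ∫ x in Ω, ⟪p x, q x⟫_ℝ = ∫ x in Ω, ∑ i, ∑ j, jac φ x (i, j) * jac ψ x (i, j) := by
    refine integral_congr_ae ?_
    filter_upwards [hp, hq] with x a b
    rw [a, b, inner_M3]
  rw [e]
  refine set_eq_univ_of_test fun x hx => ?_
  simp [(off_test hψ hx).2]

theorem inner_tri (hΩ : IsOpen Ω) {φ ψ : E3 → E3} (hψ : IsTest Ω ψ) {p : L2V Ω × L2M Ω}
    {q : L2M Ω} (hpW : p ∈ graphW Ω)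
    (hp : p.1 =ᵐ[volume.restrict Ω] φ) (hq : q =ᵐ[volume.restrict Ω] jac ψ) :
    ⟪tensL p.1, q⟫_ℝ = itri φ φ ψ := by
  rw [L2.inner_def]
  have e : ∫ x in Ω, ⟪(tensL p.1) x, q x⟫_ℝ
      = ∫ x in Ω, ∑ i, ∑ j, φ x i * φ x j * jac ψ x (i, j) := by
    refine integral_congr_ae ?_
    filter_upwards [hp, hq, tensL_coe hΩ.measurableSet hpW] with x a b c
    rw [b, c, a, inner_M3]
    rfl
  rw [e]
  refine set_eq_univ_of_test fun x hx => ?_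
  simp [(off_test hψ hx).2]

/-- the classes of the fields -/
structure Cls (Ω : Set E3) (v : Md → E3 → E3) (V : Md → L2V Ω) (J : Md → L2M Ω) : Prop where
  V : ∀ i, V i =ᵐ[volume.restrict Ω] v i
  J : ∀ i, J i =ᵐ[volume.restrict Ω] jac (v i)

theorem exists_cls (C : Crad Ω v k0 NP NS NZ w) : ∃ V J, Cls Ω v V J := by
  have h : ∀ i, ∃ p : L2V Ω × L2M Ω, p.1 =ᵐ[volume.restrict Ω] v i ∧
      p.2 =ᵐ[volume.restrict Ω] jac (v i) := by
    intro i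
    have h1 : MemLp (v i) 2 (volume.restrict Ω) := ((C.test i).memLp 2).restrict _
    have h2 : MemLp (jac (v i)) 2 (volume.restrict Ω) := ((C.test i).jac_memLp 2).restrict _
    exact ⟨(h1.toLp _, h2.toLp _), h1.coeFn_toLp, h2.coeFn_toLp⟩
  choose p hp using h
  exact ⟨fun i => (p i).1, fun i => (p i).2, fun i => (hp i).1, fun i => (hp i).2⟩

/-- the span of the fields -/
abbrev Dv (v : Md → E3 → E3) : Submodule ℝ (E3 → E3) := Submodule.span ℝ (range v)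

variable {V : Md → L2V Ω} {J : Md → L2M Ω}

theorem Crad.hD (C : Crad Ω v k0 NP NS NZ w) : ∀ φ ∈ Dv v, IsTest Ω φ := fun _ h => C.test_span h

theorem Cls.mem (K : Cls Ω v V J) (C : Crad Ω v k0 NP NS NZ w) (i : Md) :
    (V i, J i) ∈ preS Ω (Dv v) C.hD := ⟨v i, Submodule.subset_span ⟨i, rfl⟩, K.V i, K.J i⟩

theorem Cls.memS (K : Cls Ω v V J) (C : Crad Ω v k0 NP NS NZ w) (i : Md) :
    (V i, J i) ∈ clS Ω (Dv v) C.hD := preS_le_clS (K.mem C i)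

theorem Cls.gram (K : Cls Ω v V J) (C : Crad Ω v k0 NP NS NZ w) (i j : Md) :
    ⟪V i, V j⟫_ℝ = if i = j then nrm w i else 0 := by
  rw [inner_il2 (C.test j) (K.V i) (K.V j), C.gram]

theorem Cls.gramh (K : Cls Ω v V J) (C : Crad Ω v k0 NP NS NZ w) (i j : Md) :
    ⟪J i, J j⟫_ℝ = if i = j then grd NP NS NZ i else 0 := by
  rw [inner_ih1 (C.test j) (K.J i) (K.J j), C.gramh]

theorem cont_tl (hΩ : IsOpen Ω) (q : L2M Ω) :
    ContinuousOn (fun p : L2V Ω × L2M Ω => ⟪tensL p.1, q⟫_ℝ)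
      (graphW Ω : Set (L2V Ω × L2M Ω)) :=
  (tensL_continuousOn hΩ.measurableSet).inner continuousOn_const

theorem cont_x (q : L2V Ω) : ContinuousOn (fun p : L2V Ω × L2M Ω => ⟪p.1, q⟫_ℝ)
    (graphW Ω : Set (L2V Ω × L2M Ω)) := (continuous_fst.inner continuous_const).continuousOn

theorem Cls.cH (K : Cls Ω v V J) (C : Crad Ω v k0 NP NS NZ w) (i : Md)
    {p : L2V Ω × L2M Ω} (hp : p ∈ clS Ω (Dv v) C.hD) :
    ⟪p.2, J i⟫_ℝ = grd NP NS NZ i / nrm w i * ⟪p.1, V i⟫_ℝ := by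
  have := clS_induction (D := Dv v) (hD := C.hD)
    (fun p => ⟪p.2, J i⟫_ℝ - grd NP NS NZ i / nrm w i * ⟪p.1, V i⟫_ℝ) (by fun_prop) (by
      rintro q ⟨φ, h1, h2, h3⟩
      rw [inner_ih1 (C.test i) h3 (K.J i), inner_il2 (C.test i) h2 (K.V i), C.quadH i h1, sub_self])
      hp
  linarith

theorem Cls.cP (K : Cls Ω v V J) (C : Crad Ω v k0 NP NS NZ w) (hΩ : IsOpen Ω) (m : ℕ)
    {p : L2V Ω × L2M Ω} (hp : p ∈ clS Ω (Dv v) C.hD) :
    ⟪tensL p.1, J (.P m)⟫_ℝ = -(k0 * 32 ^ m) * ⟪p.1, V (.S m)⟫_ℝ ^ 2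
      + fd k0 (fun n => ⟪p.1, V (.S n)⟫_ℝ ^ 2) m := by
  have := clS_induction (D := Dv v) (hD := C.hD)
    (fun p => ⟪tensL p.1, J (.P m)⟫_ℝ - (-(k0 * 32 ^ m) * ⟪p.1, V (.S m)⟫_ℝ ^ 2
      + fd k0 (fun n => ⟪p.1, V (.S n)⟫_ℝ ^ 2) m)) (by
      refine (cont_tl hΩ _).sub ((continuousOn_const.mul ((cont_x _).pow 2)).add ?_)
      cases m with
      | zero => exact continuousOn_const
      | succ m => exact continuousOn_const.mul ((cont_x _).pow 2)) (by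
      rintro q hq
      obtain ⟨φ, h1, h2, h3⟩ := id hq
      have e : ∀ i, ⟪q.1, V i⟫_ℝ = il2 φ (v i) := fun i => inner_il2 (C.test i) h2 (K.V i)
      rw [inner_tri hΩ (C.test _) (clS_le (preS_le_clS hq)) h2 (K.J _)]
      simp only [e]
      rw [C.quadP m h1, sub_self]) hp
  linarith

theorem Cls.cS (K : Cls Ω v V J) (C : Crad Ω v k0 NP NS NZ w) (hΩ : IsOpen Ω) (m : ℕ)
    {p : L2V Ω × L2M Ω} (hp : p ∈ clS Ω (Dv v) C.hD) :
    ⟪tensL p.1, J (.S m)⟫_ℝ = k0 * 32 ^ m * ⟪p.1, V (.S m)⟫_ℝ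
      * (⟪p.1, V (.P m)⟫_ℝ - ⟪p.1, V (.P (m + 1))⟫_ℝ)
      + 4 * k0 * gg m * (⟪p.1, V .Z⟫_ℝ / w) ^ 2 := by
  have := clS_induction (D := Dv v) (hD := C.hD)
    (fun p => ⟪tensL p.1, J (.S m)⟫_ℝ - (k0 * 32 ^ m * ⟪p.1, V (.S m)⟫_ℝ
      * (⟪p.1, V (.P m)⟫_ℝ - ⟪p.1, V (.P (m + 1))⟫_ℝ)
      + 4 * k0 * gg m * (⟪p.1, V .Z⟫_ℝ / w) ^ 2)) (by
      refine (cont_tl hΩ _).sub (((continuousOn_const.mul (cont_x _)).mul
        ((cont_x _).sub (cont_x _))).add (continuousOn_const.mul (((cont_x _).div_const _).pow 2))))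
      (by
      rintro q hq
      obtain ⟨φ, h1, h2, h3⟩ := id hq
      have e : ∀ i, ⟪q.1, V i⟫_ℝ = il2 φ (v i) := fun i => inner_il2 (C.test i) h2 (K.V i)
      rw [inner_tri hΩ (C.test _) (clS_le (preS_le_clS hq)) h2 (K.J _)]
      simp only [e]
      rw [C.quadS m h1, sub_self]) hp
  linarith

theorem Cls.cZ (K : Cls Ω v V J) (C : Crad Ω v k0 NP NS NZ w) (hΩ : IsOpen Ω)
    {p : L2V Ω × L2M Ω} (hp : p ∈ clS Ω (Dv v) C.hD) :
    |⟪tensL p.1, J .Z⟫_ℝ| ≤ 8 * k0 * gg 0 * ‖p.1‖ * |⟪p.1, V .Z⟫_ℝ / w| := by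
  have hk := C.hk0
  refine clS_induction_le (D := Dv v) (hD := C.hD) (fun p => |⟪tensL p.1, J .Z⟫_ℝ|)
    (fun p => 8 * k0 * gg 0 * ‖p.1‖ * |⟪p.1, V .Z⟫_ℝ / w|) (cont_tl hΩ _).abs
    ((continuousOn_const.mul continuous_fst.norm.continuousOn).mul
      ((cont_x _).div_const _).abs) ?_ hp
  rintro q hq
  obtain ⟨φ, h1, h2, h3⟩ := id hq
  have e : ∀ i, ⟪q.1, V i⟫_ℝ = il2 φ (v i) := fun i => inner_il2 (C.test i) h2 (K.V i)
  rw [inner_tri hΩ (C.test _) (clS_le (preS_le_clS hq)) h2 (K.J _), e]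
  obtain ⟨k1, k2⟩ := C.quadZ h1
  rw [k2, abs_mul, abs_mul]
  have hV : ∀ n, ‖V (.S n)‖ = 1 := by
    intro n
    have h4 : ‖V (.S n)‖ ^ 2 = 1 := by
      rw [← real_inner_self_eq_norm_sq, K.gram C, if_pos rfl]
      rfl
    have h5 := norm_nonneg (V (.S n))
    nlinarith
  have hb : ∀ n, ‖gg n * il2 φ (v (.S n))‖ ≤ gg n * ‖q.1‖ := by
    intro n
    rw [norm_mul, Real.norm_of_nonneg (gg_pos n).le, ← e]
    have := abs_real_inner_le_norm q.1 (V (.S n))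
    rw [hV, mul_one] at this
    exact mul_le_mul_of_nonneg_left this (gg_pos n).le
  have hs : Summable fun n => gg n * ‖q.1‖ := gg_summable.mul_right _
  have h6 : |∑' n, gg n * il2 φ (v (.S n))| ≤ 2 * gg 0 * ‖q.1‖ := by
    have h7 := tsum_of_norm_bounded hs.hasSum hb
    rw [Real.norm_eq_abs] at h7
    refine h7.trans ?_
    rw [tsum_mul_right]
    exact mul_le_mul_of_nonneg_right tsum_gg_le (norm_nonneg _)
  have h8 : |-(4 * k0)| = 4 * k0 := by rw [abs_neg, abs_of_pos (by positivity)]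
  rw [h8]
  have h9 : 4 * k0 * |∑' n, gg n * il2 φ (v (.S n))| ≤ 4 * k0 * (2 * gg 0 * ‖q.1‖) :=
    mul_le_mul_of_nonneg_left h6 (by positivity)
  calc 4 * k0 * |∑' n, gg n * il2 φ (v (.S n))| * |il2 φ (v .Z) / w|
      ≤ 4 * k0 * (2 * gg 0 * ‖q.1‖) * |il2 φ (v .Z) / w| :=
        mul_le_mul_of_nonneg_right h9 (abs_nonneg _)
    _ = _ := by ring

end Pool.Agent.T2H10
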