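import Mathlib
import Pool.Agent.H772R2.NS.Space1
import Pool.Agent.T2H10.Chain

/-!
The table of interactions of the fields `P n`, `S n`, `Z`.
-/

set_option maxHeartbeats 1000000

open MeasureTheory Set Filter Topology
open scoped InnerProductSpace ENNReal ContDiff NNReal

namespace Pool.Agent.T2H10

open H772R2.NS

/-- index set of the fields -/
inductive Md
  | P (n : ℕ)
  | S (n : ℕ)
  | Z
  deriving DecidableEq

/-- `∫ v · w` -/
noncomputable def il2 (v w : E3 → E3) : ℝ := ∫ x, ∑ i, v x i * w x i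

/-- `∫ ∇v : ∇w` -/
noncomputable def ih1 (v w : E3 → E3) : ℝ := ∫ x, ∑ i, ∑ j, jac v x (i, j) * jac w x (i, j)

/-- `∫ v · (w · ∇) φ` -/
noncomputable def itri (v w φ : E3 → E3) : ℝ := ∫ x, ∑ i, ∑ j, v x i * w x j * jac φ x (i, j)

/-- squares of the `L²` norms -/
def nrm (w : ℝ) : Md → ℝ
  | .P _ => 1
  | .S _ => 1
  | .Z => w

/-- squares of the `L²` norms of the gradients -/
def grd (NP NS NZ : ℝ) : Md → ℝ
  | .P n => NP * 16 ^ n
  | .S n => NS * 16 ^ n
  | .Z => NZ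

/-- the values of `∫ v · (w · ∇) φ` for `v, w, φ` among the fields -/
noncomputable def tab (k0 : ℝ) : Md → Md → Md → ℝ
  | .S n, .S m, .P k =>
      if n = m then (if k = n then -(k0 * 32 ^ n) else if k = n + 1 then k0 * 32 ^ n else 0) else 0
  | .P k, .S m, .S n =>
      if n = m then (if k = n then k0 * 32 ^ n else if k = n + 1 then -(k0 * 32 ^ n) else 0) else 0
  | .Z, .Z, .S n => 4 * k0 * gg n
  | .S n, .Z, .Z => -(4 * k0 * gg n)
  | _, _, _ => 0

/-- the conclusion of the geometric construction -/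
def Cradle (Ω : Set E3) : Prop :=
  ∃ (v : Md → E3 → E3) (k0 NP NS NZ w : ℝ), 0 < k0 ∧ 0 < NP ∧ 0 < NS ∧ 0 ≤ NZ ∧
    1 / 10 ^ 9 ≤ w ∧ w ≤ 5 / 10 ^ 7 ∧ (∀ i, IsTest Ω (v i)) ∧
    (∀ i j, il2 (v i) (v j) = if i = j then nrm w i else 0) ∧
    (∀ i j, ih1 (v i) (v j) = if i = j then grd NP NS NZ i else 0) ∧
    ∀ i j k, itri (v i) (v j) (v k) = tab k0 i j k

end Pool.Agent.T2H10
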