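import Pool.Agent.T2H10.Sub

/-!
The energy equality for strong solutions of the restricted equations.
-/

set_option autoImplicit false
set_option linter.unusedSectionVars false
set_option maxHeartbeats 1000000

open MeasureTheory Set Filter Topology
open scoped InnerProductSpace ENNReal ContDiff NNReal

namespace Pool.Agent.T2H10

open Pool.Agent.W795.TQ
open H772R2.NSR (Frame prim_cont ae_deriv_of_prim memLp_ii)
open H772R2.NSG (by_parts)

section

variable {Y : Type} [NormedAddCommGroup Y] [InnerProductSpace ℝ Y] [CompleteSpace Y]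

theorem int_inner_const {f : ℝ → Y} {t : ℝ} (ht : 0 ≤ t)
    (hf : Integrable f (volume.restrict (Ioc 0 t))) (q : Y) :
    ∫ s in (0 : ℝ)..t, ⟪f s, q⟫_ℝ = ⟪∫ s in (0 : ℝ)..t, f s, q⟫_ℝ := by
  rw [intervalIntegral.integral_of_le ht, intervalIntegral.integral_of_le ht]
  have := integral_inner (𝕜 := ℝ) hf q
  rw [real_inner_comm, ← this]
  exact integral_congr_ae (Eventually.of_forall fun s => real_inner_comm _ _)

theorem norm_sq_prim {T : ℝ} {u u1 : ℝ → Y} (hu1 : MemLp u1 2 (volume.restrict (Ioc 0 T)))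
    (hpu : ∀ a b, 0 ≤ a → a ≤ b → b ≤ T → u b - u a = ∫ s in a..b, u1 s) {t : ℝ}
    (ht : t ∈ Icc 0 T) : ‖u t‖ ^ 2 - ‖u 0‖ ^ 2 = 2 * ∫ s in (0 : ℝ)..t, ⟪u1 s, u s⟫_ℝ := by
  have huc : ContinuousOn u (Icc 0 T) := prim_cont hu1 hpu
  have hi : Integrable u1 (volume.restrict (Ioc 0 T)) := hu1.integrable (by norm_num)
  have hi' : Integrable u1 (volume.restrict (Ioc 0 t)) :=
    hi.mono_measure (Measure.restrict_mono (Ioc_subset_Ioc_right ht.2) le_rfl)
  have h1 := by_parts hi hi hpu huc ht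
  rw [int_inner_const ht.1 hi', ← hpu 0 t le_rfl ht.1 ht.2] at h1
  have h2 : ∫ r in (0 : ℝ)..t, ⟪∫ s in (0 : ℝ)..r, u1 s, u1 r⟫_ℝ
      = (∫ r in (0 : ℝ)..t, ⟪u1 r, u r⟫_ℝ) - ⟪u t - u 0, u 0⟫_ℝ := by
    rw [hpu 0 t le_rfl ht.1 ht.2, ← int_inner_const ht.1 hi', ← intervalIntegral.integral_sub]
    · refine intervalIntegral.integral_congr fun r hr => ?_
      rw [uIcc_of_le ht.1] at hr
      show ⟪∫ s in (0 : ℝ)..r, u1 s, u1 r⟫_ℝ = _
      rw [← hpu 0 r le_rfl hr.1 (hr.2.trans ht.2), real_inner_comm, inner_sub_right]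
    · rw [intervalIntegrable_iff_integrableOn_Ioc_of_le ht.1]
      obtain ⟨B, hB⟩ := (isCompact_Icc.image_of_continuousOn huc).isBounded.exists_norm_le
      have hum : AEStronglyMeasurable u (volume.restrict (Ioc 0 t)) :=
        (huc.mono ((Ioc_subset_Ioc_right ht.2).trans Ioc_subset_Icc_self)).aestronglyMeasurable
          measurableSet_Ioc
      refine (hi'.norm.mul_const B).mono' (hi'.aestronglyMeasurable.inner hum) ?_
      filter_upwards [ae_restrict_mem measurableSet_Ioc] with s hs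
      refine (norm_inner_le_norm _ _).trans ?_
      gcongr
      exact hB _ ⟨s, ⟨hs.1.le, hs.2.trans ht.2⟩, rfl⟩
    · rw [intervalIntegrable_iff_integrableOn_Ioc_of_le ht.1]
      exact hi'.inner_const _
  rw [h2, inner_sub_left, inner_sub_left, real_inner_self_eq_norm_sq,
    real_inner_self_eq_norm_sq, real_inner_comm (u t) (u 0)] at h1
  linarith

end

variable {H K : Type} [NormedAddCommGroup H] [InnerProductSpace ℝ H] [CompleteSpace H]
  [NormedAddCommGroup K] [InnerProductSpace ℝ K] [CompleteSpace K]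
  {W : Submodule ℝ (H × K)} {m : H → K} {C ν T : ℝ}

/-- the energy equality -/
theorem energy_of (Fr : Frame W m C) (hT : 0 < T) {u u1 : ℝ → H} {z : ℝ → K}
    (mem : ∀ t ∈ Icc 0 T, (u t, z t) ∈ W)
    (u1m : MemLp u1 2 (volume.restrict (Ioc 0 T)))
    (pu : ∀ a b, 0 ≤ a → a ≤ b → b ≤ T → u b - u a = ∫ s in a..b, u1 s)
    (hzc : ContinuousOn z (Icc 0 T)) (hmc : ContinuousOn (fun s => m (u s)) (Icc 0 T))
    (weak : ∀ p ∈ W, ∀ t ∈ Icc 0 T, ⟪u t - u 0, p.1⟫_ℝ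
      = ∫ s in (0 : ℝ)..t, ⟪(0 : K) - ν • z s + m (u s), p.2⟫_ℝ) :
    ∀ t ∈ Icc 0 T, ‖u t‖ ^ 2 / 2 + ν * (∫ s in (0 : ℝ)..t, ‖z s‖ ^ 2)
      = ‖u 0‖ ^ 2 / 2 + ∫ s in (0 : ℝ)..t, ⟪(0 : K), z s⟫_ℝ := by
  have hgc : ContinuousOn (fun s => (0 : K) - ν • z s + m (u s)) (Icc 0 T) :=
    (continuousOn_const.sub (hzc.const_smul ν)).add hmc
  have hne : ∀ᵐ s ∂(volume.restrict (Ioc 0 T)), s ≠ T := by
    refine ae_restrict_of_ae ?_
    simp [ae_iff, measure_singleton]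
  have key : ∀ᵐ s ∂(volume.restrict (Ioc 0 T)), ∀ p ∈ W,
      ⟪u1 s, p.1⟫_ℝ = ⟪(0 : K) - ν • z s + m (u s), p.2⟫_ℝ := by
    filter_upwards [ae_deriv_of_prim hT (memLp_ii hT.le u1m) pu,
      ae_restrict_mem measurableSet_Ioc, hne] with s hd hs hsT p hp
    have hs' : s ∈ Ioo 0 T := ⟨hs.1, lt_of_le_of_ne hs.2 hsT⟩
    have h1 : HasDerivAt (fun t => ⟪u t, p.1⟫_ℝ) ⟪u1 s, p.1⟫_ℝ s := by
      have := hd.inner ℝ (hasDerivAt_const s p.1)
      simpa using this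
    have h2 : HasDerivAt (fun t => ⟪u 0, p.1⟫_ℝ + ∫ r in (0 : ℝ)..t,
        ⟪(0 : K) - ν • z r + m (u r), p.2⟫_ℝ) ⟪(0 : K) - ν • z s + m (u s), p.2⟫_ℝ s :=
      (H772R2.NSR.hasDerivAt_prim (β := fun r => ⟪(0 : K) - ν • z r + m (u r), p.2⟫_ℝ)
        (hgc.inner continuousOn_const) hs').const_add _
    refine h1.unique (h2.congr_of_eventuallyEq ?_)
    filter_upwards [Icc_mem_nhds hs'.1 hs'.2] with t ht
    rw [← weak p hp t ht, inner_sub_left]
    ring
  intro t ht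
  have h1 := norm_sq_prim u1m pu ht
  have h2 : ∫ s in (0 : ℝ)..t, ⟪u1 s, u s⟫_ℝ = ∫ s in (0 : ℝ)..t, -ν * ‖z s‖ ^ 2 := by
    rw [intervalIntegral.integral_of_le ht.1, intervalIntegral.integral_of_le ht.1]
    refine integral_congr_ae ?_
    filter_upwards [ae_mono (Measure.restrict_mono (Ioc_subset_Ioc_right ht.2) le_rfl) key,
      ae_restrict_mem measurableSet_Ioc] with s hs hs2
    have hm := mem s ⟨hs2.1.le, hs2.2.trans ht.2⟩
    rw [hs _ hm, inner_add_left, inner_sub_left, Fr.ortho _ hm, inner_zero_left,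
      real_inner_smul_left, real_inner_self_eq_norm_sq]
    ring
  rw [h2, intervalIntegral.integral_const_mul] at h1
  have h3 : ∫ s in (0 : ℝ)..t, ⟪(0 : K), z s⟫_ℝ = 0 := by simp
  rw [h3]
  linarith

end Pool.Agent.T2H10
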