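import Pool.Agent.H772R2.NSR.PubR

/-!
Public definitions: the Navier-Stokes equations restricted to a closed subspace of `V`.
-/

set_option autoImplicit false

open MeasureTheory Set
open scoped InnerProductSpace ENNReal ContDiff

namespace Pool.Agent.T2H10

open H772R2.NS.Pub

/-- Let `W` be the closure in `V = H¹_{0,σ}(Ω)` of the linear span of the test fields `w k`.
This is the graph of the gradient on `W`: the closure in `L²(Ω)³ × L²(Ω)^{3×3}` of the pairs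
`(φ, ∇φ)`, `φ` a linear combination of the `w k`. So `(v, z) ∈ graphIn Ω w` means that `v ∈ W`
and `z = ∇v`. -/
def graphIn (Ω : Set R3) (w : ℕ → R3 → R3) : Set (L2 Ω R3 × L2 Ω Mat) :=
  closure {p | ∃ φ ∈ Submodule.span ℝ (range w), IsClass p.1 φ ∧ IsClass p.2 (jac φ)}

/-- `u` is a strong solution on `[0,T]`, without force, of the Navier-Stokes equations with
viscosity `ν` restricted to the closed subspace `W` of `V` spanned by the test fields `w k`: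
`u(t) ∈ W`, and the equations hold in the weak form with test fields in `W`, that is
`∂_t u = P_W (ν Δu - (u·∇)u)`. Here `G = ∇u`, `u' = ∂_t u` and `G' = ∇∂_t u`:
* `u(t) ∈ W` with gradient `G(t)`, for every `t ∈ [0,T]`;
* `u ∈ H¹(0,T; L²)`, `∇u ∈ H¹(0,T; L²)` and `∂_t u(t) ∈ W` with gradient `G'(t)` for almost
  every `t`, so that `∂_t u ∈ L²(0,T; V)`;
* `∂_t u ∈ L^∞(0,T; L²)`;
* for every `k` and `t`, `(u(t), w_k) - (u(0), w_k)` is the integral over `(0,t)` of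
  `(u, (u·∇)w_k) - ν (∇u, ∇w_k)`. -/
structure IsStrongIn (Ω : Set R3) (w : ℕ → R3 → R3) (ν T : ℝ) (u u' : ℝ → L2 Ω R3)
    (G G' : ℝ → L2 Ω Mat) : Prop where
  grad : ∀ t ∈ Icc 0 T, (u t, G t) ∈ graphIn Ω w
  gradDeriv : ∀ᵐ t ∂(volume.restrict (Ioc 0 T)), (u' t, G' t) ∈ graphIn Ω w
  hu : IsH1 T u u'
  hG : IsH1 T G G'
  bdd : ∃ M, ∀ᵐ t ∂(volume.restrict (Ioc 0 T)), ‖u' t‖ ≤ M
  eqn : ∀ k, ∀ t ∈ Icc 0 T,
    (∫ x in Ω, ⟪(u t).fn x, w k x⟫_ℝ) - (∫ x in Ω, ⟪(u 0).fn x, w k x⟫_ℝ)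
      = ∫ s in (0 : ℝ)..t, ((∫ x in Ω, ⟪(u s).fn x, fderiv ℝ (w k) x ((u s).fn x)⟫_ℝ)
        - ν * ∫ x in Ω, ⟪(G s).fn x, jac (w k) x⟫_ℝ)

end Pool.Agent.T2H10
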