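import Pool.Agent.T2H10.Red
import Pool.Agent.T2H10.Ene
import Pool.Agent.T2H10.PubDef

/-!
The blow-up theorem for the restricted equations, in terms of the public definitions.
-/

set_option autoImplicit false
set_option linter.unusedSectionVars false
set_option maxHeartbeats 1000000

open MeasureTheory Set Filter Topology
open scoped InnerProductSpace ENNReal ContDiff NNReal

namespace Pool.Agent.T2H10

open H772R2.NS H772R2.NS.Pub
open Pool.Agent.W795.TQ Pool.Agent.Y303.NF Pool.Agent.Y303.RA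
open H772R2.NSR (Frame prim_cont pub_inner pub_inner_jac pub_rhs)

variable {Ω : Set E3}

theorem graphIn_eq {Ω : Set R3} {w : ℕ → E3 → E3}
    (hD : ∀ φ ∈ Submodule.span ℝ (range w), H772R2.NS.IsTest (Ω : Set E3) φ) :
    (graphIn Ω w : Set (L2V (Ω : Set E3) × L2M (Ω : Set E3)))
      = (clS (Ω : Set E3) (Submodule.span ℝ (range w)) hD :
        Set (L2V (Ω : Set E3) × L2M (Ω : Set E3))) := by
  have : {p : L2 Ω R3 × L2 Ω Mat |
      ∃ φ ∈ Submodule.span ℝ (range (w : ℕ → R3 → R3)), IsClass p.1 φ ∧ IsClass p.2 (Pub.jac φ)}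
      = {p : L2V (Ω : Set E3) × L2M (Ω : Set E3) | ∃ φ ∈ Submodule.span ℝ (range w),
        p.1 =ᵐ[volume.restrict (Ω : Set E3)] φ ∧
        p.2 =ᵐ[volume.restrict (Ω : Set E3)] H772R2.NS.jac φ} := by
    ext v
    constructor
    · rintro ⟨φ, h1, h2, h3⟩
      exact ⟨φ, h1, h2, (isClass_jac (Ω := Ω) _ φ).mp h3⟩
    · rintro ⟨φ, h1, h2, h3⟩
      exact ⟨φ, h1, h2, (isClass_jac (Ω := Ω) _ φ).mpr h3⟩
  exact (congrArg closure this).trans
    (clS_coe (Ω := (Ω : Set E3)) (D := Submodule.span ℝ (range w)) (hD := hD)).symm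

theorem mem_in {Ω : Set E3} {w : ℕ → E3 → E3}
    (hD : ∀ φ ∈ Submodule.span ℝ (range w), H772R2.NS.IsTest Ω φ) {v : L2V Ω} {z : L2M Ω} :
    (v, z) ∈ clS Ω (Submodule.span ℝ (range w)) hD ↔
      ((v, z) : L2 (show Set R3 from Ω) R3 × L2 (show Set R3 from Ω) Mat)
        ∈ graphIn (show Set R3 from Ω) w := by
  have h := graphIn_eq (Ω := (show Set R3 from Ω)) hD
  have h1 : ((v, z) : L2 (show Set R3 from Ω) R3 × L2 (show Set R3 from Ω) Mat)
        ∈ graphIn (show Set R3 from Ω) w ↔ (v, z) ∈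
        (graphIn (show Set R3 from Ω) w : Set (L2V Ω × L2M Ω)) := Iff.rfl
  rw [h1]
  exact (Set.ext_iff.mp h (v, z)).symm

theorem rhs0 (hΩ : MeasurableSet Ω) (ν : ℝ) {v : L2V Ω} {z : L2M Ω} (hv : (v, z) ∈ graphW Ω)
    {φ : E3 → E3} {p : L2M Ω} (h : p =ᵐ[volume.restrict Ω] H772R2.NS.jac φ) :
    (∫ x in (show Set R3 from Ω), ⟪L2.fn (Ω := Ω) (E := R3) v x,
        fderiv ℝ (φ : R3 → R3) x (L2.fn (Ω := Ω) (E := R3) v x)⟫_ℝ)
      - ν * (∫ x in (show Set R3 from Ω), ⟪L2.fn (Ω := Ω) (E := Mat) z x, Pub.jac φ x⟫_ℝ)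
      = ⟪(0 : L2M Ω) - ν • z + tensL v, p⟫_ℝ := by
  have h1 := pub_rhs hΩ ν (0 : L2M Ω) hv h
  have h2 := pub_inner_jac (Ω := Ω) (0 : L2M Ω) h
  rw [inner_zero_left] at h2
  unfold Pub.rhs at h1
  rw [← h1]
  refine Eq.trans (add_zero _).symm ?_
  exact congrArg _ h2.symm

theorem in_of_str (hΩ : IsOpen Ω) {w : ℕ → E3 → E3}
    (hD : ∀ φ ∈ Submodule.span ℝ (range w), H772R2.NS.IsTest Ω φ) {ν T : ℝ}
    {u u1 : ℝ → L2V Ω} {z z1 : ℝ → L2M Ω}
    (B : Str (clS Ω (Submodule.span ℝ (range w)) hD) tensL ν T (fun _ => 0) u u1 z z1) :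
    IsStrongIn (show Set R3 from Ω) w ν T u u1 z z1 := by
  constructor
  · intro t ht
    exact (mem_in hD).mp (B.mem t ht)
  · filter_upwards [B.mem1] with t ht
    exact (mem_in hD).mp ht
  · exact ⟨B.u1m, B.pu⟩
  · exact ⟨B.z1m, B.pz⟩
  · exact B.bd
  · intro k t ht
    have hk : w k ∈ Submodule.span ℝ (range w) := Submodule.subset_span ⟨k, rfl⟩
    obtain ⟨p, hp, hp1, hp2⟩ := exists_pairS (hD := hD) hk
    have h1 := B.weak p (preS_le_clS hp) t ht
    have e1 := pub_inner (Ω := Ω) (u t) hp1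
    have e2 := pub_inner (Ω := Ω) (u 0) hp1
    have h2 : ⟪u t - u 0, p.1⟫_ℝ = ⟪u t, p.1⟫_ℝ - ⟪u 0, p.1⟫_ℝ := inner_sub_left _ _ _
    refine (congrArg₂ (· - ·) e1 e2).trans ?_
    rw [← h2, h1]
    refine intervalIntegral.integral_congr ?_
    intro s hs
    rw [uIcc_of_le ht.1] at hs
    have hs' : s ∈ Icc 0 T := ⟨hs.1, hs.2.trans ht.2⟩
    exact (rhs0 hΩ.measurableSet ν (clS_le (B.mem s hs')) hp2).symm

theorem str_of_in (hΩ : IsOpen Ω) {C : ℝ} {w : ℕ → E3 → E3}
    {hD : ∀ φ ∈ Submodule.span ℝ (range w), H772R2.NS.IsTest Ω φ}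
    (Fr : Frame (clS Ω (Submodule.span ℝ (range w)) hD) (tensL (Ω := Ω)) C)
    {ν T : ℝ} (hT : 0 < T) {u u1 : ℝ → L2V Ω} {z z1 : ℝ → L2M Ω}
    (B : IsStrongIn (show Set R3 from Ω) w ν T u u1 z z1) :
    Str (clS Ω (Submodule.span ℝ (range w)) hD) tensL ν T (fun _ => 0) u u1 z z1 := by
  have mem : ∀ t ∈ Icc 0 T, (u t, z t) ∈ clS Ω (Submodule.span ℝ (range w)) hD := by
    intro t ht
    exact (mem_in hD).mpr (B.grad t ht)
  have mem1 : ∀ᵐ s ∂(volume.restrict (Ioc 0 T)),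
      (u1 s, z1 s) ∈ clS Ω (Submodule.span ℝ (range w)) hD := by
    filter_upwards [B.gradDeriv] with t ht
    exact (mem_in hD).mpr ht
  have u1m : MemLp u1 2 (volume.restrict (Ioc 0 T)) := B.hu.memLp
  have z1m : MemLp z1 2 (volume.restrict (Ioc 0 T)) := B.hG.memLp
  have pu : ∀ a b, 0 ≤ a → a ≤ b → b ≤ T → u b - u a = ∫ s in a..b, u1 s := B.hu.prim
  have pz : ∀ a b, 0 ≤ a → a ≤ b → b ≤ T → z b - z a = ∫ s in a..b, z1 s := B.hG.prim
  have hzc : ContinuousOn z (Icc 0 T) := prim_cont z1m pz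
  have huc : ContinuousOn u (Icc 0 T) := prim_cont u1m pu
  have htc : ContinuousOn (fun s => tensL (u s)) (Icc 0 T) :=
    (tensL_continuousOn hΩ.measurableSet).comp (f := fun s => (u s, z s)) (huc.prodMk hzc)
      (fun t ht => clS_le (mem t ht))
  have hgc : ContinuousOn (fun s => (0 : L2M Ω) - ν • z s + tensL (u s)) (Icc 0 T) :=
    (continuousOn_const.sub (hzc.const_smul ν)).add htc
  have weak : ∀ p ∈ clS Ω (Submodule.span ℝ (range w)) hD, ∀ t ∈ Icc 0 T, ⟪u t - u 0, p.1⟫_ℝ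
      = ∫ s in (0 : ℝ)..t, ⟪(0 : L2M Ω) - ν • z s + tensL (u s), p.2⟫_ℝ := by
    intro p hp t ht
    have hGt : Integrable (fun s => (0 : L2M Ω) - ν • z s + tensL (u s))
        (volume.restrict (Ioc 0 t)) :=
      (hgc.mono (Icc_subset_Icc_right ht.2)).integrableOn_Icc.mono_set Ioc_subset_Icc_self
    set I : L2M Ω := ∫ s in (0 : ℝ)..t, ((0 : L2M Ω) - ν • z s + tensL (u s)) with hI
    have hint : ∀ q : L2V Ω × L2M Ω,
        ∫ s in (0 : ℝ)..t, ⟪(0 : L2M Ω) - ν • z s + tensL (u s), q.2⟫_ℝ = ⟪I, q.2⟫_ℝ :=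
      fun q => int_inner_const ht.1 hGt q.2
    have hgen : ∀ φ ∈ Submodule.span ℝ (range w), ∀ q : L2V Ω × L2M Ω,
        q.1 =ᵐ[volume.restrict Ω] φ → q.2 =ᵐ[volume.restrict Ω] H772R2.NS.jac φ →
        ⟪u t - u 0, q.1⟫_ℝ - ⟪I, q.2⟫_ℝ = 0 := by
      intro φ hφ
      induction hφ using Submodule.span_induction with
      | mem x hx =>
        obtain ⟨k, rfl⟩ := hx
        intro q hq1 hq2
        have e := B.eqn k t ht
        have e1 := pub_inner (Ω := Ω) (u t) hq1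
        have e2 := pub_inner (Ω := Ω) (u 0) hq1
        have h2 : ⟪u t - u 0, q.1⟫_ℝ = ⟪u t, q.1⟫_ℝ - ⟪u 0, q.1⟫_ℝ := inner_sub_left _ _ _
        have e3 : ∫ s in (0 : ℝ)..t, ((∫ x in (show Set R3 from Ω),
            ⟪L2.fn (Ω := Ω) (E := R3) (u s) x,
              fderiv ℝ (w k : R3 → R3) x (L2.fn (Ω := Ω) (E := R3) (u s) x)⟫_ℝ)
            - ν * (∫ x in (show Set R3 from Ω), ⟪L2.fn (Ω := Ω) (E := Mat) (z s) x,
              Pub.jac (w k) x⟫_ℝ))
            = ∫ s in (0 : ℝ)..t, ⟪(0 : L2M Ω) - ν • z s + tensL (u s), q.2⟫_ℝ := by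
          refine intervalIntegral.integral_congr ?_
          intro s hs
          rw [uIcc_of_le ht.1] at hs
          have hs' : s ∈ Icc 0 T := ⟨hs.1, hs.2.trans ht.2⟩
          exact rhs0 hΩ.measurableSet ν (clS_le (mem s hs')) hq2
        have e' := ((congrArg₂ (· - ·) e1 e2).symm.trans e).trans (e3.trans (hint q))
        rw [h2]
        exact sub_eq_zero.mpr e'
      | zero =>
        intro q hq1 hq2
        have h1 : q.1 = 0 := by
          apply Lp.ext
          exact hq1.trans (Lp.coeFn_zero _ _ _).symm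
        have h2 : q.2 = 0 := by
          apply Lp.ext
          refine hq2.trans ?_
          filter_upwards [Lp.coeFn_zero M3 2 (volume.restrict Ω)] with x hx
          rw [hx, jac_zero]
          rfl
        rw [h1, h2, inner_zero_right, inner_zero_right, sub_zero]
      | add x y hx hy h1 h2 =>
        intro q hq1 hq2
        obtain ⟨px, -, px1, px2⟩ := exists_pairS (hD := hD) hx
        obtain ⟨py, -, py1, py2⟩ := exists_pairS (hD := hD) hy
        have e1 : q.1 = px.1 + py.1 := by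
          apply Lp.ext
          filter_upwards [hq1, px1, py1, Lp.coeFn_add px.1 py.1] with r a b c d
          rw [a, d, Pi.add_apply, Pi.add_apply, b, c]
        have e2 : q.2 = px.2 + py.2 := by
          apply Lp.ext
          filter_upwards [hq2, px2, py2, Lp.coeFn_add px.2 py.2] with r a b c d
          rw [a, d, Pi.add_apply, b, c, jac_add (hD x hx).smooth (hD y hy).smooth]
        have k1 := h1 px px1 px2
        have k2 := h2 py py1 py2
        rw [e1, e2, inner_add_right, inner_add_right]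
        linarith
      | smul a x hx h1 =>
        intro q hq1 hq2
        obtain ⟨px, -, px1, px2⟩ := exists_pairS (hD := hD) hx
        have e1 : q.1 = a • px.1 := by
          apply Lp.ext
          filter_upwards [hq1, px1, Lp.coeFn_smul a px.1] with r k1 k2 k3
          rw [k1, k3, Pi.smul_apply, Pi.smul_apply, k2]
        have e2 : q.2 = a • px.2 := by
          apply Lp.ext
          filter_upwards [hq2, px2, Lp.coeFn_smul a px.2] with r k1 k2 k3
          rw [k1, k3, Pi.smul_apply, k2, jac_smul]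
        have k1 := h1 px px1 px2
        rw [e1, e2, inner_smul_right, inner_smul_right, ← mul_sub, k1, mul_zero]
    have key := clS_induction (D := Submodule.span ℝ (range w)) (hD := hD)
      (fun q : L2V Ω × L2M Ω => ⟪u t - u 0, q.1⟫_ℝ - ⟪I, q.2⟫_ℝ) (by fun_prop) (by
        rintro q ⟨φ, k1, k2, k3⟩
        exact hgen φ k1 q k2 k3) hp
    rw [hint p]
    exact sub_eq_zero.mp key
  exact ⟨mem, mem1, B.bdd, u1m, z1m, pu, pz, weak, energy_of Fr hT mem u1m pu hzc htc weak⟩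

end Pool.Agent.T2H10
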