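import Pool.Agent.T2H10.Quad

/-!
Antisymmetry, disjoint supports, scaling.
-/

set_option autoImplicit false
set_option linter.unusedSectionVars false
set_option maxHeartbeats 1000000

open MeasureTheory Set Filter Topology
open scoped InnerProductSpace ENNReal ContDiff NNReal

namespace Pool.Agent.T2H10

open H772R2.NS

variable {Ω : Set E3} {f g h : E3 → E3}

/-- `∫ f·(g·∇)h = -∫ h·(g·∇)f` -/
theorem itri_anti (hf : IsTest Ω f) (hg : IsTest Ω g) (hh : IsTest Ω h) :
    itri f g h = -itri h g f := by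
  let G : E3 → ℝ := fun x => ∑ i, f x i * h x i
  have hG : ContDiff ℝ ∞ G :=
    ContDiff.sum (fun i _ => (contDiff_coord hf.smooth i).mul (contDiff_coord hh.smooth i))
  have hGc : HasCompactSupport G := by
    refine hf.compact.mono (fun x hx => ?_)
    intro h0
    apply hx
    simp [G, h0]
  have hGd : ∀ x j, fderiv ℝ G x (ev j) = ∑ i, (f x i * jac h x (i, j)
      + h x i * jac f x (i, j)) := by
    intro x j
    have h1 : ∀ i ∈ Finset.univ, DifferentiableAt ℝ (fun x => f x i * h x i) x := fun i _ =>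
      (((contDiff_coord hf.smooth i).mul (contDiff_coord hh.smooth i)).differentiable (by simp)) x
    have h2 : fderiv ℝ G x = ∑ i, fderiv ℝ (fun x => f x i * h x i) x := by
      have : G = fun x => ∑ i, f x i * h x i := rfl
      rw [this, fderiv_fun_sum h1]
    rw [h2, sum_apply]
    refine Finset.sum_congr rfl (fun i _ => ?_)
    have h3 : DifferentiableAt ℝ (fun x => f x i) x :=
      ((contDiff_coord hf.smooth i).differentiable (by simp)) x
    have h4 : DifferentiableAt ℝ (fun x => h x i) x :=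
      ((contDiff_coord hh.smooth i).differentiable (by simp)) x
    rw [fderiv_fun_mul h3 h4]
    simp only [add_apply, smul_apply, smul_eq_mul]
    rw [fderiv_coord hf.smooth, fderiv_coord hh.smooth, jac_apply, jac_apply]
  have hcont : ∀ j, Continuous (fun x => fderiv ℝ G x (ev j)) := fun j =>
    (hG.continuous_fderiv (by simp)).clm_apply continuous_const
  have hcontg : ∀ j, Continuous (fun x => fderiv ℝ (fun y => g y j) x (ev j)) := fun j =>
    ((contDiff_coord hg.smooth j).continuous_fderiv (by simp)).clm_apply continuous_const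
  have hgc : ∀ j, Continuous (fun x => g x j) := fun j => (contDiff_coord hg.smooth j).continuous
  have hibp : ∀ j, ∫ x, g x j * fderiv ℝ G x (ev j)
      = - ∫ x, fderiv ℝ (fun y => g y j) x (ev j) * G x := by
    intro j
    apply integral_mul_fderiv_eq_neg_fderiv_mul_of_integrable
    · exact ((hcontg j).mul hG.continuous).integrable_of_hasCompactSupport (hGc.mul_left)
    · exact ((hgc j).mul (hcont j)).integrable_of_hasCompactSupport
        ((hasCompactSupport_coord hg.compact j).mul_right)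
    · exact ((hgc j).mul hG.continuous).integrable_of_hasCompactSupport (hGc.mul_left)
    · intro x _
      exact ((contDiff_coord hg.smooth j).differentiable (by simp)) x
    · intro x _
      exact (hG.differentiable (by simp)) x
  have hint1 : ∀ j ∈ Finset.univ, Integrable (fun x => g x j * fderiv ℝ G x (ev j)) := fun j _ =>
    ((hgc j).mul (hcont j)).integrable_of_hasCompactSupport
        ((hasCompactSupport_coord hg.compact j).mul_right)
  have hint2 : ∀ j ∈ Finset.univ, Integrable (fun x => fderiv ℝ (fun y => g y j) x (ev j) * G x) :=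
    fun j _ => ((hcontg j).mul hG.continuous).integrable_of_hasCompactSupport (hGc.mul_left)
  have hsum : itri f g h + itri h g f = 0 := by
    unfold itri
    rw [← integral_add (int_itri hf hg hh) (int_itri hh hg hf)]
    have hpt : ∀ x, (∑ i, ∑ j, f x i * g x j * jac h x (i, j))
        + (∑ i, ∑ j, h x i * g x j * jac f x (i, j)) = ∑ j, g x j * fderiv ℝ G x (ev j) := by
      intro x
      simp only [hGd, Finset.mul_sum]
      rw [← Finset.sum_add_distrib, Finset.sum_comm]
      refine Finset.sum_congr rfl fun i _ => ?_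
      rw [← Finset.sum_add_distrib]
      refine Finset.sum_congr rfl fun j _ => ?_
      ring
    simp only [hpt]
    rw [integral_finsetSum _ hint1]
    simp_rw [hibp]
    rw [Finset.sum_neg_distrib, ← integral_finsetSum _ hint2]
    have hz : ∀ x, ∑ j, fderiv ℝ (fun y => g y j) x (ev j) * G x = 0 := by
      intro x
      rw [← Finset.sum_mul]
      have : ∑ j, fderiv ℝ (fun y => g y j) x (ev j) = 0 := by
        simp_rw [fderiv_coord hg.smooth]
        exact hg.divfree x
      rw [this, zero_mul]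
    simp [hz]
  linarith

theorem itri_self (hf : IsTest Ω f) (hg : IsTest Ω g) : itri f g f = 0 := by
  have := itri_anti hf hg hf
  linarith

theorem zero_of_disj {A B : Set E3} (hd : Disjoint A B) (x : E3) : x ∉ A ∨ x ∉ B := by
  by_contra hcon
  push Not at hcon
  exact Set.disjoint_left.mp hd hcon.1 hcon.2

theorem z0 {x : E3} (hx : x ∉ tsupport f) : f x = 0 := image_eq_zero_of_notMem_tsupport hx

theorem z1 {x : E3} (hx : x ∉ tsupport f) : jac f x = 0 :=
  image_eq_zero_of_notMem_tsupport fun h => hx (tsupport_jac_subset h)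

theorem il2_disj (hd : Disjoint (tsupport f) (tsupport g)) : il2 f g = 0 := by
  unfold il2
  have : ∀ x, ∑ i, f x i * g x i = 0 := by
    intro x
    rcases zero_of_disj hd x with hx | hx
    · simp [z0 hx]
    · simp [z0 hx]
  simp [this]

theorem ih1_disj (hd : Disjoint (tsupport f) (tsupport g)) : ih1 f g = 0 := by
  unfold ih1
  have : ∀ x, ∑ i, ∑ j, jac f x (i, j) * jac g x (i, j) = 0 := by
    intro x
    rcases zero_of_disj hd x with hx | hx
    · simp [z1 hx]
    · simp [z1 hx]
  simp [this]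

theorem itri_disj12 (hd : Disjoint (tsupport f) (tsupport g)) : itri f g h = 0 := by
  unfold itri
  have : ∀ x, ∑ i, ∑ j, f x i * g x j * jac h x (i, j) = 0 := by
    intro x
    rcases zero_of_disj hd x with hx | hx
    · simp [z0 hx]
    · simp [z0 hx]
  simp [this]

theorem itri_disj13 (hd : Disjoint (tsupport f) (tsupport h)) : itri f g h = 0 := by
  unfold itri
  have : ∀ x, ∑ i, ∑ j, f x i * g x j * jac h x (i, j) = 0 := by
    intro x
    rcases zero_of_disj hd x with hx | hx
    · simp [z0 hx]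
    · simp [z1 hx]
  simp [this]

theorem itri_disj23 (hd : Disjoint (tsupport g) (tsupport h)) : itri f g h = 0 := by
  unfold itri
  have : ∀ x, ∑ i, ∑ j, f x i * g x j * jac h x (i, j) = 0 := by
    intro x
    rcases zero_of_disj hd x with hx | hx
    · simp [z0 hx]
    · simp [z1 hx]
  simp [this]

/-- the scaled copy `8ⁿ v(4ⁿ (x - c))` -/
noncomputable def sc (n : ℕ) (c : E3) (v : E3 → E3) : E3 → E3 :=
  fun x => (8 : ℝ) ^ n • v ((4 : ℝ) ^ n • (x - c))

theorem sc_apply (n : ℕ) (c : E3) (v : E3 → E3) (x : E3) :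
    sc n c v x = (8 : ℝ) ^ n • v ((4 : ℝ) ^ n • (x - c)) := rfl

theorem sc_smooth {v : E3 → E3} (hv : ContDiff ℝ ∞ v) (n : ℕ) (c : E3) :
    ContDiff ℝ ∞ (sc n c v) := by
  have h1 : ContDiff ℝ ∞ (fun x : E3 => (4 : ℝ) ^ n • (x - c)) := by fun_prop
  exact (hv.comp h1).const_smul _

theorem sc_jac {v : E3 → E3} (hv : ContDiff ℝ ∞ v) (n : ℕ) (c x : E3) :
    jac (sc n c v) x = (32 : ℝ) ^ n • jac v ((4 : ℝ) ^ n • (x - c)) := by
  have h1 : HasFDerivAt (fun x : E3 => (4 : ℝ) ^ n • (x - c))
      ((4 : ℝ) ^ n • ContinuousLinearMap.id ℝ E3) x := by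
    have := ((hasFDerivAt_id (𝕜 := ℝ) x).sub_const c).const_smul ((4 : ℝ) ^ n)
    exact this
  have h2 : HasFDerivAt v (fderiv ℝ v ((4 : ℝ) ^ n • (x - c))) ((4 : ℝ) ^ n • (x - c)) :=
    ((hv.differentiable (by simp)) _).hasFDerivAt
  have h3 : HasFDerivAt (sc n c v) ((8 : ℝ) ^ n • ((fderiv ℝ v ((4 : ℝ) ^ n • (x - c))).comp
      ((4 : ℝ) ^ n • ContinuousLinearMap.id ℝ E3))) x := by
    have := (h2.comp x h1).const_smul ((8 : ℝ) ^ n)
    exact this
  ext p
  rw [jac_apply, h3.fderiv, PiLp.smul_apply, jac_apply]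
  simp only [smul_apply, ContinuousLinearMap.comp_apply,
    ContinuousLinearMap.id_apply, map_smul, PiLp.smul_apply, smul_eq_mul]
  rw [← mul_assoc, ← mul_pow]
  norm_num

theorem sc_tsupport (v : E3 → E3) (n : ℕ) (c : E3) :
    tsupport (sc n c v) ⊆ {x | (4 : ℝ) ^ n • (x - c) ∈ tsupport v} := by
  refine closure_minimal ?_ ?_
  · intro x hx
    rw [Function.mem_support] at hx
    by_contra hcon
    apply hx
    have : v ((4 : ℝ) ^ n • (x - c)) = 0 :=
      image_eq_zero_of_notMem_tsupport fun h => hcon h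
    rw [sc_apply, this, smul_zero]
  · exact (isClosed_tsupport v).preimage (by fun_prop)

theorem sc_tsupport_ball {v : E3 → E3} {R : ℝ} (hv : tsupport v ⊆ Metric.closedBall 0 R) (n : ℕ)
    (c : E3) : tsupport (sc n c v) ⊆ Metric.closedBall c (R / 4 ^ n) := by
  intro x hx
  have h1 := hv (sc_tsupport v n c hx)
  rw [mem_closedBall_zero_iff, norm_smul, Real.norm_of_nonneg (by positivity)] at h1
  rw [Metric.mem_closedBall, dist_eq_norm, le_div_iff₀ (by positivity), mul_comm]
  exact h1

theorem sc_test {v : E3 → E3} (hv : IsTest Ω v) {R : ℝ} (hR : tsupport v ⊆ Metric.closedBall 0 R)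
    {Ω' : Set E3} (n : ℕ) (c : E3) (hΩ : Metric.closedBall c (R / 4 ^ n) ⊆ Ω') :
    IsTest Ω' (sc n c v) := by
  refine ⟨sc_smooth hv.smooth n c, ?_, (sc_tsupport_ball hR n c).trans hΩ, fun x => ?_⟩
  · exact HasCompactSupport.of_support_subset_isCompact (isCompact_closedBall c (R / 4 ^ n))
      ((subset_tsupport _).trans (sc_tsupport_ball hR n c))
  · simp only [sc_jac hv.smooth, PiLp.smul_apply, smul_eq_mul, ← Finset.mul_sum, hv.divfree,
      mul_zero]

theorem int_scale (F : E3 → ℝ) (n : ℕ) (c : E3) :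
    ∫ x, F ((4 : ℝ) ^ n • (x - c)) = (64 ^ n : ℝ)⁻¹ * ∫ x, F x := by
  rw [integral_sub_right_eq_self (fun x => F ((4 : ℝ) ^ n • x)) c,
    Measure.integral_comp_smul volume F ((4 : ℝ) ^ n)]
  have e : (4 ^ n : ℝ) ^ Module.finrank ℝ E3 = 64 ^ n := by
    rw [finrank_euclideanSpace, Fintype.card_fin, ← pow_mul, mul_comm, pow_mul]
    norm_num
  rw [e, abs_of_pos (by positivity), smul_eq_mul]

theorem sc_il2 (v w : E3 → E3) (n : ℕ) (c : E3) : il2 (sc n c v) (sc n c w) = il2 v w := by
  unfold il2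
  have e : ∀ x, ∑ i, sc n c v x i * sc n c w x i
      = 64 ^ n * (∑ i, v ((4 : ℝ) ^ n • (x - c)) i * w ((4 : ℝ) ^ n • (x - c)) i) := by
    intro x
    rw [Finset.mul_sum]
    refine Finset.sum_congr rfl fun i _ => ?_
    simp only [sc_apply, PiLp.smul_apply, smul_eq_mul]
    have : (64 : ℝ) ^ n = 8 ^ n * 8 ^ n := by rw [← mul_pow]; norm_num
    rw [this]
    ring
  simp only [e]
  rw [integral_const_mul, int_scale (fun y => ∑ i, v y i * w y i)]
  rw [← mul_assoc, mul_inv_cancel₀ (by positivity), one_mul]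

theorem sc_ih1 {v w : E3 → E3} (hv : ContDiff ℝ ∞ v) (hw : ContDiff ℝ ∞ w) (n : ℕ) (c : E3) :
    ih1 (sc n c v) (sc n c w) = 16 ^ n * ih1 v w := by
  unfold ih1
  have e : ∀ x, ∑ i, ∑ j, jac (sc n c v) x (i, j) * jac (sc n c w) x (i, j)
      = 16 ^ n * 64 ^ n * (∑ i, ∑ j, jac v ((4 : ℝ) ^ n • (x - c)) (i, j)
        * jac w ((4 : ℝ) ^ n • (x - c)) (i, j)) := by
    intro x
    rw [Finset.mul_sum]
    refine Finset.sum_congr rfl fun i _ => ?_
    rw [Finset.mul_sum]
    refine Finset.sum_congr rfl fun j _ => ?_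
    simp only [sc_jac hv, sc_jac hw, PiLp.smul_apply, smul_eq_mul]
    have : (16 : ℝ) ^ n * 64 ^ n = 32 ^ n * 32 ^ n := by rw [← mul_pow, ← mul_pow]; norm_num
    rw [this]
    ring
  simp only [e]
  rw [integral_const_mul, int_scale (fun y => ∑ i, ∑ j, jac v y (i, j) * jac w y (i, j))]
  field_simp

theorem sc_itri {w : E3 → E3} (u v : E3 → E3) (hw : ContDiff ℝ ∞ w) (n : ℕ) (c : E3) :
    itri (sc n c u) (sc n c v) (sc n c w) = 32 ^ n * itri u v w := by
  unfold itri
  have e : ∀ x, ∑ i, ∑ j, sc n c u x i * sc n c v x j * jac (sc n c w) x (i, j)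
      = 32 ^ n * 64 ^ n * (∑ i, ∑ j, u ((4 : ℝ) ^ n • (x - c)) i * v ((4 : ℝ) ^ n • (x - c)) j
        * jac w ((4 : ℝ) ^ n • (x - c)) (i, j)) := by
    intro x
    rw [Finset.mul_sum]
    refine Finset.sum_congr rfl fun i _ => ?_
    rw [Finset.mul_sum]
    refine Finset.sum_congr rfl fun j _ => ?_
    simp only [sc_apply, sc_jac hw, PiLp.smul_apply, smul_eq_mul]
    have : (64 : ℝ) ^ n = 8 ^ n * 8 ^ n := by rw [← mul_pow]; norm_num
    rw [this]
    ring
  simp only [e]
  rw [integral_const_mul, int_scale (fun y => ∑ i, ∑ j, u y i * v y j * jac w y (i, j))]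
  field_simp

end Pool.Agent.T2H10
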