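import Mathlib
import Pool.Agent.H772R2.NS.Space3
import Pool.Agent.T2H10.Cr

/-!
Geometry of the cradle, part 1: general facts on the forms `il2`, `ih1`, `itri` on test fields.
-/

set_option maxHeartbeats 1000000

open MeasureTheory Set Filter Topology
open scoped InnerProductSpace ENNReal ContDiff NNReal

namespace Pool.Agent.T2H10.Geom

open H772R2.NS

/-- test fields in the whole space -/
abbrev IsT (φ : E3 → E3) : Prop := IsTest univ φ

theorem isT_of {Ω : Set E3} {φ : E3 → E3} (h : IsTest Ω φ) : IsT φ :=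
  ⟨h.smooth, h.compact, subset_univ _, h.divfree⟩

theorem jac_coord {φ : E3 → E3} (h : ContDiff ℝ ∞ φ) (x : E3) (i j : Fin 3) :
    jac φ x (i, j) = fderiv ℝ (fun y => φ y i) x (ev j) := by
  rw [fderiv_coord h, jac_apply]

/-- density of `il2` -/
noncomputable def d2 (v w : E3 → E3) (x : E3) : ℝ := ∑ i, v x i * w x i

/-- density of `ih1` -/
noncomputable def dH (v w : E3 → E3) (x : E3) : ℝ := ∑ i, ∑ j, jac v x (i, j) * jac w x (i, j)

/-- density of `itri` -/
noncomputable def d3 (v w φ : E3 → E3) (x : E3) : ℝ :=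
  ∑ i, ∑ j, v x i * w x j * jac φ x (i, j)

theorem il2_eq (v w : E3 → E3) : il2 v w = ∫ x, d2 v w x := rfl
theorem ih1_eq (v w : E3 → E3) : ih1 v w = ∫ x, dH v w x := rfl
theorem itri_eq (v w φ : E3 → E3) : itri v w φ = ∫ x, d3 v w φ x := rfl

section reg
variable {v w φ : E3 → E3}

theorem cont_coord (h : IsT v) (i : Fin 3) : Continuous (fun x => v x i) :=
  (contDiff_coord h.smooth i).continuous

theorem cont_jac (h : IsT v) (i j : Fin 3) : Continuous (fun x => jac v x (i, j)) :=
  (EuclideanSpace.proj (𝕜 := ℝ) (i, j) : M3 →L[ℝ] ℝ).continuous.comp (continuous_jac h.smooth)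

theorem cont_d2 (hv : IsT v) (hw : IsT w) : Continuous (d2 v w) :=
  continuous_finsetSum _ (fun i _ => (cont_coord hv i).mul (cont_coord hw i))

theorem cont_dH (hv : IsT v) (hw : IsT w) : Continuous (dH v w) :=
  continuous_finsetSum _ (fun i _ => continuous_finsetSum _ (fun j _ =>
    (cont_jac hv i j).mul (cont_jac hw i j)))

theorem cont_d3 (hv : IsT v) (hw : IsT w) (hφ : IsT φ) : Continuous (d3 v w φ) :=
  continuous_finsetSum _ (fun i _ => continuous_finsetSum _ (fun j _ =>
    ((cont_coord hv i).mul (cont_coord hw j)).mul (cont_jac hφ i j)))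

theorem d2_zero_left {x : E3} (h : v x = 0) : d2 v w x = 0 := by simp [d2, h]
theorem d2_zero_right {x : E3} (h : w x = 0) : d2 v w x = 0 := by simp [d2, h]
theorem dH_zero_left {x : E3} (h : jac v x = 0) : dH v w x = 0 := by simp [dH, h]
theorem dH_zero_right {x : E3} (h : jac w x = 0) : dH v w x = 0 := by simp [dH, h]
theorem d3_zero1 {x : E3} (h : v x = 0) : d3 v w φ x = 0 := by simp [d3, h]
theorem d3_zero2 {x : E3} (h : w x = 0) : d3 v w φ x = 0 := by simp [d3, h]
theorem d3_zero3 {x : E3} (h : jac φ x = 0) : d3 v w φ x = 0 := by simp [d3, h]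

theorem supp_d2 (hv : IsT v) : HasCompactSupport (d2 v w) :=
  hv.compact.mono (fun x hx => by
    intro h0; exact hx (d2_zero_left h0))

theorem supp_dH (hv : IsT v) : HasCompactSupport (dH v w) :=
  (hasCompactSupport_jac hv.compact).mono (fun x hx => by
    intro h0; exact hx (dH_zero_left h0))

theorem supp_d3 (hv : IsT v) : HasCompactSupport (d3 v w φ) :=
  hv.compact.mono (fun x hx => by
    intro h0; exact hx (d3_zero1 h0))

theorem int_d2 (hv : IsT v) (hw : IsT w) : Integrable (d2 v w) :=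
  (cont_d2 hv hw).integrable_of_hasCompactSupport (supp_d2 hv)

theorem int_dH (hv : IsT v) (hw : IsT w) : Integrable (dH v w) :=
  (cont_dH hv hw).integrable_of_hasCompactSupport (supp_dH hv)

theorem int_d3 (hv : IsT v) (hw : IsT w) (hφ : IsT φ) : Integrable (d3 v w φ) :=
  (cont_d3 hv hw hφ).integrable_of_hasCompactSupport (supp_d3 hv)

end reg

section alg

theorem isT_sum {ι : Type*} (s : Finset ι) {v : ι → E3 → E3} {Ω : Set E3}
    (h : ∀ l ∈ s, IsTest Ω (v l)) : IsTest Ω (∑ l ∈ s, v l) := by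
  classical
  induction s using Finset.induction_on with
  | empty => simpa using IsTest.zero
  | insert a s ha ih =>
    rw [Finset.sum_insert ha]
    exact (h a (Finset.mem_insert_self _ _)).add
      (ih (fun l hl => h l (Finset.mem_insert_of_mem hl)))

theorem jac_sum {ι : Type*} (s : Finset ι) {v : ι → E3 → E3} (h : ∀ l ∈ s, IsT (v l)) (x : E3) :
    jac (∑ l ∈ s, v l) x = ∑ l ∈ s, jac (v l) x := by
  classical
  induction s using Finset.induction_on with
  | empty => simp [jac_zero]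
  | insert a s ha ih =>
    rw [Finset.sum_insert ha, Finset.sum_insert ha, jac_add
      (h a (Finset.mem_insert_self _ _)).smooth
      (isT_sum s (fun l hl => h l (Finset.mem_insert_of_mem hl))).smooth,
      ih (fun l hl => h l (Finset.mem_insert_of_mem hl))]

theorem sum_coord {ι : Type*} (s : Finset ι) (v : ι → E3 → E3) (x : E3) (i : Fin 3) :
    (∑ l ∈ s, v l) x i = ∑ l ∈ s, v l x i := by
  rw [Finset.sum_apply, WithLp.ofLp_sum, Finset.sum_apply]

theorem sum_jac_coord {ι : Type*} (s : Finset ι) {v : ι → E3 → E3} (h : ∀ l ∈ s, IsT (v l))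
    (x : E3) (p : Fin 3 × Fin 3) :
    jac (∑ l ∈ s, v l) x p = ∑ l ∈ s, jac (v l) x p := by
  rw [jac_sum s h, WithLp.ofLp_sum, Finset.sum_apply]

variable {ι : Type*} (s : Finset ι)

theorem il2_sum_left {v : ι → E3 → E3} {w : E3 → E3} (h : ∀ l ∈ s, IsT (v l)) (hw : IsT w) :
    il2 (∑ l ∈ s, v l) w = ∑ l ∈ s, il2 (v l) w := by
  simp only [il2_eq]
  rw [← integral_finsetSum _ (fun l hl => int_d2 (h l hl) hw)]
  congr 1
  ext x
  simp only [d2, sum_coord, Finset.sum_mul]
  rw [Finset.sum_comm]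

theorem il2_comm (v w : E3 → E3) : il2 v w = il2 w v := by
  unfold il2
  simp only [mul_comm]

theorem ih1_comm (v w : E3 → E3) : ih1 v w = ih1 w v := by
  unfold ih1
  simp only [mul_comm]

theorem il2_sum_right {v : ι → E3 → E3} {w : E3 → E3} (h : ∀ l ∈ s, IsT (v l)) (hw : IsT w) :
    il2 w (∑ l ∈ s, v l) = ∑ l ∈ s, il2 w (v l) := by
  rw [il2_comm, il2_sum_left s h hw]
  exact Finset.sum_congr rfl (fun l _ => il2_comm _ _)

theorem ih1_sum_left {v : ι → E3 → E3} {w : E3 → E3} (h : ∀ l ∈ s, IsT (v l)) (hw : IsT w) :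
    ih1 (∑ l ∈ s, v l) w = ∑ l ∈ s, ih1 (v l) w := by
  simp only [ih1_eq]
  rw [← integral_finsetSum _ (fun l hl => int_dH (h l hl) hw)]
  congr 1
  ext x
  simp only [dH, sum_jac_coord s h, Finset.sum_mul]
  simp_rw [Finset.sum_comm (s := Finset.univ) (t := s)]

theorem ih1_sum_right {v : ι → E3 → E3} {w : E3 → E3} (h : ∀ l ∈ s, IsT (v l)) (hw : IsT w) :
    ih1 w (∑ l ∈ s, v l) = ∑ l ∈ s, ih1 w (v l) := by
  rw [ih1_comm, ih1_sum_left s h hw]
  exact Finset.sum_congr rfl (fun l _ => ih1_comm _ _)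

theorem itri_sum1 {v : ι → E3 → E3} {w φ : E3 → E3} (h : ∀ l ∈ s, IsT (v l)) (hw : IsT w)
    (hφ : IsT φ) : itri (∑ l ∈ s, v l) w φ = ∑ l ∈ s, itri (v l) w φ := by
  simp only [itri_eq]
  rw [← integral_finsetSum _ (fun l hl => int_d3 (h l hl) hw hφ)]
  congr 1
  ext x
  simp only [d3, sum_coord, Finset.sum_mul]
  simp_rw [Finset.sum_comm (s := Finset.univ) (t := s)]

theorem itri_sum2 {v : ι → E3 → E3} {w φ : E3 → E3} (h : ∀ l ∈ s, IsT (v l)) (hw : IsT w)
    (hφ : IsT φ) : itri w (∑ l ∈ s, v l) φ = ∑ l ∈ s, itri w (v l) φ := by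
  simp only [itri_eq]
  rw [← integral_finsetSum _ (fun l hl => int_d3 hw (h l hl) hφ)]
  congr 1
  ext x
  simp only [d3, sum_coord, Finset.sum_mul, Finset.mul_sum]
  simp_rw [Finset.sum_comm (s := Finset.univ) (t := s)]

theorem itri_sum3 {v : ι → E3 → E3} {w φ : E3 → E3} (h : ∀ l ∈ s, IsT (v l)) (hw : IsT w)
    (hφ : IsT φ) : itri w φ (∑ l ∈ s, v l) = ∑ l ∈ s, itri w φ (v l) := by
  simp only [itri_eq]
  rw [← integral_finsetSum _ (fun l hl => int_d3 hw hφ (h l hl))]
  congr 1
  ext x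
  simp only [d3, sum_jac_coord s h, Finset.mul_sum]
  simp_rw [Finset.sum_comm (s := Finset.univ) (t := s)]

variable (c : ℝ) (v w φ : E3 → E3)

theorem il2_smul_left : il2 (c • v) w = c * il2 v w := by
  simp only [il2_eq]
  rw [← integral_const_mul]
  congr 1
  ext x
  simp only [d2, Pi.smul_apply, PiLp.smul_apply, smul_eq_mul, Finset.mul_sum]
  exact Finset.sum_congr rfl (fun i _ => by ring)

theorem il2_smul_right : il2 v (c • w) = c * il2 v w := by
  rw [il2_comm, il2_smul_left, il2_comm]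

theorem ih1_smul_left : ih1 (c • v) w = c * ih1 v w := by
  simp only [ih1_eq]
  rw [← integral_const_mul]
  congr 1
  ext x
  simp only [dH, jac_smul, PiLp.smul_apply, smul_eq_mul, Finset.mul_sum]
  exact Finset.sum_congr rfl (fun i _ => Finset.sum_congr rfl (fun j _ => by ring))

theorem ih1_smul_right : ih1 v (c • w) = c * ih1 v w := by
  rw [ih1_comm, ih1_smul_left, ih1_comm]

theorem itri_smul1 : itri (c • v) w φ = c * itri v w φ := by
  simp only [itri_eq]
  rw [← integral_const_mul]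
  congr 1
  ext x
  simp only [d3, Pi.smul_apply, PiLp.smul_apply, smul_eq_mul, Finset.mul_sum]
  exact Finset.sum_congr rfl (fun i _ => Finset.sum_congr rfl (fun j _ => by ring))

theorem itri_smul2 : itri v (c • w) φ = c * itri v w φ := by
  simp only [itri_eq]
  rw [← integral_const_mul]
  congr 1
  ext x
  simp only [d3, Pi.smul_apply, PiLp.smul_apply, smul_eq_mul, Finset.mul_sum]
  exact Finset.sum_congr rfl (fun i _ => Finset.sum_congr rfl (fun j _ => by ring))

theorem itri_smul3 : itri v w (c • φ) = c * itri v w φ := by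
  simp only [itri_eq]
  rw [← integral_const_mul]
  congr 1
  ext x
  simp only [d3, jac_smul, PiLp.smul_apply, smul_eq_mul, Finset.mul_sum]
  exact Finset.sum_congr rfl (fun i _ => Finset.sum_congr rfl (fun j _ => by ring))

end alg

end Pool.Agent.T2H10.Geom
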