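import Mathlib
import Pool.Agent.T2H10.Geom1

/-!
Geometry of the cradle, part 2: integration by parts, antisymmetry, scaling, strain fields.
-/

set_option maxHeartbeats 1000000

open MeasureTheory Set Filter Topology
open scoped InnerProductSpace ENNReal ContDiff NNReal

namespace Pool.Agent.T2H10.Geom

open H772R2.NS

theorem int_fderiv_zero {f : E3 → ℝ} (hf : ContDiff ℝ ∞ f) (hc : HasCompactSupport f) (j : Fin 3) :
    ∫ x, fderiv ℝ f x (ev j) = 0 := by
  have hd : Continuous (fun x => fderiv ℝ f x (ev j)) :=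
    (hf.continuous_fderiv (by simp)).clm_apply continuous_const
  have hdc : HasCompactSupport (fun x => fderiv ℝ f x (ev j)) := hc.fderiv_apply ℝ _
  have h := integral_mul_fderiv_eq_neg_fderiv_mul_of_integrable (μ := (volume : Measure E3))
    (f := fun _ => (1 : ℝ)) (g := f) (v := ev j) (by simp)
    (by simpa using hd.integrable_of_hasCompactSupport hdc)
    (by simpa using hf.continuous.integrable_of_hasCompactSupport hc)
    (by intro x _; exact differentiableAt_const _)
    (by intro x _; exact (hf.differentiable (by simp)) x)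
  simpa using h

/-- a divergence free test field is orthogonal to gradients -/
theorem grad_orth {w : E3 → E3} (hw : IsT w) {Q : E3 → ℝ} (hQ : ContDiff ℝ ∞ Q) :
    ∫ x, ∑ j, w x j * fderiv ℝ Q x (ev j) = 0 := by
  have hQd : ∀ j, Continuous (fun x => fderiv ℝ Q x (ev j)) := fun j =>
    (hQ.continuous_fderiv (by simp)).clm_apply continuous_const
  have hint : ∀ j ∈ Finset.univ, Integrable (fun x => w x j * fderiv ℝ Q x (ev j)) := fun j _ =>
    ((cont_coord hw j).mul (hQd j)).integrable_of_hasCompactSupport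
      ((hasCompactSupport_coord hw.compact j).mul_right)
  have hint2 : ∀ j ∈ Finset.univ, Integrable (fun x => jac w x (j, j) * Q x) := fun j _ => by
    refine ((cont_jac hw j j).mul hQ.continuous).integrable_of_hasCompactSupport ?_
    refine (hasCompactSupport_jac hw.compact).mono (fun x hx => ?_)
    intro h0; apply hx; simp [h0]
  have hibp : ∀ j, ∫ x, w x j * fderiv ℝ Q x (ev j) = - ∫ x, jac w x (j, j) * Q x := by
    intro j
    have h := integral_mul_fderiv_eq_neg_fderiv_mul_of_integrable (μ := (volume : Measure E3))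
      (f := fun x => w x j) (g := Q) (v := ev j)
      (by
        have := hint2 j (Finset.mem_univ _)
        simpa only [jac_coord hw.smooth] using this)
      (hint j (Finset.mem_univ _))
      (((cont_coord hw j).mul hQ.continuous).integrable_of_hasCompactSupport
        ((hasCompactSupport_coord hw.compact j).mul_right))
      (by intro x _; exact ((contDiff_coord hw.smooth j).differentiable (by simp)) x)
      (by intro x _; exact (hQ.differentiable (by simp)) x)
    rw [h]
    simp only [jac_coord hw.smooth]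
  rw [integral_finsetSum _ hint]
  simp_rw [hibp]
  rw [Finset.sum_neg_distrib, ← integral_finsetSum _ hint2]
  have hz : ∀ x, ∑ j, jac w x (j, j) * Q x = 0 := by
    intro x
    rw [← Finset.sum_mul, hw.divfree x, zero_mul]
  simp [hz]

/-- antisymmetry of the trilinear form -/
theorem itri_anti {v w φ : E3 → E3} (hv : IsT v) (hw : IsT w) (hφ : IsT φ) :
    itri v w φ = - itri φ w v := by
  have hvd : ∀ i x, DifferentiableAt ℝ (fun x => v x i) x := fun i x =>
    ((contDiff_coord hv.smooth i).differentiable (by simp)) x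
  have hφd : ∀ i x, DifferentiableAt ℝ (fun x => φ x i) x := fun i x =>
    ((contDiff_coord hφ.smooth i).differentiable (by simp)) x
  let Q : E3 → ℝ := fun x => ∑ i, v x i * φ x i
  have hQ : ContDiff ℝ ∞ Q :=
    ContDiff.sum (fun i _ => (contDiff_coord hv.smooth i).mul (contDiff_coord hφ.smooth i))
  have hQd : ∀ x j, fderiv ℝ Q x (ev j) = ∑ i, (v x i * jac φ x (i, j) + φ x i * jac v x (i, j)) := by
    intro x j
    have h1 : HasFDerivAt Q (∑ i, (v x i • fderiv ℝ (fun y => φ y i) x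
        + φ x i • fderiv ℝ (fun y => v y i) x)) x := by
      have := HasFDerivAt.fun_sum (u := Finset.univ) (fun i (_ : i ∈ (Finset.univ : Finset (Fin 3))) =>
        ((hvd i x).hasFDerivAt.mul (hφd i x).hasFDerivAt))
      exact this
    rw [h1.fderiv]
    simp only [sum_apply, add_apply, smul_apply, smul_eq_mul, jac_coord hv.smooth, jac_coord hφ.smooth]
  have h0 := grad_orth hw hQ
  have h1 : (fun x => ∑ j, w x j * fderiv ℝ Q x (ev j)) = fun x => d3 v w φ x + d3 φ w v x := by
    ext x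
    simp only [hQd, d3, Fin.sum_univ_three]
    ring
  rw [h1, integral_add (int_d3 hv hw hφ) (int_d3 hφ hw hv)] at h0
  simp only [itri_eq]
  linarith

theorem itri_self {v w : E3 → E3} (hv : IsT v) (hw : IsT w) : itri v w v = 0 := by
  have := itri_anti hv hw hv
  linarith

theorem il2_self_nonneg (v : E3 → E3) : 0 ≤ il2 v v := by
  rw [il2_eq]
  refine integral_nonneg (fun x => ?_)
  exact Finset.sum_nonneg (fun i _ => mul_self_nonneg _)

theorem ih1_self_nonneg (v : E3 → E3) : 0 ≤ ih1 v v := by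
  rw [ih1_eq]
  refine integral_nonneg (fun x => ?_)
  exact Finset.sum_nonneg (fun i _ => Finset.sum_nonneg (fun j _ => mul_self_nonneg _))

theorem il2_pos {v : E3 → E3} (hv : IsT v) {x : E3} (hx : v x ≠ 0) : 0 < il2 v v := by
  rw [il2_eq]
  refine (cont_d2 hv hv).integral_pos_of_hasCompactSupport_nonneg_nonzero (supp_d2 hv)
    (fun x => Finset.sum_nonneg (fun i _ => mul_self_nonneg _)) (x := x) ?_
  intro h0
  apply hx
  have h1 := (Finset.sum_eq_zero_iff_of_nonneg (fun i _ => mul_self_nonneg (v x i))).mp h0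
  ext i
  have := h1 i (Finset.mem_univ _)
  simpa using this

theorem ih1_pos {v : E3 → E3} (hv : IsT v) {x : E3} {i j : Fin 3} (hx : jac v x (i, j) ≠ 0) :
    0 < ih1 v v := by
  rw [ih1_eq]
  refine (cont_dH hv hv).integral_pos_of_hasCompactSupport_nonneg_nonzero (supp_dH hv)
    (fun x => Finset.sum_nonneg (fun i _ => Finset.sum_nonneg (fun j _ => mul_self_nonneg _)))
    (x := x) ?_
  intro h0
  apply hx
  have h1 := (Finset.sum_eq_zero_iff_of_nonneg (fun i _ => Finset.sum_nonneg (fun j _ =>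
    mul_self_nonneg (jac v x (i, j))))).mp h0 i (Finset.mem_univ _)
  have h2 := (Finset.sum_eq_zero_iff_of_nonneg (fun j _ =>
    mul_self_nonneg (jac v x (i, j)))).mp h1 j (Finset.mem_univ _)
  simpa using h2

/-- the linear strain field centred at `(s, 0, 0)` -/
noncomputable def lin (s : ℝ) (x : E3) : E3 := !₂[x 0 - s, -x 1, 0]

theorem lin_0 (s : ℝ) (x : E3) : lin s x 0 = x 0 - s := rfl
theorem lin_1 (s : ℝ) (x : E3) : lin s x 1 = - x 1 := rfl
theorem lin_2 (s : ℝ) (x : E3) : lin s x 2 = 0 := rfl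

theorem contDiff_lin (s : ℝ) : ContDiff ℝ ∞ (lin s) := by
  rw [contDiff_euclidean]
  intro i
  have hc : ∀ j : Fin 3, ContDiff ℝ ∞ (fun x : E3 => x j) := fun j =>
    (EuclideanSpace.proj (𝕜 := ℝ) j : E3 →L[ℝ] ℝ).contDiff
  fin_cases i
  · exact (hc 0).sub contDiff_const
  · exact (hc 1).neg
  · exact contDiff_const

theorem fderiv_lin (s : ℝ) (x : E3) (i j : Fin 3) :
    jac (lin s) x (i, j) = if i = j then (if i = 0 then 1 else if i = 1 then -1 else 0) else 0 := by
  rw [jac_coord (contDiff_lin s)]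
  have hc : ∀ j : Fin 3, HasFDerivAt (fun x : E3 => x j)
      (EuclideanSpace.proj (𝕜 := ℝ) j : E3 →L[ℝ] ℝ) x := fun j =>
    (EuclideanSpace.proj (𝕜 := ℝ) j : E3 →L[ℝ] ℝ).hasFDerivAt
  fin_cases i
  · have : HasFDerivAt (fun y : E3 => lin s y 0) (EuclideanSpace.proj (𝕜 := ℝ) 0 : E3 →L[ℝ] ℝ) x :=
      (hc 0).sub_const s
    show fderiv ℝ (fun y : E3 => lin s y 0) x (ev j) = _
    rw [this.fderiv]
    fin_cases j <;> simp
  · have : HasFDerivAt (fun y : E3 => lin s y 1) (-(EuclideanSpace.proj (𝕜 := ℝ) 1 : E3 →L[ℝ] ℝ)) x :=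
      (hc 1).neg
    show fderiv ℝ (fun y : E3 => lin s y 1) x (ev j) = _
    rw [this.fderiv]
    fin_cases j <;> simp
  · have : HasFDerivAt (fun y : E3 => lin s y 2) (0 : E3 →L[ℝ] ℝ) x :=
      hasFDerivAt_const _ _
    show fderiv ℝ (fun y : E3 => lin s y 2) x (ev j) = _
    rw [this.fderiv]
    fin_cases j <;> simp

/-- `E` is the strain field on an open set containing the support of `a` -/
structure Strain (s : ℝ) (E a : E3 → E3) : Prop where
  hE : IsT E
  ha : IsT a
  eq : ∃ O : Set E3, IsOpen O ∧ tsupport a ⊆ O ∧ ∀ x ∈ O, E x = lin s x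

/-- `∫ a₀² - a₁²` -/
noncomputable def mom (a : E3 → E3) : ℝ := ∫ x, (a x 0 ^ 2 - a x 1 ^ 2)

namespace Strain

variable {s : ℝ} {E a : E3 → E3} (h : Strain s E a)
include h

theorem cases (x : E3) : (a x = 0 ∧ jac a x = 0) ∨ (E x = lin s x ∧ jac E x = jac (lin s) x) := by
  obtain ⟨O, h1, h2, h3⟩ := h.eq
  by_cases hx : x ∈ tsupport a
  · right
    refine ⟨h3 x (h2 hx), ?_⟩
    have : E =ᶠ[𝓝 x] lin s := by
      filter_upwards [h1.mem_nhds (h2 hx)] with y hy
      exact h3 y hy
    unfold jac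
    rw [this.fderiv_eq]
  · left
    refine ⟨image_eq_zero_of_notMem_tsupport hx, ?_⟩
    exact image_eq_zero_of_notMem_tsupport (fun hc => hx (tsupport_jac_subset hc))

theorem il2_zero : il2 E a = 0 := by
  let Q : E3 → ℝ := fun x => ((x 0 - s) ^ 2 - x 1 ^ 2) / 2
  have hc : ∀ j : Fin 3, ContDiff ℝ ∞ (fun x : E3 => x j) := fun j =>
    (EuclideanSpace.proj (𝕜 := ℝ) j : E3 →L[ℝ] ℝ).contDiff
  have hQ : ContDiff ℝ ∞ Q := by
    refine ContDiff.div_const ?_ 2
    exact (((hc 0).sub contDiff_const).pow 2).sub ((hc 1).pow 2)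
  have hd : ∀ x j, fderiv ℝ Q x (ev j) = lin s x j := by
    intro x j
    have e : ∀ j : Fin 3, HasFDerivAt (fun x : E3 => x j)
      (EuclideanSpace.proj (𝕜 := ℝ) j : E3 →L[ℝ] ℝ) x := fun j =>
      (EuclideanSpace.proj (𝕜 := ℝ) j : E3 →L[ℝ] ℝ).hasFDerivAt
    have e1 : HasFDerivAt Q ((x 0 - s) • (EuclideanSpace.proj (𝕜 := ℝ) 0 : E3 →L[ℝ] ℝ)
        - x 1 • (EuclideanSpace.proj (𝕜 := ℝ) 1 : E3 →L[ℝ] ℝ)) x := by
      have h2 := ((((e 0).sub_const s).pow 2).sub ((e 1).pow 2)).const_mul (1 / 2)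
      have h3 : Q = fun y : E3 => 1 / 2 *
          ((fun x : E3 => (x.ofLp 0 - s) ^ 2) - fun x : E3 => x.ofLp 1 ^ 2) y := by
        ext y; simp [Q]; ring
      rw [h3]
      refine h2.congr_fderiv ?_
      ext y; simp; ring
    rw [e1.fderiv]
    fin_cases j <;> simp [lin]
  have h0 := grad_orth h.ha hQ
  rw [il2_eq, ← h0]
  congr 1
  ext x
  simp only [hd, d2]
  rcases h.cases x with ⟨h1, _⟩ | ⟨h1, _⟩
  · simp [h1]
  · rw [h1]
    exact Finset.sum_congr rfl (fun i _ => by ring)

theorem ih1_zero : ih1 E a = 0 := by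
  rw [ih1_eq]
  have h1 : dH E a = fun x => fderiv ℝ (fun y => a y 0) x (ev 0)
      - fderiv ℝ (fun y => a y 1) x (ev 1) := by
    ext x
    rw [← jac_coord h.ha.smooth, ← jac_coord h.ha.smooth, dH]
    rcases h.cases x with ⟨_, h2⟩ | ⟨_, h2⟩
    · simp [h2]
    · simp only [h2, fderiv_lin, Fin.sum_univ_three]
      simp
      ring
  have i1 : ∀ j, Integrable (fun x => fderiv ℝ (fun y => a y j) x (ev j)) := fun j => by
    have : (fun x => fderiv ℝ (fun y => a y j) x (ev j)) = fun x => jac a x (j, j) := by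
      ext x; rw [jac_coord h.ha.smooth]
    rw [this]
    refine (cont_jac h.ha j j).integrable_of_hasCompactSupport ?_
    refine (hasCompactSupport_jac h.ha.compact).mono (fun x hx => ?_)
    intro h0; apply hx; simp [h0]
  rw [h1, integral_sub (i1 0) (i1 1),
    int_fderiv_zero (contDiff_coord h.ha.smooth 0) (hasCompactSupport_coord h.ha.compact 0),
    int_fderiv_zero (contDiff_coord h.ha.smooth 1) (hasCompactSupport_coord h.ha.compact 1), sub_zero]

theorem itri_aEE : itri a E E = 0 := by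
  let Q : E3 → ℝ := fun x => ((x 0 - s) ^ 2 + x 1 ^ 2) / 2
  have hc : ∀ j : Fin 3, ContDiff ℝ ∞ (fun x : E3 => x j) := fun j =>
    (EuclideanSpace.proj (𝕜 := ℝ) j : E3 →L[ℝ] ℝ).contDiff
  have hQ : ContDiff ℝ ∞ Q := by
    refine ContDiff.div_const ?_ 2
    exact (((hc 0).sub contDiff_const).pow 2).add ((hc 1).pow 2)
  have hd : ∀ x, fderiv ℝ Q x (ev 0) = x 0 - s ∧ fderiv ℝ Q x (ev 1) = x 1 ∧
      fderiv ℝ Q x (ev 2) = 0 := by
    intro x
    have e : ∀ j : Fin 3, HasFDerivAt (fun x : E3 => x j)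
      (EuclideanSpace.proj (𝕜 := ℝ) j : E3 →L[ℝ] ℝ) x := fun j =>
      (EuclideanSpace.proj (𝕜 := ℝ) j : E3 →L[ℝ] ℝ).hasFDerivAt
    have e1 : HasFDerivAt Q ((x 0 - s) • (EuclideanSpace.proj (𝕜 := ℝ) 0 : E3 →L[ℝ] ℝ)
        + x 1 • (EuclideanSpace.proj (𝕜 := ℝ) 1 : E3 →L[ℝ] ℝ)) x := by
      have h2 := ((((e 0).sub_const s).pow 2).add ((e 1).pow 2)).const_mul (1 / 2)
      have h3 : Q = fun y : E3 => 1 / 2 *
          ((fun x : E3 => (x.ofLp 0 - s) ^ 2) + fun x : E3 => x.ofLp 1 ^ 2) y := by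
        ext y; simp [Q]; ring
      rw [h3]
      refine h2.congr_fderiv ?_
      ext y; simp; ring
    rw [e1.fderiv]
    simp
  have h0 := grad_orth h.ha hQ
  rw [itri_eq, ← h0]
  congr 1
  ext x
  obtain ⟨d0, d1, d2⟩ := hd x
  simp only [Fin.sum_univ_three, d0, d1, d2, d3]
  rcases h.cases x with ⟨h1, _⟩ | ⟨h1, h2⟩
  · simp [h1]
  · simp only [h1, h2, fderiv_lin, lin_0, lin_1, lin_2]
    simp

theorem itri_EEa : itri E E a = 0 := by
  rw [itri_anti h.hE h.hE h.ha, h.itri_aEE, neg_zero]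

theorem itri_aaE : itri a a E = mom a := by
  rw [itri_eq, mom]
  congr 1
  ext x
  simp only [Fin.sum_univ_three, d3]
  rcases h.cases x with ⟨h1, _⟩ | ⟨h1, h2⟩
  · simp [h1]
  · simp only [h2, fderiv_lin]
    simp
    ring

theorem itri_Eaa : itri E a a = - mom a := by
  rw [itri_anti h.hE h.ha h.ha, h.itri_aaE]

end Strain

end Pool.Agent.T2H10.Geom
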