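import Mathlib
import Pool.Agent.T2H10.Geom2

/-!
Geometry of the cradle, part 3: product fields.
-/

set_option maxHeartbeats 1000000

open MeasureTheory Set Filter Topology
open scoped InnerProductSpace ENNReal ContDiff NNReal

namespace Pool.Agent.T2H10.Geom

open H772R2.NS

/-- smooth function of one variable supported in `[lo, hi]` -/
structure S1 (f : ℝ → ℝ) (lo hi : ℝ) : Prop where
  smooth : ContDiff ℝ ∞ f
  supp : ∀ t, t ∉ Icc lo hi → f t = 0

theorem S1.contDiff_deriv {f : ℝ → ℝ} {lo hi : ℝ} (h : S1 f lo hi) : ContDiff ℝ ∞ (deriv f) :=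
  (contDiff_infty_iff_deriv.mp h.smooth).2

theorem S1.deriv_supp {f : ℝ → ℝ} {lo hi : ℝ} (h : S1 f lo hi) :
    ∀ t, t ∉ Icc lo hi → deriv f t = 0 := by
  intro t ht
  have h1 : f =ᶠ[𝓝 t] fun _ => 0 := by
    filter_upwards [isClosed_Icc.isOpen_compl.mem_nhds ht] with y hy
    exact h.supp y hy
  rw [h1.deriv_eq, deriv_const]

theorem S1.differentiable {f : ℝ → ℝ} {lo hi : ℝ} (h : S1 f lo hi) : Differentiable ℝ f :=
  h.smooth.differentiable (by simp)

theorem S1.compact {f : ℝ → ℝ} {lo hi : ℝ} (h : S1 f lo hi) : HasCompactSupport f :=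
  HasCompactSupport.intro isCompact_Icc (fun t ht => h.supp t ht)

/-- product field -/
noncomputable def pf (g0 g1 g2 : ℝ → ℝ) (x : E3) : E3 :=
  !₂[g0 (x 0) * deriv g1 (x 1) * g2 (x 2), -(deriv g0 (x 0) * g1 (x 1) * g2 (x 2)), 0]

theorem pf_0 (g0 g1 g2 : ℝ → ℝ) (x : E3) :
    pf g0 g1 g2 x 0 = g0 (x 0) * deriv g1 (x 1) * g2 (x 2) := rfl
theorem pf_1 (g0 g1 g2 : ℝ → ℝ) (x : E3) :
    pf g0 g1 g2 x 1 = -(deriv g0 (x 0) * g1 (x 1) * g2 (x 2)) := rfl
theorem pf_2 (g0 g1 g2 : ℝ → ℝ) (x : E3) : pf g0 g1 g2 x 2 = 0 := rfl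

theorem contDiff_prod3 {f0 f1 f2 : ℝ → ℝ} (h0 : ContDiff ℝ ∞ f0) (h1 : ContDiff ℝ ∞ f1)
    (h2 : ContDiff ℝ ∞ f2) : ContDiff ℝ ∞ (fun x : E3 => f0 (x 0) * f1 (x 1) * f2 (x 2)) := by
  have hc : ∀ j : Fin 3, ContDiff ℝ ∞ (fun x : E3 => x j) := fun j =>
    (EuclideanSpace.proj (𝕜 := ℝ) j : E3 →L[ℝ] ℝ).contDiff
  exact ((h0.comp (hc 0)).mul (h1.comp (hc 1))).mul (h2.comp (hc 2))

theorem fderiv_prod3 {f0 f1 f2 : ℝ → ℝ} (h0 : Differentiable ℝ f0) (h1 : Differentiable ℝ f1)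
    (h2 : Differentiable ℝ f2) (x : E3) (j : Fin 3) :
    fderiv ℝ (fun x : E3 => f0 (x 0) * f1 (x 1) * f2 (x 2)) x (ev j)
      = if j = 0 then deriv f0 (x 0) * f1 (x 1) * f2 (x 2)
        else if j = 1 then f0 (x 0) * deriv f1 (x 1) * f2 (x 2)
        else f0 (x 0) * f1 (x 1) * deriv f2 (x 2) := by
  have hc : ∀ j : Fin 3, HasFDerivAt (fun x : E3 => x j)
      (EuclideanSpace.proj (𝕜 := ℝ) j : E3 →L[ℝ] ℝ) x := fun j =>
    (EuclideanSpace.proj (𝕜 := ℝ) j : E3 →L[ℝ] ℝ).hasFDerivAt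
  have e0 : HasFDerivAt (fun x : E3 => f0 (x 0)) (deriv f0 (x 0) •
      (EuclideanSpace.proj (𝕜 := ℝ) 0 : E3 →L[ℝ] ℝ)) x :=
    (h0 (x 0)).hasDerivAt.comp_hasFDerivAt x (hc 0)
  have e1 : HasFDerivAt (fun x : E3 => f1 (x 1)) (deriv f1 (x 1) •
      (EuclideanSpace.proj (𝕜 := ℝ) 1 : E3 →L[ℝ] ℝ)) x :=
    (h1 (x 1)).hasDerivAt.comp_hasFDerivAt x (hc 1)
  have e2 : HasFDerivAt (fun x : E3 => f2 (x 2)) (deriv f2 (x 2) •
      (EuclideanSpace.proj (𝕜 := ℝ) 2 : E3 →L[ℝ] ℝ)) x :=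
    (h2 (x 2)).hasDerivAt.comp_hasFDerivAt x (hc 2)
  have e := (e0.mul e1).mul e2
  have e' : fderiv ℝ (fun x : E3 => f0 (x 0) * f1 (x 1) * f2 (x 2)) x = _ := e.fderiv
  rw [e']
  fin_cases j <;> simp <;> ring

theorem contDiff_pf {g0 g1 g2 : ℝ → ℝ} {a0 b0 a1 b1 a2 b2 : ℝ} (h0 : S1 g0 a0 b0)
    (h1 : S1 g1 a1 b1) (h2 : S1 g2 a2 b2) : ContDiff ℝ ∞ (pf g0 g1 g2) := by
  rw [contDiff_euclidean]
  intro i
  fin_cases i
  · exact contDiff_prod3 h0.smooth h1.contDiff_deriv h2.smooth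
  · exact (contDiff_prod3 h0.contDiff_deriv h1.smooth h2.smooth).neg
  · exact contDiff_const

theorem divfree_pf {g0 g1 g2 : ℝ → ℝ} {a0 b0 a1 b1 a2 b2 : ℝ} (h0 : S1 g0 a0 b0)
    (h1 : S1 g1 a1 b1) (h2 : S1 g2 a2 b2) (x : E3) : ∑ i, jac (pf g0 g1 g2) x (i, i) = 0 := by
  simp only [jac_coord (contDiff_pf h0 h1 h2), Fin.sum_univ_three, pf_0, pf_1, pf_2]
  have d1 : Differentiable ℝ (deriv g1) := h1.contDiff_deriv.differentiable (by simp)
  have d0 : Differentiable ℝ (deriv g0) := h0.contDiff_deriv.differentiable (by simp)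
  rw [fderiv_prod3 h0.differentiable d1 h2.differentiable]
  have : fderiv ℝ (fun y : E3 => -(deriv g0 (y 0) * g1 (y 1) * g2 (y 2))) x
      = - fderiv ℝ (fun y : E3 => deriv g0 (y 0) * g1 (y 1) * g2 (y 2)) x := fderiv_neg
  rw [this, neg_apply, fderiv_prod3 d0 h1.differentiable h2.differentiable]
  simp

/-- boxes -/
def box (lo hi r : ℝ) : Set E3 := {x | x 0 ∈ Icc lo hi ∧ x 1 ∈ Icc (-r) r ∧ x 2 ∈ Icc (-r) r}

theorem isClosed_box (lo hi r : ℝ) : IsClosed (box lo hi r) := by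
  have hc : ∀ j : Fin 3, Continuous (fun x : E3 => x j) := fun j =>
    (EuclideanSpace.proj (𝕜 := ℝ) j : E3 →L[ℝ] ℝ).continuous
  exact (isClosed_Icc.preimage (hc 0)).inter ((isClosed_Icc.preimage (hc 1)).inter
    (isClosed_Icc.preimage (hc 2)))

theorem norm_le_abs (x : E3) : ‖x‖ ≤ |x 0| + |x 1| + |x 2| := by
  have h : ‖x‖ ^ 2 ≤ (|x 0| + |x 1| + |x 2|) ^ 2 := by
    rw [norm_sq_E3, Fin.sum_univ_three, ← sq_abs (x 0), ← sq_abs (x 1), ← sq_abs (x 2)]
    have h0 := abs_nonneg (x 0)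
    have h1 := abs_nonneg (x 1)
    have h2 := abs_nonneg (x 2)
    nlinarith [mul_nonneg h0 h1, mul_nonneg h0 h2, mul_nonneg h1 h2]
  exact (pow_le_pow_iff_left₀ (norm_nonneg _) (by positivity) (by norm_num)).mp h

theorem isCompact_box (lo hi r : ℝ) : IsCompact (box lo hi r) := by
  refine Metric.isCompact_of_isClosed_isBounded (isClosed_box lo hi r) ?_
  refine (Metric.isBounded_closedBall (x := (0 : E3)) (r := |lo| + |hi| + |r| + |r|)).subset ?_
  rintro x ⟨⟨h1, h2⟩, ⟨h3, h4⟩, ⟨h5, h6⟩⟩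
  rw [mem_closedBall_zero_iff]
  refine (norm_le_abs x).trans ?_
  have k0 : |x 0| ≤ |lo| + |hi| := by
    rw [abs_le]
    constructor
    · linarith [neg_abs_le lo, abs_nonneg hi]
    · linarith [le_abs_self hi, abs_nonneg lo]
  have k1 : |x 1| ≤ |r| := by
    rw [abs_le]
    constructor
    · linarith [le_abs_self r]
    · linarith [le_abs_self r]
  have k2 : |x 2| ≤ |r| := by
    rw [abs_le]
    constructor
    · linarith [le_abs_self r]
    · linarith [le_abs_self r]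
  linarith

theorem pf_zero {g0 g1 g2 : ℝ → ℝ} {lo hi r : ℝ} (h0 : S1 g0 lo hi)
    (h1 : S1 g1 (-r) r) (h2 : S1 g2 (-r) r) {x : E3} (hx : x ∉ box lo hi r) :
    pf g0 g1 g2 x = 0 := by
  have h : x 0 ∉ Icc lo hi ∨ x 1 ∉ Icc (-r) r ∨ x 2 ∉ Icc (-r) r := by
    by_contra hcon
    push Not at hcon
    exact hx ⟨hcon.1, hcon.2.1, hcon.2.2⟩
  ext i
  rcases h with h | h | h
  · have e1 := h0.supp _ h
    have e2 := h0.deriv_supp _ h
    fin_cases i
    · show pf g0 g1 g2 x 0 = 0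
      rw [pf_0, e1]; ring
    · show pf g0 g1 g2 x 1 = 0
      rw [pf_1, e2]; ring
    · rfl
  · have e1 := h1.supp _ h
    have e2 := h1.deriv_supp _ h
    fin_cases i
    · show pf g0 g1 g2 x 0 = 0
      rw [pf_0, e2]; ring
    · show pf g0 g1 g2 x 1 = 0
      rw [pf_1, e1]; ring
    · rfl
  · have e1 := h2.supp _ h
    fin_cases i
    · show pf g0 g1 g2 x 0 = 0
      rw [pf_0, e1]; ring
    · show pf g0 g1 g2 x 1 = 0
      rw [pf_1, e1]; ring
    · rfl

theorem tsupport_pf {g0 g1 g2 : ℝ → ℝ} {lo hi r : ℝ} (h0 : S1 g0 lo hi)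
    (h1 : S1 g1 (-r) r) (h2 : S1 g2 (-r) r) : tsupport (pf g0 g1 g2) ⊆ box lo hi r := by
  refine closure_minimal ?_ (isClosed_box lo hi r)
  intro x hx
  by_contra hc
  exact hx (pf_zero h0 h1 h2 hc)

theorem isT_pf {g0 g1 g2 : ℝ → ℝ} {lo hi r : ℝ} (h0 : S1 g0 lo hi)
    (h1 : S1 g1 (-r) r) (h2 : S1 g2 (-r) r) : IsT (pf g0 g1 g2) where
  smooth := contDiff_pf h0 h1 h2
  compact := HasCompactSupport.intro (isCompact_box lo hi r) (fun _ hx => pf_zero h0 h1 h2 hx)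
  supp := subset_univ _
  divfree := divfree_pf h0 h1 h2

theorem integral_prod3 (f0 f1 f2 : ℝ → ℝ) :
    ∫ x : E3, f0 (x 0) * f1 (x 1) * f2 (x 2) = (∫ t, f0 t) * (∫ t, f1 t) * (∫ t, f2 t) := by
  rw [← (PiLp.volume_preserving_toLp (Fin 3)).integral_comp
    (MeasurableEquiv.toLp 2 (Fin 3 → ℝ)).measurableEmbedding]
  have := integral_fintype_prod_volume_eq_prod (𝕜 := ℝ) (ι := Fin 3) (E := fun _ => ℝ)
    (f := ![f0, f1, f2])
  simp only [Fin.prod_univ_three] at this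
  exact this

theorem int_mul3 {f0 f1 f2 : ℝ → ℝ} (h0 : Continuous f0) (h1 : Continuous f1)
    (h2 : Continuous f2) {lo hi r : ℝ} (s0 : ∀ t, t ∉ Icc lo hi → f0 t = 0)
    (s1 : ∀ t, t ∉ Icc (-r) r → f1 t = 0) (s2 : ∀ t, t ∉ Icc (-r) r → f2 t = 0) :
    Integrable (fun x : E3 => f0 (x 0) * f1 (x 1) * f2 (x 2)) := by
  have hc : ∀ j : Fin 3, Continuous (fun x : E3 => x j) := fun j =>
    (EuclideanSpace.proj (𝕜 := ℝ) j : E3 →L[ℝ] ℝ).continuous
  refine Continuous.integrable_of_hasCompactSupport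
    (((h0.comp (hc 0)).mul (h1.comp (hc 1))).mul (h2.comp (hc 2))) ?_
  refine HasCompactSupport.intro (isCompact_box lo hi r) (fun x hx => ?_)
  have h : x 0 ∉ Icc lo hi ∨ x 1 ∉ Icc (-r) r ∨ x 2 ∉ Icc (-r) r := by
    by_contra hcon
    push Not at hcon
    exact hx ⟨hcon.1, hcon.2.1, hcon.2.2⟩
  rcases h with h | h | h
  · simp [s0 _ h]
  · simp [s1 _ h]
  · simp [s2 _ h]

theorem mom_pf {g0 g1 g2 : ℝ → ℝ} {lo hi r : ℝ} (h0 : S1 g0 lo hi)
    (h1 : S1 g1 (-r) r) (h2 : S1 g2 (-r) r) :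
    mom (pf g0 g1 g2) = (∫ t, g0 t ^ 2) * (∫ t, deriv g1 t ^ 2) * (∫ t, g2 t ^ 2)
      - (∫ t, deriv g0 t ^ 2) * (∫ t, g1 t ^ 2) * (∫ t, g2 t ^ 2) := by
  rw [← integral_prod3, ← integral_prod3, ← integral_sub, mom]
  · congr 1
    ext x
    rw [pf_0, pf_1]
    ring
  · exact int_mul3 (h0.smooth.continuous.pow 2) (h1.contDiff_deriv.continuous.pow 2)
      (h2.smooth.continuous.pow 2) (lo := lo) (hi := hi) (r := r)
      (fun t ht => by show g0 t ^ 2 = 0; rw [h0.supp t ht]; norm_num)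
      (fun t ht => by show deriv g1 t ^ 2 = 0; rw [h1.deriv_supp t ht]; norm_num)
      (fun t ht => by show g2 t ^ 2 = 0; rw [h2.supp t ht]; norm_num)
  · exact int_mul3 (h0.contDiff_deriv.continuous.pow 2) (h1.smooth.continuous.pow 2)
      (h2.smooth.continuous.pow 2) (lo := lo) (hi := hi) (r := r)
      (fun t ht => by show deriv g0 t ^ 2 = 0; rw [h0.deriv_supp t ht]; norm_num)
      (fun t ht => by show g1 t ^ 2 = 0; rw [h1.supp t ht]; norm_num)
      (fun t ht => by show g2 t ^ 2 = 0; rw [h2.supp t ht]; norm_num)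

/-- the large bump: `1` on `[-4, 4]`, supported in `[-5, 5]` -/
noncomputable def bigB : ContDiffBump (0 : ℝ) := ⟨4, 5, by norm_num, by norm_num⟩

/-- the small bump: supported in `[-1/2, 1/2]` -/
noncomputable def smB : ContDiffBump (0 : ℝ) := ⟨1 / 4, 1 / 2, by norm_num, by norm_num⟩

theorem S1_big : S1 bigB (-5) 5 where
  smooth := bigB.contDiff
  supp := fun t ht => by
    apply bigB.zero_of_le_dist
    rw [Real.dist_eq, sub_zero]
    show (5 : ℝ) ≤ |t|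
    by_contra hc
    push Not at hc
    rw [abs_lt] at hc
    exact ht ⟨hc.1.le, hc.2.le⟩

theorem S1_sm : S1 smB (-(1 / 2)) (1 / 2) where
  smooth := smB.contDiff
  supp := fun t ht => by
    apply smB.zero_of_le_dist
    rw [Real.dist_eq, sub_zero]
    show (1 / 2 : ℝ) ≤ |t|
    by_contra hc
    push Not at hc
    rw [abs_lt] at hc
    exact ht ⟨hc.1.le, hc.2.le⟩

theorem S1.shift {f : ℝ → ℝ} {lo hi : ℝ} (h : S1 f lo hi) (s : ℝ) :
    S1 (fun t => f (t - s)) (lo + s) (hi + s) where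
  smooth := h.smooth.comp (contDiff_id.sub contDiff_const)
  supp := fun t ht => h.supp _ (fun hc => ht ⟨by linarith [hc.1], by linarith [hc.2]⟩)

theorem S1.widen {f : ℝ → ℝ} {lo hi : ℝ} (h : S1 f lo hi) :
    S1 (fun t => f (t / 2)) (2 * lo) (2 * hi) where
  smooth := h.smooth.comp (contDiff_id.div_const 2)
  supp := fun t ht => h.supp _ (fun hc => ht ⟨by linarith [hc.1], by linarith [hc.2]⟩)

theorem S1.mono {f : ℝ → ℝ} {lo hi lo' hi' : ℝ} (h : S1 f lo hi) (h1 : lo' ≤ lo) (h2 : hi ≤ hi') :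
    S1 f lo' hi' where
  smooth := h.smooth
  supp := fun _ ht => h.supp _ (fun hc => ht ⟨h1.trans hc.1, hc.2.trans h2⟩)

theorem S1.id_mul {f : ℝ → ℝ} {lo hi : ℝ} (h : S1 f lo hi) :
    S1 (fun t => t * f t) lo hi where
  smooth := contDiff_id.mul h.smooth
  supp := fun t ht => by rw [h.supp t ht, mul_zero]

/-- `K = ∫ g²` -/
noncomputable def KK : ℝ := ∫ t, smB t ^ 2
/-- `L = ∫ g'²` -/
noncomputable def LLL : ℝ := ∫ t, deriv smB t ^ 2

theorem KK_pos : 0 < KK := by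
  refine Continuous.integral_pos_of_hasCompactSupport_nonneg_nonzero (x := 0)
    (smB.continuous.pow 2) ?_ (fun t => sq_nonneg _) ?_
  · refine HasCompactSupport.intro (isCompact_Icc (a := -(1 / 2 : ℝ)) (b := 1 / 2)) (fun t ht => ?_)
    rw [S1_sm.supp t ht]; norm_num
  · have : smB 0 = 1 := smB.one_of_mem_closedBall (by
      rw [Metric.mem_closedBall, dist_self]; exact smB.rIn_pos.le)
    rw [this]; norm_num

theorem LLL_pos : 0 < LLL := by
  have hex : ∃ t, deriv smB t ≠ 0 := by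
    by_contra hcon
    push Not at hcon
    have h1 : smB 0 = smB 1 := is_const_of_deriv_eq_zero S1_sm.differentiable hcon 0 1
    have h2 : smB 0 = 1 := smB.one_of_mem_closedBall (by
      rw [Metric.mem_closedBall, dist_self]; exact smB.rIn_pos.le)
    have h3 : smB 1 = 0 := S1_sm.supp 1 (fun h => by have := h.2; norm_num at this)
    rw [h2, h3] at h1
    norm_num at h1
  obtain ⟨t, ht⟩ := hex
  refine Continuous.integral_pos_of_hasCompactSupport_nonneg_nonzero (x := t)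
    (S1_sm.contDiff_deriv.continuous.pow 2) ?_ (fun t => sq_nonneg _) ?_
  · refine HasCompactSupport.intro (isCompact_Icc (a := -(1 / 2 : ℝ)) (b := 1 / 2)) (fun t ht => ?_)
    rw [S1_sm.deriv_supp t ht]; norm_num
  · exact pow_ne_zero 2 ht

theorem int_shift_widen (F : ℝ → ℝ) (s : ℝ) : ∫ t, F ((t - s) / 2) = 2 * ∫ t, F t := by
  have h1 := integral_sub_right_eq_self (μ := (volume : Measure ℝ)) (fun t => F (t / 2)) s
  rw [h1, Measure.integral_comp_div]
  simp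

theorem int_shift (F : ℝ → ℝ) (s : ℝ) : ∫ t, F (t - s) = ∫ t, F t :=
  integral_sub_right_eq_self (μ := (volume : Measure ℝ)) F s

theorem deriv_shift (f : ℝ → ℝ) (s t : ℝ) : deriv (fun t => f (t - s)) t = deriv f (t - s) :=
  deriv_comp_sub_const f s t

theorem deriv_widen {f : ℝ → ℝ} (hf : Differentiable ℝ f) (s t : ℝ) :
    deriv (fun t => f ((t - s) / 2)) t = deriv f ((t - s) / 2) / 2 := by
  have h1 : HasDerivAt (fun t : ℝ => (t - s) / 2) (1 / 2) t :=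
    ((hasDerivAt_id t).sub_const s).div_const 2
  have h2 := (hf ((t - s) / 2)).hasDerivAt.comp t h1
  have h3 : deriv (fun t => f ((t - s) / 2)) t = _ := h2.deriv
  rw [h3]
  ring

/-- inner field with positive moment, centred at `(s, 0, 0)` -/
noncomputable def fb (s : ℝ) : E3 → E3 := pf (fun t => smB ((t - s) / 2)) smB smB

/-- inner field with negative moment, centred at `(s, 0, 0)` -/
noncomputable def fa (s : ℝ) : E3 → E3 := pf (fun t => smB (t - s)) (fun t => smB (t / 2)) smB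

/-- strain field centred at `(s, 0, 0)` -/
noncomputable def fE (s : ℝ) : E3 → E3 :=
  pf (fun t => (t - s) * bigB (t - s)) (fun t => t * bigB t) bigB

theorem S1_b0 (s : ℝ) : S1 (fun t => smB ((t - s) / 2)) (s - 1) (s + 1) := by
  have := S1_sm.widen.shift s
  exact this.mono (by linarith) (by linarith)

theorem S1_a0 (s : ℝ) : S1 (fun t => smB (t - s)) (s - 1) (s + 1) := by
  have := S1_sm.shift s
  exact this.mono (by linarith) (by linarith)

theorem S1_a1 : S1 (fun t => smB (t / 2)) (-1) 1 := by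
  have := S1_sm.widen
  exact this.mono (by linarith) (by linarith)

theorem S1_sm1 : S1 smB (-1) 1 := S1_sm.mono (by norm_num) (by norm_num)

theorem S1_E0 (s : ℝ) : S1 (fun t => (t - s) * bigB (t - s)) (s - 5) (s + 5) := by
  have := S1_big.id_mul.shift s
  exact this.mono (by linarith) (by linarith)

theorem isT_fb (s : ℝ) : IsT (fb s) := isT_pf (S1_b0 s) S1_sm1 S1_sm1
theorem isT_fa (s : ℝ) : IsT (fa s) := isT_pf (S1_a0 s) S1_a1 S1_sm1
theorem isT_fE (s : ℝ) : IsT (fE s) := isT_pf (S1_E0 s) S1_big.id_mul S1_big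

theorem supp_fb (s : ℝ) : tsupport (fb s) ⊆ box (s - 1) (s + 1) 1 :=
  tsupport_pf (S1_b0 s) S1_sm1 S1_sm1
theorem supp_fa (s : ℝ) : tsupport (fa s) ⊆ box (s - 1) (s + 1) 1 :=
  tsupport_pf (S1_a0 s) S1_a1 S1_sm1
theorem supp_fE (s : ℝ) : tsupport (fE s) ⊆ box (s - 5) (s + 5) 5 :=
  tsupport_pf (S1_E0 s) S1_big.id_mul S1_big

theorem mom_fb (s : ℝ) : mom (fb s) = 3 / 2 * KK ^ 2 * LLL := by
  rw [fb, mom_pf (S1_b0 s) S1_sm1 S1_sm1]
  have e1 : ∫ t, smB ((t - s) / 2) ^ 2 = 2 * KK := int_shift_widen (fun t => smB t ^ 2) s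
  have e2 : ∫ t, deriv (fun t => smB ((t - s) / 2)) t ^ 2 = LLL / 2 := by
    simp_rw [deriv_widen S1_sm.differentiable s]
    rw [int_shift_widen (fun t => (deriv smB t / 2) ^ 2) s]
    simp_rw [div_pow]
    rw [integral_div, LLL]
    ring
  rw [e1, e2]
  simp only [← KK.eq_1, ← LLL.eq_1]
  ring

theorem mom_fa (s : ℝ) : mom (fa s) = - (3 / 2 * KK ^ 2 * LLL) := by
  rw [fa, mom_pf (S1_a0 s) S1_a1 S1_sm1]
  have e1 : ∫ t, smB (t / 2) ^ 2 = 2 * KK := by
    have := int_shift_widen (fun t => smB t ^ 2) 0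
    simpa [KK] using this
  have e2 : ∫ t, deriv (fun t => smB (t / 2)) t ^ 2 = LLL / 2 := by
    have h0 : ∀ t, deriv (fun t => smB (t / 2)) t = deriv smB (t / 2) / 2 := by
      intro t
      have := deriv_widen S1_sm.differentiable 0 t
      simpa using this
    simp_rw [h0]
    have := int_shift_widen (fun t => (deriv smB t / 2) ^ 2) 0
    simp only [sub_zero] at this
    rw [this]
    simp_rw [div_pow]
    rw [integral_div, LLL]
    ring
  have e3 : ∫ t, smB (t - s) ^ 2 = KK := int_shift (fun t => smB t ^ 2) s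
  have e4 : ∫ t, deriv (fun t => smB (t - s)) t ^ 2 = LLL := by
    simp_rw [deriv_shift]
    exact int_shift (fun t => deriv smB t ^ 2) s
  rw [e1, e2, e3, e4]
  simp only [← KK.eq_1]
  ring

theorem big_one {t : ℝ} (h : t ∈ Icc (-4 : ℝ) 4) : bigB t = 1 := by
  apply bigB.one_of_mem_closedBall
  rw [Metric.mem_closedBall, Real.dist_eq, sub_zero]
  show |t| ≤ 4
  rw [abs_le]
  exact h

theorem deriv_big {t : ℝ} (h : t ∈ Ioo (-4 : ℝ) 4) : deriv (fun t => t * bigB t) t = 1 := by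
  have : (fun t => t * bigB t) =ᶠ[𝓝 t] id := by
    filter_upwards [isOpen_Ioo.mem_nhds h] with y hy
    rw [big_one ⟨hy.1.le, hy.2.le⟩]; simp
  rw [this.deriv_eq, deriv_id]

/-- the open region where `fE s` is linear -/
def reg (s : ℝ) : Set E3 := {x | x 0 - s ∈ Ioo (-4 : ℝ) 4 ∧ x 1 ∈ Ioo (-4 : ℝ) 4 ∧
  x 2 ∈ Ioo (-4 : ℝ) 4}

theorem isOpen_reg (s : ℝ) : IsOpen (reg s) := by
  have hc : ∀ j : Fin 3, Continuous (fun x : E3 => x j) := fun j =>
    (EuclideanSpace.proj (𝕜 := ℝ) j : E3 →L[ℝ] ℝ).continuous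
  exact (isOpen_Ioo.preimage ((hc 0).sub continuous_const)).inter
    ((isOpen_Ioo.preimage (hc 1)).inter (isOpen_Ioo.preimage (hc 2)))

theorem fE_lin {s : ℝ} {x : E3} (h : x ∈ reg s) : fE s x = lin s x := by
  obtain ⟨h0, h1, h2⟩ := h
  ext i
  fin_cases i
  · show fE s x 0 = lin s x 0
    rw [fE, pf_0, lin_0, deriv_big h1, big_one ⟨h0.1.le, h0.2.le⟩, big_one ⟨h2.1.le, h2.2.le⟩]
    ring
  · show fE s x 1 = lin s x 1
    have e : deriv (fun t => (t - s) * bigB (t - s)) (x 0) = 1 := by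
      have := deriv_shift (fun t => t * bigB t) s (x 0)
      rw [this, deriv_big h0]
    rw [fE, pf_1, lin_1, e, big_one ⟨h1.1.le, h1.2.le⟩, big_one ⟨h2.1.le, h2.2.le⟩]
    ring
  · rfl

theorem strain_of {s : ℝ} {a : E3 → E3} (ha : IsT a) {lo hi : ℝ} (h1 : tsupport a ⊆ box lo hi 1)
    (h2 : s - 4 < lo) (h3 : hi < s + 4) : Strain s (fE s) a where
  hE := isT_fE s
  ha := ha
  eq := by
    refine ⟨reg s, isOpen_reg s, ?_, fun x hx => fE_lin hx⟩
    intro x hx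
    obtain ⟨k0, k1, k2⟩ := h1 hx
    exact ⟨⟨by linarith [k0.1], by linarith [k0.2]⟩, ⟨by linarith [k1.1], by linarith [k1.2]⟩,
      ⟨by linarith [k2.1], by linarith [k2.2]⟩⟩

theorem fE_pos (s : ℝ) : 0 < il2 (fE s) (fE s) ∧ 0 < ih1 (fE s) (fE s) := by
  let x : E3 := !₂[s + 1, 0, 0]
  have hx : x ∈ reg s := by
    refine ⟨?_, ?_, ?_⟩
    · show (s + 1) - s ∈ Ioo (-4 : ℝ) 4
      constructor <;> linarith
    · show (0 : ℝ) ∈ Ioo (-4 : ℝ) 4
      constructor <;> norm_num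
    · show (0 : ℝ) ∈ Ioo (-4 : ℝ) 4
      constructor <;> norm_num
  constructor
  · refine il2_pos (isT_fE s) (x := x) ?_
    rw [fE_lin hx]
    intro h0
    have := congrArg (fun v : E3 => v 0) h0
    simp only [lin_0] at this
    have h2 : x 0 = s + 1 := rfl
    rw [h2] at this
    simp at this
  · refine ih1_pos (isT_fE s) (x := x) (i := 0) (j := 0) ?_
    have : fE s =ᶠ[𝓝 x] lin s := by
      filter_upwards [(isOpen_reg s).mem_nhds hx] with y hy
      exact fE_lin hy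
    have h2 : jac (fE s) x = jac (lin s) x := by
      unfold jac
      rw [this.fderiv_eq]
    rw [h2, fderiv_lin]
    simp

theorem il2_ge_mom {a : E3 → E3} (ha : IsT a) : |mom a| ≤ il2 a a := by
  have hc : Continuous (fun x => a x 0 ^ 2 - a x 1 ^ 2) :=
    ((cont_coord ha 0).pow 2).sub ((cont_coord ha 1).pow 2)
  have hi : Integrable (fun x => a x 0 ^ 2 - a x 1 ^ 2) := by
    refine hc.integrable_of_hasCompactSupport ?_
    refine ha.compact.mono (fun x hx => ?_)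
    intro h0; apply hx; simp [h0]
  rw [mom, il2_eq]
  refine (abs_integral_le_integral_abs).trans ?_
  refine integral_mono hi.abs (int_d2 ha ha) (fun x => ?_)
  simp only [d2, Fin.sum_univ_three]
  rw [abs_le]
  constructor
  · nlinarith [mul_self_nonneg (a x 0), mul_self_nonneg (a x 2)]
  · nlinarith [mul_self_nonneg (a x 1), mul_self_nonneg (a x 2)]

theorem il2_fb_pos (s : ℝ) : 0 < il2 (fb s) (fb s) := by
  refine lt_of_lt_of_le ?_ (il2_ge_mom (isT_fb s))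
  rw [mom_fb, abs_pos]
  have := KK_pos
  have := LLL_pos
  positivity

theorem il2_fa_pos (s : ℝ) : 0 < il2 (fa s) (fa s) := by
  refine lt_of_lt_of_le ?_ (il2_ge_mom (isT_fa s))
  rw [mom_fa, abs_neg, abs_pos]
  have := KK_pos
  have := LLL_pos
  positivity

end Pool.Agent.T2H10.Geom
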