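import Mathlib
import Pool.Agent.T2H10.Geom3

/-!
Geometry of the cradle, part 4: the unit cell.
-/

set_option maxHeartbeats 1000000

open MeasureTheory Set Filter Topology
open scoped InnerProductSpace ENNReal ContDiff NNReal

namespace Pool.Agent.T2H10.Geom

open H772R2.NS

/-- index set of the unit fields -/
inductive L
  | p | a | b | c | y | z
  deriving DecidableEq

instance : Fintype L := ⟨{.p, .a, .b, .c, .y, .z}, fun x => by cases x <;> simp⟩

theorem sum_L {M : Type*} [AddCommMonoid M] (f : L → M) :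
    ∑ l, f l = f .p + (f .a + (f .b + (f .c + (f .y + f .z)))) := by
  have : (Finset.univ : Finset L) = {.p, .a, .b, .c, .y, .z} := rfl
  rw [this]
  simp

section disj
variable {u v w : E3 → E3}

theorem zero_off {x : E3} (h : x ∉ tsupport v) : v x = 0 := image_eq_zero_of_notMem_tsupport h

theorem jac_zero_off {x : E3} (h : x ∉ tsupport v) : jac v x = 0 :=
  image_eq_zero_of_notMem_tsupport (fun hc => h (tsupport_jac_subset hc))

theorem il2_disj (h : ∀ x, x ∉ tsupport v ∨ x ∉ tsupport w) : il2 v w = 0 := by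
  rw [il2_eq]
  refine integral_eq_zero_of_ae (Eventually.of_forall (fun x => ?_))
  rcases h x with h | h
  · exact d2_zero_left (zero_off h)
  · exact d2_zero_right (zero_off h)

theorem ih1_disj (h : ∀ x, x ∉ tsupport v ∨ x ∉ tsupport w) : ih1 v w = 0 := by
  rw [ih1_eq]
  refine integral_eq_zero_of_ae (Eventually.of_forall (fun x => ?_))
  rcases h x with h | h
  · exact dH_zero_left (jac_zero_off h)
  · exact dH_zero_right (jac_zero_off h)

theorem itri_disj12 (h : ∀ x, x ∉ tsupport u ∨ x ∉ tsupport v) : itri u v w = 0 := by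
  rw [itri_eq]
  refine integral_eq_zero_of_ae (Eventually.of_forall (fun x => ?_))
  rcases h x with h | h
  · exact d3_zero1 (zero_off h)
  · exact d3_zero2 (zero_off h)

theorem itri_disj13 (h : ∀ x, x ∉ tsupport u ∨ x ∉ tsupport w) : itri u v w = 0 := by
  rw [itri_eq]
  refine integral_eq_zero_of_ae (Eventually.of_forall (fun x => ?_))
  rcases h x with h | h
  · exact d3_zero1 (zero_off h)
  · exact d3_zero3 (jac_zero_off h)

theorem itri_disj23 (h : ∀ x, x ∉ tsupport v ∨ x ∉ tsupport w) : itri u v w = 0 := by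
  rw [itri_eq]
  refine integral_eq_zero_of_ae (Eventually.of_forall (fun x => ?_))
  rcases h x with h | h
  · exact d3_zero2 (zero_off h)
  · exact d3_zero3 (jac_zero_off h)

end disj

/-- the fields of the unit cell, not normalised -/
noncomputable def raw : L → E3 → E3
  | .p => fE 100
  | .a => fa 98
  | .b => fb 102
  | .c => fE 120
  | .y => fb 122
  | .z => fE 140

def lo : L → ℝ
  | .p => 95
  | .a => 97
  | .b => 101
  | .c => 115
  | .y => 121
  | .z => 135

def hi : L → ℝ
  | .p => 105
  | .a => 99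
  | .b => 103
  | .c => 125
  | .y => 123
  | .z => 145

theorem box_mono {a b r a' b' r' : ℝ} (h1 : a' ≤ a) (h2 : b ≤ b') (h3 : r ≤ r') :
    box a b r ⊆ box a' b' r' := by
  rintro x ⟨k0, k1, k2⟩
  exact ⟨⟨h1.trans k0.1, k0.2.trans h2⟩, ⟨by linarith [k1.1], k1.2.trans h3⟩,
    ⟨by linarith [k2.1], k2.2.trans h3⟩⟩

theorem isT_raw (l : L) : IsT (raw l) := by
  rcases l
  · exact isT_fE _
  · exact isT_fa _
  · exact isT_fb _
  · exact isT_fE _
  · exact isT_fb _
  · exact isT_fE _

theorem supp_raw (l : L) : tsupport (raw l) ⊆ box (lo l) (hi l) 5 := by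
  rcases l
  · exact (supp_fE _).trans (box_mono (by norm_num [lo]) (by norm_num [hi]) le_rfl)
  · exact (supp_fa _).trans (box_mono (by norm_num [lo]) (by norm_num [hi]) (by norm_num))
  · exact (supp_fb _).trans (box_mono (by norm_num [lo]) (by norm_num [hi]) (by norm_num))
  · exact (supp_fE _).trans (box_mono (by norm_num [lo]) (by norm_num [hi]) le_rfl)
  · exact (supp_fb _).trans (box_mono (by norm_num [lo]) (by norm_num [hi]) (by norm_num))
  · exact (supp_fE _).trans (box_mono (by norm_num [lo]) (by norm_num [hi]) le_rfl)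

/-- the pairs with disjoint supports -/
def dj : L → L → Bool
  | .p, .p => false
  | .p, .a => false
  | .p, .b => false
  | .a, .p => false
  | .b, .p => false
  | .a, .a => false
  | .b, .b => false
  | .c, .c => false
  | .c, .y => false
  | .y, .c => false
  | .y, .y => false
  | .z, .z => false
  | _, _ => true

theorem dj_raw (l l' : L) (h : dj l l' = true) (x : E3) :
    x ∉ tsupport (raw l) ∨ x ∉ tsupport (raw l') := by
  by_contra hcon
  push Not at hcon
  obtain ⟨h1, h2⟩ := hcon
  have k1 := (supp_raw l h1).1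
  have k2 := (supp_raw l' h2).1
  have k3 := k1.1
  have k4 := k1.2
  have k5 := k2.1
  have k6 := k2.2
  rcases l <;> rcases l' <;> first
    | (exact absurd h (by decide))
    | (simp only [lo, hi] at k3 k4 k5 k6; linarith)

theorem st_pa : Strain 100 (fE 100) (fa 98) :=
  strain_of (isT_fa _) (supp_fa _) (by norm_num) (by norm_num)
theorem st_pb : Strain 100 (fE 100) (fb 102) :=
  strain_of (isT_fb _) (supp_fb _) (by norm_num) (by norm_num)
theorem st_cy : Strain 120 (fE 120) (fb 122) :=
  strain_of (isT_fb _) (supp_fb _) (by norm_num) (by norm_num)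

theorem il2_raw (l l' : L) (h : l ≠ l') : il2 (raw l) (raw l') = 0 := by
  rcases l <;> rcases l' <;> first
    | (exact absurd rfl h)
    | (exact il2_disj (dj_raw _ _ rfl))
    | (exact st_pa.il2_zero)
    | (exact st_pb.il2_zero)
    | (exact st_cy.il2_zero)
    | (rw [il2_comm]; exact st_pa.il2_zero)
    | (rw [il2_comm]; exact st_pb.il2_zero)
    | (rw [il2_comm]; exact st_cy.il2_zero)

theorem ih1_raw (l l' : L) (h : l ≠ l') : ih1 (raw l) (raw l') = 0 := by
  rcases l <;> rcases l' <;> first
    | (exact absurd rfl h)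
    | (exact ih1_disj (dj_raw _ _ rfl))
    | (exact st_pa.ih1_zero)
    | (exact st_pb.ih1_zero)
    | (exact st_cy.ih1_zero)
    | (rw [ih1_comm]; exact st_pa.ih1_zero)
    | (rw [ih1_comm]; exact st_pb.ih1_zero)
    | (rw [ih1_comm]; exact st_cy.ih1_zero)

/-- table of the trilinear form on the unit cell -/
def ut (ka kb ky : ℝ) : L → L → L → ℝ
  | .a, .a, .p => -ka
  | .p, .a, .a => ka
  | .b, .b, .p => kb
  | .p, .b, .b => -kb
  | .y, .y, .c => ky
  | .c, .y, .y => -ky
  | _, _, _ => 0

/-- the moment -/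
noncomputable def MM : ℝ := 3 / 2 * KK ^ 2 * LLL

theorem MM_pos : 0 < MM := by
  have := KK_pos
  have := LLL_pos
  unfold MM
  positivity

theorem itri_raw (l1 l2 l3 : L) : itri (raw l1) (raw l2) (raw l3) = ut MM MM MM l1 l2 l3 := by
  rcases l1 <;> rcases l2 <;> rcases l3 <;> first
    | (exact itri_disj12 (dj_raw _ _ rfl))
    | (exact itri_disj13 (dj_raw _ _ rfl))
    | (exact itri_disj23 (dj_raw _ _ rfl))
    | (exact itri_self (isT_raw _) (isT_raw _))
    | (exact st_pa.itri_EEa)
    | (exact st_pa.itri_aEE)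
    | (exact st_pb.itri_EEa)
    | (exact st_pb.itri_aEE)
    | (exact st_cy.itri_EEa)
    | (exact st_cy.itri_aEE)
    | (exact st_pa.itri_aaE.trans (mom_fa _))
    | (exact st_pb.itri_aaE.trans (mom_fb _))
    | (exact st_cy.itri_aaE.trans (mom_fb _))
    | (refine st_pa.itri_Eaa.trans ?_; rw [mom_fa, neg_neg]; rfl)
    | (refine st_pb.itri_Eaa.trans ?_; rw [mom_fb]; rfl)
    | (refine st_cy.itri_Eaa.trans ?_; rw [mom_fb]; rfl)

theorem il2_raw_pos (l : L) : 0 < il2 (raw l) (raw l) := by
  rcases l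
  · exact (fE_pos _).1
  · exact il2_fa_pos _
  · exact il2_fb_pos _
  · exact (fE_pos _).1
  · exact il2_fb_pos _
  · exact (fE_pos _).1

/-- normalising factor -/
noncomputable def nf (l : L) : ℝ := (√(il2 (raw l) (raw l)))⁻¹

theorem nf_pos (l : L) : 0 < nf l := inv_pos.mpr (Real.sqrt_pos.mpr (il2_raw_pos l))

theorem nf_sq (l : L) : nf l * (nf l * il2 (raw l) (raw l)) = 1 := by
  have h := il2_raw_pos l
  have h1 : nf l * nf l = (il2 (raw l) (raw l))⁻¹ := by
    rw [nf, ← mul_inv, Real.mul_self_sqrt h.le]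
  rw [← mul_assoc, h1, inv_mul_cancel₀ h.ne']

/-- the normalised fields of the unit cell -/
noncomputable def UU (l : L) : E3 → E3 := nf l • raw l

theorem isT_UU (l : L) : IsT (UU l) := (isT_raw l).smul _

theorem supp_UU (l : L) : tsupport (UU l) ⊆ box 95 145 5 := by
  refine (tsupport_smul_subset_right (fun _ => nf l) (raw l)).trans ?_
  refine (supp_raw l).trans (box_mono ?_ ?_ le_rfl)
  · rcases l <;> norm_num [lo]
  · rcases l <;> norm_num [hi]

theorem il2_UU (l l' : L) : il2 (UU l) (UU l') = if l = l' then 1 else 0 := by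
  rw [UU, UU, il2_smul_left, il2_smul_right]
  split_ifs with h
  · subst h
    exact nf_sq l
  · rw [il2_raw l l' h]; ring

theorem ih1_UU (l l' : L) (h : l ≠ l') : ih1 (UU l) (UU l') = 0 := by
  rw [UU, UU, ih1_smul_left, ih1_smul_right, ih1_raw l l' h]; ring

theorem ih1_UU_pos : 0 < ih1 (UU .p) (UU .p) ∧ 0 < ih1 (UU .c) (UU .c) := by
  constructor
  · rw [UU, ih1_smul_left, ih1_smul_right]
    exact mul_pos (nf_pos _) (mul_pos (nf_pos _) (fE_pos _).2)
  · rw [UU, ih1_smul_left, ih1_smul_right]
    exact mul_pos (nf_pos _) (mul_pos (nf_pos _) (fE_pos _).2)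

noncomputable def kka : ℝ := nf .a ^ 2 * nf .p * MM
noncomputable def kkb : ℝ := nf .b ^ 2 * nf .p * MM
noncomputable def kky : ℝ := nf .y ^ 2 * nf .c * MM

theorem kka_pos : 0 < kka := by
  have := nf_pos .a; have := nf_pos .p; have := MM_pos
  unfold kka; positivity
theorem kkb_pos : 0 < kkb := by
  have := nf_pos .b; have := nf_pos .p; have := MM_pos
  unfold kkb; positivity
theorem kky_pos : 0 < kky := by
  have := nf_pos .y; have := nf_pos .c; have := MM_pos
  unfold kky; positivity

theorem itri_UU (l1 l2 l3 : L) : itri (UU l1) (UU l2) (UU l3) = ut kka kkb kky l1 l2 l3 := by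
  rw [UU, UU, UU, itri_smul1, itri_smul2, itri_smul3, itri_raw]
  rcases l1 <;> rcases l2 <;> rcases l3 <;> simp only [ut, mul_zero, kka, kkb, kky] <;> ring

end Pool.Agent.T2H10.Geom
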