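import Mathlib
import Pool.Agent.T2H10.Geom4

/-!
Geometry of the cradle, part 5: infinite sums of scaled copies.
-/

set_option maxHeartbeats 1000000

open MeasureTheory Set Filter Topology
open scoped InnerProductSpace ENNReal ContDiff NNReal

namespace Pool.Agent.T2H10.Geom

open H772R2.NS

/-- rapidly decreasing sequences -/
def RD (r : ℕ → ℝ) : Prop := ∀ M : ℝ, 0 ≤ M → ∃ C, ∀ n, |r n| * M ^ n ≤ C

theorem RD.summable {r : ℕ → ℝ} (h : RD r) {M : ℝ} (hM : 0 ≤ M) :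
    Summable (fun n => |r n| * M ^ n) := by
  obtain ⟨C, hC⟩ := h (2 * M) (by positivity)
  have hg : Summable (fun n : ℕ => C * (1 / 2 : ℝ) ^ n) :=
    (summable_geometric_of_lt_one (by norm_num) (by norm_num)).mul_left C
  refine Summable.of_nonneg_of_le (fun n => by positivity) (fun n => ?_) hg
  have h1 := hC n
  rw [mul_pow] at h1
  have h2 : (0 : ℝ) < (1 / 2) ^ n := by positivity
  have h3 : (2 : ℝ) ^ n * (1 / 2) ^ n = 1 := by
    rw [← mul_pow]; norm_num
  calc |r n| * M ^ n = |r n| * (2 ^ n * M ^ n) * (1 / 2) ^ n := by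
        rw [show |r n| * (2 ^ n * M ^ n) * (1 / 2) ^ n = |r n| * M ^ n * (2 ^ n * (1 / 2) ^ n) by ring,
          h3, mul_one]
    _ ≤ C * (1 / 2) ^ n := by gcongr

theorem RD.bdd {r : ℕ → ℝ} (h : RD r) : ∃ C, 0 ≤ C ∧ ∀ n, |r n| ≤ C := by
  obtain ⟨C, hC⟩ := h 1 zero_le_one
  refine ⟨C, ?_, fun n => by simpa using hC n⟩
  exact le_trans (by positivity) (hC 0)

theorem RD.mul {r s : ℕ → ℝ} (h : RD r) (h' : RD s) : RD (fun n => r n * s n) := by
  intro M hM
  obtain ⟨C, hC⟩ := h M hM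
  obtain ⟨D, hD0, hD⟩ := h'.bdd
  refine ⟨D * C, fun n => ?_⟩
  rw [abs_mul, show |r n| * |s n| * M ^ n = |s n| * (|r n| * M ^ n) by ring]
  exact mul_le_mul (hD n) (hC n) (by positivity) hD0

theorem RD.single (m : ℕ) (c : ℝ) : RD (fun n => if n = m then c else 0) := by
  intro M hM
  refine ⟨|c| * M ^ m, fun n => ?_⟩
  by_cases h : n = m
  · simp [h]
  · simp only [h, if_false, abs_zero, zero_mul]
    positivity

theorem RD.zero : RD (fun _ => 0) := by
  intro M hM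
  exact ⟨0, fun n => by simp⟩

/-- unit fields -/
structure Uf (U : E3 → E3) : Prop where
  t : IsT U
  s : tsupport U ⊆ box 95 145 5

theorem uf_UU (l : L) : Uf (UU l) := ⟨isT_UU l, supp_UU l⟩

theorem Uf.bound {U : E3 → E3} (h : Uf U) (k : ℕ) :
    ∃ C, 0 ≤ C ∧ ∀ x, ‖iteratedFDeriv ℝ k U x‖ ≤ C := by
  have h1 : Continuous (iteratedFDeriv ℝ k U) :=
    h.t.smooth.continuous_iteratedFDeriv (by exact_mod_cast le_top)
  obtain ⟨C, hC⟩ := (h.t.compact.iteratedFDeriv k (𝕜 := ℝ)).exists_bound_of_continuous h1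
  exact ⟨C, (norm_nonneg _).trans (hC 0), hC⟩

theorem smul_coord (c : ℝ) (x : E3) (i : Fin 3) : (c • x) i = c * x i := rfl

theorem no_two {t : ℝ} {m n : ℕ} (h : m < n) (h1 : 95 ≤ (4 : ℝ) ^ m * t)
    (h2 : (4 : ℝ) ^ n * t ≤ 145) : False := by
  obtain ⟨k, rfl⟩ := Nat.exists_eq_add_of_lt h
  have h3 : (4 : ℝ) ^ (m + k + 1) * t = 4 ^ k * (4 * (4 ^ m * t)) := by ring
  have h4 : (1 : ℝ) ≤ 4 ^ k := one_le_pow₀ (by norm_num)
  rw [h3] at h2
  nlinarith

/-- every point is seen by at most one scale -/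
theorem loc (x : E3) : ∃ n : ℕ, ∀ m, m ≠ n → ∀ U, Uf U → (4 : ℝ) ^ m • x ∉ tsupport U := by
  by_cases h : ∃ n : ℕ, ((4 : ℝ) ^ n • x) ∈ box 95 145 5
  · obtain ⟨n, hn⟩ := h
    refine ⟨n, fun m hm U hU hc => ?_⟩
    have h1 := hn.1
    have h2 := (hU.s hc).1
    rw [smul_coord] at h1 h2
    rcases lt_or_gt_of_ne hm with h3 | h3
    · exact no_two h3 h2.1 h1.2
    · exact no_two h3 h1.1 h2.2
  · push Not at h
    exact ⟨0, fun m _ U hU hc => h m (hU.s hc)⟩

/-- the sum of scaled copies -/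
noncomputable def G (r : ℕ → ℝ) (U : E3 → E3) (x : E3) : E3 :=
  ∑' n : ℕ, (r n * 8 ^ n) • U ((4 : ℝ) ^ n • x)

section G
variable {r : ℕ → ℝ} {U : E3 → E3}

theorem G_eq {x : E3} {n : ℕ} (hn : ∀ m, m ≠ n → ∀ U, Uf U → (4 : ℝ) ^ m • x ∉ tsupport U)
    (hU : Uf U) : G r U x = (r n * 8 ^ n) • U ((4 : ℝ) ^ n • x) := by
  rw [G]
  exact tsum_eq_single n (fun m hm => by rw [zero_off (hn m hm U hU), smul_zero])

theorem contDiff_term (hU : Uf U) (c k : ℝ) : ContDiff ℝ ∞ (fun x => c • U (k • x)) := by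
  have h : ContDiff ℝ ∞ (fun x : E3 => k • x) := contDiff_id.const_smul k
  exact (hU.t.smooth.comp h).const_smul c

theorem iter_term (hU : Uf U) (c k : ℝ) (hk : 0 ≤ k) (i : ℕ) {C : ℝ}
    (hC : ∀ x, ‖iteratedFDeriv ℝ i U x‖ ≤ C) (x : E3) :
    ‖iteratedFDeriv ℝ i (fun x => c • U (k • x)) x‖ ≤ |c| * k ^ i * C := by
  have h1 : ContDiff ℝ i U := hU.t.smooth.of_le (by exact_mod_cast le_top)
  have h : ContDiff ℝ i (fun x : E3 => k • x) := contDiff_id.const_smul k
  have h2 : ContDiff ℝ i (fun x => U (k • x)) := h1.comp h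
  rw [iteratedFDeriv_const_smul_apply' h2.contDiffAt, iteratedFDeriv_comp_const_smul k h1,
    norm_smul, norm_smul, norm_pow, Real.norm_eq_abs, Real.norm_eq_abs, abs_of_nonneg hk,
    mul_assoc]
  gcongr
  exact hC _

theorem fderiv_term (c k : ℝ) (x : E3) :
    fderiv ℝ (fun x => c • U (k • x)) x = (c * k) • fderiv ℝ U (k • x) := by
  have h1 : (fun x => c • U (k • x)) = c • (fun x => U (k • x)) := rfl
  rw [h1, fderiv_const_smul_field, Pi.smul_apply, fderiv_comp_smul, smul_smul]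

theorem abs_coef (r : ℕ → ℝ) (n : ℕ) (i : ℕ) :
    |r n * 8 ^ n| * ((4 : ℝ) ^ n) ^ i = |r n| * (8 * 4 ^ i) ^ n := by
  rw [abs_mul, abs_of_nonneg (by positivity : (0 : ℝ) ≤ 8 ^ n), mul_pow, ← pow_mul, ← pow_mul,
    mul_comm n i, mul_assoc]

theorem contDiff_G (hr : RD r) (hU : Uf U) : ContDiff ℝ ∞ (G r U) := by
  choose C hC0 hC using hU.bound
  refine contDiff_tsum (𝕜 := ℝ) (N := ⊤) (f := fun n x => (r n * 8 ^ n) • U ((4 : ℝ) ^ n • x))
    (v := fun i n => |r n| * (8 * 4 ^ i) ^ n * C i) ?_ ?_ ?_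
  · intro n
    exact contDiff_term hU _ _
  · intro k _
    exact (hr.summable (by positivity)).mul_right _
  · intro i n x _
    rw [← abs_coef]
    exact iter_term hU _ _ (by positivity) i (hC i) x

theorem fderiv_G (hr : RD r) (hU : Uf U) (x : E3) :
    fderiv ℝ (G r U) x = ∑' n : ℕ, (r n * 8 ^ n * 4 ^ n) • fderiv ℝ U ((4 : ℝ) ^ n • x) := by
  obtain ⟨C, hC0, hC⟩ := hU.bound 1
  obtain ⟨D, hD0, hD⟩ := hU.bound 0
  have h1 := fderiv_tsum_apply (𝕜 := ℝ) (f := fun (n : ℕ) x => (r n * 8 ^ n) • U ((4 : ℝ) ^ n • x))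
    (u := fun n => |r n| * (8 * 4 ^ 1) ^ n * C) (x₀ := 0)
    ((hr.summable (by positivity)).mul_right _)
    (fun n => (contDiff_term hU _ _).differentiable (by simp))
    (fun n x => by
      rw [← abs_coef]
      have := iter_term hU (r n * 8 ^ n) (4 ^ n) (by positivity) 1 hC x
      rwa [norm_iteratedFDeriv_one] at this)
    (by
      refine Summable.of_norm_bounded (g := fun n => |r n| * (8 * 4 ^ 0) ^ n * D)
        ((hr.summable (by positivity)).mul_right _) (fun n => ?_)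
      rw [← abs_coef]
      have := iter_term hU (r n * 8 ^ n) (4 ^ n) (by positivity) 0 hD 0
      rwa [norm_iteratedFDeriv_zero] at this) x
  simp only [fderiv_term] at h1
  exact h1

theorem jac_G (hr : RD r) (hU : Uf U) {x : E3} {n : ℕ}
    (hn : ∀ m, m ≠ n → ∀ U, Uf U → (4 : ℝ) ^ m • x ∉ tsupport U) :
    jac (G r U) x = (r n * 8 ^ n * 4 ^ n) • jac U ((4 : ℝ) ^ n • x) := by
  have h1 : fderiv ℝ (G r U) x = (r n * 8 ^ n * 4 ^ n) • fderiv ℝ U ((4 : ℝ) ^ n • x) := by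
    rw [fderiv_G hr hU]
    refine tsum_eq_single n (fun m hm => ?_)
    have : fderiv ℝ U ((4 : ℝ) ^ m • x) = 0 :=
      image_eq_zero_of_notMem_tsupport (fun hc => hn m hm U hU (tsupport_fderiv_subset ℝ hc))
    rw [this]
    exact smul_zero (A := E3 →L[ℝ] E3) (r m * 8 ^ m * 4 ^ m)
  ext p
  rw [jac_apply, h1]
  rfl

theorem G_supp (hU : Uf U) {x : E3} (hx : x ∉ Metric.closedBall (0 : E3) 155) : G r U x = 0 := by
  obtain ⟨n, hn⟩ := loc x
  rw [G_eq hn hU]
  have : (4 : ℝ) ^ n • x ∉ tsupport U := by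
    intro hc
    apply hx
    rw [mem_closedBall_zero_iff]
    obtain ⟨h1, h2, h3⟩ := hU.s hc
    have h4 : ‖(4 : ℝ) ^ n • x‖ ≤ 155 := by
      refine (norm_le_abs _).trans ?_
      have k1 : |((4 : ℝ) ^ n • x) 0| ≤ 145 := by
        rw [abs_le]; constructor <;> linarith [h1.1, h1.2]
      have k2 : |((4 : ℝ) ^ n • x) 1| ≤ 5 := abs_le.mpr h2
      have k3 : |((4 : ℝ) ^ n • x) 2| ≤ 5 := abs_le.mpr h3
      linarith
    rw [norm_smul, norm_pow, Real.norm_of_nonneg (by norm_num : (0 : ℝ) ≤ 4)] at h4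
    have h5 : (1 : ℝ) ≤ 4 ^ n := one_le_pow₀ (by norm_num)
    nlinarith [norm_nonneg x]
  rw [zero_off this, smul_zero]

theorem isTest_G (hr : RD r) (hU : Uf U) : IsTest (Metric.ball (0 : E3) 156) (G r U) where
  smooth := contDiff_G hr hU
  compact := HasCompactSupport.intro (isCompact_closedBall (0 : E3) 155) (fun _ hx => G_supp hU hx)
  supp := by
    have : tsupport (G r U) ⊆ Metric.closedBall (0 : E3) 155 := by
      refine closure_minimal ?_ Metric.isClosed_closedBall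
      intro x hx
      by_contra hc
      exact hx (G_supp hU hc)
    exact this.trans (Metric.closedBall_subset_ball (by norm_num))
  divfree := fun x => by
    obtain ⟨n, hn⟩ := loc x
    simp only [jac_G hr hU hn, PiLp.smul_apply, smul_eq_mul, ← Finset.mul_sum, hU.t.divfree,
      mul_zero]

end G

/-- integration of a sum of scaled copies -/
theorem int_scaled {f : E3 → ℝ} (hf : Continuous f) (hc : HasCompactSupport f) {κ : ℕ → ℝ}
    (hκ : Summable (fun n => |κ n| / 64 ^ n)) :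
    ∫ x, ∑' n : ℕ, κ n * f ((4 : ℝ) ^ n • x) = (∑' n : ℕ, κ n / 64 ^ n) * ∫ x, f x := by
  have hfi : Integrable f := hf.integrable_of_hasCompactSupport hc
  have h0 : ∀ (g : E3 → ℝ) (n : ℕ), ∫ x, g ((4 : ℝ) ^ n • x) = (64 ^ n)⁻¹ * ∫ x, g x := by
    intro g n
    rw [Measure.integral_comp_smul_of_nonneg (volume : Measure E3) g ((4 : ℝ) ^ n)
      (hR := by positivity)]
    simp only [finrank_euclideanSpace, Fintype.card_fin, smul_eq_mul]
    congr 2
    rw [← pow_mul, mul_comm, pow_mul]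
    norm_num
  have hi : ∀ n : ℕ, Integrable (fun x => κ n * f ((4 : ℝ) ^ n • x)) := by
    intro n
    exact (hfi.comp_smul (by positivity)).const_mul _
  have h1 := hasSum_integral_of_summable_integral_norm hi (by
    have : (fun n : ℕ => ∫ x, ‖κ n * f ((4 : ℝ) ^ n • x)‖) =
        fun n => |κ n| / 64 ^ n * ∫ x, ‖f x‖ := by
      ext n
      simp only [norm_mul, Real.norm_eq_abs]
      rw [integral_const_mul, h0 (fun x => |f x|) n]
      ring
    rw [this]
    exact hκ.mul_right _)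
  rw [← h1.tsum_eq, ← tsum_mul_right]
  congr 1
  ext n
  rw [integral_const_mul, h0 f n]
  ring

section forms
variable {r s t : ℕ → ℝ} {U V W : E3 → E3}

theorem il2_G (hr : RD r) (hs : RD s) (hU : Uf U) (hV : Uf V) :
    il2 (G r U) (G s V) = (∑' n, r n * s n) * il2 U V := by
  have hrs := (hr.mul hs).summable (M := 1) zero_le_one
  have h1 : ∀ x, d2 (G r U) (G s V) x = ∑' n : ℕ, (r n * s n * 64 ^ n) * d2 U V ((4 : ℝ) ^ n • x) := by
    intro x
    obtain ⟨n, hn⟩ := loc x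
    rw [tsum_eq_single n (fun m hm => by rw [d2_zero_left (zero_off (hn m hm U hU)), mul_zero])]
    simp only [d2, G_eq hn hU, G_eq hn hV, PiLp.smul_apply, smul_eq_mul, Finset.mul_sum]
    refine Finset.sum_congr rfl (fun i _ => ?_)
    rw [show (64 : ℝ) ^ n = 8 ^ n * 8 ^ n by rw [← mul_pow]; norm_num]
    ring
  rw [il2_eq]
  simp_rw [h1]
  rw [int_scaled (cont_d2 hU.t hV.t) (supp_d2 hU.t), il2_eq]
  · congr 2
    ext n
    field_simp
  · refine hrs.congr (fun n => ?_)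
    rw [abs_mul (r n * s n), abs_of_nonneg (by positivity : (0 : ℝ) ≤ 64 ^ n), one_pow]
    field_simp

theorem ih1_G (hr : RD r) (hs : RD s) (hU : Uf U) (hV : Uf V) :
    ih1 (G r U) (G s V) = (∑' n, r n * s n * 16 ^ n) * ih1 U V := by
  have hrs := (hr.mul hs).summable (M := 16) (by norm_num)
  have h1 : ∀ x, dH (G r U) (G s V) x
      = ∑' n : ℕ, (r n * s n * 16 ^ n * 64 ^ n) * dH U V ((4 : ℝ) ^ n • x) := by
    intro x
    obtain ⟨n, hn⟩ := loc x
    rw [tsum_eq_single n (fun m hm => by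
      rw [dH_zero_left (jac_zero_off (hn m hm U hU)), mul_zero])]
    simp only [dH, jac_G hr hU hn, jac_G hs hV hn, PiLp.smul_apply, smul_eq_mul, Finset.mul_sum]
    refine Finset.sum_congr rfl (fun i _ => Finset.sum_congr rfl (fun j _ => ?_))
    rw [show (64 : ℝ) ^ n = 8 ^ n * 8 ^ n by rw [← mul_pow]; norm_num,
      show (16 : ℝ) ^ n = 4 ^ n * 4 ^ n by rw [← mul_pow]; norm_num]
    ring
  rw [ih1_eq]
  simp_rw [h1]
  rw [int_scaled (cont_dH hU.t hV.t) (supp_dH hU.t), ih1_eq]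
  · congr 2
    ext n
    field_simp
  · refine hrs.congr (fun n => ?_)
    rw [abs_mul (r n * s n * 16 ^ n), abs_mul (r n * s n),
      abs_of_nonneg (by positivity : (0 : ℝ) ≤ 64 ^ n),
      abs_of_nonneg (by positivity : (0 : ℝ) ≤ 16 ^ n)]
    field_simp

theorem itri_G (hr : RD r) (hs : RD s) (ht : RD t) (hU : Uf U) (hV : Uf V) (hW : Uf W) :
    itri (G r U) (G s V) (G t W) = (∑' n, r n * s n * t n * 32 ^ n) * itri U V W := by
  have hrs := ((hr.mul hs).mul ht).summable (M := 32) (by norm_num)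
  have h1 : ∀ x, d3 (G r U) (G s V) (G t W) x
      = ∑' n : ℕ, (r n * s n * t n * 32 ^ n * 64 ^ n) * d3 U V W ((4 : ℝ) ^ n • x) := by
    intro x
    obtain ⟨n, hn⟩ := loc x
    rw [tsum_eq_single n (fun m hm => by
      rw [d3_zero1 (zero_off (hn m hm U hU)), mul_zero])]
    simp only [d3, G_eq hn hU, G_eq hn hV, jac_G ht hW hn, PiLp.smul_apply, smul_eq_mul,
      Finset.mul_sum]
    refine Finset.sum_congr rfl (fun i _ => Finset.sum_congr rfl (fun j _ => ?_))
    rw [show (64 : ℝ) ^ n = 8 ^ n * 8 ^ n by rw [← mul_pow]; norm_num,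
      show (32 : ℝ) ^ n = 8 ^ n * 4 ^ n by rw [← mul_pow]; norm_num]
    ring
  rw [itri_eq]
  simp_rw [h1]
  rw [int_scaled (cont_d3 hU.t hV.t hW.t) (supp_d3 hU.t), itri_eq]
  · congr 2
    ext n
    field_simp
  · refine hrs.congr (fun n => ?_)
    rw [abs_mul (r n * s n * t n * 32 ^ n), abs_mul (r n * s n * t n),
      abs_of_nonneg (by positivity : (0 : ℝ) ≤ 64 ^ n),
      abs_of_nonneg (by positivity : (0 : ℝ) ≤ 32 ^ n)]
    field_simp

end forms

end Pool.Agent.T2H10.Geom
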