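import Mathlib
import Pool.Agent.T2H10.Geom5

/-!
Geometry of the cradle, part 6: the fields `P n`, `S n`, `Z`, rescaling, the final theorem.
-/

set_option maxHeartbeats 1000000

open MeasureTheory Set Filter Topology
open scoped InnerProductSpace ENNReal ContDiff NNReal

namespace Pool.Agent.T2H10.Geom

open H772R2.NS

/-- sequence with one nonzero entry -/
noncomputable def sg (m : ℕ) (c : ℝ) (n : ℕ) : ℝ := if n = m then c else 0

theorem RD_sg (m : ℕ) (c : ℝ) : RD (sg m c) := RD.single m c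

/-- the constants -/
noncomputable def k00 : ℝ := 1 / (1 / kky + 2 / kka + 2 / kkb)

theorem k00_pos : 0 < k00 := by
  have := kka_pos; have := kkb_pos; have := kky_pos
  unfold k00; positivity

theorem k00_le_y : k00 / kky ≤ 1 := by
  have h1 := kka_pos; have h2 := kkb_pos; have h3 := kky_pos
  unfold k00
  rw [div_div, div_le_one (by positivity)]
  have : (1 / kky + 2 / kka + 2 / kkb) * kky = 1 + (2 / kka + 2 / kkb) * kky := by
    field_simp
    ring
  rw [this]
  have : 0 < (2 / kka + 2 / kkb) * kky := by positivity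
  linarith

theorem k00_le_a : k00 / kka ≤ 1 / 2 := by
  have h1 := kka_pos; have h2 := kkb_pos; have h3 := kky_pos
  unfold k00
  rw [div_div, div_le_div_iff₀ (by positivity) (by norm_num)]
  have : (1 / kky + 2 / kka + 2 / kkb) * kka = 2 + (1 / kky + 2 / kkb) * kka := by
    field_simp
    ring
  rw [this]
  have : 0 < (1 / kky + 2 / kkb) * kka := by positivity
  linarith

theorem k00_le_b : k00 / kkb ≤ 1 / 2 := by
  have h1 := kka_pos; have h2 := kkb_pos; have h3 := kky_pos
  unfold k00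
  rw [div_div, div_le_div_iff₀ (by positivity) (by norm_num)]
  have : (1 / kky + 2 / kka + 2 / kkb) * kkb = 2 + (1 / kky + 2 / kka) * kkb := by
    field_simp
    ring
  rw [this]
  have : 0 < (1 / kky + 2 / kka) * kkb := by positivity
  linarith

noncomputable def al : ℝ := √(k00 / kka)
noncomputable def be : ℝ := √(k00 / kkb / 32)
noncomputable def ga : ℝ := √(1 - k00 / kka - k00 / kkb / 32)

theorem al_sq : al * al = k00 / kka :=
  Real.mul_self_sqrt (div_pos k00_pos kka_pos).le
theorem be_sq : be * be = k00 / kkb / 32 :=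
  Real.mul_self_sqrt (by have := div_pos k00_pos kkb_pos; positivity)
theorem ga_aux : 1 / 4 ≤ 1 - k00 / kka - k00 / kkb / 32 := by
  have := k00_le_a; have := k00_le_b
  linarith
theorem ga_sq : ga * ga = 1 - k00 / kka - k00 / kkb / 32 :=
  Real.mul_self_sqrt (by have := ga_aux; linarith)
theorem ga_ge : 1 / 2 ≤ ga := by
  unfold ga
  apply Real.le_sqrt_of_sq_le
  have := ga_aux
  norm_num
  linarith

theorem abg : al * al + be * be + ga * ga = 1 := by
  rw [al_sq, be_sq, ga_sq]; ring

theorem kal : kka * (al * al) = k00 := by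
  rw [al_sq]; have := kka_pos; field_simp
theorem kbe : kkb * (be * be) * 32 = k00 := by
  rw [be_sq]; have := kkb_pos; field_simp

/-- coefficients of the field `Z` -/
noncomputable def rr (n : ℕ) : ℝ := √(4 * k00 / (ga * kky) * (gg n / 32 ^ n))

theorem ga_pos : 0 < ga := lt_of_lt_of_le (by norm_num) ga_ge

theorem rc_pos : 0 < 4 * k00 / (ga * kky) := by
  have := k00_pos; have := ga_pos; have := kky_pos
  positivity

theorem rc_le : 4 * k00 / (ga * kky) ≤ 8 := by
  have h1 := k00_le_y; have h2 := ga_ge; have h3 := kky_pos; have h4 := ga_pos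
  have h5 := k00_pos
  have : 4 * k00 / (ga * kky) = 4 / ga * (k00 / kky) := by field_simp
  rw [this]
  have h6 : 4 / ga ≤ 8 := by
    rw [div_le_iff₀ h4]; linarith
  have h7 : 0 < k00 / kky := by positivity
  have h8 : 0 < 4 / ga := by positivity
  nlinarith

theorem rr_sq (n : ℕ) : rr n * rr n = 4 * k00 / (ga * kky) * (gg n / 32 ^ n) := by
  have := rc_pos; have := gg_pos n
  exact Real.mul_self_sqrt (by positivity)

theorem rr_nonneg (n : ℕ) : 0 ≤ rr n := Real.sqrt_nonneg _

theorem rr_key (n : ℕ) : kky * (ga * (rr n * rr n)) * 32 ^ n = 4 * k00 * gg n := by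
  have := ga_pos; have := kky_pos
  rw [rr_sq]
  field_simp

theorem gg_decay (B : ℝ) (hB : 1 ≤ B) : ∃ C, ∀ n : ℕ, gg n * B ^ n ≤ C := by
  refine ⟨Real.exp ((Real.log B) ^ 2), fun n => ?_⟩
  have h1 : B ^ n = Real.exp (n * Real.log B) := by
    rw [Real.exp_nat_mul, Real.exp_log (by linarith)]
  rw [h1, gg, ← Real.exp_add]
  apply Real.exp_le_exp.mpr
  have hn : (0 : ℝ) ≤ n := Nat.cast_nonneg n
  unfold Lam LL
  nlinarith [sq_nonneg ((n : ℝ) - Real.log B), sq_nonneg (Real.log B), sq_nonneg (n : ℝ)]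

theorem RD_rr : RD rr := by
  intro M hM
  obtain ⟨C, hC⟩ := gg_decay (M ^ 2 + 1) (by nlinarith [sq_nonneg M])
  have hc := rc_pos
  refine ⟨√(4 * k00 / (ga * kky) * C), fun n => ?_⟩
  rw [abs_of_nonneg (rr_nonneg n)]
  apply Real.le_sqrt_of_sq_le
  have h1 : (rr n * M ^ n) ^ 2 = 4 * k00 / (ga * kky) * (gg n / 32 ^ n * (M ^ 2) ^ n) := by
    rw [mul_pow, sq (rr n), rr_sq, ← pow_mul, ← pow_mul, mul_comm n 2]
    ring
  rw [h1]
  apply mul_le_mul_of_nonneg_left _ hc.le
  refine le_trans ?_ (hC n)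
  have h2 := gg_pos n
  have h3 : gg n / 32 ^ n ≤ gg n := div_le_self h2.le (one_le_pow₀ (by norm_num))
  have h4 : (M ^ 2) ^ n ≤ (M ^ 2 + 1) ^ n := pow_le_pow_left₀ (by positivity) (by linarith) n
  exact mul_le_mul h3 h4 (by positivity) h2.le

/-- the coefficients of the fields -/
noncomputable def cf : Md → L → ℕ → ℝ
  | .P m, .p => sg m 1
  | .S m, .a => sg m al
  | .S m, .b => sg (m + 1) be
  | .S m, .c => sg m ga
  | .Z, .y => rr
  | .Z, .z => sg 0 (1 / 10 ^ 4)
  | _, _ => 0

theorem RD_cf (i : Md) (l : L) : RD (cf i l) := by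
  have h0 : RD (0 : ℕ → ℝ) := RD.zero
  rcases i with m | m | _ <;> rcases l <;> first
    | exact RD_sg _ _
    | exact RD_rr
    | exact h0

/-- the fields -/
noncomputable def F (i : Md) : E3 → E3 := ∑ l, G (cf i l) (UU l)

theorem isTest_F (i : Md) : IsTest (Metric.ball (0 : E3) 156) (F i) :=
  isT_sum _ (fun l _ => isTest_G (RD_cf i l) (uf_UU l))

theorem isT_GG (i : Md) (l : L) : IsT (G (cf i l) (UU l)) :=
  isT_of (isTest_G (RD_cf i l) (uf_UU l))

theorem isT_F (i : Md) : IsT (F i) := isT_of (isTest_F i)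

theorem il2_F (i j : Md) : il2 (F i) (F j) = ∑ l, ∑' n, cf i l n * cf j l n := by
  calc il2 (F i) (F j) = ∑ l, il2 (G (cf i l) (UU l)) (F j) :=
        il2_sum_left _ (fun l _ => isT_GG i l) (isT_F j)
    _ = ∑ l, ∑ l', il2 (G (cf i l) (UU l)) (G (cf j l') (UU l')) :=
        Finset.sum_congr rfl (fun l _ => il2_sum_right _ (fun l' _ => isT_GG j l') (isT_GG i l))
    _ = ∑ l, ∑' n, cf i l n * cf j l n := by
        refine Finset.sum_congr rfl (fun l _ => ?_)
        rw [Finset.sum_eq_single l]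
        · rw [il2_G (RD_cf i l) (RD_cf j l) (uf_UU l) (uf_UU l), il2_UU, if_pos rfl, mul_one]
        · intro l' _ h
          rw [il2_G (RD_cf i l) (RD_cf j l') (uf_UU l) (uf_UU l'), il2_UU, if_neg h.symm, mul_zero]
        · intro h; exact absurd (Finset.mem_univ l) h

theorem ih1_F (i j : Md) : ih1 (F i) (F j)
    = ∑ l, (∑' n, cf i l n * cf j l n * 16 ^ n) * ih1 (UU l) (UU l) := by
  calc ih1 (F i) (F j) = ∑ l, ih1 (G (cf i l) (UU l)) (F j) :=
        ih1_sum_left _ (fun l _ => isT_GG i l) (isT_F j)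
    _ = ∑ l, ∑ l', ih1 (G (cf i l) (UU l)) (G (cf j l') (UU l')) :=
        Finset.sum_congr rfl (fun l _ => ih1_sum_right _ (fun l' _ => isT_GG j l') (isT_GG i l))
    _ = _ := by
        refine Finset.sum_congr rfl (fun l _ => ?_)
        rw [Finset.sum_eq_single l]
        · rw [ih1_G (RD_cf i l) (RD_cf j l) (uf_UU l) (uf_UU l)]
        · intro l' _ h
          rw [ih1_G (RD_cf i l) (RD_cf j l') (uf_UU l) (uf_UU l'), ih1_UU _ _ h.symm, mul_zero]
        · intro h; exact absurd (Finset.mem_univ l) h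

/-- sums of products -/
noncomputable def T (r s t : ℕ → ℝ) : ℝ := ∑' n, r n * s n * t n * 32 ^ n

theorem T_sg1 (m : ℕ) (c : ℝ) (s t : ℕ → ℝ) : T (sg m c) s t = c * s m * t m * 32 ^ m := by
  rw [T, tsum_eq_single m (fun n hn => by simp [sg, hn])]
  simp [sg]

theorem T_sg2 (m : ℕ) (c : ℝ) (s t : ℕ → ℝ) : T s (sg m c) t = s m * c * t m * 32 ^ m := by
  rw [T, tsum_eq_single m (fun n hn => by simp [sg, hn])]
  simp [sg]

theorem T_sg3 (m : ℕ) (c : ℝ) (s t : ℕ → ℝ) : T s t (sg m c) = s m * t m * c * 32 ^ m := by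
  rw [T, tsum_eq_single m (fun n hn => by simp [sg, hn])]
  simp [sg]

theorem T_z1 (s t : ℕ → ℝ) : T 0 s t = 0 := by simp [T]
theorem T_z2 (s t : ℕ → ℝ) : T s 0 t = 0 := by simp [T]
theorem T_z3 (s t : ℕ → ℝ) : T s t 0 = 0 := by simp [T]

theorem itri_F (i j k : Md) : itri (F i) (F j) (F k)
    = -kka * T (cf i .a) (cf j .a) (cf k .p) + kka * T (cf i .p) (cf j .a) (cf k .a)
      + kkb * T (cf i .b) (cf j .b) (cf k .p) - kkb * T (cf i .p) (cf j .b) (cf k .b)
      + kky * T (cf i .y) (cf j .y) (cf k .c) - kky * T (cf i .c) (cf j .y) (cf k .y) := by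
  calc itri (F i) (F j) (F k) = ∑ l1, itri (G (cf i l1) (UU l1)) (F j) (F k) :=
        itri_sum1 _ (fun l _ => isT_GG i l) (isT_F j) (isT_F k)
    _ = ∑ l1, ∑ l2, itri (G (cf i l1) (UU l1)) (G (cf j l2) (UU l2)) (F k) :=
        Finset.sum_congr rfl (fun l1 _ => itri_sum2 _ (fun l _ => isT_GG j l) (isT_GG i l1)
          (isT_F k))
    _ = ∑ l1, ∑ l2, ∑ l3, itri (G (cf i l1) (UU l1)) (G (cf j l2) (UU l2))
          (G (cf k l3) (UU l3)) :=
        Finset.sum_congr rfl (fun l1 _ => Finset.sum_congr rfl (fun l2 _ =>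
          itri_sum3 _ (fun l _ => isT_GG k l) (isT_GG i l1) (isT_GG j l2)))
    _ = ∑ l1, ∑ l2, ∑ l3, T (cf i l1) (cf j l2) (cf k l3) * ut kka kkb kky l1 l2 l3 := by
        refine Finset.sum_congr rfl (fun l1 _ => Finset.sum_congr rfl (fun l2 _ =>
          Finset.sum_congr rfl (fun l3 _ => ?_)))
        rw [itri_G (RD_cf i l1) (RD_cf j l2) (RD_cf k l3) (uf_UU l1) (uf_UU l2) (uf_UU l3),
          itri_UU]
        rfl
    _ = _ := by
        simp only [sum_L, ut, mul_zero, add_zero, zero_add]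
        ring

theorem tsum_zero' : ∑' _ : ℕ, (0 : ℝ) = 0 := tsum_zero

theorem D_sg (m m' : ℕ) (c c' : ℝ) :
    ∑' n, sg m c n * sg m' c' n = if m = m' then c * c' else 0 := by
  rw [tsum_eq_single m (fun n hn => by simp [sg, hn])]
  simp [sg]

theorem D16_sg (m m' : ℕ) (c c' : ℝ) :
    ∑' n, sg m c n * sg m' c' n * 16 ^ n = if m = m' then c * c' * 16 ^ m else 0 := by
  rw [tsum_eq_single m (fun n hn => by simp [sg, hn])]
  simp [sg]

theorem gg_zero_le : gg 0 ≤ 2 / 10 ^ 10 := by
  have h1 := Real.quadratic_le_exp_of_nonneg (x := (100000 : ℝ)) (by norm_num)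
  have h2 : gg 0 = (Real.exp 100000)⁻¹ := by
    rw [gg, Lam, LL, ← Real.exp_neg]
    norm_num
  rw [h2, inv_le_comm₀ (Real.exp_pos _) (by norm_num)]
  refine le_trans ?_ h1
  norm_num

theorem gg_anti (n : ℕ) : gg n ≤ gg 0 := by
  induction n with
  | zero => exact le_rfl
  | succ n ih =>
    have := gg_half n
    have := gg_pos n
    linarith

/-- the square of the norm of `Z` -/
noncomputable def ww : ℝ := (∑' n, rr n * rr n) + 1 / 10 ^ 8

theorem ww_bounds : 1 / 10 ^ 9 ≤ ww ∧ ww ≤ 5 / 10 ^ 7 := by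
  have h0 : 0 ≤ ∑' n, rr n * rr n := tsum_nonneg (fun n => mul_self_nonneg _)
  have hg : Summable (fun n : ℕ => 16 / 10 ^ 10 * (1 / 32 : ℝ) ^ n) :=
    (summable_geometric_of_lt_one (by norm_num) (by norm_num)).mul_left _
  have hle : ∀ n, rr n * rr n ≤ 16 / 10 ^ 10 * (1 / 32 : ℝ) ^ n := by
    intro n
    rw [rr_sq]
    have h1 := rc_le
    have h2 := rc_pos
    have h3 := gg_pos n
    have h4 := (gg_anti n).trans gg_zero_le
    have h5 : (0 : ℝ) < (1 / 32) ^ n := by positivity
    have h6 : gg n / 32 ^ n = gg n * (1 / 32) ^ n := by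
      rw [one_div, inv_pow]; rfl
    rw [h6, ← mul_assoc]
    have h7 : 4 * k00 / (ga * kky) * gg n ≤ 8 * (2 / 10 ^ 10) := mul_le_mul h1 h4 h3.le (by norm_num)
    have h8 : (8 : ℝ) * (2 / 10 ^ 10) = 16 / 10 ^ 10 := by norm_num
    rw [h8] at h7
    exact mul_le_mul_of_nonneg_right h7 h5.le
  have hs : Summable (fun n => rr n * rr n) :=
    Summable.of_nonneg_of_le (fun n => mul_self_nonneg _) hle hg
  have h1 : ∑' n, rr n * rr n ≤ ∑' n : ℕ, 16 / 10 ^ 10 * (1 / 32 : ℝ) ^ n :=
    hs.tsum_le_tsum hle hg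
  rw [tsum_mul_left, tsum_geometric_of_lt_one (by norm_num) (by norm_num)] at h1
  unfold ww
  norm_num at h1 ⊢
  constructor <;> linarith

theorem cradle_unit : Cradle (Metric.ball (0 : E3) 156) := by
  refine ⟨F, k00, ih1 (UU .p) (UU .p),
    al * al * ih1 (UU .a) (UU .a) + 16 * (be * be) * ih1 (UU .b) (UU .b)
      + ga * ga * ih1 (UU .c) (UU .c), ih1 (F .Z) (F .Z), ww, k00_pos, ih1_UU_pos.1, ?_,
    ih1_self_nonneg _, ww_bounds.1, ww_bounds.2, isTest_F, ?_, ?_, ?_⟩
  · have h1 := ih1_self_nonneg (UU .a)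
    have h2 := ih1_self_nonneg (UU .b)
    have h3 := ih1_UU_pos.2
    have h4 := ga_pos
    have h5 : 0 ≤ al * al := mul_self_nonneg _
    have h6 : 0 ≤ be * be := mul_self_nonneg _
    positivity
  · intro i j
    rw [il2_F, sum_L]
    rcases i with m | m | _ <;> rcases j with m' | m' | _ <;>
      simp only [cf, Pi.zero_apply, zero_mul, mul_zero, tsum_zero, add_zero, zero_add, D_sg, nrm,
        Md.P.injEq, Md.S.injEq, reduceCtorEq, if_false, if_true]
    · norm_num
    · by_cases h : m = m'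
      · simp only [h, if_true]
        have := abg
        linarith
      · simp [h]
    · rw [ww]; norm_num
  · intro i j
    by_cases hij : i = j
    · subst hij
      rw [if_pos rfl]
      rcases i with m | m | _
      · rw [ih1_F, sum_L]
        simp only [cf, Pi.zero_apply, zero_mul, mul_zero, tsum_zero, add_zero, zero_add, D16_sg,
          grd, if_true]
        ring
      · rw [ih1_F, sum_L]
        simp only [cf, Pi.zero_apply, zero_mul, mul_zero, tsum_zero, add_zero, zero_add, D16_sg,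
          grd, if_true]
        ring
      · rfl
    · rw [if_neg hij, ih1_F, sum_L]
      rcases i with m | m | _ <;> rcases j with m' | m' | _ <;>
        simp only [cf, Pi.zero_apply, zero_mul, mul_zero, tsum_zero, add_zero, zero_add, D16_sg]
      · rw [if_neg (fun h => hij (by rw [h]))]; ring
      · have h : m ≠ m' := fun h => hij (by rw [h])
        simp [h]
      · exact absurd rfl hij
  · intro i j k
    rw [itri_F]
    rcases i with m | m | _ <;> rcases j with m' | m' | _ <;> rcases k with m'' | m'' | _ <;>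
      simp only [cf, T_z1, T_z2, T_z3, mul_zero, add_zero, zero_add, sub_zero, zero_sub, tab]
    · rw [T_sg1, T_sg1]
      simp only [sg]
      by_cases h : m'' = m'
      · subst h
        rw [if_pos rfl]
        by_cases h1 : m = m''
        · subst h1
          have h2 : m ≠ m + 1 := by omega
          simp only [if_true, if_neg h2]
          have := kal
          linear_combination (32 ^ m) * this
        · by_cases h2 : m = m'' + 1
          · subst h2
            simp only [if_neg h1, if_true]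
            have := kbe
            linear_combination (-(32 : ℝ) ^ m'') * this
          · simp [h1, h2]
      · rw [if_neg h]
        by_cases h1 : m = m'
        · have h2 : m ≠ m'' := fun h3 => h (by omega)
          have h3 : m ≠ m' + 1 := by omega
          simp [h2, h3]
        · by_cases h2 : m = m' + 1
          · have h3 : m ≠ m'' + 1 := by omega
            simp [h1, h3]
          · simp [h1, h2]
    · rw [T_sg3, T_sg3]
      simp only [sg]
      by_cases h : m = m'
      · subst h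
        rw [if_pos rfl]
        by_cases h1 : m'' = m
        · subst h1
          have h2 : m'' ≠ m'' + 1 := by omega
          simp only [if_true, if_neg h2]
          have := kal
          linear_combination (-(32 : ℝ) ^ m'') * this
        · by_cases h2 : m'' = m + 1
          · subst h2
            simp only [if_neg h1, if_true]
            have := kbe
            linear_combination ((32 : ℝ) ^ m) * this
          · simp [h1, h2]
      · rw [if_neg h]
        by_cases h1 : m'' = m
        · have h2 : m'' ≠ m' := fun h3 => h (by omega)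
          have h3 : m'' ≠ m + 1 := by omega
          simp [h2, h3]
        · by_cases h2 : m'' = m + 1
          · have h3 : m'' ≠ m' + 1 := by omega
            simp [h1, h3]
          · simp [h1, h2]
    · rw [T_sg1, ← rr_key m]
      ring
    · rw [T_sg3, ← rr_key m'']
      ring

/-! ### Rescaling -/

/-- rescaled field -/
noncomputable def rs (N : ℕ) (x0 : E3) (v : E3 → E3) (x : E3) : E3 :=
  (8 : ℝ) ^ N • v ((4 : ℝ) ^ N • (x - x0))

section rs
variable {N : ℕ} {x0 : E3} {v w φ : E3 → E3}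

theorem jac_rs (hv : IsT v) (x : E3) :
    jac (rs N x0 v) x = ((8 : ℝ) ^ N * 4 ^ N) • jac v ((4 : ℝ) ^ N • (x - x0)) := by
  have h1 : HasFDerivAt (fun x : E3 => (4 : ℝ) ^ N • (x - x0))
      ((4 : ℝ) ^ N • ContinuousLinearMap.id ℝ E3) x :=
    ((hasFDerivAt_id x).sub_const x0).const_smul ((4 : ℝ) ^ N)
  have h2 : HasFDerivAt v (fderiv ℝ v ((4 : ℝ) ^ N • (x - x0))) ((4 : ℝ) ^ N • (x - x0)) :=
    ((hv.smooth.differentiable (by simp)) _).hasFDerivAt
  have h3 := (h2.comp x h1).const_smul ((8 : ℝ) ^ N)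
  have h4 : fderiv ℝ (rs N x0 v) x = _ := h3.fderiv
  ext p
  rw [jac_apply, h4]
  simp only [PiLp.smul_apply, smul_eq_mul, jac_apply]
  simp
  ring

theorem int_rs (f : E3 → ℝ) (N : ℕ) (x0 : E3) :
    ∫ x, f ((4 : ℝ) ^ N • (x - x0)) = (64 ^ N)⁻¹ * ∫ x, f x := by
  have h1 := integral_sub_right_eq_self (μ := (volume : Measure E3))
    (fun x => f ((4 : ℝ) ^ N • x)) x0
  rw [h1, Measure.integral_comp_smul_of_nonneg (volume : Measure E3) f ((4 : ℝ) ^ N)
      (hR := by positivity)]
  simp only [finrank_euclideanSpace, Fintype.card_fin, smul_eq_mul]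
  congr 2
  rw [← pow_mul, mul_comm, pow_mul]
  norm_num

theorem il2_rs : il2 (rs N x0 v) (rs N x0 w) = il2 v w := by
  have h : ∀ x, d2 (rs N x0 v) (rs N x0 w) x = 64 ^ N * d2 v w ((4 : ℝ) ^ N • (x - x0)) := by
    intro x
    simp only [d2, rs, PiLp.smul_apply, smul_eq_mul, Finset.mul_sum]
    refine Finset.sum_congr rfl (fun i _ => ?_)
    rw [show (64 : ℝ) ^ N = 8 ^ N * 8 ^ N by rw [← mul_pow]; norm_num]
    ring
  rw [il2_eq]
  simp_rw [h]
  rw [integral_const_mul, int_rs, il2_eq]
  field_simp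

theorem ih1_rs (hv : IsT v) (hw : IsT w) :
    ih1 (rs N x0 v) (rs N x0 w) = 16 ^ N * ih1 v w := by
  have h : ∀ x, dH (rs N x0 v) (rs N x0 w) x
      = 64 ^ N * 16 ^ N * dH v w ((4 : ℝ) ^ N • (x - x0)) := by
    intro x
    simp only [dH, jac_rs hv, jac_rs hw, PiLp.smul_apply, smul_eq_mul, Finset.mul_sum]
    refine Finset.sum_congr rfl (fun i _ => Finset.sum_congr rfl (fun j _ => ?_))
    rw [show (64 : ℝ) ^ N = 8 ^ N * 8 ^ N by rw [← mul_pow]; norm_num,
      show (16 : ℝ) ^ N = 4 ^ N * 4 ^ N by rw [← mul_pow]; norm_num]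
    ring
  rw [ih1_eq]
  simp_rw [h]
  rw [integral_const_mul, int_rs, ih1_eq]
  field_simp

theorem itri_rs (hφ : IsT φ) :
    itri (rs N x0 v) (rs N x0 w) (rs N x0 φ) = 32 ^ N * itri v w φ := by
  have h : ∀ x, d3 (rs N x0 v) (rs N x0 w) (rs N x0 φ) x
      = 64 ^ N * 32 ^ N * d3 v w φ ((4 : ℝ) ^ N • (x - x0)) := by
    intro x
    simp only [d3, jac_rs hφ, rs, PiLp.smul_apply, smul_eq_mul, Finset.mul_sum]
    refine Finset.sum_congr rfl (fun i _ => Finset.sum_congr rfl (fun j _ => ?_))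
    rw [show (64 : ℝ) ^ N = 8 ^ N * 8 ^ N by rw [← mul_pow]; norm_num,
      show (32 : ℝ) ^ N = 8 ^ N * 4 ^ N by rw [← mul_pow]; norm_num]
    ring
  rw [itri_eq]
  simp_rw [h]
  rw [integral_const_mul, int_rs, itri_eq]
  field_simp

theorem isTest_rs {Ω : Set E3} (hv : IsTest (Metric.ball (0 : E3) 156) v)
    (hΩ : Metric.closedBall x0 (156 / 4 ^ N) ⊆ Ω) : IsTest Ω (rs N x0 v) := by
  have hz : ∀ x, x ∉ Metric.closedBall x0 (156 / 4 ^ N) → rs N x0 v x = 0 := by
    intro x hx
    have : (4 : ℝ) ^ N • (x - x0) ∉ tsupport v := by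
      intro hc
      apply hx
      have h1 := hv.supp hc
      rw [mem_ball_zero_iff, norm_smul, norm_pow, Real.norm_of_nonneg (by norm_num : (0 : ℝ) ≤ 4)]
        at h1
      rw [Metric.mem_closedBall, dist_eq_norm, le_div_iff₀ (by positivity)]
      linarith
    rw [rs, zero_off this, smul_zero]
  refine ⟨?_, ?_, ?_, ?_⟩
  · have h : ContDiff ℝ ∞ (fun x : E3 => (4 : ℝ) ^ N • (x - x0)) :=
      (contDiff_id.sub contDiff_const).const_smul _
    exact (hv.smooth.comp h).const_smul _
  · exact HasCompactSupport.intro (isCompact_closedBall x0 (156 / 4 ^ N)) hz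
  · refine Subset.trans ?_ hΩ
    refine closure_minimal ?_ Metric.isClosed_closedBall
    intro x hx
    by_contra hc
    exact hx (hz x hc)
  · intro x
    simp only [jac_rs (isT_of hv), PiLp.smul_apply, smul_eq_mul, ← Finset.mul_sum, hv.divfree,
      mul_zero]

end rs

end Geom

open H772R2.NS Geom in
/-- Every nonempty open set of `ℝ³` contains a cradle. -/
theorem exists_cradle {Ω : Set E3} (hΩ : IsOpen Ω) (hne : Ω.Nonempty) : Cradle Ω := by
  obtain ⟨x0, hx0⟩ := hne
  obtain ⟨ε, hε, hball⟩ := Metric.isOpen_iff.mp hΩ x0 hx0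
  obtain ⟨N, hN⟩ := exists_nat_gt (156 / ε)
  have hN2 : 156 / (4 : ℝ) ^ N < ε := by
    have h1 : (N : ℝ) < 4 ^ N := by
      exact_mod_cast Nat.lt_pow_self (by norm_num : 1 < 4)
    have h2 : (0 : ℝ) < 4 ^ N := by positivity
    rw [div_lt_iff₀ h2]
    rw [div_lt_iff₀ hε] at hN
    nlinarith
  have hsub : Metric.closedBall x0 (156 / 4 ^ N) ⊆ Ω :=
    (Metric.closedBall_subset_ball hN2).trans hball
  obtain ⟨v, k0, NP, NS, NZ, w, h1, h2, h3, h4, h5, h6, h7, h8, h9, h10⟩ := cradle_unit
  have hT : ∀ i, IsT (v i) := fun i => isT_of (h7 i)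
  refine ⟨fun i => rs N x0 (v i), 32 ^ N * k0, 16 ^ N * NP, 16 ^ N * NS, 16 ^ N * NZ, w,
    by positivity, by positivity, by positivity, by positivity, h5, h6,
    fun i => isTest_rs (h7 i) hsub, ?_, ?_, ?_⟩
  · intro i j
    rw [il2_rs, h8]
  · intro i j
    rw [ih1_rs (hT i) (hT j), h9]
    split_ifs
    · rcases i with m | m | _ <;> simp only [grd] <;> ring
    · ring
  · intro i j k
    rw [itri_rs (hT k), h10]
    rcases i with m | m | _ <;> rcases j with m' | m' | _ <;> rcases k with m'' | m'' | _ <;>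
      simp only [tab, mul_zero]
    · split_ifs <;> ring
    · split_ifs <;> ring
    · ring
    · ring

end Pool.Agent.T2H10
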