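import Pool.Agent.T2H10.Sub

/-!
The quadratic term of the Navier-Stokes equations on the span of the fields of a cradle.
-/

set_option autoImplicit false
set_option linter.unusedSectionVars false
set_option maxHeartbeats 1000000

open MeasureTheory Set Filter Topology
open scoped InnerProductSpace ENNReal ContDiff NNReal

namespace Pool.Agent.T2H10

open H772R2.NS

section lin

variable {Ω : Set E3} {f g h k : E3 → E3}

theorem cont_coord (hf : IsTest Ω f) (i : Fin 3) : Continuous (fun x => f x i) :=
  (contDiff_coord hf.smooth i).continuous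

theorem cont_jac (hf : IsTest Ω f) (i j : Fin 3) : Continuous (fun x => jac f x (i, j)) :=
  (EuclideanSpace.proj (𝕜 := ℝ) (i, j) : M3 →L[ℝ] ℝ).continuous.comp (continuous_jac hf.smooth)

theorem supp_jac (hf : IsTest Ω f) (i j : Fin 3) : HasCompactSupport (fun x => jac f x (i, j)) := by
  refine (hasCompactSupport_jac hf.compact).mono (fun x hx => ?_)
  intro h0
  apply hx
  simp [h0]

theorem int_il2 (hf : IsTest Ω f) (hg : IsTest Ω g) :
    Integrable (fun x => ∑ i, f x i * g x i) := by
  refine integrable_finsetSum _ fun i _ => ?_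
  exact ((cont_coord hf i).mul (cont_coord hg i)).integrable_of_hasCompactSupport
    ((hasCompactSupport_coord hf.compact i).mul_right)

theorem int_ih1 (hf : IsTest Ω f) (hg : IsTest Ω g) :
    Integrable (fun x => ∑ i, ∑ j, jac f x (i, j) * jac g x (i, j)) := by
  refine integrable_finsetSum _ fun i _ => integrable_finsetSum _ fun j _ => ?_
  exact ((cont_jac hf i j).mul (cont_jac hg i j)).integrable_of_hasCompactSupport
    ((supp_jac hf i j).mul_right)

theorem int_itri (hf : IsTest Ω f) (hg : IsTest Ω g) (hh : IsTest Ω h) :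
    Integrable (fun x => ∑ i, ∑ j, f x i * g x j * jac h x (i, j)) := by
  refine integrable_finsetSum _ fun i _ => integrable_finsetSum _ fun j _ => ?_
  exact (((cont_coord hf i).mul (cont_coord hg j)).mul
    (cont_jac hh i j)).integrable_of_hasCompactSupport ((supp_jac hh i j).mul_left)

theorem il2_comm (f g : E3 → E3) : il2 f g = il2 g f := by
  unfold il2
  congr 1
  funext x
  exact Finset.sum_congr rfl fun i _ => mul_comm _ _

theorem il2_add (hf : IsTest Ω f) (hg : IsTest Ω g) (hh : IsTest Ω h) :
    il2 (f + g) h = il2 f h + il2 g h := by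
  unfold il2
  rw [← integral_add (int_il2 hf hh) (int_il2 hg hh)]
  congr 1
  funext x
  rw [← Finset.sum_add_distrib]
  refine Finset.sum_congr rfl fun i _ => ?_
  simp only [Pi.add_apply, PiLp.add_apply]
  ring

theorem il2_smul (c : ℝ) (f g : E3 → E3) : il2 (c • f) g = c * il2 f g := by
  unfold il2
  rw [← integral_const_mul]
  congr 1
  funext x
  rw [Finset.mul_sum]
  refine Finset.sum_congr rfl fun i _ => ?_
  simp only [Pi.smul_apply, PiLp.smul_apply, smul_eq_mul]
  ring

theorem ih1_add (hf : IsTest Ω f) (hg : IsTest Ω g) (hh : IsTest Ω h) :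
    ih1 (f + g) h = ih1 f h + ih1 g h := by
  unfold ih1
  rw [← integral_add (int_ih1 hf hh) (int_ih1 hg hh)]
  congr 1
  funext x
  rw [← Finset.sum_add_distrib]
  refine Finset.sum_congr rfl fun i _ => ?_
  rw [← Finset.sum_add_distrib]
  refine Finset.sum_congr rfl fun j _ => ?_
  rw [jac_add hf.smooth hg.smooth, PiLp.add_apply]
  ring

theorem ih1_smul (c : ℝ) (f g : E3 → E3) : ih1 (c • f) g = c * ih1 f g := by
  unfold ih1
  rw [← integral_const_mul]
  congr 1
  funext x
  rw [Finset.mul_sum]
  refine Finset.sum_congr rfl fun i _ => ?_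
  rw [Finset.mul_sum]
  refine Finset.sum_congr rfl fun j _ => ?_
  rw [jac_smul, PiLp.smul_apply, smul_eq_mul]
  ring

theorem itri_add1 (hf : IsTest Ω f) (hg : IsTest Ω g) (hh : IsTest Ω h) (hk : IsTest Ω k) :
    itri (f + g) h k = itri f h k + itri g h k := by
  unfold itri
  rw [← integral_add (int_itri hf hh hk) (int_itri hg hh hk)]
  congr 1
  funext x
  rw [← Finset.sum_add_distrib]
  refine Finset.sum_congr rfl fun i _ => ?_
  rw [← Finset.sum_add_distrib]
  refine Finset.sum_congr rfl fun j _ => ?_
  simp only [Pi.add_apply, PiLp.add_apply]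
  ring

theorem itri_add2 (hf : IsTest Ω f) (hg : IsTest Ω g) (hh : IsTest Ω h) (hk : IsTest Ω k) :
    itri h (f + g) k = itri h f k + itri h g k := by
  unfold itri
  rw [← integral_add (int_itri hh hf hk) (int_itri hh hg hk)]
  congr 1
  funext x
  rw [← Finset.sum_add_distrib]
  refine Finset.sum_congr rfl fun i _ => ?_
  rw [← Finset.sum_add_distrib]
  refine Finset.sum_congr rfl fun j _ => ?_
  simp only [Pi.add_apply, PiLp.add_apply]
  ring

theorem itri_smul1 (c : ℝ) (f g k : E3 → E3) : itri (c • f) g k = c * itri f g k := by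
  unfold itri
  rw [← integral_const_mul]
  congr 1
  funext x
  rw [Finset.mul_sum]
  refine Finset.sum_congr rfl fun i _ => ?_
  rw [Finset.mul_sum]
  refine Finset.sum_congr rfl fun j _ => ?_
  simp only [Pi.smul_apply, PiLp.smul_apply, smul_eq_mul]
  ring

theorem itri_smul2 (c : ℝ) (f g k : E3 → E3) : itri f (c • g) k = c * itri f g k := by
  unfold itri
  rw [← integral_const_mul]
  congr 1
  funext x
  rw [Finset.mul_sum]
  refine Finset.sum_congr rfl fun i _ => ?_
  rw [Finset.mul_sum]
  refine Finset.sum_congr rfl fun j _ => ?_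
  simp only [Pi.smul_apply, PiLp.smul_apply, smul_eq_mul]
  ring

end lin

section ext

variable {v : Md → E3 → E3}

theorem lin_ext {L : (E3 → E3) → ℝ}
    (ha : ∀ f ∈ Submodule.span ℝ (range v), ∀ g ∈ Submodule.span ℝ (range v),
      L (f + g) = L f + L g)
    (hs : ∀ (c : ℝ), ∀ f ∈ Submodule.span ℝ (range v), L (c • f) = c * L f)
    (h0 : ∀ i, L (v i) = 0) {f : E3 → E3} (hf : f ∈ Submodule.span ℝ (range v)) : L f = 0 := by
  induction hf using Submodule.span_induction with
  | mem x hx =>
    obtain ⟨i, rfl⟩ := hx
    exact h0 i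
  | zero =>
    have := hs 0 0 (Submodule.zero_mem _)
    rwa [zero_smul, zero_mul] at this
  | add x y hx hy h1 h2 => rw [ha x hx y hy, h1, h2, add_zero]
  | smul a x hx h1 => rw [hs a x hx, h1, mul_zero]

theorem bil_ext {B : (E3 → E3) → (E3 → E3) → ℝ}
    (ha1 : ∀ f ∈ Submodule.span ℝ (range v), ∀ g ∈ Submodule.span ℝ (range v),
      ∀ h ∈ Submodule.span ℝ (range v), B (f + g) h = B f h + B g h)
    (hs1 : ∀ (c : ℝ), ∀ f ∈ Submodule.span ℝ (range v), ∀ h ∈ Submodule.span ℝ (range v),
      B (c • f) h = c * B f h)
    (ha2 : ∀ f ∈ Submodule.span ℝ (range v), ∀ g ∈ Submodule.span ℝ (range v),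
      ∀ h ∈ Submodule.span ℝ (range v), B h (f + g) = B h f + B h g)
    (hs2 : ∀ (c : ℝ), ∀ f ∈ Submodule.span ℝ (range v), ∀ h ∈ Submodule.span ℝ (range v),
      B h (c • f) = c * B h f)
    (h0 : ∀ i j, B (v i) (v j) = 0) {f g : E3 → E3} (hf : f ∈ Submodule.span ℝ (range v))
    (hg : g ∈ Submodule.span ℝ (range v)) : B f g = 0 := by
  refine lin_ext (v := v) (L := fun f => B f g) (fun f hf f' hf' => ha1 f hf f' hf' g hg)
    (fun c f hf => hs1 c f hf g hg) (fun i => ?_) hf
  have hi : v i ∈ Submodule.span ℝ (range v) := Submodule.subset_span ⟨i, rfl⟩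
  exact lin_ext (v := v) (L := fun g => B (v i) g) (fun f hf f' hf' => ha2 f hf f' hf' _ hi)
    (fun c f hf => hs2 c f hf _ hi) (fun j => h0 i j) hg

end ext

/-- the data of a cradle -/
structure Crad (Ω : Set E3) (v : Md → E3 → E3) (k0 NP NS NZ w : ℝ) : Prop where
  hk0 : 0 < k0
  hNP : 0 < NP
  hNS : 0 < NS
  hNZ : 0 ≤ NZ
  hw1 : 1 / 10 ^ 9 ≤ w
  hw2 : w ≤ 5 / 10 ^ 7
  test : ∀ i, IsTest Ω (v i)
  gram : ∀ i j, il2 (v i) (v j) = if i = j then nrm w i else 0
  gramh : ∀ i j, ih1 (v i) (v j) = if i = j then grd NP NS NZ i else 0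
  tri : ∀ i j k, itri (v i) (v j) (v k) = tab k0 i j k

section quad

variable {Ω : Set E3} {v : Md → E3 → E3} {k0 NP NS NZ w : ℝ}

theorem Crad.w0 (C : Crad Ω v k0 NP NS NZ w) : 0 < w :=
  lt_of_lt_of_le (by norm_num) C.hw1

theorem Crad.test_span (C : Crad Ω v k0 NP NS NZ w) {φ : E3 → E3}
    (hφ : φ ∈ Submodule.span ℝ (range v)) : IsTest Ω φ := by
  induction hφ using Submodule.span_induction with
  | mem x hx =>
    obtain ⟨i, rfl⟩ := hx
    exact C.test i
  | zero => exact IsTest.zero
  | add x y _ _ h1 h2 => exact h1.add h2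
  | smul a x _ h1 => exact h1.smul a

/-- the feeding coefficient -/
noncomputable def fd (k0 : ℝ) (x : ℕ → ℝ) : ℕ → ℝ
  | 0 => 0
  | m + 1 => k0 * 32 ^ m * x m

theorem Crad.quadP (C : Crad Ω v k0 NP NS NZ w) (m : ℕ) {φ : E3 → E3}
    (hφ : φ ∈ Submodule.span ℝ (range v)) :
    itri φ φ (v (.P m)) = -(k0 * 32 ^ m) * il2 φ (v (.S m)) ^ 2
      + fd k0 (fun n => il2 φ (v (.S n)) ^ 2) m := by
  have hT : ∀ {f : E3 → E3}, f ∈ Submodule.span ℝ (range v) → IsTest Ω f := fun hf =>
    C.test_span hf
  have key := bil_ext (v := v) (B := fun f g => itri f g (v (.P m))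
    - (-(k0 * 32 ^ m) * (il2 f (v (.S m)) * il2 g (v (.S m)))
      + fd k0 (fun n => il2 f (v (.S n)) * il2 g (v (.S n))) m))
    (by
      intro f hf g hg h hh
      cases m with
      | zero =>
        simp only [fd]
        rw [itri_add1 (hT hf) (hT hg) (hT hh) (C.test _), il2_add (hT hf) (hT hg) (C.test _)]
        ring
      | succ m =>
        simp only [fd]
        rw [itri_add1 (hT hf) (hT hg) (hT hh) (C.test _), il2_add (hT hf) (hT hg) (C.test _),
          il2_add (hT hf) (hT hg) (C.test _)]
        ring)
    (by
      intro c f hf h hh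
      cases m with
      | zero =>
        simp only [fd]
        rw [itri_smul1, il2_smul]
        ring
      | succ m =>
        simp only [fd]
        rw [itri_smul1, il2_smul, il2_smul]
        ring)
    (by
      intro f hf g hg h hh
      cases m with
      | zero =>
        simp only [fd]
        rw [itri_add2 (hT hf) (hT hg) (hT hh) (C.test _), il2_add (hT hf) (hT hg) (C.test _)]
        ring
      | succ m =>
        simp only [fd]
        rw [itri_add2 (hT hf) (hT hg) (hT hh) (C.test _), il2_add (hT hf) (hT hg) (C.test _),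
          il2_add (hT hf) (hT hg) (C.test _)]
        ring)
    (by
      intro c f hf h hh
      cases m with
      | zero =>
        simp only [fd]
        rw [itri_smul2, il2_smul]
        ring
      | succ m =>
        simp only [fd]
        rw [itri_smul2, il2_smul, il2_smul]
        ring)
    (by
      intro i j
      simp only [C.tri]
      cases m with
      | zero =>
        simp only [fd, C.gram]
        rcases i with a | a | _ <;> rcases j with b | b | _ <;>
          simp only [tab, nrm, Md.S.injEq, reduceCtorEq, if_false] <;> try ring1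
        by_cases hab : a = b
        · subst hab
          by_cases ha : a = 0
          · subst ha; simp
          · rw [if_pos rfl, if_neg (by omega), if_neg (by omega)]; ring
        · rw [if_neg hab]
          by_cases ha : a = 0
          · have : b ≠ 0 := by omega
            simp [this]
          · simp [ha]
      | succ m =>
        simp only [fd, C.gram]
        rcases i with a | a | _ <;> rcases j with b | b | _ <;>
          simp only [tab, nrm, Md.S.injEq, reduceCtorEq, if_false] <;> try ring1
        by_cases hab : a = b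
        · subst hab
          by_cases ha : a = m + 1
          · subst ha
            simp
          · by_cases ha' : a = m
            · subst ha'
              simp
            · rw [if_pos rfl, if_neg (by omega), if_neg (by omega), if_neg ha, if_neg ha']; ring
        · rw [if_neg hab]
          by_cases ha : a = m + 1
          · have h1 : b ≠ m + 1 := by omega
            have h2 : a ≠ m := by omega
            simp [h1, h2]
          · by_cases ha' : a = m
            · have h1 : b ≠ m := by omega
              simp [h1, ha]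
            · simp [ha, ha'])
    hφ hφ
  have e : (fun n => il2 φ (v (.S n)) ^ 2) = fun n => il2 φ (v (.S n)) * il2 φ (v (.S n)) := by
    funext n; ring
  rw [e]
  linarith

theorem Crad.quadS (C : Crad Ω v k0 NP NS NZ w) (m : ℕ) {φ : E3 → E3}
    (hφ : φ ∈ Submodule.span ℝ (range v)) :
    itri φ φ (v (.S m)) = k0 * 32 ^ m * il2 φ (v (.S m))
      * (il2 φ (v (.P m)) - il2 φ (v (.P (m + 1)))) + 4 * k0 * gg m * (il2 φ (v .Z) / w) ^ 2 := by
  have hT : ∀ {f : E3 → E3}, f ∈ Submodule.span ℝ (range v) → IsTest Ω f := fun hf =>
    C.test_span hf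
  have hw := C.w0.ne'
  have key := bil_ext (v := v) (B := fun f g => itri f g (v (.S m))
    - (k0 * 32 ^ m * ((il2 f (v (.P m)) - il2 f (v (.P (m + 1)))) * il2 g (v (.S m)))
      + 4 * k0 * gg m * ((il2 f (v .Z) / w) * (il2 g (v .Z) / w))))
    (by
      intro f hf g hg h hh
      rw [itri_add1 (hT hf) (hT hg) (hT hh) (C.test _), il2_add (hT hf) (hT hg) (C.test _),
        il2_add (hT hf) (hT hg) (C.test _), il2_add (hT hf) (hT hg) (C.test _)]
      ring)
    (by
      intro c f hf h hh
      rw [itri_smul1, il2_smul, il2_smul, il2_smul]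
      ring)
    (by
      intro f hf g hg h hh
      rw [itri_add2 (hT hf) (hT hg) (hT hh) (C.test _), il2_add (hT hf) (hT hg) (C.test _),
        il2_add (hT hf) (hT hg) (C.test _)]
      ring)
    (by
      intro c f hf h hh
      rw [itri_smul2, il2_smul, il2_smul]
      ring)
    (by
      intro i j
      simp only [C.tri, C.gram]
      rcases i with a | a | _ <;> rcases j with b | b | _ <;>
        simp only [tab, nrm, Md.S.injEq, Md.P.injEq, reduceCtorEq, if_false, if_true] <;> try ring1
      · by_cases hb : b = m
        · subst hb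
          by_cases ha : a = b
          · subst ha
            simp
          · by_cases ha' : a = b + 1
            · subst ha'
              simp
            · simp [ha, ha']
        · have : m ≠ b := fun h => hb h.symm
          simp [hb, this]
      · field_simp
        ring)
    hφ hφ
  linarith

theorem gg_summable : Summable gg := by
  have h : ∀ n, gg n ≤ gg 0 * (1 / 2) ^ n := by
    intro n
    induction n with
    | zero => simp
    | succ n ih =>
      have := gg_half n
      rw [pow_succ]
      linarith
  exact Summable.of_nonneg_of_le (fun n => (gg_pos n).le) h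
    ((summable_geometric_of_lt_one (by norm_num) (by norm_num)).mul_left _)

theorem tsum_gg_le : ∑' n, gg n ≤ 2 * gg 0 := by
  have h : ∀ n, gg n ≤ gg 0 * (1 / 2) ^ n := by
    intro n
    induction n with
    | zero => simp
    | succ n ih =>
      have := gg_half n
      rw [pow_succ]
      linarith
  have h2 : Summable (fun n : ℕ => gg 0 * (1 / 2) ^ n) :=
    (summable_geometric_of_lt_one (by norm_num) (by norm_num)).mul_left _
  refine (gg_summable.tsum_le_tsum h h2).trans ?_
  rw [tsum_mul_left, tsum_geometric_two]
  linarith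

theorem Crad.quadZ (C : Crad Ω v k0 NP NS NZ w) {φ : E3 → E3}
    (hφ : φ ∈ Submodule.span ℝ (range v)) :
    Summable (fun n => gg n * il2 φ (v (.S n))) ∧
    itri φ φ (v .Z) = -(4 * k0) * (∑' n, gg n * il2 φ (v (.S n))) * (il2 φ (v .Z) / w) := by
  have hT : ∀ {f : E3 → E3}, f ∈ Submodule.span ℝ (range v) → IsTest Ω f := fun hf =>
    C.test_span hf
  have hw := C.w0.ne'
  have hsum : ∀ f ∈ Submodule.span ℝ (range v), Summable (fun n => gg n * il2 f (v (.S n))) := by
    intro f hf
    induction hf using Submodule.span_induction with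
    | mem x hx =>
      obtain ⟨i, rfl⟩ := hx
      refine summable_of_ne_finset_zero (s := match i with | .S n => {n} | _ => ∅) ?_
      intro n hn
      rw [C.gram]
      rcases i with a | a | _
      · simp
      · have : a ≠ n := by
          intro h
          apply hn
          simp [h]
        simp [this]
      · simp
    | zero =>
      have : ∀ n, gg n * il2 0 (v (.S n)) = 0 := by
        intro n
        have := il2_smul 0 0 (v (.S n))
        rw [zero_smul, zero_mul] at this
        rw [this, mul_zero]
      simp only [this]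
      exact summable_zero
    | add x y hx hy h1 h2 =>
      have := h1.add h2
      refine this.congr fun n => ?_
      rw [il2_add (hT hx) (hT hy) (C.test _)]
      ring
    | smul a x hx h1 =>
      refine (h1.mul_left a).congr fun n => ?_
      rw [il2_smul]
      ring
  refine ⟨hsum φ hφ, ?_⟩
  have key := bil_ext (v := v) (B := fun f g => itri f g (v .Z)
    - -(4 * k0) * (∑' n, gg n * il2 f (v (.S n))) * (il2 g (v .Z) / w))
    (by
      intro f hf g hg h hh
      have e : ∀ n, gg n * il2 (f + g) (v (.S n)) = gg n * il2 f (v (.S n))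
        + gg n * il2 g (v (.S n)) := by
        intro n
        rw [il2_add (hT hf) (hT hg) (C.test _)]
        ring
      simp only [e]
      rw [itri_add1 (hT hf) (hT hg) (hT hh) (C.test _), (hsum f hf).tsum_add (hsum g hg)]
      ring)
    (by
      intro c f hf h hh
      have e : ∀ n, gg n * il2 (c • f) (v (.S n)) = c * (gg n * il2 f (v (.S n))) := by
        intro n
        rw [il2_smul]
        ring
      simp only [e]
      rw [itri_smul1, tsum_mul_left]
      ring)
    (by
      intro f hf g hg h hh
      rw [itri_add2 (hT hf) (hT hg) (hT hh) (C.test _), il2_add (hT hf) (hT hg) (C.test _)]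
      ring)
    (by
      intro c f hf h hh
      rw [itri_smul2, il2_smul]
      ring)
    (by
      intro i j
      simp only [C.tri, C.gram]
      rcases i with a | a | _ <;> rcases j with b | b | _ <;>
        simp only [tab, nrm, Md.S.injEq, Md.P.injEq, reduceCtorEq, if_false, if_true, mul_zero,
          tsum_zero, zero_mul, zero_div, sub_zero, neg_zero]
      have e : ∀ n, gg n * (if a = n then (1 : ℝ) else 0) = if n = a then gg a else 0 := by
        intro n
        by_cases h : n = a
        · subst h; simp
        · have : a ≠ n := fun h' => h h'.symm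
          simp [h, this]
      simp only [e, tsum_ite_eq]
      field_simp
      ring)
    hφ hφ
  linarith

theorem Crad.quadH (C : Crad Ω v k0 NP NS NZ w) (i : Md) {φ : E3 → E3}
    (hφ : φ ∈ Submodule.span ℝ (range v)) :
    ih1 φ (v i) = grd NP NS NZ i / nrm w i * il2 φ (v i) := by
  have hT : ∀ {f : E3 → E3}, f ∈ Submodule.span ℝ (range v) → IsTest Ω f := fun hf =>
    C.test_span hf
  have hn : nrm w i ≠ 0 := by
    rcases i with a | a | _
    · simp [nrm]
    · simp [nrm]
    · exact C.w0.ne'
  have key := lin_ext (v := v) (L := fun f => ih1 f (v i) - grd NP NS NZ i / nrm w i * il2 f (v i))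
    (by
      intro f hf g hg
      rw [ih1_add (hT hf) (hT hg) (C.test _), il2_add (hT hf) (hT hg) (C.test _)]
      ring)
    (by
      intro c f hf
      rw [ih1_smul, il2_smul]
      ring)
    (by
      intro j
      simp only [C.gramh, C.gram]
      by_cases h : j = i
      · subst h
        simp only [if_true]
        field_simp
        ring
      · simp [h])
    hφ
  linarith

end quad

end Pool.Agent.T2H10
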