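import Pool.Agent.T2H10.Geom6
import Pool.Agent.T2H10.Quad

/-!
Cradles at small scales.
-/

set_option autoImplicit false
set_option maxHeartbeats 1000000

open MeasureTheory Set Filter Topology

namespace Pool.Agent.T2H10

/-- a cradle in which the viscosity is weak -/
def CradleE (Ω : Set H772R2.NS.E3) (ε : ℝ) : Prop :=
  ∃ (v : Md → H772R2.NS.E3 → H772R2.NS.E3) (k0 NP NS NZ w : ℝ), Crad Ω v k0 NP NS NZ w ∧
    NP ≤ ε * k0 ∧ NS ≤ ε * k0 ∧ NZ ≤ ε * k0 ∧ 1 ≤ ε * k0

open H772R2.NS Geom in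
/-- Every nonempty open set of `ℝ³` contains cradles in which the viscosity is weak. -/
theorem exists_cradleE {Ω : Set E3} (hΩ : IsOpen Ω) (hne : Ω.Nonempty) {ε : ℝ} (hε : 0 < ε) :
    CradleE Ω ε := by
  obtain ⟨x0, hx0⟩ := hne
  obtain ⟨r, hr, hball⟩ := Metric.isOpen_iff.mp hΩ x0 hx0
  obtain ⟨v, k0, NP, NS, NZ, w, h1, h2, h3, h4, h5, h6, h7, h8, h9, h10⟩ := cradle_unit
  obtain ⟨N, hN⟩ := exists_nat_gt (max (156 / r)
    ((NP + NS + NZ + 1) / (ε * k0)))
  have hN1 : 156 / r < N := (le_max_left _ _).trans_lt hN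
  have hN3 : (NP + NS + NZ + 1) / (ε * k0) < N := (le_max_right _ _).trans_lt hN
  have hN2 : 156 / (4 : ℝ) ^ N < r := by
    have h1 : (N : ℝ) < 4 ^ N := by
      exact_mod_cast Nat.lt_pow_self (by norm_num : 1 < 4)
    have h2 : (0 : ℝ) < 4 ^ N := by positivity
    rw [div_lt_iff₀ h2]
    rw [div_lt_iff₀ hr] at hN1
    nlinarith
  have hsub : Metric.closedBall x0 (156 / 4 ^ N) ⊆ Ω :=
    (Metric.closedBall_subset_ball hN2).trans hball
  have hT : ∀ i, IsT (v i) := fun i => isT_of (h7 i)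
  have hN4 : NP + NS + NZ + 1 ≤ 2 ^ N * (ε * k0) := by
    have k1 : (N : ℝ) < 2 ^ N := by
      exact_mod_cast Nat.lt_pow_self (by norm_num : 1 < 2)
    rw [div_lt_iff₀ (by positivity)] at hN3
    have k2 : (N : ℝ) * (ε * k0) ≤ 2 ^ N * (ε * k0) :=
      mul_le_mul_of_nonneg_right k1.le (by positivity)
    linarith
  have hbig : ∀ y, 0 ≤ y → y ≤ NP + NS + NZ + 1 → 16 ^ N * y ≤ ε * (32 ^ N * k0) := by
    intro y hy0 hy
    have e : (32 : ℝ) ^ N = 16 ^ N * 2 ^ N := by rw [← mul_pow]; norm_num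
    rw [e]
    calc (16 : ℝ) ^ N * y ≤ 16 ^ N * (2 ^ N * (ε * k0)) := by
          have := hy.trans hN4
          gcongr
      _ = _ := by ring
  refine ⟨fun i => rs N x0 (v i), 32 ^ N * k0, 16 ^ N * NP, 16 ^ N * NS, 16 ^ N * NZ, w,
    ⟨by positivity, by positivity, by positivity, by positivity, h5, h6,
    fun i => isTest_rs (h7 i) hsub, ?_, ?_, ?_⟩, ?_, ?_, ?_, ?_⟩
  · intro i j
    rw [il2_rs, h8]
  · intro i j
    rw [ih1_rs (hT i) (hT j), h9]
    split_ifs
    · rcases i with m | m | _ <;> simp only [grd] <;> ring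
    · ring
  · intro i j k
    rw [itri_rs (hT k), h10]
    rcases i with m | m | _ <;> rcases j with m' | m' | _ <;> rcases k with m'' | m'' | _ <;>
      simp only [tab, mul_zero]
    · split_ifs <;> ring
    · split_ifs <;> ring
    · ring
    · ring
  · exact hbig NP h2.le (by linarith)
  · exact hbig NS h3.le (by linarith)
  · exact hbig NZ h4 (by linarith)
  · have k1 := hbig 1 zero_le_one (by linarith)
    have k2 : (1 : ℝ) ≤ 16 ^ N := one_le_pow₀ (by norm_num)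
    linarith

end Pool.Agent.T2H10
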