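import Pool.Agent.T2H10.Alt
import Pool.Agent.T2H10.Cr
import Pool.Agent.Y303.LV.Weak

/-!
The closed subspace of `H¹_{0,σ}` spanned by given test fields.
-/

set_option autoImplicit false
set_option linter.unusedSectionVars false
set_option maxHeartbeats 1000000

open MeasureTheory Set Filter Topology
open scoped InnerProductSpace ENNReal ContDiff NNReal

namespace Pool.Agent.T2H10

open H772R2.NS
open Pool.Agent.W795.TQ Pool.Agent.Y303.NF Pool.Agent.Y303.RA
open H772R2.NSR (Frame prim_cont grad_unique rellich_W exists_frame)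

variable {Ω : Set E3}

/-- the pairs `(φ, ∇φ)` with `φ` in a space `D` of test fields -/
noncomputable def preS (Ω : Set E3) (D : Submodule ℝ (E3 → E3)) (hD : ∀ φ ∈ D, IsTest Ω φ) :
    Submodule ℝ (L2V Ω × L2M Ω) where
  carrier := {p | ∃ φ ∈ D, p.1 =ᵐ[volume.restrict Ω] φ ∧ p.2 =ᵐ[volume.restrict Ω] jac φ}
  zero_mem' := by
    refine ⟨0, D.zero_mem, ?_, ?_⟩
    · exact Lp.coeFn_zero _ _ _
    · refine (Lp.coeFn_zero _ _ _).trans ?_
      exact Eventually.of_forall (fun x => by simp [jac_zero])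
  add_mem' := by
    rintro p q ⟨φ, h1, h2, h3⟩ ⟨ψ, g1, g2, g3⟩
    refine ⟨φ + ψ, D.add_mem h1 g1, ?_, ?_⟩
    · exact (Lp.coeFn_add p.1 q.1).trans (h2.add g2)
    · refine (Lp.coeFn_add p.2 q.2).trans ?_
      filter_upwards [h3, g3] with x a b
      simp only [Pi.add_apply]
      rw [a, b, jac_add (hD φ h1).smooth (hD ψ g1).smooth]
  smul_mem' := by
    rintro c p ⟨φ, h1, h2, h3⟩
    refine ⟨c • φ, D.smul_mem c h1, ?_, ?_⟩
    · refine (Lp.coeFn_smul c p.1).trans ?_
      filter_upwards [h2] with x a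
      simp [a]
    · refine (Lp.coeFn_smul c p.2).trans ?_
      filter_upwards [h3] with x a
      simp [a, jac_smul]

variable {D : Submodule ℝ (E3 → E3)} {hD : ∀ φ ∈ D, IsTest Ω φ}

/-- the closed subspace -/
noncomputable def clS (Ω : Set E3) (D : Submodule ℝ (E3 → E3)) (hD : ∀ φ ∈ D, IsTest Ω φ) :
    Submodule ℝ (L2V Ω × L2M Ω) := (preS Ω D hD).topologicalClosure

theorem preS_le : preS Ω D hD ≤ preW Ω := by
  rintro p ⟨φ, h1, h2, h3⟩
  exact ⟨φ, hD φ h1, h2, h3⟩

theorem clS_le : clS Ω D hD ≤ graphW Ω := Submodule.topologicalClosure_mono preS_le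

theorem preS_le_clS : preS Ω D hD ≤ clS Ω D hD := Submodule.le_topologicalClosure _

theorem clS_coe : (clS Ω D hD : Set (L2V Ω × L2M Ω)) = closure {p | ∃ φ ∈ D,
    p.1 =ᵐ[volume.restrict Ω] φ ∧ p.2 =ᵐ[volume.restrict Ω] jac φ} := by
  unfold clS
  rw [Submodule.topologicalClosure_coe]
  rfl

/-- the pair of classes of a field in `D` -/
theorem exists_pairS {φ : E3 → E3} (h : φ ∈ D) : ∃ p ∈ preS Ω D hD,
    p.1 =ᵐ[volume.restrict Ω] φ ∧ p.2 =ᵐ[volume.restrict Ω] jac φ := by
  have h1 : MemLp φ 2 (volume.restrict Ω) := ((hD φ h).memLp 2).restrict _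
  have h2 : MemLp (jac φ) 2 (volume.restrict Ω) := ((hD φ h).jac_memLp 2).restrict _
  exact ⟨(h1.toLp φ, h2.toLp _), ⟨φ, h, h1.coeFn_toLp, h2.coeFn_toLp⟩, h1.coeFn_toLp,
    h2.coeFn_toLp⟩

/-- extension by density -/
theorem clS_induction (F : L2V Ω × L2M Ω → ℝ)
    (hF : ContinuousOn F (graphW Ω : Set (L2V Ω × L2M Ω))) (h0 : ∀ p ∈ preS Ω D hD, F p = 0)
    {p : L2V Ω × L2M Ω} (hp : p ∈ clS Ω D hD) : F p = 0 := by
  have hp' : p ∈ closure (preS Ω D hD : Set (L2V Ω × L2M Ω)) := by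
    have := hp
    unfold clS at this
    rwa [← SetLike.mem_coe, Submodule.topologicalClosure_coe] at this
  obtain ⟨q, hq, hlim⟩ := mem_closure_iff_seq_limit.mp hp'
  have hqW : ∀ n, q n ∈ graphW Ω := fun n => clS_le (preS_le_clS (hq n))
  have h1 : Tendsto q atTop (𝓝[(graphW Ω : Set _)] p) :=
    tendsto_nhdsWithin_iff.mpr ⟨hlim, Eventually.of_forall hqW⟩
  have h2 : Tendsto (fun n => F (q n)) atTop (𝓝 (F p)) := (hF p (clS_le hp)).tendsto.comp h1
  have h3 : Tendsto (fun n => F (q n)) atTop (𝓝 0) := by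
    refine (tendsto_congr (fun n => ?_)).mpr tendsto_const_nhds
    exact h0 _ (hq n)
  exact tendsto_nhds_unique h2 h3

/-- extension of an inequality by density -/
theorem clS_induction_le (F G : L2V Ω × L2M Ω → ℝ)
    (hF : ContinuousOn F (graphW Ω : Set (L2V Ω × L2M Ω)))
    (hG : ContinuousOn G (graphW Ω : Set (L2V Ω × L2M Ω)))
    (h0 : ∀ p ∈ preS Ω D hD, F p ≤ G p)
    {p : L2V Ω × L2M Ω} (hp : p ∈ clS Ω D hD) : F p ≤ G p := by
  have hc : ContinuousOn (fun p => max (F p - G p) 0)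
      (graphW Ω : Set (L2V Ω × L2M Ω)) :=
    ContinuousOn.sup (f := fun p => F p - G p) (hF.sub hG) continuousOn_const
  have h2 : max (F p - G p) 0 = 0 := clS_induction (D := D) (hD := hD) _ hc
    (fun p hp => max_eq_right (sub_nonpos.mpr (h0 p hp))) hp
  have h1 := le_max_left (F p - G p) 0
  rw [h2] at h1
  linarith

/-- a closed subspace of the graph inherits the frame -/
theorem frame_sub {H K : Type} [NormedAddCommGroup H] [InnerProductSpace ℝ H] [CompleteSpace H]
    [NormedAddCommGroup K] [InnerProductSpace ℝ K] [CompleteSpace K]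
    {W W' : Submodule ℝ (H × K)} {m : H → K} {C : ℝ} (Fr : Frame W m C) (h : W' ≤ W)
    (hc : IsClosed (W' : Set (H × K))) : Frame W' m C :=
  ⟨Fr.C0, hc, fun p hp => Fr.uniq p (h hp), fun p hp => Fr.poinc p (h hp),
    fun p hp => Fr.ortho p (h hp), fun p hp q hq => Fr.anti p (h hp) q (h hq),
    fun p hp => Fr.quart p (h hp), fun p hp q hq => Fr.lips p (h hp) q (h hq)⟩

theorem clS_closed : IsClosed (clS Ω D hD : Set (L2V Ω × L2M Ω)) :=
  Submodule.isClosed_topologicalClosure _

theorem exists_frameS (hΩ : IsOpen Ω) (hb : Bornology.IsBounded Ω) :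
    ∃ C : ℝ, Frame (clS Ω D hD) (tensL (Ω := Ω)) C := by
  obtain ⟨C, Fr⟩ := exists_frame hΩ hb
  exact ⟨C, frame_sub Fr clS_le clS_closed⟩

theorem rellichS (hΩ : IsOpen Ω) (hb : Bornology.IsBounded Ω) (R : ℝ) :
    TotallyBounded {v : L2V Ω | ∃ z, (v, z) ∈ clS Ω D hD ∧ ‖z‖ ≤ R} :=
  (rellich_W hΩ hb R).subset (by
    rintro v ⟨z, h1, h2⟩
    exact ⟨z, clS_le h1, h2⟩)

/-- the compatibility condition holds for test fields -/
theorem compat_test (hΩ : IsOpen Ω) (ν : ℝ) {v : E3 → E3} (hv : IsTest Ω v) {p : L2V Ω × L2M Ω}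
    (hp1 : p.1 =ᵐ[volume.restrict Ω] v) (hp2 : p.2 =ᵐ[volume.restrict Ω] jac v) :
    ∃ g0 : L2V Ω, ∀ q ∈ graphW Ω, ⟪(0 : L2M Ω) - ν • p.2 + tensL p.1, q.2⟫_ℝ = ⟪g0, q.1⟫_ℝ := by
  have hm : MeasurableSet Ω := hΩ.measurableSet
  have hpW : p ∈ graphW Ω := Submodule.le_topologicalClosure _ ⟨v, hv, hp1, hp2⟩
  -- the right-hand side
  let adv : E3 → E3 := fun x => WithLp.toLp 2 fun i => ∑ j, v x j * jac v x (i, j)
  let lp : E3 → E3 := fun x => WithLp.toLp 2 fun i => Pool.Agent.Y303.LV.lap v x i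
  let g : E3 → E3 := fun x => ν • lp x - adv x
  have hJ : ∀ i j, ContDiff ℝ ∞ (fun x => jac v x (i, j)) := by
    intro i j
    have e : (fun x => jac v x (i, j)) = fun x => fderiv ℝ (fun y => v y i) x (ev j) := by
      funext x
      rw [fderiv_coord hv.smooth, jac_apply]
    rw [e]
    exact ((contDiff_coord hv.smooth i).fderiv_right (m := ∞) (by simp)).clm_apply contDiff_const
  have hJs : ∀ i j, HasCompactSupport (fun x => jac v x (i, j)) := by
    intro i j
    refine (hasCompactSupport_jac hv.compact).mono (fun x hx => ?_)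
    intro h0
    apply hx
    simp [h0]
  have hdJ : ∀ i j, Continuous (fun x => fderiv ℝ (fun y => jac v y (i, j)) x (ev j)) :=
    fun i j => ((hJ i j).continuous_fderiv (by simp)).clm_apply continuous_const
  have hlpc : Continuous lp := by
    refine (PiLp.continuous_toLp 2 _).comp ?_
    refine continuous_pi fun i => ?_
    exact continuous_finsetSum _ fun j _ => hdJ i j
  have hadvc : Continuous adv := by
    refine (PiLp.continuous_toLp 2 _).comp ?_
    refine continuous_pi fun i => ?_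
    exact continuous_finsetSum _ fun j _ =>
      (contDiff_coord hv.smooth j).continuous.mul (hJ i j).continuous
  have hgc : Continuous g := (hlpc.const_smul ν).sub hadvc
  have hgs : HasCompactSupport g := by
    refine hv.compact.mono' ?_
    intro x hx
    by_contra hcon
    apply hx
    have h1 : ∀ i j, jac v x (i, j) = 0 := by
      intro i j
      have h2 : x ∉ tsupport (jac v) := fun h => hcon (tsupport_jac_subset h)
      rw [image_eq_zero_of_notMem_tsupport h2]
      rfl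
    have h3 : ∀ i j, fderiv ℝ (fun y => jac v y (i, j)) x (ev j) = 0 := by
      intro i j
      have h4 : x ∉ tsupport (fun y => jac v y (i, j)) := by
        intro h
        refine hcon (tsupport_jac_subset (φ := v) ?_)
        refine closure_mono ?_ h
        intro y hy h0
        apply hy
        simp [h0]
      have h5 : x ∉ tsupport (fderiv ℝ (fun y => jac v y (i, j))) :=
        fun h => h4 (tsupport_fderiv_subset ℝ h)
      rw [image_eq_zero_of_notMem_tsupport h5]
      rfl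
    ext i
    simp only [g, lp, adv, PiLp.sub_apply, PiLp.smul_apply, smul_eq_mul]
    simp [Pool.Agent.Y303.LV.lap, h3, h1]
  have hg2 : MemLp g 2 (volume.restrict Ω) := (hgc.memLp_of_hasCompactSupport hgs).restrict _
  refine ⟨hg2.toLp g, H772R2.NSR.compat_ext ?_⟩
  rintro q ⟨ψ, k1, k2, k3⟩
  have hoff : ∀ x, x ∉ Ω → ψ x = 0 ∧ jac ψ x = 0 := by
    intro x hx
    refine ⟨image_eq_zero_of_notMem_tsupport fun h => hx (k1.supp h),
      image_eq_zero_of_notMem_tsupport fun h => hx (k1.supp (tsupport_jac_subset h))⟩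
  have hR : ∀ {E : Type} [NormedAddCommGroup E] [InnerProductSpace ℝ E] (f : E3 → ℝ),
      (∀ x, x ∉ Ω → f x = 0) → ∫ x in Ω, f x = ∫ x, f x := fun f hf =>
    setIntegral_eq_integral_of_forall_compl_eq_zero hf
  have e1 : ⟪p.2, q.2⟫_ℝ = ∫ x, ⟪jac v x, jac ψ x⟫_ℝ := by
    rw [L2.inner_def, ← hR (E := E3) (fun x => ⟪jac v x, jac ψ x⟫_ℝ) (fun x hx => by
      simp only [(hoff x hx).2, inner_zero_right])]
    refine integral_congr_ae ?_
    filter_upwards [hp2, k3] with x a b
    rw [a, b]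
  have e2 : ⟪tensL p.1, q.2⟫_ℝ = ∫ x, ⟪tens (v x), jac ψ x⟫_ℝ := by
    rw [L2.inner_def, ← hR (E := E3) (fun x => ⟪tens (v x), jac ψ x⟫_ℝ) (fun x hx => by
      simp only [(hoff x hx).2, inner_zero_right])]
    refine integral_congr_ae ?_
    filter_upwards [tensL_coe hm hpW, hp1, k3] with x a b c
    rw [a, b, c]
  have e3 : ⟪hg2.toLp g, q.1⟫_ℝ = ∫ x, ⟪g x, ψ x⟫_ℝ := by
    rw [L2.inner_def, ← hR (E := E3) (fun x => ⟪g x, ψ x⟫_ℝ) (fun x hx => by
      simp only [(hoff x hx).1, inner_zero_right])]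
    refine integral_congr_ae ?_
    filter_upwards [hg2.coeFn_toLp, k2] with x a b
    rw [a, b]
  have hψc : ∀ j, Continuous (fun x => ψ x j) := fun j => (contDiff_coord k1.smooth j).continuous
  have i1 : Integrable (fun x => ∑ i, Pool.Agent.Y303.LV.lap v x i * ψ x i) := by
    refine integrable_finsetSum _ fun i _ => ?_
    refine Continuous.integrable_of_hasCompactSupport ?_
      ((hasCompactSupport_coord k1.compact i).mul_left)
    exact (continuous_finsetSum _ fun j _ => hdJ i j).mul (hψc i)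
  have i2 : Integrable (fun x => ∑ i, (∑ j, v x j * jac v x (i, j)) * ψ x i) := by
    refine integrable_finsetSum _ fun i _ => ?_
    refine Continuous.integrable_of_hasCompactSupport ?_
      ((hasCompactSupport_coord k1.compact i).mul_left)
    exact (continuous_finsetSum _ fun j _ =>
      (contDiff_coord hv.smooth j).continuous.mul (hJ i j).continuous).mul (hψc i)
  have e4 : ∀ x, ⟪g x, ψ x⟫_ℝ = ν * (∑ i, Pool.Agent.Y303.LV.lap v x i * ψ x i)
      - ∑ i, (∑ j, v x j * jac v x (i, j)) * ψ x i := by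
    intro x
    rw [inner_E3, Finset.mul_sum, ← Finset.sum_sub_distrib]
    refine Finset.sum_congr rfl fun i _ => ?_
    simp only [g, lp, adv, PiLp.sub_apply, PiLp.smul_apply, smul_eq_mul]
    ring
  have e5 : ∀ x, ⟪jac v x, Pool.Agent.W52.TQ.tns (ψ x) (v x)⟫_ℝ
      = ∑ i, (∑ j, v x j * jac v x (i, j)) * ψ x i := by
    intro x
    rw [inner_M3]
    refine Finset.sum_congr rfl fun i _ => ?_
    rw [Finset.sum_mul]
    refine Finset.sum_congr rfl fun j _ => ?_
    simp only [Pool.Agent.W52.TQ.tns]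
    ring
  rw [inner_add_left, inner_sub_left, inner_zero_left, real_inner_smul_left, e1, e2, e3,
    Pool.Agent.Y303.LV.ibp_lap hv k1, Pool.Agent.W52.TQ.ibp hv k1]
  simp only [e4, e5]
  rw [integral_sub (i1.const_mul ν) i2, integral_const_mul]
  ring

end Pool.Agent.T2H10
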