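import Pool.Agent.T2H10.Main

/-!
The blow-up theorem for the restricted equations, in terms of the public definitions.
-/

set_option autoImplicit false
set_option linter.unusedSectionVars false
set_option maxHeartbeats 1000000

open MeasureTheory Set Filter Topology
open scoped InnerProductSpace ENNReal ContDiff NNReal

namespace Pool.Agent.T2H10

open H772R2.NS H772R2.NS.Pub
open Pool.Agent.W795.TQ

theorem il2_pub {Ω : Set R3} {φ ψ : E3 → E3} (hψ : H772R2.NS.IsTest (Ω : Set E3) ψ) :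
    (∫ x in Ω, ⟪(φ : R3 → R3) x, (ψ : R3 → R3) x⟫_ℝ) = il2 φ ψ := by
  have e : (∫ x in Ω, ⟪(φ : R3 → R3) x, (ψ : R3 → R3) x⟫_ℝ)
      = ∫ x in (Ω : Set E3), ∑ i, φ x i * ψ x i :=
    integral_congr_ae (μ := (volume : Measure E3).restrict (Ω : Set E3))
      (Eventually.of_forall fun x => inner_E3 (φ x) (ψ x))
  refine e.trans ?_
  unfold il2
  refine setIntegral_eq_integral_of_forall_compl_eq_zero fun x hx => ?_
  rw [(off_test hψ hx).1]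
  simp

theorem ih1_pub {Ω : Set R3} {φ ψ : E3 → E3} (hψ : H772R2.NS.IsTest (Ω : Set E3) ψ) :
    (∫ x in Ω, ⟪Pub.jac φ x, Pub.jac ψ x⟫_ℝ) = ih1 φ ψ := by
  have e : (∫ x in Ω, ⟪Pub.jac φ x, Pub.jac ψ x⟫_ℝ)
      = ∫ x in (Ω : Set E3), ∑ i, ∑ j, H772R2.NS.jac φ x (i, j) * H772R2.NS.jac ψ x (i, j) :=
    integral_congr_ae (μ := (volume : Measure E3).restrict (Ω : Set E3))
      (Eventually.of_forall fun x => by
        have h1 : (Pub.jac φ x : M3) = H772R2.NS.jac φ x := jac_eq φ x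
        have h2 : (Pub.jac ψ x : M3) = H772R2.NS.jac ψ x := jac_eq ψ x
        refine Eq.trans ?_ (inner_M3 (H772R2.NS.jac φ x) (H772R2.NS.jac ψ x))
        exact congrArg₂ (fun y z : M3 => ⟪y, z⟫_ℝ) h1 h2)
  refine e.trans ?_
  unfold ih1
  refine setIntegral_eq_integral_of_forall_compl_eq_zero fun x hx => ?_
  rw [(off_test hψ hx).2]
  simp

theorem test_of_span {Ω : Set E3} {w : ℕ → E3 → E3} (h : ∀ k, H772R2.NS.IsTest Ω (w k))
    {φ : E3 → E3} (hφ : φ ∈ Submodule.span ℝ (range w)) : H772R2.NS.IsTest Ω φ := by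
  induction hφ using Submodule.span_induction with
  | mem x hx =>
    obtain ⟨i, rfl⟩ := hx
    exact h i
  | zero => exact H772R2.NS.IsTest.zero
  | add x y _ _ h1 h2 => exact H772R2.NS.IsTest.add h1 h2
  | smul a x _ h1 => exact H772R2.NS.IsTest.smul a h1

/-- the theorem in terms of the public definitions -/
theorem main_pub (Ω : Set R3) (hΩ : IsOpen Ω) (hb : Bornology.IsBounded Ω)
    (hne : Ω.Nonempty) {ε : ℝ} (hε : 0 < ε) :
    ∃ w : ℕ → R3 → R3, (∀ k, Pub.IsTest Ω (w k)) ∧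
      (∀ k, 0 < ∫ x in Ω, ⟪w k x, w k x⟫_ℝ) ∧
      (∀ j k, j ≠ k → (∫ x in Ω, ⟪w j x, w k x⟫_ℝ) = 0 ∧
        (∫ x in Ω, ⟪Pub.jac (w j) x, Pub.jac (w k) x⟫_ℝ) = 0) ∧
      ∃ φ ∈ Submodule.span ℝ (range w), (∫ x in Ω, ⟪φ x, φ x⟫_ℝ) ≤ 1 ∧
      ∀ ν : ℝ, 0 < ν → ∀ c : ℝ, ε * ν ≤ c →
        ∃ (τ : ℝ) (u u' : ℝ → L2 Ω R3) (G G' : ℝ → L2 Ω Mat), 0 < τ ∧ τ ≤ ε / c ∧
          IsClass (u 0) (c • φ) ∧
          (∀ T ∈ Ioo 0 τ, IsStrongIn Ω w ν T u u' G G') ∧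
          (∀ t ∈ Ico 0 τ, ‖u t‖ ^ 2 / 2 + ν * (∫ s in (0 : ℝ)..t, ‖G s‖ ^ 2) = ‖u 0‖ ^ 2 / 2) ∧
          (∀ N : ℝ, ∃ t ∈ Ioo 0 τ, N ≤ ‖G t‖) ∧
          (∀ T, τ ≤ T → ∀ (v v' : ℝ → L2 Ω R3) (D D' : ℝ → L2 Ω Mat),
            IsStrongIn Ω w ν T v v' D D' → ¬ IsClass (v 0) (c • φ)) := by
  obtain ⟨w, h1, h2, h3, φ, h4, h5, h6⟩ := main_mid (Ω := (Ω : Set E3))
    Pool.Agent.W52.TQ.proof_loc Pool.Agent.W503.TQ.proof_uni hΩ hb hε
    (exists_cradleE hΩ hne (by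
      have : (0 : ℝ) < epsv := by unfold epsv; norm_num
      positivity))
  have hφ : H772R2.NS.IsTest (Ω : Set E3) φ := test_of_span h1 h4
  refine ⟨w, fun k => (isTest_iff _).mpr (h1 k), fun k => ?_, fun j k hjk => ⟨?_, ?_⟩, φ, h4, ?_,
    ?_⟩
  · exact lt_of_lt_of_eq (h2 k) (il2_pub (h1 k)).symm
  · exact (il2_pub (h1 k)).trans (h3 j k hjk).1
  · exact (ih1_pub (h1 k)).trans (h3 j k hjk).2
  · exact (il2_pub hφ).trans_le h5
  · intro ν hν c hc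
    obtain ⟨τ, u, u', G, G', k1, k2, k3, k4, k5, k6, k7⟩ := h6 ν hν c hc
    exact ⟨τ, u, u', G, G', k1, k2, k3, k4, k5, k6, k7⟩

end Pool.Agent.T2H10
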