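import Pool.Agent.T2H10.Ode

/-!
The transfer of momentum from `x` to `y` through `s`:
`x' = -κ s² + P₁`, `s' = κ s (x - y) + P₂`, `y' = κ s² + P₃`.
-/

set_option autoImplicit false
set_option maxHeartbeats 1000000

open Set Filter Topology

namespace Pool.Agent.T2H10

/-- The data of one stage. -/
structure Tri (κ θ te : ℝ) (x s y P1 P2 P3 : ℝ → ℝ) : Prop where
  κ0 : 0 < κ
  le : θ ≤ te
  dx : ∀ t ∈ Icc θ te, HasDerivWithinAt x (-κ * s t ^ 2 + P1 t) (Icc θ te) t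
  ds : ∀ t ∈ Icc θ te, HasDerivWithinAt s (κ * s t * (x t - y t) + P2 t) (Icc θ te) t
  dy : ∀ t ∈ Icc θ te, HasDerivWithinAt y (κ * s t ^ 2 + P3 t) (Icc θ te) t
  bx : ∀ t ∈ Icc θ te, |x t| ≤ 101 / 100
  s0 : ∀ t ∈ Icc θ te, 0 ≤ s t
  bs : ∀ t ∈ Icc θ te, s t ≤ 101 / 100
  by' : ∀ t ∈ Icc θ te, |y t| ≤ 101 / 100

variable {κ θ te A η δ D μ : ℝ} {x s y P1 P2 P3 : ℝ → ℝ}

theorem Tri.mono (H : Tri κ θ te x s y P1 P2 P3) {c d : ℝ} (hc : θ ≤ c) (hd : d ≤ te)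
    (hcd : c ≤ d) : Tri κ c d x s y P1 P2 P3 where
  κ0 := H.κ0
  le := hcd
  dx := deriv_mono H.dx hc hd
  ds := deriv_mono H.ds hc hd
  dy := deriv_mono H.dy hc hd
  bx := fun t ht => H.bx t ⟨hc.trans ht.1, ht.2.trans hd⟩
  s0 := fun t ht => H.s0 t ⟨hc.trans ht.1, ht.2.trans hd⟩
  bs := fun t ht => H.bs t ⟨hc.trans ht.1, ht.2.trans hd⟩
  by' := fun t ht => H.by' t ⟨hc.trans ht.1, ht.2.trans hd⟩

/-- The derivative of `s² - 2 x y`. -/
theorem Tri.dDelta (H : Tri κ θ te x s y P1 P2 P3) : ∀ t ∈ Icc θ te,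
    HasDerivWithinAt (fun t => s t ^ 2 - 2 * x t * y t)
      (2 * s t * P2 t - 2 * y t * P1 t - 2 * x t * P3 t) (Icc θ te) t := by
  intro t ht
  have h1 := (H.ds t ht).pow 2
  have h2 := ((H.dx t ht).const_mul 2).mul (H.dy t ht)
  refine (h1.sub h2).congr_deriv ?_
  simp only [Nat.cast_ofNat, Nat.add_one_sub_one, pow_one]
  ring

/-- The derivative of `x² + s² + y²`. -/
theorem Tri.dQ (H : Tri κ θ te x s y P1 P2 P3) : ∀ t ∈ Icc θ te,
    HasDerivWithinAt (fun t => x t ^ 2 + s t ^ 2 + y t ^ 2)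
      (2 * x t * P1 t + 2 * s t * P2 t + 2 * y t * P3 t) (Icc θ te) t := by
  intro t ht
  have h1 := (((H.dx t ht).pow 2).add ((H.ds t ht).pow 2)).add ((H.dy t ht).pow 2)
  refine h1.congr_deriv ?_
  simp only [Nat.cast_ofNat, Nat.add_one_sub_one, pow_one]
  ring

theorem Tri.dS (H : Tri κ θ te x s y P1 P2 P3) : ∀ t ∈ Icc θ te,
    HasDerivWithinAt (fun t => x t + y t) (P1 t + P3 t) (Icc θ te) t := by
  intro t ht
  refine ((H.dx t ht).add (H.dy t ht)).congr_deriv ?_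
  ring

/-- A bound for the time. -/
theorem Tri.time (H : Tri κ θ te x s y P1 P2 P3) (hD : κ * (te - θ) ≤ D) (hδ : 0 ≤ δ) {t : ℝ}
    (ht : t ∈ Icc θ te) : κ * δ * (t - θ) ≤ δ * D := by
  have h1 : κ * (t - θ) ≤ D := by
    have := H.κ0
    have h2 : t - θ ≤ te - θ := by linarith [ht.2]
    nlinarith
  have h3 : κ * δ * (t - θ) = δ * (κ * (t - θ)) := by ring
  rw [h3]
  gcongr

/-- Conclusions with feed: `P1 = P1' + φ`, `φ ≥ 0`. -/
theorem Tri.pre (H : Tri κ θ te x s y P1 P2 P3) (hD : κ * (te - θ) ≤ D) (hA : 9 / 10 ≤ A)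
    (hη : 0 < η) (hη1 : η ≤ 1 / 1000) (hδ : 0 ≤ δ) (hδD : δ * D ≤ η / 20)
    (hμ : 0 ≤ μ) (hμD : μ * D ≤ η / 20)
    (b1 : ∀ t ∈ Icc θ te, -(κ * δ) ≤ P1 t) (b1' : ∀ t ∈ Icc θ te, P1 t ≤ κ * δ + κ / 30)
    (b2 : ∀ t ∈ Icc θ te, |P2 t| ≤ κ * δ) (b3 : ∀ t ∈ Icc θ te, |P3 t| ≤ κ * δ)
    (hx : x θ = A) (hy : |y θ| ≤ η / 100) (hs : s θ ^ 2 ≤ η / 100)
    (hlow : ∀ t ∈ Icc θ te, -μ ≤ y t) :
    (∀ t ∈ Icc θ te, A - η / 5 ≤ x t + y t) ∧
    (∀ t ∈ Icc θ te, s t ^ 2 - 2 * x t * y t ≤ η / 2) ∧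
    (∀ t ∈ Icc θ te, -(η / 2) ≤ x t) ∧
    (∀ t ∈ Icc θ te, A ^ 2 - η - η * D / 30 ≤ x t ^ 2 + s t ^ 2 + y t ^ 2) := by
  have hκ := H.κ0
  have c1 : ∀ t ∈ Icc θ te, A - η / 5 ≤ x t + y t := by
    intro t ht
    have H' := H.mono le_rfl ht.2 ht.1
    have h := mvt_low (C := -(2 * (κ * δ))) ht.1 H'.dS (fun u hu => by
      have hu' : u ∈ Icc θ te := ⟨hu.1, hu.2.trans ht.2⟩
      have h1 := b1 u hu'
      have h3 := abs_le.mp (b3 u hu')
      linarith [h3.1])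
    have h4 := H.time hD hδ ht
    have h5 := abs_le.mp hy
    rw [hx] at h
    nlinarith [h5.1]
  have c2 : ∀ t ∈ Icc θ te, s t ^ 2 - 2 * x t * y t ≤ η / 2 := by
    intro t ht
    have H' := H.mono le_rfl ht.2 ht.1
    have h := mvt_up (C := 7 * (κ * δ) + κ * μ / 10) ht.1 H'.dDelta (fun u hu => by
      have hu' : u ∈ Icc θ te := ⟨hu.1, hu.2.trans ht.2⟩
      have hx' := abs_le.mp (H.bx u hu')
      have hy' := abs_le.mp (H.by' u hu')
      have hs0 := H.s0 u hu'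
      have hs1 := H.bs u hu'
      have hP1 := b1 u hu'
      have hP1' := b1' u hu'
      have hP2 := abs_le.mp (b2 u hu')
      have hP3 := abs_le.mp (b3 u hu')
      have hl := hlow u hu'
      have hκδ : 0 ≤ κ * δ := by positivity
      have e1 : 2 * s u * P2 u ≤ 2.02 * (κ * δ) := by nlinarith [hP2.2]
      have e3 : -(2 * x u * P3 u) ≤ 2.02 * (κ * δ) := by
        have : |x u * P3 u| ≤ 101 / 100 * (κ * δ) := by
          rw [abs_mul]
          exact mul_le_mul (H.bx u hu') (b3 u hu') (abs_nonneg _) (by norm_num)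
        have := (abs_le.mp this).1
        nlinarith
      have e2 : -(2 * y u * P1 u) ≤ 2.02 * (κ * δ) + κ * μ / 10 := by
        rcases le_total 0 (y u) with h0 | h0
        · have : -(2 * y u * P1 u) ≤ 2 * y u * (κ * δ) := by nlinarith
          have h7 : 2 * y u * (κ * δ) ≤ 2.02 * (κ * δ) := by nlinarith [hy'.2]
          have h8 : 0 ≤ κ * μ / 10 := by positivity
          linarith
        · rcases le_total 0 (P1 u) with h9 | h9
          · have h10 : -(2 * y u * P1 u) ≤ 2 * (-y u) * (κ * δ + κ / 30) := by nlinarith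
            have h11 : 2 * (-y u) * (κ * δ) ≤ 2.02 * (κ * δ) := by nlinarith [hy'.1]
            have h12 : 2 * (-y u) * (κ / 30) ≤ κ * μ / 10 := by nlinarith
            nlinarith
          · have : -(2 * y u * P1 u) ≤ 0 := by nlinarith
            have h8 : 0 ≤ κ * μ / 10 := by positivity
            nlinarith
      linarith)
    have h4 := H.time hD hδ ht
    have h5 := H.time hD hμ ht
    have h6 := abs_le.mp hy
    have h7 : -(2 * x θ * y θ) ≤ 2.02 * (η / 100) := by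
      have hx' : |x θ| ≤ 101 / 100 := H.bx θ ⟨le_rfl, H.le⟩
      have : |x θ * y θ| ≤ 101 / 100 * (η / 100) := by
        rw [abs_mul]
        exact mul_le_mul hx' hy (abs_nonneg _) (by norm_num)
      have := (abs_le.mp this).1
      nlinarith
    nlinarith
  have c3 : ∀ t ∈ Icc θ te, -(η / 2) ≤ x t := by
    intro t ht
    by_contra hneg
    push Not at hneg
    have h1 := c1 t ht
    have h2 := c2 t ht
    have h3 : 1 / 2 ≤ y t := by linarith
    nlinarith [sq_nonneg (s t)]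
  refine ⟨c1, c2, c3, ?_⟩
  intro t ht
  have H' := H.mono le_rfl ht.2 ht.1
  have h := mvt_low (C := -(7 * (κ * δ)) - κ * η / 30) ht.1 H'.dQ (fun u hu => by
    have hu' : u ∈ Icc θ te := ⟨hu.1, hu.2.trans ht.2⟩
    have hx' := abs_le.mp (H.bx u hu')
    have hs0 := H.s0 u hu'
    have hs1 := H.bs u hu'
    have hP1 := b1 u hu'
    have hP1' := b1' u hu'
    have hP2 := abs_le.mp (b2 u hu')
    have hκδ : 0 ≤ κ * δ := by positivity
    have e1 : -(2.02 * (κ * δ)) ≤ 2 * s u * P2 u := by nlinarith [hP2.1]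
    have e3 : -(2.02 * (κ * δ)) ≤ 2 * y u * P3 u := by
      have : |y u * P3 u| ≤ 101 / 100 * (κ * δ) := by
        rw [abs_mul]
        exact mul_le_mul (H.by' u hu') (b3 u hu') (abs_nonneg _) (by norm_num)
      have := (abs_le.mp this).1
      nlinarith
    have e2 : -(2.02 * (κ * δ)) - κ * η / 30 ≤ 2 * x u * P1 u := by
      have hc := c3 u hu'
      rcases le_total 0 (x u) with h0 | h0
      · have h8 : 0 ≤ κ * η / 30 := by positivity
        have : -(2 * x u * (κ * δ)) ≤ 2 * x u * P1 u := by nlinarith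
        nlinarith [hx'.2]
      · rcases le_total 0 (P1 u) with h9 | h9
        · have h10 : 2 * x u * (κ * δ + κ / 30) ≤ 2 * x u * P1 u := by nlinarith
          have h11 : -(2.02 * (κ * δ)) ≤ 2 * x u * (κ * δ) := by nlinarith [hx'.1]
          have h12 : -(κ * η / 30) ≤ 2 * x u * (κ / 30) := by nlinarith
          nlinarith
        · have : 0 ≤ 2 * x u * P1 u := by nlinarith
          have h8 : 0 ≤ κ * η / 30 := by positivity
          nlinarith
    linarith)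
  have h4 := H.time hD hδ ht
  have h5 := H.time hD hη.le ht
  rw [hx] at h
  nlinarith [sq_nonneg (s θ), sq_nonneg (y θ)]

/-- Conclusions without feed. -/
theorem Tri.main (H : Tri κ θ te x s y P1 P2 P3) (hD : κ * (te - θ) ≤ D)
    (hδ : 0 ≤ δ) (hδD : δ * D ≤ η / 20)
    (b1 : ∀ t ∈ Icc θ te, |P1 t| ≤ κ * δ)
    (b2 : ∀ t ∈ Icc θ te, |P2 t| ≤ κ * δ) (b3 : ∀ t ∈ Icc θ te, |P3 t| ≤ κ * δ)
    (hx : x θ = A) (hy : |y θ| ≤ η / 100) (hs : s θ ^ 2 ≤ η / 100) :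
    (∀ t ∈ Icc θ te, |x t + y t - A| ≤ η / 5) ∧
    (∀ t ∈ Icc θ te, |s t ^ 2 - 2 * x t * y t| ≤ η / 2) := by
  have hκ := H.κ0
  constructor
  · intro t ht
    have H' := H.mono le_rfl ht.2 ht.1
    have h := mvt_abs (C := 2 * (κ * δ)) ht.1 H'.dS (fun u hu => by
      have hu' : u ∈ Icc θ te := ⟨hu.1, hu.2.trans ht.2⟩
      exact (abs_add_le _ _).trans (by linarith [b1 u hu', b3 u hu']))
    have h4 := H.time hD hδ ht
    rw [hx] at h
    have h5 := abs_le.mp hy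
    have h6 := abs_le.mp h
    rw [abs_le]
    constructor <;> nlinarith [h5.1, h5.2, h6.1, h6.2]
  · intro t ht
    have H' := H.mono le_rfl ht.2 ht.1
    have h := mvt_abs (C := 7 * (κ * δ)) ht.1 H'.dDelta (fun u hu => by
      have hu' : u ∈ Icc θ te := ⟨hu.1, hu.2.trans ht.2⟩
      have hs0 := H.s0 u hu'
      have hs1 := H.bs u hu'
      have hκδ : 0 ≤ κ * δ := by positivity
      have e1 : |s u * P2 u| ≤ 101 / 100 * (κ * δ) := by
        rw [abs_mul, abs_of_nonneg hs0]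
        exact mul_le_mul hs1 (b2 u hu') (abs_nonneg _) (by norm_num)
      have e2 : |y u * P1 u| ≤ 101 / 100 * (κ * δ) := by
        rw [abs_mul]
        exact mul_le_mul (H.by' u hu') (b1 u hu') (abs_nonneg _) (by norm_num)
      have e3 : |x u * P3 u| ≤ 101 / 100 * (κ * δ) := by
        rw [abs_mul]
        exact mul_le_mul (H.bx u hu') (b3 u hu') (abs_nonneg _) (by norm_num)
      have e1' := abs_le.mp e1
      have e2' := abs_le.mp e2
      have e3' := abs_le.mp e3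
      rw [abs_le]
      constructor <;> nlinarith [e1'.1, e1'.2, e2'.1, e2'.2, e3'.1, e3'.2])
    have h4 := H.time hD hδ ht
    have h7 : |2 * x θ * y θ| ≤ 2.02 * (η / 100) := by
      have hx' : |x θ| ≤ 101 / 100 := H.bx θ ⟨le_rfl, H.le⟩
      have : |x θ * y θ| ≤ 101 / 100 * (η / 100) := by
        rw [abs_mul]
        exact mul_le_mul hx' hy (abs_nonneg _) (by norm_num)
      rw [mul_assoc, abs_mul, abs_of_pos (by norm_num : (0 : ℝ) < 2)]
      linarith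
    have h8 := abs_le.mp h7
    have h6 := abs_le.mp h
    have hη : 0 ≤ η := by nlinarith [abs_nonneg (y θ)]
    rw [abs_le]
    constructor <;> nlinarith [h8.1, h8.2, h6.1, h6.2, sq_nonneg (s θ)]

/-- Phase 1: `y ≤ 1/8`. -/
theorem Tri.phase1 (H : Tri κ θ te x s y P1 P2 P3) (hD : κ * (te - θ) ≤ D) (hA : 9 / 10 ≤ A)
    (hη : 0 < η) (hη1 : η ≤ 1 / 1000) (hδ : 0 ≤ δ) (hδ1 : δ ≤ 1 / 100) (hδD : δ * D ≤ η / 20)
    (b2 : ∀ t ∈ Icc θ te, -(κ * δ * s t) ≤ P2 t) (b3 : ∀ t ∈ Icc θ te, |P3 t| ≤ κ * δ)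
    (hS : ∀ t ∈ Icc θ te, |x t + y t - A| ≤ η / 5) (hy : |y θ| ≤ η / 100)
    (h8 : ∀ t ∈ Icc θ te, y t ≤ 1 / 8) :
    (∀ t ∈ Icc θ te, Real.exp (3 / 5 * κ * (t - θ)) * s θ ≤ s t) ∧
    (∀ t ∈ Icc θ te, 3 / 5 * κ * s t ≤ κ * s t * (x t - y t) + P2 t) ∧
    (∀ t ∈ Icc θ te, y t ≤ 5 / 6 * s t ^ 2 + η / 10) := by
  have hκ := H.κ0
  have k1 : ∀ t ∈ Icc θ te, 3 / 5 * κ * s t ≤ κ * s t * (x t - y t) + P2 t := by
    intro t ht
    have h1 := abs_le.mp (hS t ht)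
    have h2 := h8 t ht
    have h3 : 61 / 100 ≤ x t - y t := by linarith [h1.1]
    have h4 := b2 t ht
    have h5 := H.s0 t ht
    have h6 : 0 ≤ κ * s t := by positivity
    nlinarith
  refine ⟨?_, k1, ?_⟩
  · intro t ht
    have H' := H.mono le_rfl ht.2 ht.1
    exact gron_low ht.1 H'.ds (fun u hu => k1 u ⟨hu.1, hu.2.trans ht.2⟩)
  · intro t ht
    have H' := H.mono le_rfl ht.2 ht.1
    have hd : ∀ u ∈ Icc θ t, HasDerivWithinAt (fun u => y u - 5 / 6 * s u ^ 2)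
        (κ * s u ^ 2 + P3 u - 5 / 6 * (2 * s u * (κ * s u * (x u - y u) + P2 u))) (Icc θ t) u := by
      intro u hu
      have h1 := ((H'.ds u hu).pow 2).const_mul (5 / 6)
      refine ((H'.dy u hu).sub h1).congr_deriv ?_
      simp only [Nat.cast_ofNat, Nat.add_one_sub_one, pow_one]
    have h := mvt_up (C := κ * δ) ht.1 hd (fun u hu => by
      have hu' : u ∈ Icc θ te := ⟨hu.1, hu.2.trans ht.2⟩
      have h1 := k1 u hu'
      have h2 := H.s0 u hu'
      have h3 := abs_le.mp (b3 u hu')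
      have h4 : s u * (3 / 5 * κ * s u) ≤ s u * (κ * s u * (x u - y u) + P2 u) :=
        mul_le_mul_of_nonneg_left h1 h2
      nlinarith [h3.2])
    have h4 := H.time hD hδ ht
    have h5 := abs_le.mp hy
    nlinarith [sq_nonneg (s θ), h5.2]

/-- Phase 2: `y` increases from `1/8` to nearly `A`. -/
theorem Tri.phase2 (H : Tri κ θ te x s y P1 P2 P3) (hA : 9 / 10 ≤ A) (hA' : A ≤ 101 / 100)
    (hη : 0 < η) (hη1 : η ≤ 1 / 1000) (hδ1 : δ ≤ η / 100)
    (b3 : ∀ t ∈ Icc θ te, |P3 t| ≤ κ * δ)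
    (hS : ∀ t ∈ Icc θ te, |x t + y t - A| ≤ η / 5)
    (hΔ : ∀ t ∈ Icc θ te, |s t ^ 2 - 2 * x t * y t| ≤ η / 2)
    (h8 : y θ = 1 / 8) :
    ∀ t ∈ Icc θ te, A - 3 * η - Real.exp (-(κ / 4) * (t - θ)) ≤ y t := by
  have hκ := H.κ0
  have key : ∀ t ∈ Icc θ te, A - 3 * η - y t
      ≤ (A - 3 * η - 1 / 8) * Real.exp (-(κ / 4) * (t - θ)) := by
    intro t ht
    refine image_le_of_deriv_right_lt_deriv_boundary' (f := fun t => A - 3 * η - y t)
      (f' := fun t => -(κ * s t ^ 2 + P3 t)) (a := θ) (b := te)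
      (B := fun t => (A - 3 * η - 1 / 8) * Real.exp (-(κ / 4) * (t - θ)))
      (B' := fun t => (A - 3 * η - 1 / 8) * (-(κ / 4) * Real.exp (-(κ / 4) * (t - θ))))
      (continuousOn_const.sub (contOn H.dy))
      (fun u hu => (toIci (H.dy u (Ico_subset_Icc_self hu)) hu).const_sub _) ?_ ?_
      (fun u _ => (hasDeriv_exp_lin (-(κ / 4)) θ u _).const_mul _) ?_ ht
    · simp [h8]
    · exact Continuous.continuousOn (by fun_prop)
    · intro u hu hue
      have hu' : u ∈ Icc θ te := Ico_subset_Icc_self hu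
      have e0 : 0 < Real.exp (-(κ / 4) * (u - θ)) := Real.exp_pos _
      have e1 : Real.exp (-(κ / 4) * (u - θ)) ≤ 1 := by
        rw [Real.exp_le_one_iff]
        nlinarith [hu.1]
      have e2 : 0 < A - 3 * η - 1 / 8 := by linarith
      have e3 : 1 / 8 ≤ y u := by nlinarith
      have e4 : y u < A - 3 * η := by nlinarith
      have h1 := abs_le.mp (hS u hu')
      have h2 := abs_le.mp (hΔ u hu')
      have h3 := abs_le.mp (b3 u hu')
      have e5 : A - η / 5 - y u ≤ x u := by linarith [h1.1]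
      have e6 : 2 * y u * (A - η / 5 - y u) ≤ 2 * y u * x u := by nlinarith
      have e7 : 1 / 4 * (A - η / 5 - y u) ≤ 2 * y u * (A - η / 5 - y u) := by nlinarith
      have e8 : 1 / 4 * (A - η / 5 - y u) - η / 2 ≤ s u ^ 2 := by nlinarith [h2.1]
      have e9 : κ * (1 / 4 * (A - η / 5 - y u) - η / 2) ≤ κ * s u ^ 2 := by gcongr
      have e10 : κ * δ ≤ κ * (η / 100) := by gcongr
      have e11 : (A - 3 * η - 1 / 8) * (-(κ / 4) * Real.exp (-(κ / 4) * (u - θ)))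
          = -(κ / 4) * (A - 3 * η - y u) := by rw [hue]; ring
      rw [e11]
      have e12 : 0 < κ * η := by positivity
      nlinarith [h3.1]
  intro t ht
  have h1 := key t ht
  have e0 : 0 < Real.exp (-(κ / 4) * (t - θ)) := Real.exp_pos _
  nlinarith

end Pool.Agent.T2H10
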