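import Pool.Agent.T2H10.Fin
import Pool.Agent.T2H10.Geom7
import Pool.Agent.W503.TQ.Uni
import Pool.Agent.W52.TQ.Loc

/-!
The blow-up theorem for the restricted equations, from the geometric construction.
-/

set_option autoImplicit false
set_option linter.unusedSectionVars false
set_option maxHeartbeats 1000000

open MeasureTheory Set Filter Topology
open scoped InnerProductSpace ENNReal ContDiff NNReal

namespace Pool.Agent.T2H10

open H772R2.NS H772R2.NS.Pub
open Pool.Agent.W795.TQ Pool.Agent.Y303.NF Pool.Agent.Y303.RA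
open H772R2.NSR (Frame prim_cont pub_inner pub_inner_jac pub_rhs)

/-- enumeration of the fields -/
def en (k : ℕ) : Md := if k = 0 then .Z else if k % 2 = 1 then .P (k / 2) else .S (k / 2 - 1)

theorem en_inj : Function.Injective en := by
  intro a b h
  unfold en at h
  split_ifs at h <;> simp only [Md.P.injEq, Md.S.injEq, reduceCtorEq] at h <;> omega

theorem en_surj : Function.Surjective en := by
  intro i
  rcases i with n | n | _
  · refine ⟨2 * n + 1, ?_⟩
    unfold en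
    rw [if_neg (by omega), if_pos (by omega)]
    congr 1
    omega
  · refine ⟨2 * n + 2, ?_⟩
    unfold en
    rw [if_neg (by omega), if_neg (by omega)]
    congr 1
    omega
  · exact ⟨0, by simp [en]⟩

theorem range_en {X : Type} (v : Md → X) : range (fun k => v (en k)) = range v :=
  en_surj.range_comp v

variable {Ω : Set E3}

/-- the theorem in terms of the internal definitions -/
theorem main_mid (hloc : S_loc) (huni : S_uni) (hΩ : IsOpen Ω) (hb : Bornology.IsBounded Ω)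
    {ε : ℝ} (hε : 0 < ε) (hcr : CradleE Ω (ε * epsv / 2)) :
    ∃ w : ℕ → E3 → E3, (∀ k, H772R2.NS.IsTest Ω (w k)) ∧ (∀ k, 0 < il2 (w k) (w k)) ∧
      (∀ j k, j ≠ k → il2 (w j) (w k) = 0 ∧ ih1 (w j) (w k) = 0) ∧
      ∃ φ ∈ Submodule.span ℝ (range w), il2 φ φ ≤ 1 ∧
      ∀ ν : ℝ, 0 < ν → ∀ c : ℝ, ε * ν ≤ c →
        ∃ (τ : ℝ) (u u' : ℝ → L2V Ω) (G G' : ℝ → L2M Ω), 0 < τ ∧ τ ≤ ε / c ∧
          (u 0 =ᵐ[volume.restrict Ω] c • φ) ∧
          (∀ T ∈ Ioo 0 τ, IsStrongIn (show Set R3 from Ω) w ν T u u' G G') ∧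
          (∀ t ∈ Ico 0 τ, ‖u t‖ ^ 2 / 2 + ν * (∫ s in (0 : ℝ)..t, ‖G s‖ ^ 2) = ‖u 0‖ ^ 2 / 2) ∧
          (∀ N : ℝ, ∃ t ∈ Ioo 0 τ, N ≤ ‖G t‖) ∧
          (∀ T, τ ≤ T → ∀ (v v' : ℝ → L2V Ω) (D D' : ℝ → L2M Ω),
            IsStrongIn (show Set R3 from Ω) w ν T v v' D D' →
            ¬ (v 0 =ᵐ[volume.restrict Ω] c • φ)) := by
  obtain ⟨v, k0, NP, NS, NZ, w0, C, q1, q2, q3, q4⟩ := hcr
  obtain ⟨V, J, K⟩ := exists_cls C
  have hw0 := C.w0
  have h1 := C.hk0
  have h2 := C.hNP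
  have h3 := C.hNS
  have h4 := C.hNZ
  set w : ℕ → E3 → E3 := fun k => v (en k) with hw
  have hr : range w = range v := range_en v
  have hDv : Dv v = Submodule.span ℝ (range w) := by rw [hr]
  have hD : ∀ φ ∈ Submodule.span ℝ (range w), H772R2.NS.IsTest Ω φ := by
    rw [hr]
    exact C.hD
  obtain ⟨C0, Fr⟩ := exists_frameS (D := Submodule.span ℝ (range w)) (hD := hD) hΩ hb
  have hTT := TT_pos
  refine ⟨w, fun k => C.test _, fun k => ?_, fun j k hjk => ?_, (1 / 2 : ℝ) • ini v, ?_, ?_, ?_⟩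
  · simp only [hw, C.gram, if_true]
    rcases en k with a | a | _
    · exact one_pos
    · exact one_pos
    · exact hw0
  · have : en j ≠ en k := fun h => hjk (en_inj h)
    simp only [hw, C.gram, C.gramh, if_neg this, and_self]
  · rw [hr]; exact Submodule.smul_mem _ _ (ini_mem v)
  · rw [il2_smul, il2_comm, il2_smul, ini_sq C, bet0_sq]
    have e1 := gg0_small
    have e2 := C.hw2
    linarith
  intro ν hν c hc
  have hc0 : 0 < c := lt_of_lt_of_le (by positivity) hc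
  set A : ℝ := c / 2 with hA
  have hA0 : 0 < A := by positivity
  have hνA : ε * ν ≤ 2 * A := by rw [hA]; linarith
  -- the viscosity is weak
  have hgen : ∀ {y : ℝ}, 0 ≤ y → y ≤ ε * epsv / 2 * k0 → ν * y / (k0 * A) ≤ epsv := by
    intro y hy0 hy
    have heps : (0 : ℝ) < epsv := by unfold epsv; norm_num
    rw [div_le_iff₀ (by positivity)]
    calc ν * y ≤ ν * (ε * epsv / 2 * k0) := mul_le_mul_of_nonneg_left hy hν.le
      _ = (ε * ν) * (epsv / 2 * k0) := by ring
      _ ≤ 2 * A * (epsv / 2 * k0) := mul_le_mul_of_nonneg_right hνA (by positivity)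
      _ = _ := by ring
  have hA1 : ν * NP / (k0 * A) ≤ epsv := hgen h2.le q1
  have hA2 : ν * NS / (k0 * A) ≤ epsv := hgen h3.le q2
  have hA3 : ν * NZ / (w0 * (k0 * A)) ≤ 1 / 10 ^ 6 := by
    have := hgen h4 q3
    have e : ν * NZ / (w0 * (k0 * A)) = ν * NZ / (k0 * A) / w0 := by field_simp
    rw [e, div_le_iff₀ hw0]
    refine this.trans ?_
    have := C.hw1
    unfold epsv
    calc (1 : ℝ) / 10 ^ 26 ≤ 1 / 10 ^ 6 * (1 / 10 ^ 9) := by norm_num
      _ ≤ _ := mul_le_mul_of_nonneg_left this (by norm_num)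
  set T : ℝ := TT / (k0 * A) with hT
  have hT0 : 0 < T := by positivity
  have hTC : T ≤ ε / c := by
    have e : ε / c = ε / 2 / A := by rw [hA]; field_simp
    rw [hT, e, div_le_div_iff₀ (by positivity) hA0]
    have e1 : TT ≤ ε / 2 * k0 := by
      have e2 : TT * 1 ≤ TT * (ε * epsv / 2 * k0) := mul_le_mul_of_nonneg_left q4 hTT.le
      rw [TT_eq] at e2 ⊢
      unfold epsv at e2
      have : 0 ≤ ε * k0 := by positivity
      nlinarith
    calc TT * A ≤ ε / 2 * k0 * A := mul_le_mul_of_nonneg_right e1 hA0.le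
      _ = _ := by ring
  have hcA : c • ((1 / 2 : ℝ) • ini v) = A • ini v := by
    rw [smul_smul]
    congr 1
    rw [hA]
    ring
  rw [hcA]
  have hφ : A • ini v ∈ Submodule.span ℝ (range w) := by
    rw [hr]
    exact Submodule.smul_mem _ _ (ini_mem v)
  obtain ⟨p, hp, hp1, hp2⟩ := exists_pairS (hD := hD) hφ
  obtain ⟨g0, hg0⟩ := compat_test hΩ ν (hD _ hφ) hp1 hp2
  have hno : ∀ (u u1 : ℝ → L2V Ω) (z z1 : ℝ → L2M Ω),
      Str (clS Ω (Submodule.span ℝ (range w)) hD) tensL ν T (fun _ => 0) u u1 z z1 →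
      u 0 ≠ p.1 := by
    intro u u1 z z1 S hu
    have e : clS Ω (Submodule.span ℝ (range w)) hD = clS Ω (Dv v) C.hD := by
      congr 1
      exact hDv.symm
    rw [e] at S
    exact no_strong K C hΩ hν hA0 hA1 hA2 hA3 S (by rw [hu]; exact hp1)
  obtain ⟨τ, u, k1, k2, k3, k4, k5, k6⟩ := alternative hloc huni Fr (rellichS hΩ hb) hν hT0
    (preS_le_clS hp) (g0 := g0) (fun q hq => hg0 q (clS_le hq)) hno
  refine ⟨τ, u, deriv u, gz (clS Ω (Submodule.span ℝ (range w)) hD) u,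
    deriv (gz (clS Ω (Submodule.span ℝ (range w)) hD) u), k1, k2.trans hTC, ?_, ?_, ?_, k5, ?_⟩
  · rw [k3]; exact hp1
  · intro t ht
    exact in_of_str hΩ hD (k4 t ht)
  · intro t ht
    obtain ⟨r, hr1, hr2⟩ := exists_between ht.2
    have h := (k4 r ⟨ht.1.trans_lt hr1, hr2⟩).energy t ⟨ht.1, hr1.le⟩
    have h' : ∫ s in (0 : ℝ)..t, ⟪(0 : L2M Ω), gz (clS Ω (Submodule.span ℝ (range w)) hD) u s⟫_ℝ
        = 0 := by simp
    rw [h', add_zero] at h
    exact h
  · intro t ht y y' D D' hy hy0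
    have hS := str_of_in hΩ (hD := hD) Fr (k1.trans_le ht) hy
    refine k6 t ht y y' D D' hS ?_
    apply Lp.ext
    exact hy0.trans hp1.symm

end Pool.Agent.T2H10
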