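import Pool.Agent.T2H10.Chain

/-!
Numerical facts for the chain.
-/

set_option autoImplicit false
set_option maxHeartbeats 1000000

open Set Filter Topology

namespace Pool.Agent.T2H10

theorem e27 : (27 / 10 : ℝ) < Real.exp 1 := lt_trans (by norm_num) Real.exp_one_gt_d9

theorem e3 : Real.exp 1 < 3 := lt_trans Real.exp_one_lt_d9 (by norm_num)

theorem exp_nat (k : ℕ) : Real.exp (k : ℝ) = Real.exp 1 ^ k := by
  rw [← Real.exp_nat_mul, mul_one]

theorem exp_ge (k : ℕ) : (27 / 10 : ℝ) ^ k ≤ Real.exp (k : ℝ) := by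
  rw [exp_nat]
  exact pow_le_pow_left₀ (by norm_num) e27.le k

theorem exp_le (k : ℕ) : Real.exp (k : ℝ) ≤ (3 : ℝ) ^ k := by
  rw [exp_nat]
  exact pow_le_pow_left₀ (Real.exp_pos _).le e3.le k

theorem sq_le_pow54 (n : ℕ) : ((n : ℝ) + 1) ^ 2 ≤ 20 * (5 / 4) ^ n := by
  have h : ∀ m : ℕ, ((m + 8 : ℕ) + 1 : ℝ) ^ 2 ≤ 20 * (5 / 4) ^ (m + 8) := by
    intro m
    induction m with
    | zero => norm_num
    | succ m ih =>
      have e : m + 1 + 8 = (m + 8) + 1 := by ring
      rw [e, pow_succ (5 / 4 : ℝ) (m + 8)]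
      push_cast at ih ⊢
      have : (0 : ℝ) ≤ m := Nat.cast_nonneg m
      nlinarith
  rcases lt_or_ge n 8 with h1 | h1
  · interval_cases n <;> norm_num
  · obtain ⟨m, rfl⟩ : ∃ m, n = m + 8 := ⟨n - 8, by omega⟩
    exact h m

theorem sq_le_pow32 (n : ℕ) : ((n : ℝ) + 1) ^ 2 ≤ 9 * (3 / 2) ^ n := by
  have h : ∀ m : ℕ, ((m + 4 : ℕ) + 1 : ℝ) ^ 2 ≤ 9 * (3 / 2) ^ (m + 4) := by
    intro m
    induction m with
    | zero => norm_num
    | succ m ih =>
      have e : m + 1 + 4 = (m + 4) + 1 := by ring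
      rw [e, pow_succ (3 / 2 : ℝ) (m + 4)]
      push_cast at ih ⊢
      have : (0 : ℝ) ≤ m := Nat.cast_nonneg m
      nlinarith
  rcases lt_or_ge n 4 with h1 | h1
  · interval_cases n <;> norm_num
  · obtain ⟨m, rfl⟩ : ∃ m, n = m + 4 := ⟨n - 4, by omega⟩
    exact h m

theorem sq_le_pow4 (n : ℕ) : ((n : ℝ) + 1) ^ 2 ≤ 4 ^ n := by
  induction n with
  | zero => norm_num
  | succ n ih =>
    rw [pow_succ (4 : ℝ) n]
    push_cast
    have : (0 : ℝ) ≤ n := Nat.cast_nonneg n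
    nlinarith

theorem sq_le_exp (n : ℕ) : ((n : ℝ) + 1) ^ 2 ≤ Real.exp (2 * n) := by
  have h : (n : ℝ) + 1 ≤ Real.exp n := Real.add_one_le_exp _
  have h2 : Real.exp (2 * n) = Real.exp n ^ 2 := by
    rw [← Real.exp_nat_mul]; push_cast; ring_nf
  rw [h2]
  have : (0 : ℝ) ≤ n := Nat.cast_nonneg n
  gcongr

theorem kap_le (n : ℕ) : kap n ≤ Real.exp (4 * n) := by
  unfold kap
  have h : Real.exp (4 * (n : ℝ)) = Real.exp ((4 : ℕ) : ℝ) ^ n := by
    rw [← Real.exp_nat_mul]; push_cast; ring_nf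
  rw [h]
  have h4 := exp_ge 4
  have : (32 : ℝ) ≤ Real.exp ((4 : ℕ) : ℝ) := by
    refine le_trans ?_ h4
    norm_num
  gcongr

theorem TT_le : TT ≤ Real.exp 13 := by
  have h := exp_ge 13
  unfold TT LL
  push_cast at h
  refine le_trans ?_ h
  norm_num

noncomputable def eta (n : ℕ) : ℝ := Real.exp (-(30 + (n : ℝ) / 4))

noncomputable def DD (n : ℕ) : ℝ := 2 * Lam n

theorem eta_pos (n : ℕ) : 0 < eta n := Real.exp_pos _

theorem exp_m30 : Real.exp (-30) ≤ 1 / 10 ^ 12 := by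
  have h := exp_ge 30
  push_cast at h
  rw [Real.exp_neg, ← one_div]
  apply one_div_le_one_div_of_le (by norm_num)
  refine le_trans ?_ h
  norm_num

theorem exp_m30' : 1 / 10 ^ 15 ≤ Real.exp (-30) := by
  have h := exp_le 30
  push_cast at h
  rw [Real.exp_neg, ← one_div]
  apply one_div_le_one_div_of_le (Real.exp_pos _)
  refine h.trans ?_
  norm_num

theorem eta_eq (n : ℕ) : eta n = Real.exp (-30) * Real.exp (-(1 / 4)) ^ n := by
  unfold eta
  rw [← Real.exp_nat_mul, ← Real.exp_add]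
  ring_nf

theorem exp_q : Real.exp (-(1 / 4)) ≤ 4 / 5 := by
  have h := Real.add_one_le_exp (1 / 4 : ℝ)
  rw [Real.exp_neg, inv_le_comm₀ (Real.exp_pos _) (by norm_num)]
  linarith

theorem exp_q' : 3 / 4 ≤ Real.exp (-(1 / 4)) := by
  have h := Real.add_one_le_exp (-(1 / 4) : ℝ)
  linarith

theorem eta_le (n : ℕ) : eta n ≤ 1 / 10 ^ 12 * (4 / 5) ^ n := by
  rw [eta_eq]
  have := Real.exp_pos (-(1 / 4))
  gcongr
  · exact exp_m30
  · exact exp_q

theorem eta_ge (n : ℕ) : 1 / 10 ^ 15 * (3 / 4) ^ n ≤ eta n := by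
  rw [eta_eq]
  gcongr
  · exact exp_m30'
  · exact exp_q'

theorem eta_small (n : ℕ) : eta n ≤ 1 / 10 ^ 12 := by
  refine (eta_le n).trans ?_
  have : (4 / 5 : ℝ) ^ n ≤ 1 := pow_le_one₀ (by norm_num) (by norm_num)
  linarith

theorem eta_DD (n : ℕ) : eta n * DD n ≤ 1 / 10 ^ 5 := by
  unfold DD Lam LL
  have h1 := eta_le n
  have h2 := sq_le_pow54 n
  have h3 : (4 / 5 : ℝ) ^ n * (5 / 4) ^ n = 1 := by
    rw [← mul_pow]; norm_num
  have h0 := eta_pos n
  calc eta n * (2 * (100000 * ((n : ℝ) + 1) ^ 2))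
      ≤ (1 / 10 ^ 12 * (4 / 5) ^ n) * (2 * (100000 * (20 * (5 / 4) ^ n))) := by gcongr
    _ = 1 / 10 ^ 12 * 2 * 100000 * 20 * ((4 / 5 : ℝ) ^ n * (5 / 4) ^ n) := by ring
    _ = 1 / 10 ^ 12 * 2 * 100000 * 20 := by rw [h3, mul_one]
    _ ≤ _ := by norm_num

theorem DD_le (n : ℕ) : DD n ≤ Real.exp (13 + 2 * n) := by
  unfold DD Lam LL
  rw [Real.exp_add]
  have h := TT_le
  unfold TT LL at h
  have h2 := sq_le_exp n
  have h3 : 0 < ((n : ℝ) + 1) ^ 2 := by positivity
  calc 2 * (100000 * ((n : ℝ) + 1) ^ 2) ≤ (3 * 100000) * ((n : ℝ) + 1) ^ 2 := by nlinarith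
    _ ≤ _ := by gcongr

/-- The size of the perturbation. -/
noncomputable def del (n : ℕ) : ℝ := 17 * epsv / 2 ^ n + 100 * Real.exp (-Lam n / 130)

theorem del_pos (n : ℕ) : 0 < del n := by unfold del epsv; positivity

theorem del_DD (n : ℕ) : del n * DD n ≤ eta n / 20 := by
  have h1 : 17 * epsv / 2 ^ n * DD n ≤ eta n / 40 := by
    have h2 := sq_le_pow32 n
    have h3 := eta_ge n
    have h4 : (3 / 4 : ℝ) ^ n = (3 / 2) ^ n / 2 ^ n := by rw [← div_pow]; norm_num
    have h5 : (0 : ℝ) < 2 ^ n := by positivity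
    have h6 : (0 : ℝ) < (3 / 2) ^ n := by positivity
    calc 17 * epsv / 2 ^ n * DD n ≤ 17 * epsv / 2 ^ n * (2 * (100000 * (9 * (3 / 2) ^ n))) := by
          unfold DD Lam LL epsv
          gcongr
      _ = (17 * epsv * 2 * 100000 * 9) * ((3 / 2) ^ n / 2 ^ n) := by ring
      _ ≤ (1 / 10 ^ 15 / 40) * ((3 / 2) ^ n / 2 ^ n) := by
          gcongr
          unfold epsv
          norm_num
      _ = (1 / 10 ^ 15 * (3 / 4) ^ n) / 40 := by rw [h4]; ring
      _ ≤ eta n / 40 := by gcongr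
  have h2 : 100 * Real.exp (-Lam n / 130) * DD n ≤ eta n / 40 := by
    have h3 := DD_le n
    have h4 : (100 : ℝ) ≤ Real.exp 5 := by
      have := exp_ge 5
      push_cast at this
      refine le_trans ?_ this
      norm_num
    have h5 : Real.exp (-4) ≤ 1 / 40 := by
      have := exp_ge 4
      push_cast at this
      rw [Real.exp_neg, ← one_div]
      apply one_div_le_one_div_of_le (by norm_num)
      refine le_trans ?_ this
      norm_num
    have hn : (0 : ℝ) ≤ n := Nat.cast_nonneg n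
    calc 100 * Real.exp (-Lam n / 130) * DD n
        ≤ Real.exp 5 * Real.exp (-Lam n / 130) * Real.exp (13 + 2 * n) := by
          have h6 : 0 ≤ DD n := by unfold DD Lam LL; positivity
          gcongr
      _ = Real.exp (5 + -Lam n / 130 + (13 + 2 * n)) := by
          rw [Real.exp_add (5 + -Lam n / 130), Real.exp_add 5]
      _ ≤ Real.exp (-(30 + (n : ℝ) / 4) + -4) := by
          apply Real.exp_le_exp.mpr
          unfold Lam LL
          nlinarith
      _ = eta n * Real.exp (-4) := by rw [Real.exp_add]; rfl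
      _ ≤ eta n * (1 / 40) := by
          have := eta_pos n
          gcongr
      _ = eta n / 40 := by ring
  calc del n * DD n = 17 * epsv / 2 ^ n * DD n + 100 * Real.exp (-Lam n / 130) * DD n := by
        unfold del; ring
    _ ≤ _ := by linarith

theorem one_le_DD (n : ℕ) : 100000 ≤ DD n := by
  unfold DD Lam LL
  have hn : (0 : ℝ) ≤ n := Nat.cast_nonneg n
  nlinarith

theorem del_le (n : ℕ) : del n ≤ eta n / 100 := by
  have h1 := del_DD n
  have h2 := one_le_DD n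
  have h3 := del_pos n
  nlinarith

theorem Lam_ge (n : ℕ) : 100000 * ((n : ℝ) + 1) ≤ Lam n := by
  unfold Lam LL
  have hn : (0 : ℝ) ≤ n := Nat.cast_nonneg n
  nlinarith

theorem Lam_succ (n : ℕ) : Lam (n + 1) ≤ 4 * Lam n := by
  unfold Lam LL
  push_cast
  have hn : (0 : ℝ) ≤ n := Nat.cast_nonneg n
  nlinarith

theorem Lam_succ' (n : ℕ) : Lam n + 100000 * ((n : ℝ) + 1) ≤ Lam (n + 1) := by
  unfold Lam LL
  push_cast
  have hn : (0 : ℝ) ≤ n := Nat.cast_nonneg n
  nlinarith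

theorem tau_le (n : ℕ) : tau n ≤ Real.exp (-(9 / 10) * Lam n) := by
  have h1 := kap_le n
  have h2 := TT_le
  have h3 : bet n ^ 2 = Real.exp (-Lam n) := by
    unfold bet
    rw [← Real.exp_nat_mul]
    push_cast
    ring_nf
  have h4 : gg (n + 1) ≤ Real.exp (-Lam n) / 2 := gg_half n
  have h5 := one_le_kap n
  have hn : (0 : ℝ) ≤ n := Nat.cast_nonneg n
  have h6 : (33 : ℝ) ≤ Real.exp 4 := by
    have := exp_ge 4
    push_cast at this
    refine le_trans ?_ this
    norm_num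
  have h7 := Real.exp_pos (-Lam n)
  have h8 := TT_pos
  have h9 := Lam_ge n
  calc tau n = TT * (kap n * Real.exp (-Lam n) + 32 * gg (n + 1)) := by unfold tau; rw [h3]
    _ ≤ TT * (33 * kap n * Real.exp (-Lam n)) := by
        gcongr
        nlinarith
    _ ≤ Real.exp 13 * (Real.exp 4 * Real.exp (4 * n) * Real.exp (-Lam n)) := by
        gcongr
    _ = Real.exp (13 + (4 + 4 * n + -Lam n)) := by rw [Real.exp_add 13, Real.exp_add, Real.exp_add 4]
    _ ≤ Real.exp (-(9 / 10) * Lam n) := by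
        apply Real.exp_le_exp.mpr
        linarith

theorem tau_pos (n : ℕ) : 0 < tau n := by
  unfold tau
  have := TT_pos; have := kap_pos n; have := bet_pos n; have := gg_pos (n + 1)
  positivity

/-- super small numbers are small with respect to `eta`. -/
theorem exp_le_eta (n : ℕ) {c : ℝ} (hc : 1 / 1000 ≤ c) :
    Real.exp (-c * Lam n) * Real.exp (13 + 2 * n) ≤ eta n / 100 := by
  have hn : (0 : ℝ) ≤ n := Nat.cast_nonneg n
  have h5 : Real.exp (-5) ≤ 1 / 100 := by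
    have := exp_ge 5
    push_cast at this
    rw [Real.exp_neg, ← one_div]
    apply one_div_le_one_div_of_le (by norm_num)
    refine le_trans ?_ this
    norm_num
  have h6 := Lam_ge n
  have h7 : 1 / 1000 * Lam n ≤ c * Lam n := by
    have : 0 ≤ Lam n := by linarith
    gcongr
  calc Real.exp (-c * Lam n) * Real.exp (13 + 2 * n) = Real.exp (-c * Lam n + (13 + 2 * n)) := by
        rw [Real.exp_add (-c * Lam n)]
    _ ≤ Real.exp (-(30 + (n : ℝ) / 4) + -5) := by
        apply Real.exp_le_exp.mpr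
        linarith
    _ = eta n * Real.exp (-5) := by rw [Real.exp_add]; rfl
    _ ≤ eta n * (1 / 100) := by
        have := eta_pos n
        gcongr
    _ = eta n / 100 := by ring

theorem exp_le_eta' (n : ℕ) {c : ℝ} (hc : 1 / 1000 ≤ c) :
    Real.exp (-c * Lam n) ≤ eta n / 100 := by
  refine le_trans ?_ (exp_le_eta n hc)
  have h1 : 1 ≤ Real.exp (13 + 2 * (n : ℝ)) := Real.one_le_exp (by positivity)
  have h2 := Real.exp_pos (-c * Lam n)
  nlinarith

theorem window (n : ℕ) : DD n / kap n ≤ TT * ((1 / 8) ^ n - (1 / 8) ^ (n + 1)) := by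
  unfold DD Lam LL TT kap LL
  have h := sq_le_pow4 n
  have h32 : (32 : ℝ) ^ n = 8 ^ n * 4 ^ n := by rw [← mul_pow]; norm_num
  rw [h32, pow_succ (1 / 8 : ℝ) n, one_div_pow]
  have h8 : (0 : ℝ) < 8 ^ n := by positivity
  have h4 : (0 : ℝ) < 4 ^ n := by positivity
  rw [div_le_iff₀ (by positivity)]
  have e : 3 * 100000 * (1 / 8 ^ n - 1 / 8 ^ n * (1 / 8)) * (8 ^ n * (4 : ℝ) ^ n)
      = 3 * 100000 * (7 / 8) * 4 ^ n := by
    field_simp
    ring
  rw [e]
  nlinarith

end Pool.Agent.T2H10
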