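import Mathlib

/-!
Elementary differential inequalities on an interval.
-/

set_option autoImplicit false

open Set Filter Topology

namespace Pool.Agent.T2H10

theorem toIci {f : ℝ → ℝ} {f' a b x : ℝ} (h : HasDerivWithinAt f f' (Icc a b) x)
    (hx : x ∈ Ico a b) : HasDerivWithinAt f f' (Ici x) x := by
  refine h.mono_of_mem_nhdsWithin ?_
  have : Icc x b ∈ 𝓝[Ici x] x := Icc_mem_nhdsGE hx.2
  exact Filter.mem_of_superset this (Icc_subset_Icc_left hx.1)

theorem contOn {f f' : ℝ → ℝ} {a b : ℝ}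
    (h : ∀ t ∈ Icc a b, HasDerivWithinAt f (f' t) (Icc a b) t) : ContinuousOn f (Icc a b) :=
  fun t ht => (h t ht).continuousWithinAt

/-- Comparison of two functions. -/
theorem le_of_deriv {f g f' g' : ℝ → ℝ} {a b : ℝ} (hab : a ≤ b)
    (hf : ∀ t ∈ Icc a b, HasDerivWithinAt f (f' t) (Icc a b) t)
    (hg : ∀ t ∈ Icc a b, HasDerivWithinAt g (g' t) (Icc a b) t)
    (h0 : f a ≤ g a) (hle : ∀ t ∈ Icc a b, f' t ≤ g' t) : f b ≤ g b :=
  image_le_of_deriv_right_le_deriv_boundary (contOn hf)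
    (fun x hx => toIci (hf x (Ico_subset_Icc_self hx)) hx) h0 (contOn hg)
    (fun x hx => toIci (hg x (Ico_subset_Icc_self hx)) hx)
    (fun x hx => hle x (Ico_subset_Icc_self hx)) ⟨hab, le_rfl⟩

theorem hasDeriv_exp_lin (c s t : ℝ) (S : Set ℝ) :
    HasDerivWithinAt (fun t => Real.exp (c * (t - s))) (c * Real.exp (c * (t - s))) S t := by
  have h1 : HasDerivAt (fun t : ℝ => c * (t - s)) c t := by
    have := ((hasDerivAt_id t).sub_const s).const_mul c
    simpa using this
  have h2 := h1.exp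
  rw [mul_comm] at h2
  exact h2.hasDerivWithinAt

/-- `f' ≤ c f + Γ` with `c ≥ 0`, `Γ ≥ 0`. -/
theorem gron_up {f f' : ℝ → ℝ} {a b c Γ : ℝ} (hab : a ≤ b) (hc : 0 ≤ c) (hΓ : 0 ≤ Γ)
    (hf : ∀ t ∈ Icc a b, HasDerivWithinAt f (f' t) (Icc a b) t)
    (hle : ∀ t ∈ Icc a b, f' t ≤ c * f t + Γ) :
    f b ≤ Real.exp (c * (b - a)) * (f a + Γ * (b - a)) := by
  have key := le_of_deriv (f := fun t => Real.exp (-c * (t - a)) * f t)
    (g := fun t => f a + Γ * (t - a))
    (f' := fun t => -c * Real.exp (-c * (t - a)) * f t + Real.exp (-c * (t - a)) * f' t)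
    (g' := fun _ => Γ) hab
    (fun t ht => (hasDeriv_exp_lin (-c) a t _).mul (hf t ht))
    (fun t ht => by
      have := (((hasDerivAt_id t).sub_const a).const_mul Γ).const_add (f a)
      simpa using this.hasDerivWithinAt)
    (by simp)
    (fun t ht => by
      have h1 := hle t ht
      have h2 : 0 < Real.exp (-c * (t - a)) := Real.exp_pos _
      have h3 : Real.exp (-c * (t - a)) ≤ 1 := by
        rw [Real.exp_le_one_iff]
        nlinarith [ht.1]
      have h4 : -c * Real.exp (-c * (t - a)) * f t + Real.exp (-c * (t - a)) * f' t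
        = Real.exp (-c * (t - a)) * (f' t - c * f t) := by ring
      rw [h4]
      calc Real.exp (-c * (t - a)) * (f' t - c * f t) ≤ Real.exp (-c * (t - a)) * Γ := by
            gcongr; linarith
        _ ≤ 1 * Γ := by gcongr
        _ = Γ := one_mul _)
  have e : Real.exp (c * (b - a)) * Real.exp (-c * (b - a)) = 1 := by
    rw [← Real.exp_add]; simp
  calc f b = Real.exp (c * (b - a)) * (Real.exp (-c * (b - a)) * f b) := by
        rw [← mul_assoc, e, one_mul]
    _ ≤ _ := by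
        have := Real.exp_pos (c * (b - a))
        gcongr

/-- `f' ≤ -c f + Γ` with `c > 0`, `Γ ≥ 0`. -/
theorem gron_down {f f' : ℝ → ℝ} {a b c Γ : ℝ} (hab : a ≤ b) (hc : 0 < c) (hΓ : 0 ≤ Γ)
    (hf : ∀ t ∈ Icc a b, HasDerivWithinAt f (f' t) (Icc a b) t)
    (hle : ∀ t ∈ Icc a b, f' t ≤ -c * f t + Γ) :
    f b ≤ Real.exp (-c * (b - a)) * f a + Γ / c := by
  have key := le_of_deriv (f := fun t => Real.exp (c * (t - a)) * (f t - Γ / c))
    (g := fun _ => f a - Γ / c)
    (f' := fun t => c * Real.exp (c * (t - a)) * (f t - Γ / c) + Real.exp (c * (t - a)) * f' t)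
    (g' := fun _ => 0) hab
    (fun t ht => (hasDeriv_exp_lin c a t _).mul ((hf t ht).sub_const _))
    (fun t _ => hasDerivWithinAt_const _ _ _)
    (by simp)
    (fun t ht => by
      have h1 := hle t ht
      have h2 : 0 < Real.exp (c * (t - a)) := Real.exp_pos _
      have h3 : c * (Γ / c) = Γ := by field_simp
      have h4 : c * Real.exp (c * (t - a)) * (f t - Γ / c) + Real.exp (c * (t - a)) * f' t
        = Real.exp (c * (t - a)) * (f' t + c * f t - c * (Γ / c)) := by ring
      rw [h4, h3]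
      have h5 : f' t + c * f t - Γ ≤ 0 := by linarith
      nlinarith)
  have e : Real.exp (-c * (b - a)) * Real.exp (c * (b - a)) = 1 := by
    rw [← Real.exp_add]; simp
  have hpos := Real.exp_pos (-c * (b - a))
  have h6 : f b - Γ / c ≤ Real.exp (-c * (b - a)) * (f a - Γ / c) := by
    calc f b - Γ / c = Real.exp (-c * (b - a)) * (Real.exp (c * (b - a)) * (f b - Γ / c)) := by
          rw [← mul_assoc, e, one_mul]
      _ ≤ _ := by gcongr
  have h7 : 0 ≤ Real.exp (-c * (b - a)) * (Γ / c) := by positivity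
  nlinarith

/-- `f' ≥ c f`. -/
theorem gron_low {f f' : ℝ → ℝ} {a b c : ℝ} (hab : a ≤ b)
    (hf : ∀ t ∈ Icc a b, HasDerivWithinAt f (f' t) (Icc a b) t)
    (hle : ∀ t ∈ Icc a b, c * f t ≤ f' t) :
    Real.exp (c * (b - a)) * f a ≤ f b := by
  have key := le_of_deriv (f := fun _ => f a)
    (g := fun t => Real.exp (-c * (t - a)) * f t)
    (f' := fun _ => 0)
    (g' := fun t => -c * Real.exp (-c * (t - a)) * f t + Real.exp (-c * (t - a)) * f' t) hab
    (fun t _ => hasDerivWithinAt_const _ _ _)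
    (fun t ht => (hasDeriv_exp_lin (-c) a t _).mul (hf t ht))
    (by simp)
    (fun t ht => by
      have h1 := hle t ht
      have h2 : 0 < Real.exp (-c * (t - a)) := Real.exp_pos _
      have h4 : -c * Real.exp (-c * (t - a)) * f t + Real.exp (-c * (t - a)) * f' t
        = Real.exp (-c * (t - a)) * (f' t - c * f t) := by ring
      rw [h4]
      have : 0 ≤ f' t - c * f t := by linarith
      positivity)
  have e : Real.exp (c * (b - a)) * Real.exp (-c * (b - a)) = 1 := by
    rw [← Real.exp_add]; simp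
  calc Real.exp (c * (b - a)) * f a ≤ Real.exp (c * (b - a)) * (Real.exp (-c * (b - a)) * f b) := by
        have := Real.exp_pos (c * (b - a))
        gcongr
    _ = f b := by rw [← mul_assoc, e, one_mul]

/-- `f' ≥ -R f + g` with `f(a) ≥ 0`. -/
theorem gron_floor {f f' : ℝ → ℝ} {a b R g : ℝ} (hab : a ≤ b) (hR : 0 < R)
    (hf : ∀ t ∈ Icc a b, HasDerivWithinAt f (f' t) (Icc a b) t)
    (hle : ∀ t ∈ Icc a b, -R * f t + g ≤ f' t) (h0 : 0 ≤ f a) :
    g / R * (1 - Real.exp (-R * (b - a))) ≤ f b := by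
  have key := gron_low (f := fun t => f t - g / R) (f' := f') (c := -R) hab
    (fun t ht => (hf t ht).sub_const _)
    (fun t ht => by
      have h1 := hle t ht
      have h3 : R * (g / R) = g := by field_simp
      have : -R * (f t - g / R) = -R * f t + R * (g / R) := by ring
      rw [this, h3]
      exact h1)
  have hpos := Real.exp_pos (-R * (b - a))
  nlinarith [mul_nonneg hpos.le h0]

/-- Positivity for `f' = r f + γ`. -/
theorem nonneg_of_deriv {f f' : ℝ → ℝ} {a b R : ℝ}
    (hf : ∀ t ∈ Icc a b, HasDerivWithinAt f (f' t) (Icc a b) t)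
    (hle : ∀ t ∈ Icc a b, f t ≤ 0 → R * f t ≤ f' t) (hR : 0 ≤ R) (h0 : 0 ≤ f a) :
    ∀ t ∈ Icc a b, 0 ≤ f t := by
  intro t ht
  by_contra hneg
  push Not at hneg
  -- for each δ > 0, `-f ≤ δ exp((R+1)(t-a))`
  have h1 : ∀ δ : ℝ, 0 < δ → -f t ≤ δ * Real.exp ((R + 1) * (t - a)) := by
    intro δ hδ
    refine image_le_of_deriv_right_lt_deriv_boundary' (f := fun t => -f t)
      (f' := fun t => -f' t) (a := a) (b := b)
      (B := fun t => δ * Real.exp ((R + 1) * (t - a)))
      (B' := fun t => δ * ((R + 1) * Real.exp ((R + 1) * (t - a))))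
      (contOn hf).neg (fun x hx => (toIci (hf x (Ico_subset_Icc_self hx)) hx).neg)
      ?_ ?_ (fun x _ => (hasDeriv_exp_lin (R + 1) a x _).const_mul δ) ?_ ht
    · simp only [sub_self, mul_zero, Real.exp_zero, mul_one]
      linarith
    · exact Continuous.continuousOn (by fun_prop)
    · intro x hx hxe
      have h2 := hle x (Ico_subset_Icc_self hx)
      have h3 : 0 < δ * Real.exp ((R + 1) * (x - a)) := by positivity
      have h4 : f x ≤ 0 := by linarith
      have h5 := h2 h4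
      nlinarith
  have h2 : 0 < -f t / (2 * Real.exp ((R + 1) * (t - a))) := by
    have := Real.exp_pos ((R + 1) * (t - a))
    apply div_pos <;> linarith
  have h3 := h1 _ h2
  have h4 := Real.exp_pos ((R + 1) * (t - a))
  have h5 : -f t / (2 * Real.exp ((R + 1) * (t - a))) * Real.exp ((R + 1) * (t - a)) = -f t / 2 := by
    field_simp
  rw [h5] at h3
  linarith

/-- First hitting time. -/
theorem first_hit {f : ℝ → ℝ} {a b c : ℝ} (hab : a ≤ b) (hf : ContinuousOn f (Icc a b))
    (ha : f a ≤ c) (hb : c ≤ f b) :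
    ∃ θ ∈ Icc a b, f θ = c ∧ ∀ t ∈ Icc a θ, f t ≤ c := by
  set S := {t | t ∈ Icc a b ∧ c ≤ f t} with hS
  have hSne : S.Nonempty := ⟨b, ⟨hab, le_rfl⟩, hb⟩
  have hSbdd : BddBelow S := ⟨a, fun t ht => ht.1.1⟩
  have hScl : IsClosed S := by
    have : S = Icc a b ∩ f ⁻¹' Ici c := by
      ext t; simp [hS]
    rw [this]
    exact hf.preimage_isClosed_of_isClosed isClosed_Icc isClosed_Ici
  have hθ := hScl.csInf_mem hSne hSbdd
  set θ := sInf S with hθd
  have hlt : ∀ t ∈ Ico a θ, f t < c := by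
    intro t ht
    by_contra h
    push Not at h
    exact absurd (csInf_le hSbdd ⟨⟨ht.1, ht.2.le.trans hθ.1.2⟩, h⟩) (not_le.mpr ht.2)
  have hle : f θ ≤ c := by
    rcases eq_or_lt_of_le hθ.1.1 with h | h
    · rw [← h]; exact ha
    · have h1 : ContinuousWithinAt f (Ico a θ) θ :=
        (hf θ hθ.1).mono fun t ht => ⟨ht.1, ht.2.le.trans hθ.1.2⟩
      have h2 : (𝓝[Ico a θ] θ).NeBot := by
        rw [← mem_closure_iff_nhdsWithin_neBot, closure_Ico h.ne]
        exact ⟨h.le, le_rfl⟩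
      exact le_of_tendsto h1 (eventually_mem_nhdsWithin.mono fun t ht => (hlt t ht).le)
  refine ⟨θ, hθ.1, le_antisymm hle hθ.2, fun t ht => ?_⟩
  rcases eq_or_lt_of_le ht.2 with h | h
  · rw [h]; exact hle
  · exact (hlt t ⟨ht.1, h⟩).le

/-- Mean value bound. -/
theorem mvt_abs {f f' : ℝ → ℝ} {a b C : ℝ} (hab : a ≤ b)
    (hf : ∀ t ∈ Icc a b, HasDerivWithinAt f (f' t) (Icc a b) t)
    (hle : ∀ t ∈ Icc a b, |f' t| ≤ C) : |f b - f a| ≤ C * (b - a) := by
  have h := (convex_Icc a b).norm_image_sub_le_of_norm_hasDerivWithin_le (f := f) (f' := f')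
    (C := C) hf (fun t ht => hle t ht) (left_mem_Icc.mpr hab) (right_mem_Icc.mpr hab)
  simpa [Real.norm_eq_abs, abs_of_nonneg (sub_nonneg.mpr hab)] using h

/-- One-sided mean value bound. -/
theorem mvt_up {f f' : ℝ → ℝ} {a b C : ℝ} (hab : a ≤ b)
    (hf : ∀ t ∈ Icc a b, HasDerivWithinAt f (f' t) (Icc a b) t)
    (hle : ∀ t ∈ Icc a b, f' t ≤ C) : f b ≤ f a + C * (b - a) := by
  refine le_of_deriv (g := fun t => f a + C * (t - a)) (g' := fun _ => C) hab hf
    (fun t _ => ?_) (by simp) hle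
  have := (((hasDerivAt_id t).sub_const a).const_mul C).const_add (f a)
  simpa using this.hasDerivWithinAt

theorem mvt_low {f f' : ℝ → ℝ} {a b C : ℝ} (hab : a ≤ b)
    (hf : ∀ t ∈ Icc a b, HasDerivWithinAt f (f' t) (Icc a b) t)
    (hle : ∀ t ∈ Icc a b, C ≤ f' t) : f a + C * (b - a) ≤ f b := by
  refine le_of_deriv (f := fun t => f a + C * (t - a)) (f' := fun _ => C) hab
    (fun t _ => ?_) hf (by simp) hle
  have := (((hasDerivAt_id t).sub_const a).const_mul C).const_add (f a)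
  simpa using this.hasDerivWithinAt

/-- Restriction of the derivative to a smaller interval. -/
theorem deriv_mono {f f' : ℝ → ℝ} {a b c d : ℝ}
    (hf : ∀ t ∈ Icc a b, HasDerivWithinAt f (f' t) (Icc a b) t) (hc : a ≤ c) (hd : d ≤ b) :
    ∀ t ∈ Icc c d, HasDerivWithinAt f (f' t) (Icc c d) t :=
  fun t ht => (hf t ⟨hc.trans ht.1, ht.2.trans hd⟩).mono (Icc_subset_Icc hc hd)

end Pool.Agent.T2H10
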