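import Pool.Agent.T2H10.Win

/-!
The induction step and the blow-up of the chain.
-/

set_option autoImplicit false
set_option maxHeartbeats 1000000

open Set Filter Topology

namespace Pool.Agent.T2H10

variable {a b : ℕ → ℝ → ℝ} {e f : ℕ → ℝ} {γ : ℕ → ℝ → ℝ} {K : ℝ} {n : ℕ} {θ te : ℝ}

theorem eta_anti (n : ℕ) : eta (n + 1) ≤ eta n := by
  unfold eta
  apply Real.exp_le_exp.mpr
  push_cast
  linarith

theorem Win.z (C : Chain a b e f γ K) (W : Win a b n θ te) {t : ℝ} (ht : t ∈ Icc 0 te) :
    |a (n + 1 + 1) t| ≤ eta n / 100 := by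
  have h := (C.tail (n + 1) ⟨W.I.θ0.trans W.le, W.leT⟩ W.hw 0 ht).1
  have h2 := (tau_le_eta (n + 1)).trans (by have := eta_anti n; linarith : eta (n + 1) / 100
    ≤ eta n / 100)
  simpa using h.trans h2

/-- Before the threshold of the mode `n` is reached, the mode `n + 1` is quiet. -/
theorem Inv.quiet (C : Chain a b e f γ K) (I : Inv a b n θ) {t : ℝ} (ht : t ∈ Icc 0 θ) :
    b (n + 1) t ≤ Real.exp (17 - Lam (n + 1)) := by
  have htT : t ∈ Icc 0 TT := ⟨ht.1, ht.2.trans I.θT⟩
  have hk := kap_pos (n + 1)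
  have hτ := tau_pos n
  have h := gron_up (f := b (n + 1)) (a := 0) (b := t) (c := 2 * kap (n + 1) * tau n)
    (Γ := 16 * gg (n + 1)) ht.1 (by positivity) (by have := gg_pos (n + 1); positivity)
    (deriv_mono (C.db (n + 1)) le_rfl htT.2) (fun u hu => by
      have hu' : u ∈ Icc 0 θ := ⟨hu.1, hu.2.trans ht.2⟩
      have huT : u ∈ Icc 0 TT := ⟨hu.1, hu.2.trans htT.2⟩
      have h1 := (C.tail n ⟨I.θ0, I.θT⟩ I.bel 0 hu').1
      have h2 := (C.tail n ⟨I.θ0, I.θT⟩ I.bel 1 hu').1
      have h1' := abs_le.mp h1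
      have h2' := abs_le.mp h2
      have h3 := C.b_nonneg (n + 1) u huT
      have h4 := C.g1 (n + 1) u huT
      have h5 := C.f0 (n + 1)
      have h6 : a (n + 1) u - a (n + 1 + 1) u ≤ 2 * tau n := by
        have := h1'.2
        have := h2'.1
        simp only [Nat.add_zero] at *
        linarith
      have h7 : 0 ≤ kap (n + 1) * b (n + 1) u := by positivity
      nlinarith [mul_nonneg h5 h3])
  rw [C.b1, zero_add] at h
  have hn : (0 : ℝ) ≤ n := Nat.cast_nonneg n
  have h1 : 2 * kap (n + 1) * tau n * (t - 0) ≤ 1 := by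
    have h2 := tau_le n
    have h3 := kap_le n
    have h4 := TT_le
    have h5 : (64 : ℝ) ≤ Real.exp 5 := by
      have := exp_ge 5
      push_cast at this
      refine le_trans ?_ this
      norm_num
    have h6 : t - 0 ≤ TT := by linarith [htT.2]
    have h7 := Lam_ge n
    have h8 := kap_pos n
    have h9 := TT_pos
    rw [kap_succ]
    calc 2 * (32 * kap n) * tau n * (t - 0) ≤ 2 * (32 * kap n) * tau n * TT := by gcongr
      _ = 64 * kap n * tau n * TT := by ring
      _ ≤ Real.exp 5 * Real.exp (4 * n) * Real.exp (-(9 / 10) * Lam n) * Real.exp 13 := by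
          gcongr
      _ = Real.exp (5 + 4 * n + -(9 / 10) * Lam n + 13) := by
          rw [Real.exp_add (5 + 4 * n + -(9 / 10) * Lam n), Real.exp_add (5 + 4 * (n : ℝ)),
            Real.exp_add 5]
      _ ≤ Real.exp 0 := by
          apply Real.exp_le_exp.mpr
          linarith
      _ = 1 := Real.exp_zero
  have h2 := sixteen_gg_TT (n + 1)
  have h3 := gg_pos (n + 1)
  calc b (n + 1) t ≤ Real.exp (2 * kap (n + 1) * tau n * (t - 0))
        * (16 * gg (n + 1) * (t - 0)) := h
    _ ≤ Real.exp 1 * (16 * gg (n + 1) * TT) := by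
        have h6 : t - 0 ≤ TT := by linarith [htT.2]
        have h7 : 0 ≤ t - 0 := by linarith [ht.1]
        gcongr
    _ ≤ Real.exp 1 * Real.exp (16 - Lam (n + 1)) := by gcongr
    _ = Real.exp (17 - Lam (n + 1)) := by rw [← Real.exp_add]; ring_nf

/-- the bound for the derivative of `b (n + 1)` from above -/
theorem Win.w_up (C : Chain a b e f γ K) (W : Win a b n θ te) {u : ℝ} (hu : u ∈ Icc θ te) :
    -(f (n + 1)) * b (n + 1) u + kap (n + 1) * b (n + 1) u * (a (n + 1) u - a (n + 1 + 1) u)
      + γ (n + 1) u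
      ≤ 32 * kap n * b (n + 1) u * (a (n + 1) u + eta n / 100) + 16 * gg (n + 1) := by
  have hu' := W.mem hu
  have h1 := abs_le.mp (W.z C (t := u) ⟨W.I.θ0.trans hu.1, hu.2⟩)
  have h2 := C.b_nonneg (n + 1) u hu'
  have h3 := C.g1 (n + 1) u hu'
  have h4 := C.f0 (n + 1)
  have hk := kap_pos n
  rw [kap_succ]
  have h5 : 32 * kap n * b (n + 1) u * (a (n + 1) u - a (n + 1 + 1) u)
      ≤ 32 * kap n * b (n + 1) u * (a (n + 1) u + eta n / 100) := by
    gcongr
    linarith [h1.1]
  nlinarith [mul_nonneg h4 h2]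

/-- Phase 1. -/
theorem Win.w1 (C : Chain a b e f γ K) (W : Win a b n θ te) {t : ℝ} (ht : t ∈ Icc θ te)
    (h8 : ∀ u ∈ Icc θ t, a (n + 1) u ≤ 1 / 8) :
    kap n * (t - θ) ≤ 84 / 100 * Lam n ∧ b (n + 1) t ≤ Real.exp (50 - Lam (n + 1)) := by
  have hk := kap_pos n
  have hη := eta_pos n
  have hη1 := eta_small n
  have hA := A_ge W.I
  have hm := W.main C
  have T := (W.tri C).mono le_rfl ht.2 ht.1
  have hsub : ∀ u ∈ Icc θ t, u ∈ Icc θ te := fun u hu => ⟨hu.1, hu.2.trans ht.2⟩
  have hwin : kap n * (t - θ) ≤ DD n := by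
    refine le_trans ?_ W.win
    gcongr
    exact ht.2
  obtain ⟨p1, p2, p3⟩ := T.phase1 (A := a n θ) (η := eta n) (δ := del n) (D := DD n) hwin
    (by linarith) hη (by linarith) (del_pos n).le (by have := del_le n; linarith) (del_DD n)
    (fun u hu => W.b2' C u (hsub u hu)) (fun u hu => W.b3 C u (hsub u hu))
    (fun u hu => hm.1 u (hsub u hu)) ((W.y0 C).trans (tau_le_eta n)) h8
  have hn : (0 : ℝ) ≤ n := Nat.cast_nonneg n
  constructor
  · have h1 := p1 t ⟨ht.1, le_rfl⟩
    have h2 := T.bs t ⟨ht.1, le_rfl⟩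
    rw [W.I.hit] at h1
    unfold bet at h1
    rw [← Real.exp_add] at h1
    have h3 : Real.exp (3 / 5 * kap n * (t - θ) + -Lam n / 2) ≤ Real.exp 1 := by
      have := e27
      linarith
    have h4 := Real.exp_le_exp.mp h3
    have h5 := Lam_ge n
    linarith
  · -- the function v
    have hd : ∀ u ∈ Icc θ t, HasDerivWithinAt
        (fun u => b (n + 1) u * Real.exp (-23 * b n u ^ 2))
        ((-(f (n + 1)) * b (n + 1) u
            + kap (n + 1) * b (n + 1) u * (a (n + 1) u - a (n + 1 + 1) u) + γ (n + 1) u)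
            * Real.exp (-23 * b n u ^ 2)
          + b (n + 1) u * (Real.exp (-23 * b n u ^ 2)
            * (-23 * (2 * b n u * (kap n * b n u * (a n u - a (n + 1) u)
              + (-(f n) * b n u + γ n u)))))) (Icc θ t) u := by
      intro u hu
      have h1 := deriv_mono (C.db (n + 1)) W.I.θ0 (ht.2.trans W.leT) u hu
      have h2 := (((T.ds u hu).pow 2).const_mul (-23)).exp
      refine (h1.mul h2).congr_deriv ?_
      simp only [Nat.cast_ofNat, Nat.add_one_sub_one, pow_one, Pi.pow_apply]
    have hv := gron_up (a := θ) (b := t) (c := 4 * eta n * kap n) (Γ := 16 * gg (n + 1)) ht.1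
      (by positivity) (by have := gg_pos (n + 1); positivity) hd (fun u hu => by
        have hu' := hsub u hu
        have h1 := W.w_up C hu'
        have h2 := p2 u hu
        have h3 := p3 u hu
        have h4 := C.b_nonneg (n + 1) u (W.mem hu')
        have h5 := C.b_nonneg n u (W.mem hu')
        set E := Real.exp (-23 * b n u ^ 2) with hE
        have hE0 : 0 < E := Real.exp_pos _
        have hE1 : E ≤ 1 := by
          rw [hE, Real.exp_le_one_iff]
          nlinarith [sq_nonneg (b n u)]
        have h6 : 3 / 5 * kap n * b n u ^ 2 ≤ b n u * (kap n * b n u * (a n u - a (n + 1) u)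
              + (-(f n) * b n u + γ n u)) := by
          calc 3 / 5 * kap n * b n u ^ 2 = b n u * (3 / 5 * kap n * b n u) := by ring
            _ ≤ _ := by gcongr
        have h7 : 32 * kap n * b (n + 1) u * (a (n + 1) u + eta n / 100)
            ≤ 32 * kap n * b (n + 1) u * (5 / 6 * b n u ^ 2 + eta n / 10 + eta n / 100) := by
          gcongr
        have h8' : 0 ≤ kap n * b (n + 1) u * b n u ^ 2 := by positivity
        have h9 : 0 ≤ kap n * b (n + 1) u * eta n := by positivity
        have h10 : -(f (n + 1)) * b (n + 1) u + kap (n + 1) * b (n + 1) u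
            * (a (n + 1) u - a (n + 1 + 1) u) + γ (n + 1) u
            + b (n + 1) u * (-23 * (2 * (3 / 5 * kap n * b n u ^ 2)))
            ≤ 4 * eta n * kap n * b (n + 1) u + 16 * gg (n + 1) := by
          nlinarith
        have h11 : b (n + 1) u * (-23 * (2 * b n u * (kap n * b n u * (a n u - a (n + 1) u)
              + (-(f n) * b n u + γ n u))))
            ≤ b (n + 1) u * (-23 * (2 * (3 / 5 * kap n * b n u ^ 2))) := by
          apply mul_le_mul_of_nonneg_left _ h4
          linarith
        have h12 := gg_pos (n + 1)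
        calc _ = E * (-(f (n + 1)) * b (n + 1) u + kap (n + 1) * b (n + 1) u
              * (a (n + 1) u - a (n + 1 + 1) u) + γ (n + 1) u
              + b (n + 1) u * (-23 * (2 * b n u * (kap n * b n u * (a n u - a (n + 1) u)
              + (-(f n) * b n u + γ n u))))) := by ring
          _ ≤ E * (4 * eta n * kap n * b (n + 1) u + 16 * gg (n + 1)) :=
              mul_le_mul_of_nonneg_left (by linarith) hE0.le
          _ = 4 * eta n * kap n * (b (n + 1) u * E) + E * (16 * gg (n + 1)) := by ring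
          _ ≤ 4 * eta n * kap n * (b (n + 1) u * E) + 1 * (16 * gg (n + 1)) := by gcongr
          _ = _ := by ring)
    have h1 : 4 * eta n * kap n * (t - θ) ≤ 1 := by
      have h2 := eta_DD n
      have h3 : 4 * eta n * kap n * (t - θ) = 4 * (eta n * (kap n * (t - θ))) := by ring
      rw [h3]
      have h4 : eta n * (kap n * (t - θ)) ≤ eta n * DD n := by gcongr
      linarith
    have h2 : b (n + 1) θ * Real.exp (-23 * b n θ ^ 2) ≤ Real.exp (17 - Lam (n + 1)) := by
      have h3 := W.I.quiet C (t := θ) ⟨W.I.θ0, le_rfl⟩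
      have h4 := C.b_nonneg (n + 1) θ (W.mem ⟨le_rfl, W.le⟩)
      have h5 : Real.exp (-23 * b n θ ^ 2) ≤ 1 := by
        rw [Real.exp_le_one_iff]
        nlinarith [sq_nonneg (b n θ)]
      nlinarith
    have h3 : 16 * gg (n + 1) * (t - θ) ≤ Real.exp (17 - Lam (n + 1)) := by
      have h4 : t - θ ≤ TT := by
        have := W.I.θ0
        have := ht.2.trans W.leT
        linarith
      have h5 := sixteen_gg_TT (n + 1)
      have h6 := gg_pos (n + 1)
      calc 16 * gg (n + 1) * (t - θ) ≤ 16 * gg (n + 1) * TT := by gcongr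
        _ ≤ Real.exp (16 - Lam (n + 1)) := h5
        _ ≤ _ := by
            apply Real.exp_le_exp.mpr
            linarith
    have h4 : b (n + 1) t * Real.exp (-23 * b n t ^ 2) ≤ Real.exp 1
        * (Real.exp (17 - Lam (n + 1)) + Real.exp (17 - Lam (n + 1))) := by
      refine hv.trans ?_
      have h5 := C.b_nonneg (n + 1) θ (W.mem ⟨le_rfl, W.le⟩)
      have h6 : 0 ≤ 16 * gg (n + 1) * (t - θ) := by
        have := gg_pos (n + 1)
        have : 0 ≤ t - θ := by linarith [ht.1]
        positivity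
      gcongr
    have h5 : b n t ^ 2 ≤ 103 / 100 := by
      have h6 := T.bs t ⟨ht.1, le_rfl⟩
      have h7 := T.s0 t ⟨ht.1, le_rfl⟩
      nlinarith
    have h6 := C.b_nonneg (n + 1) t (W.mem ht)
    calc b (n + 1) t = b (n + 1) t * Real.exp (-23 * b n t ^ 2) * Real.exp (23 * b n t ^ 2) := by
          rw [mul_assoc, ← Real.exp_add]; simp
      _ ≤ Real.exp 1 * (Real.exp (17 - Lam (n + 1)) + Real.exp (17 - Lam (n + 1)))
            * Real.exp 24 := by
          gcongr
          linarith
      _ = 2 * (Real.exp 1 * Real.exp (17 - Lam (n + 1)) * Real.exp 24) := by ring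
      _ ≤ Real.exp 1 * (Real.exp 1 * Real.exp (17 - Lam (n + 1)) * Real.exp 24) := by
          have := e27
          gcongr
          linarith
      _ = Real.exp (1 + (1 + (17 - Lam (n + 1)) + 24)) := by
          rw [Real.exp_add 1, Real.exp_add (1 + (17 - Lam (n + 1))), Real.exp_add 1]
      _ ≤ _ := by
          apply Real.exp_le_exp.mpr
          linarith

/-- Phase 2, the bound from below for `a (n + 1)`. -/
theorem Win.w2 (C : Chain a b e f γ K) (W : Win a b n θ te) {t1 : ℝ} (ht : t1 ∈ Icc θ te)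
    (h8 : a (n + 1) t1 = 1 / 8) : ∀ t ∈ Icc t1 te,
    a n θ - 3 * eta n - Real.exp (-(kap n / 4) * (t - t1)) ≤ a (n + 1) t := by
  have hη := eta_pos n
  have hη1 := eta_small n
  have hA := A_ge W.I
  have hm := W.main C
  have hA2 := (abs_le.mp (C.ba n (W.mem ⟨le_rfl, W.le⟩))).2
  have T := (W.tri C).mono ht.1 le_rfl ht.2
  exact T.phase2 (A := a n θ) (η := eta n) (δ := del n) (by linarith) (by linarith) hη
    (by linarith) (del_le n)
    (fun u hu => W.b3 C u ⟨ht.1.trans hu.1, hu.2⟩)
    (fun u hu => hm.1 u ⟨ht.1.trans hu.1, hu.2⟩) (fun u hu => hm.2 u ⟨ht.1.trans hu.1, hu.2⟩) h8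

/-- The growth of `b (n + 1)` is at most exponential. -/
theorem Win.w3 (C : Chain a b e f γ K) (W : Win a b n θ te) {t1 t : ℝ} (ht1 : t1 ∈ Icc θ te)
    (ht : t ∈ Icc t1 te) : b (n + 1) t ≤ Real.exp (33 * kap n * (t - t1))
      * (b (n + 1) t1 + Real.exp (16 - Lam (n + 1))) := by
  have hk := kap_pos n
  have hη1 := eta_small n
  have h := gron_up (f := b (n + 1)) (a := t1) (b := t) (c := 33 * kap n)
    (Γ := 16 * gg (n + 1)) ht.1 (by positivity) (by have := gg_pos (n + 1); positivity)
    (deriv_mono (C.db (n + 1)) (W.I.θ0.trans ht1.1) (ht.2.trans W.leT)) (fun u hu => by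
      have hu' : u ∈ Icc θ te := ⟨ht1.1.trans hu.1, hu.2.trans ht.2⟩
      have h1 := W.w_up C hu'
      have h2 := (abs_le.mp (C.ba (n + 1) (W.mem hu'))).2
      have h3 := C.b_nonneg (n + 1) u (W.mem hu')
      have h4 : 0 ≤ kap n * b (n + 1) u := by positivity
      have h5 : 32 * kap n * b (n + 1) u * (a (n + 1) u + eta n / 100)
          ≤ 33 * kap n * b (n + 1) u := by nlinarith
      linarith)
  refine h.trans ?_
  have h4 : t - t1 ≤ TT := by
    have := W.I.θ0
    have := ht1.1
    have := ht.2.trans W.leT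
    linarith
  have h5 := sixteen_gg_TT (n + 1)
  have h6 := gg_pos (n + 1)
  have h7 : 16 * gg (n + 1) * (t - t1) ≤ Real.exp (16 - Lam (n + 1)) := by
    calc 16 * gg (n + 1) * (t - t1) ≤ 16 * gg (n + 1) * TT := by gcongr
      _ ≤ _ := h5
  gcongr

noncomputable def GG (n : ℕ) : ℝ := 120 + n

theorem eta_GG (n : ℕ) : Real.exp (-(1 / 4) * GG n) = eta n := by
  unfold eta GG
  ring_nf

/-- `b (n + 1)` is small up to the end of phase 2. -/
theorem Win.w4 (C : Chain a b e f γ K) (W : Win a b n θ te) {t1 t : ℝ} (ht1 : t1 ∈ Icc θ te)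
    (ht : t ∈ Icc t1 te) (h8 : ∀ u ∈ Icc θ t1, a (n + 1) u ≤ 1 / 8)
    (hG : kap n * (t - t1) ≤ GG n) : b (n + 1) t ≤ Real.exp (-(3 / 4) * Lam (n + 1)) := by
  have h1 := W.w3 C ht1 ht
  have h2 := (W.w1 C ht1 h8).2
  have hn : (0 : ℝ) ≤ n := Nat.cast_nonneg n
  have h3 : 33 * kap n * (t - t1) ≤ 33 * GG n := by linarith
  have h4 := Lam_ge (n + 1)
  push_cast at h4
  calc b (n + 1) t ≤ Real.exp (33 * kap n * (t - t1))
      * (b (n + 1) t1 + Real.exp (16 - Lam (n + 1))) := h1
    _ ≤ Real.exp (33 * GG n) * (Real.exp (50 - Lam (n + 1)) + Real.exp (50 - Lam (n + 1))) := by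
        have h5 := C.b_nonneg (n + 1) t1 (W.mem ht1)
        have h6 : 0 < Real.exp (16 - Lam (n + 1)) := Real.exp_pos _
        gcongr
        norm_num
    _ = 2 * (Real.exp (33 * GG n) * Real.exp (50 - Lam (n + 1))) := by ring
    _ ≤ Real.exp 1 * (Real.exp (33 * GG n) * Real.exp (50 - Lam (n + 1))) := by
        have := e27
        gcongr
        linarith
    _ = Real.exp (1 + (33 * GG n + (50 - Lam (n + 1)))) := by
        rw [Real.exp_add 1, Real.exp_add (33 * GG n)]
    _ ≤ _ := by
        apply Real.exp_le_exp.mpr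
        unfold GG
        linarith

/-- The end of phase 1 exists, if it is not too early. -/
theorem Win.t1 (C : Chain a b e f γ K) (W : Win a b n θ te)
    (h : ∃ u ∈ Icc θ te, 1 / 8 < a (n + 1) u) :
    ∃ t1 ∈ Icc θ te, a (n + 1) t1 = 1 / 8 ∧ ∀ u ∈ Icc θ t1, a (n + 1) u ≤ 1 / 8 := by
  obtain ⟨u, hu, h1⟩ := h
  have hη1 := eta_small n
  have h2 := abs_le.mp ((W.y0 C).trans (tau_le_eta n))
  obtain ⟨t1, h3, h4, h5⟩ := first_hit (f := a (n + 1)) (a := θ) (b := u) (c := 1 / 8) hu.1
    (contOn (deriv_mono (C.da (n + 1)) W.I.θ0 (hu.2.trans W.leT)))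
    (by linarith [h2.2]) h1.le
  exact ⟨t1, ⟨h3.1, h3.2.trans hu.2⟩, h4, h5⟩

theorem Inv.quiet' (C : Chain a b e f γ K) (I : Inv a b n θ) {t : ℝ} (ht : t ∈ Icc 0 θ) :
    b (n + 1) t ≤ bet (n + 1) := by
  refine (I.quiet C ht).trans ?_
  unfold bet
  apply Real.exp_le_exp.mpr
  have h := Lam_ge (n + 1)
  have hn : (0 : ℝ) ≤ n := Nat.cast_nonneg n
  push_cast at h
  linarith

/-- The threshold of the next mode is reached. -/
theorem exists_hit (C : Chain a b e f γ K) (I : Inv a b n θ) :
    ∃ t ∈ Icc θ (θ + DD n / kap n), bet (n + 1) ≤ b (n + 1) t := by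
  by_contra hno
  push Not at hno
  have hk := kap_pos n
  have hn : (0 : ℝ) ≤ n := Nat.cast_nonneg n
  have hD0 : 0 < DD n := by have := one_le_DD n; linarith
  have hle : θ ≤ θ + DD n / kap n := by
    have : 0 < DD n / kap n := by positivity
    linarith
  have hT : θ + DD n / kap n ≤ TT := by
    have h1 := I.θ1
    have h2 := window n
    have h3 := TT_pos
    have h4 : (0 : ℝ) < (1 / 8) ^ (n + 1) := by positivity
    nlinarith
  have hwin : kap n * (θ + DD n / kap n - θ) = DD n := by
    field_simp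
    ring
  have W : Win a b n θ (θ + DD n / kap n) := ⟨I, hle, hT, hwin.le, fun t ht => by
    rcases le_total t θ with h | h
    · exact I.quiet' C ⟨ht.1, h⟩
    · exact (hno t ⟨h, ht.2⟩).le⟩
  have hL := Lam_ge n
  obtain ⟨t1, ht1, h1, h2⟩ := W.t1 C (by
    by_contra hcon
    push Not at hcon
    have h3 := (W.w1 C ⟨hle, le_rfl⟩ hcon).1
    rw [hwin] at h3
    unfold DD at h3
    linarith)
  have h3 := (W.w1 C ht1 h2).1
  set te := θ + DD n / kap n with hte
  set t2 := t1 + GG n / kap n with ht2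
  have hG : 0 < GG n := by unfold GG; positivity
  have h4 : kap n * (te - t2) = DD n - kap n * (t1 - θ) - GG n := by
    rw [hte, ht2]
    field_simp
    ring
  have h5 : Lam n ≤ kap n * (te - t2) := by
    rw [h4]
    unfold DD GG
    linarith
  have h6 : t2 ≤ te := by
    by_contra hcon
    push Not at hcon
    nlinarith
  have h7 : t1 ≤ t2 := by
    have : 0 < GG n / kap n := by positivity
    linarith
  have hη := eta_pos n
  have hη1 := eta_small n
  have hA := A_ge I
  -- lower bound for a (n+1) after t2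
  have h8 : ∀ t ∈ Icc t2 te, 9 / 10 ≤ a (n + 1) t := by
    intro t ht
    have h9 := W.w2 C ht1 h1 t ⟨h7.trans ht.1, ht.2⟩
    have h10 : Real.exp (-(kap n / 4) * (t - t1)) ≤ eta n := by
      rw [← eta_GG]
      apply Real.exp_le_exp.mpr
      have h11 : GG n ≤ kap n * (t - t1) := by
        have h12 : kap n * (t2 - t1) = GG n := by
          rw [ht2]; field_simp; ring
        rw [← h12]
        gcongr
        exact ht.1
      linarith
    linarith
  have h9 := gron_low (f := b (n + 1)) (a := t2) (b := te) (c := 20 * kap n) h6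
    (deriv_mono (C.db (n + 1)) (I.θ0.trans (ht1.1.trans h7)) W.leT) (fun u hu => by
      have hu' : u ∈ Icc θ te := ⟨ht1.1.trans (h7.trans hu.1), hu.2⟩
      have k1 := h8 u hu
      have k2 := abs_le.mp (W.z C (t := u) ⟨I.θ0.trans hu'.1, hu'.2⟩)
      have k3 := C.b_nonneg (n + 1) u (W.mem hu')
      have k4 := C.g0 (n + 1) u (W.mem hu')
      have k5 := f_le C (n + 1)
      have k6 := gg_pos (n + 1)
      rw [kap_succ] at k5 ⊢
      have k7 : 32 * kap n * b (n + 1) u * (88 / 100)
          ≤ 32 * kap n * b (n + 1) u * (a (n + 1) u - a (n + 1 + 1) u) := by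
        gcongr
        linarith [k2.2]
      have k8 : f (n + 1) * b (n + 1) u ≤ 32 * kap n / 10 * b (n + 1) u := by gcongr
      have k9 : 0 ≤ kap n * b (n + 1) u := by positivity
      nlinarith)
  have h10 := C.floor (n + 1) (t := t2) (W.mem ⟨ht1.1.trans h7, h6⟩) (by
    have k1 : kap n * (t2 - t1) = GG n := by
      rw [ht2]; field_simp; ring
    have k2 : 0 ≤ t1 := I.θ0.trans ht1.1
    rw [kap_succ]
    have k3 : kap n * t2 = GG n + kap n * t1 := by linarith
    have k4 : 0 ≤ kap n * t1 := by positivity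
    have k5 : 1 ≤ GG n := by unfold GG; linarith
    linarith)
  have h11 : Real.exp (-Lam (n + 1) - (7 + 4 * n)) ≤ gg (n + 1) / (10 * kap (n + 1)) := by
    have k1 := kap_le (n + 1)
    have k2 : (10 : ℝ) ≤ Real.exp 3 := by
      have := exp_ge 3
      push_cast at this
      refine le_trans ?_ this
      norm_num
    have k3 := kap_pos (n + 1)
    rw [Real.exp_sub]
    unfold gg
    have k4 : 10 * kap (n + 1) ≤ Real.exp (7 + 4 * n) := by
      have : Real.exp (7 + 4 * (n : ℝ)) = Real.exp 3 * Real.exp (4 * ((n + 1 : ℕ) : ℝ)) := by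
        rw [← Real.exp_add]; push_cast; ring_nf
      rw [this]
      gcongr
    gcongr
  have h12 : bet (n + 1) ≤ b (n + 1) te := by
    calc bet (n + 1) = Real.exp (-Lam (n + 1) / 2) := rfl
      _ ≤ Real.exp (20 * Lam n + (-Lam (n + 1) - (7 + 4 * n))) := by
          apply Real.exp_le_exp.mpr
          have := Lam_succ n
          linarith
      _ = Real.exp (20 * Lam n) * Real.exp (-Lam (n + 1) - (7 + 4 * n)) := by rw [Real.exp_add]
      _ ≤ Real.exp (20 * kap n * (te - t2)) * b (n + 1) t2 := by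
          have k5 : 20 * Lam n ≤ 20 * kap n * (te - t2) := by linarith
          have k6 := h11.trans h10
          gcongr
      _ ≤ b (n + 1) te := h9
  exact absurd (hno te ⟨hle, le_rfl⟩) (not_lt.mpr h12)

/-- The induction step. -/
theorem step (C : Chain a b e f γ K) (I : Inv a b n θ) : ∃ θ', Inv a b (n + 1) θ' := by
  obtain ⟨ts, hts, hts'⟩ := exists_hit C I
  have hk := kap_pos n
  have hn : (0 : ℝ) ≤ n := Nat.cast_nonneg n
  have hT : θ + DD n / kap n ≤ TT * (1 - (1 / 8) ^ (n + 1)) := by
    have h1 := I.θ1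
    have h2 := window n
    linarith
  have hT' : TT * (1 - (1 / 8) ^ (n + 1)) ≤ TT := by
    have h3 := TT_pos
    have h4 : (0 : ℝ) < (1 / 8) ^ (n + 1) := by positivity
    nlinarith
  obtain ⟨te, hte, h1, h2⟩ := first_hit (f := b (n + 1)) (a := θ) (b := ts) (c := bet (n + 1))
    hts.1 (contOn (deriv_mono (C.db (n + 1)) I.θ0 (hts.2.trans (hT.trans hT'))))
    (I.quiet' C ⟨I.θ0, le_rfl⟩) hts'
  have hteD : te ≤ θ + DD n / kap n := hte.2.trans hts.2
  have hbel : ∀ t ∈ Icc 0 te, b (n + 1) t ≤ bet (n + 1) := by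
    intro t ht
    rcases le_total t θ with h | h
    · exact I.quiet' C ⟨ht.1, h⟩
    · exact h2 t ⟨h, ht.2⟩
  have W : Win a b n θ te := ⟨I, hte.1, hteD.trans (hT.trans hT'), by
    have h3 : kap n * (te - θ) ≤ kap n * (DD n / kap n) := by
      gcongr
      linarith
    refine h3.trans (le_of_eq ?_)
    field_simp, hbel⟩
  have hL := Lam_ge (n + 1)
  push_cast at hL
  have hbet : bet (n + 1) = Real.exp (-Lam (n + 1) / 2) := rfl
  obtain ⟨t1, ht1, h3, h4⟩ := W.t1 C (by
    by_contra hcon
    push Not at hcon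
    have h3 := (W.w1 C ⟨hte.1, le_rfl⟩ hcon).2
    rw [h1, hbet] at h3
    have := Real.exp_le_exp.mp h3
    linarith)
  have hG0 : 0 < GG n := by unfold GG; positivity
  have h5 : GG n < kap n * (te - t1) := by
    by_contra hcon
    push Not at hcon
    have h6 := W.w4 C ht1 ⟨ht1.2, le_rfl⟩ h4 hcon
    rw [h1, hbet] at h6
    have := Real.exp_le_exp.mp h6
    linarith
  set t2 := t1 + GG n / kap n with ht2
  have h12 : kap n * (t2 - t1) = GG n := by
    rw [ht2]; field_simp; ring
  have h6 : t2 ≤ te := by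
    by_contra hcon
    push Not at hcon
    nlinarith
  have h7 : t1 ≤ t2 := by
    have : 0 < GG n / kap n := by positivity
    linarith
  have hη := eta_pos n
  have hη1 := eta_small n
  have hA := A_ge I
  have h8 : ∀ t ∈ Icc t2 te, a n θ - 4 * eta n ≤ a (n + 1) t := by
    intro t ht
    have h9 := W.w2 C ht1 h3 t ⟨h7.trans ht.1, ht.2⟩
    have h10 : Real.exp (-(kap n / 4) * (t - t1)) ≤ eta n := by
      rw [← eta_GG]
      apply Real.exp_le_exp.mpr
      have h11 : GG n ≤ kap n * (t - t1) := by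
        rw [← h12]
        gcongr
        exact ht.1
      linarith
    linarith
  refine ⟨te, I.θ0.trans hte.1, hteD.trans hT, h1, hbel, ?_, ?_⟩
  · have h9 := h8 te ⟨h6, le_rfl⟩
    have h10 := I.low
    have h11 := eta_le n
    have h13 : (0 : ℝ) < (4 / 5) ^ n := by positivity
    rw [pow_succ (4 / 5 : ℝ) n]
    nlinarith
  · intro m hm
    obtain rfl : n = m := by omega
    have ht2m : t2 ∈ Icc θ te := ⟨ht1.1.trans h7, h6⟩
    have h9 := W.w3 C ht2m ⟨h6, le_rfl⟩
    have h10 := W.w4 C ht1 ⟨h7, h6⟩ h4 h12.le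
    have h11 : Real.exp (-Lam (n + 1) / 2) ≤ Real.exp (33 * kap n * (te - t2) +
        (1 + -(3 / 4) * Lam (n + 1))) := by
      calc Real.exp (-Lam (n + 1) / 2) = b (n + 1) te := by rw [h1, hbet]
        _ ≤ Real.exp (33 * kap n * (te - t2))
            * (b (n + 1) t2 + Real.exp (16 - Lam (n + 1))) := h9
        _ ≤ Real.exp (33 * kap n * (te - t2)) * (Real.exp (-(3 / 4) * Lam (n + 1))
            + Real.exp (-(3 / 4) * Lam (n + 1))) := by
            have : Real.exp (16 - Lam (n + 1)) ≤ Real.exp (-(3 / 4) * Lam (n + 1)) := by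
              apply Real.exp_le_exp.mpr
              linarith
            gcongr
        _ = Real.exp (33 * kap n * (te - t2)) * (2 * Real.exp (-(3 / 4) * Lam (n + 1))) := by
            ring
        _ ≤ Real.exp (33 * kap n * (te - t2)) * (Real.exp 1
            * Real.exp (-(3 / 4) * Lam (n + 1))) := by
            have := e27
            gcongr
            linarith
        _ = _ := by rw [Real.exp_add, Real.exp_add 1]
    have h13 := Real.exp_le_exp.mp h11
    have h14 : Lam (n + 1) / 140 ≤ kap n * (te - t2) := by linarith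
    have hm' := W.main C
    have h15 := gron_down (f := b n) (a := t2) (b := te) (c := 3 / 4 * kap n) (Γ := 16 * gg n)
      h6 (by positivity) (by have := gg_pos n; positivity)
      (deriv_mono (C.db n) (I.θ0.trans ht2m.1) W.leT) (fun u hu => by
        have hu' : u ∈ Icc θ te := ⟨ht2m.1.trans hu.1, hu.2⟩
        have k1 := h8 u hu
        have k2 := (abs_le.mp (hm'.1 u hu')).2
        have k3 := C.b_nonneg n u (W.mem hu')
        have k4 := C.g1 n u (W.mem hu')
        have k5 := C.f0 n
        have k6 : a n u - a (n + 1) u ≤ -(3 / 4) := by linarith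
        have k7 : 0 ≤ kap n * b n u := by positivity
        nlinarith [mul_nonneg k5 k3])
    have k1 : Real.exp (-(3 / 4 * kap n) * (te - t2)) ≤ Real.exp (-(1 / 187) * Lam (n + 1)) := by
      apply Real.exp_le_exp.mpr
      have : 0 ≤ Lam (n + 1) := by linarith
      linarith
    have k2 := (le_abs_self _).trans (C.bb n (W.mem ht2m))
    have k3 := C.b_nonneg n t2 (W.mem ht2m)
    have k4 : 16 * gg n / (3 / 4 * kap n) ≤ Real.exp (4 - Lam n) := by
      have k5 := one_le_kap n
      have k6 : (64 / 3 : ℝ) ≤ Real.exp 4 := by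
        have := exp_ge 4
        push_cast at this
        refine le_trans ?_ this
        norm_num
      have k7 := gg_pos n
      rw [div_le_iff₀ (by positivity)]
      have k8 : Real.exp (4 - Lam n) = Real.exp 4 * gg n := by
        unfold gg
        rw [← Real.exp_add]
        ring_nf
      rw [k8]
      calc 16 * gg n = 64 / 3 * gg n * (3 / 4 * 1) := by ring
        _ ≤ Real.exp 4 * gg n * (3 / 4 * kap n) := by gcongr
    have k5 : Real.exp (4 - Lam n) ≤ Real.exp (-(1 / 240) * Lam (n + 1) + -1) := by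
      apply Real.exp_le_exp.mpr
      have := Lam_succ n
      have := Lam_ge n
      linarith
    have k6 : Real.exp (-(1 / 187) * Lam (n + 1)) * (101 / 100)
        ≤ Real.exp (-(1 / 240) * Lam (n + 1) + -1) := by
      calc Real.exp (-(1 / 187) * Lam (n + 1)) * (101 / 100)
          ≤ Real.exp (-(1 / 187) * Lam (n + 1)) * Real.exp 1 := by
            have := e27
            gcongr
            linarith
        _ = Real.exp (-(1 / 187) * Lam (n + 1) + 1) := by rw [Real.exp_add]
        _ ≤ _ := by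
            apply Real.exp_le_exp.mpr
            linarith
    have k7 : Real.exp (-1) ≤ 1 / 2 := by
      rw [Real.exp_neg, ← one_div]
      apply one_div_le_one_div_of_le (by norm_num)
      have := Real.add_one_le_exp (1 : ℝ)
      linarith
    calc b n te ≤ Real.exp (-(3 / 4 * kap n) * (te - t2)) * b n t2
          + 16 * gg n / (3 / 4 * kap n) := h15
      _ ≤ Real.exp (-(1 / 187) * Lam (n + 1)) * (101 / 100) + Real.exp (4 - Lam n) := by
          gcongr
      _ ≤ Real.exp (-(1 / 240) * Lam (n + 1) + -1)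
          + Real.exp (-(1 / 240) * Lam (n + 1) + -1) := by gcongr
      _ = Real.exp (-(1 / 240) * Lam (n + 1)) * (2 * Real.exp (-1)) := by
          rw [Real.exp_add]; ring
      _ ≤ Real.exp (-(1 / 240) * Lam (n + 1)) * 1 := by
          gcongr
          linarith
      _ = _ := mul_one _

/-- The chain cannot be regular up to the time `TT`. -/
theorem chain_false (C : Chain a b e f γ K) : False := by
  have h : ∀ n, ∃ θ, Inv a b n θ := by
    intro n
    induction n with
    | zero =>
      refine ⟨0, le_rfl, by simp, C.b0, ?_, by simp [C.a0], ?_⟩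
      · intro t ht
        have : t = 0 := le_antisymm ht.2 ht.1
        rw [this, C.b0]
      · intro m hm
        omega
    | succ n ih =>
      obtain ⟨θ, I⟩ := ih
      exact step C I
  have hK : ∀ n : ℕ, (4 : ℝ) ^ n / 2 ≤ K := by
    intro n
    obtain ⟨θ, I⟩ := h n
    have h1 := A_ge I
    have h2 := C.ra n θ ⟨I.θ0, I.θT⟩
    have h3 : (1 : ℝ) / 2 ≤ |a n θ| := by
      refine le_trans ?_ (le_abs_self _)
      linarith
    have h4 : (0 : ℝ) < 4 ^ n := by positivity
    nlinarith
  obtain ⟨n, hn⟩ := pow_unbounded_of_one_lt (2 * K) (by norm_num : (1 : ℝ) < 4)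
  have := hK n
  linarith

end Pool.Agent.T2H10
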