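import Pool.Agent.T2H10.Clo
import Pool.Agent.T2H10.Step

/-!
Strong solutions in the span of a cradle are solutions of the chain of ordinary differential
equations; nonexistence of strong solutions for large data.
-/

set_option autoImplicit false
set_option linter.unusedSectionVars false
set_option maxHeartbeats 1000000

open MeasureTheory Set Filter Topology
open scoped InnerProductSpace ENNReal ContDiff NNReal

namespace Pool.Agent.T2H10

open H772R2.NS
open Pool.Agent.W795.TQ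
open H772R2.NSR (Frame prim_cont)

theorem ftc {x g : ℝ → ℝ} {T : ℝ} (hT : 0 ≤ T) (hg : ContinuousOn g (Icc 0 T))
    (h : ∀ t ∈ Icc 0 T, x t - x 0 = ∫ s in (0 : ℝ)..t, g s) :
    ∀ t ∈ Icc 0 T, HasDerivWithinAt x (g t) (Icc 0 T) t := by
  intro t ht
  set G : ℝ → ℝ := IccExtend hT ((Icc 0 T).domRestrict g) with hG
  have hGc : Continuous G := (continuousOn_iff_continuous_domRestrict.mp hg).Icc_extend'
  have hGe : ∀ s ∈ Icc 0 T, G s = g s := by
    intro s hs
    rw [hG, IccExtend_of_mem hT _ hs]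
    rfl
  have h1 : HasDerivAt (fun t => x 0 + ∫ s in (0 : ℝ)..t, G s) (G t) t :=
    (hGc.integral_hasStrictDerivAt 0 t).hasDerivAt.const_add (x 0)
  rw [hGe t ht] at h1
  refine h1.hasDerivWithinAt.congr_of_mem (fun s hs => ?_) ht
  have h2 : ∫ r in (0 : ℝ)..s, G r = ∫ r in (0 : ℝ)..s, g r := by
    refine intervalIntegral.integral_congr fun r hr => ?_
    rw [uIcc_of_le hs.1] at hr
    exact hGe r ⟨hr.1, hr.2.trans hs.2⟩
  rw [h2, ← h s hs]
  ring

theorem resc {x g : ℝ → ℝ} {S s A : ℝ} (hs : 0 < s)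
    (h : ∀ t ∈ Icc 0 (S / s), HasDerivWithinAt x (g t) (Icc 0 (S / s)) t) :
    ∀ t ∈ Icc 0 S, HasDerivWithinAt (fun t => x (t / s) / A) (g (t / s) / s / A) (Icc 0 S) t := by
  intro t ht
  have hmaps : MapsTo (fun t => t / s) (Icc 0 S) (Icc 0 (S / s)) := by
    intro r hr
    exact ⟨div_nonneg hr.1 hs.le, div_le_div_of_nonneg_right hr.2 hs.le⟩
  have h1 := h (t / s) (hmaps ht)
  have h2 : HasDerivWithinAt (fun t => t / s) (1 / s) (Icc 0 S) t :=
    ((hasDerivAt_id t).div_const s).hasDerivWithinAt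
  have h3 := (HasDerivWithinAt.comp t h1 h2 hmaps).div_const A
  have e : g (t / s) * (1 / s) / A = g (t / s) / s / A := by ring
  rw [e] at h3
  exact h3

variable {Ω : Set E3} {v : Md → E3 → E3} {k0 NP NS NZ w : ℝ}
variable {V : Md → L2V Ω} {J : Md → L2M Ω}

/-- the initial velocity -/
noncomputable def ini (v : Md → E3 → E3) : E3 → E3 :=
  v (.P 0) + bet 0 • v (.S 0) + v .Z

theorem gg0_small : gg 0 ≤ 1 / 10 ^ 30 := by
  have e : gg 0 = Real.exp (-100000) := by
    unfold gg Lam LL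
    norm_num
  rw [e, Real.exp_neg]
  have h1 : (10 : ℝ) ^ 30 ≤ Real.exp 100000 := by
    have h2 : (2 : ℝ) ≤ Real.exp 1 := by
      have := Real.add_one_le_exp (1 : ℝ)
      linarith
    have h3 : Real.exp 100000 = Real.exp 1 ^ 100000 := by
      rw [← Real.exp_nat_mul]
      norm_num
    rw [h3]
    calc (10 : ℝ) ^ 30 ≤ 2 ^ 100 := by norm_num
      _ ≤ 2 ^ 100000 := pow_le_pow_right₀ (by norm_num) (by norm_num)
      _ ≤ Real.exp 1 ^ 100000 := pow_le_pow_left₀ (by norm_num) h2 _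
  rw [one_div]
  exact inv_anti₀ (by positivity) h1

theorem bet0_sq : bet 0 ^ 2 = gg 0 := by
  unfold bet gg
  rw [← Real.exp_nat_mul]
  congr 1
  push_cast
  ring

theorem TT_eq : TT = 300000 := by
  unfold TT LL
  norm_num

theorem ini_il2' (C : Crad Ω v k0 NP NS NZ w) {f : E3 → E3} (hf : IsTest Ω f) :
    il2 (ini v) f = il2 (v (.P 0)) f + bet 0 * il2 (v (.S 0)) f
      + il2 (v .Z) f := by
  unfold ini
  rw [il2_add ((C.test _).add ((C.test _).smul _)) (C.test _) hf,
    il2_add (C.test _) ((C.test _).smul _) hf, il2_smul]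

theorem ini_il2 (C : Crad Ω v k0 NP NS NZ w) (i : Md) :
    il2 (ini v) (v i) = il2 (v (.P 0)) (v i) + bet 0 * il2 (v (.S 0)) (v i)
      + il2 (v .Z) (v i) := ini_il2' C (C.test i)

theorem ini_mem (v : Md → E3 → E3) : ini v ∈ Dv v := by
  unfold ini
  refine Submodule.add_mem _ (Submodule.add_mem _ ?_ (Submodule.smul_mem _ _ ?_)) ?_
  · exact Submodule.subset_span ⟨_, rfl⟩
  · exact Submodule.subset_span ⟨_, rfl⟩
  · exact Submodule.subset_span ⟨_, rfl⟩

theorem ini_sq (C : Crad Ω v k0 NP NS NZ w) :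
    il2 (ini v) (ini v) = 1 + bet 0 ^ 2 + w := by
  have hT := C.hD _ (ini_mem v)
  rw [ini_il2' C hT, il2_comm (v (.P 0)), il2_comm (v (.S 0)), il2_comm (v .Z), ini_il2 C,
    ini_il2 C, ini_il2 C]
  simp only [C.gram, nrm, reduceCtorEq, if_false, if_true]
  ring

/-- There is no strong solution up to the time `TT / (k0 A)` for large `A`. -/
theorem no_strong (K : Cls Ω v V J) (C : Crad Ω v k0 NP NS NZ w) (hΩ : IsOpen Ω) {ν A : ℝ}
    (hν : 0 < ν) (hA : 0 < A) (hA1 : ν * NP / (k0 * A) ≤ epsv) (hA2 : ν * NS / (k0 * A) ≤ epsv)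
    (hA3 : ν * NZ / (w * (k0 * A)) ≤ 1 / 10 ^ 6)
    {u u1 : ℝ → L2V Ω} {z z1 : ℝ → L2M Ω}
    (S : Str (clS Ω (Dv v) C.hD) tensL ν (TT / (k0 * A)) (fun _ => 0) u u1 z z1)
    (hu0 : u 0 =ᵐ[volume.restrict Ω] A • ini v) : False := by
  have hk := C.hk0
  have hw := C.w0
  have hNP := C.hNP
  have hNS := C.hNS
  have hNZ := C.hNZ
  set s : ℝ := k0 * A with hs
  have hs0 : 0 < s := by positivity
  set T : ℝ := TT / s with hTdef
  have hT0 : 0 < T := div_pos TT_pos hs0
  have hzc : ContinuousOn z (Icc 0 T) := prim_cont S.z1m S.pz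
  have huc : ContinuousOn u (Icc 0 T) := prim_cont S.u1m S.pu
  have htc : ContinuousOn (fun s => tensL (u s)) (Icc 0 T) :=
    (tensL_continuousOn hΩ.measurableSet).comp (f := fun s => (u s, z s)) (huc.prodMk hzc)
      (fun t ht => clS_le (S.mem t ht))
  set x : Md → ℝ → ℝ := fun i t => ⟪u t, V i⟫_ℝ with hx
  set g : Md → ℝ → ℝ := fun i t => ⟪(0 : L2M Ω) - ν • z t + tensL (u t), J i⟫_ℝ with hg
  have hgc : ∀ i, ContinuousOn (g i) (Icc 0 T) := fun i =>
    ((continuousOn_const.sub (hzc.const_smul ν)).add htc).inner continuousOn_const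
  have hder : ∀ i, ∀ t ∈ Icc 0 T, HasDerivWithinAt (x i) (g i t) (Icc 0 T) t := by
    intro i
    refine ftc hT0.le (hgc i) fun t ht => ?_
    have h1 := S.weak _ (K.memS C i) t ht
    rw [inner_sub_left] at h1
    exact h1
  have hgv : ∀ i, ∀ t ∈ Icc 0 T, g i t = -(ν * (grd NP NS NZ i / nrm w i)) * x i t
      + ⟪tensL (u t), J i⟫_ℝ := by
    intro i t ht
    have h1 := K.cH C i (S.mem t ht)
    simp only at h1
    simp only [hg, hx]
    rw [inner_add_left, inner_sub_left, inner_zero_left, real_inner_smul_left, h1]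
    ring
  -- initial values
  have hini : ∀ i, x i 0 = A * il2 (ini v) (v i) := by
    intro i
    have h1 := inner_il2 (C.test i) hu0 (K.V i)
    simp only [hx]
    rw [h1, il2_smul]
  -- energy
  have hu0n : ‖u 0‖ ^ 2 ≤ A ^ 2 * (1 + 1 / 10 ^ 6) := by
    have e1 : ‖u 0‖ ^ 2 = il2 (A • ini v) (A • ini v) := by
      rw [← real_inner_self_eq_norm_sq]
      exact inner_il2 (IsTest.smul A (C.hD _ (ini_mem v))) hu0 hu0
    have e2 : il2 (A • ini v) (A • ini v) = A ^ 2 * (1 + bet 0 ^ 2 + w) := by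
      rw [il2_smul, il2_comm, il2_smul, ini_sq C]
      ring
    rw [e1, e2]
    have h1 := C.hw2
    have h2 := gg0_small
    rw [bet0_sq]
    have : 1 + gg 0 + w ≤ 1 + 1 / 10 ^ 6 := by linarith
    exact mul_le_mul_of_nonneg_left this (by positivity)
  have hun : ∀ t ∈ Icc 0 T, ‖u t‖ ^ 2 ≤ A ^ 2 * (1 + 1 / 10 ^ 6) := by
    intro t ht
    have h1 := S.energy t ht
    have h2 : 0 ≤ ∫ s in (0 : ℝ)..t, ‖z s‖ ^ 2 :=
      intervalIntegral.integral_nonneg ht.1 fun s _ => by positivity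
    have h3 : ∫ s in (0 : ℝ)..t, ⟪(0 : L2M Ω), z s⟫_ℝ = 0 := by simp
    rw [h3] at h1
    have h4 : 0 ≤ ν * ∫ s in (0 : ℝ)..t, ‖z s‖ ^ 2 := mul_nonneg hν.le h2
    linarith
  have hmaps : ∀ t ∈ Icc 0 TT, t / s ∈ Icc 0 T := fun t ht =>
    ⟨div_nonneg ht.1 hs0.le, div_le_div_of_nonneg_right ht.2 hs0.le⟩
  have hTs : T = TT / s := rfl
  -- Bessel
  have hort : Orthonormal ℝ (fun q : Bool × ℕ => if q.1 then V (.P q.2) else V (.S q.2)) := by
    rw [orthonormal_iff_ite]
    rintro ⟨b, n⟩ ⟨c, m⟩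
    rcases b <;> rcases c <;> simp [K.gram C, nrm]
  have hbes : ∀ n, ∀ t ∈ Icc 0 T, x (.P n) t ^ 2 + x (.S n) t ^ 2 + x (.P (n + 1)) t ^ 2
      + x (.S (n + 1)) t ^ 2 + x (.P (n + 2)) t ^ 2 ≤ A ^ 2 * (1 + 1 / 10 ^ 6) := by
    intro n t ht
    have h1 := hort.sum_inner_products_le (x := u t)
      (s := {(true, n), (false, n), (true, n + 1), (false, n + 1), (true, n + 2)})
    rw [Finset.sum_insert (by simp), Finset.sum_insert (by simp), Finset.sum_insert (by simp),
      Finset.sum_insert (by simp), Finset.sum_singleton] at h1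
    simp only [if_true, Bool.false_eq_true, if_false, Real.norm_eq_abs, sq_abs] at h1
    have e : ∀ i, ⟪V i, u t⟫_ℝ = x i t := fun i => real_inner_comm _ _
    simp only [e] at h1
    have h2 := hun t ht
    linarith
  -- gradient bounds
  obtain ⟨B, hB⟩ := (isCompact_Icc.image_of_continuousOn hzc).isBounded.exists_norm_le
  have hB' : ∀ t ∈ Icc 0 T, ‖z t‖ ≤ B := fun t ht => hB _ ⟨t, ht, rfl⟩
  have hB0 : 0 ≤ B := (norm_nonneg _).trans (hB' 0 ⟨le_rfl, hT0.le⟩)
  have hgrb : ∀ (i : Md) (N : ℝ) (n : ℕ), 0 < N → nrm w i = 1 → grd NP NS NZ i = N * 16 ^ n →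
      ∀ t ∈ Icc 0 T, |x i t| * 4 ^ n ≤ B / √N := by
    intro i N n hN h1 h2 t ht
    have h3 := K.cH C i (S.mem t ht)
    simp only at h3
    have h4 : ‖J i‖ ^ 2 = N * 16 ^ n := by
      rw [← real_inner_self_eq_norm_sq, K.gramh C, if_pos rfl, h2]
    have h5 : ‖J i‖ = √N * 4 ^ n := by
      have h6 : (√N * 4 ^ n) ^ 2 = N * 16 ^ n := by
        rw [mul_pow, Real.sq_sqrt hN.le, ← pow_mul, mul_comm n 2, pow_mul]
        norm_num
      have h7 : ‖J i‖ ^ 2 = (√N * 4 ^ n) ^ 2 := by rw [h4, h6]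
      exact (pow_left_inj₀ (norm_nonneg _) (by positivity) (by norm_num)).mp h7
    have h6 := abs_real_inner_le_norm (z t) (J i)
    rw [h3, h5, h1, h2, div_one, abs_mul, abs_of_pos (by positivity : 0 < N * 16 ^ n)] at h6
    have h7 : N * 16 ^ n = √N * √N * (4 ^ n * 4 ^ n) := by
      rw [Real.mul_self_sqrt hN.le, ← mul_pow]
      norm_num
    have hsq : 0 < √N := Real.sqrt_pos.mpr hN
    have h8 : √N * (4 : ℝ) ^ n * (|⟪u t, V i⟫_ℝ| * 4 ^ n * √N) ≤ √N * 4 ^ n * B := by
      have h9 := hB' t ht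
      calc √N * (4 : ℝ) ^ n * (|⟪u t, V i⟫_ℝ| * 4 ^ n * √N)
          = N * 16 ^ n * |⟪u t, V i⟫_ℝ| := by rw [h7]; ring
        _ ≤ ‖z t‖ * (√N * 4 ^ n) := h6
        _ ≤ B * (√N * 4 ^ n) := mul_le_mul_of_nonneg_right h9 (by positivity)
        _ = _ := by ring
    have h9 : |⟪u t, V i⟫_ℝ| * 4 ^ n * √N ≤ B := le_of_mul_le_mul_left h8 (by positivity)
    rw [le_div_iff₀ hsq]
    exact h9
  -- the slow mode
  set ρ : ℝ := 3 / 2 / 10 ^ 6 with hρ
  set zz : ℝ → ℝ := fun t => x .Z (t / s) / A / w with hzz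
  have hzd : ∀ t ∈ Icc 0 TT, HasDerivWithinAt zz (g .Z (t / s) / s / A / w) (Icc 0 TT) t :=
    fun t ht => (resc (A := A) hs0 (hder .Z) t ht).div_const w
  have hz0 : zz 0 = 1 := by
    simp only [hzz, zero_div]
    rw [hini, ini_il2 C]
    simp only [C.gram, nrm, reduceCtorEq, if_false, if_true]
    field_simp
    ring
  have hzb : ∀ t ∈ Icc 0 TT, |g .Z (t / s) / s / A / w| ≤ ρ * |zz t| := by
    intro t ht
    have ht' := hmaps t ht
    rw [hgv _ _ ht']
    have h1 := K.cZ C hΩ (S.mem _ ht')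
    simp only at h1
    have h2 : ‖u (t / s)‖ ≤ 2 * A := by
      have h3 := hun _ ht'
      have h4 : ‖u (t / s)‖ ^ 2 ≤ (2 * A) ^ 2 := by nlinarith [sq_nonneg A]
      exact (pow_le_pow_iff_left₀ (norm_nonneg _) (by positivity) (by norm_num)).mp h4
    have hgg := gg_pos 0
    have h3 : |⟪tensL (u (t / s)), J .Z⟫_ℝ| ≤ 16 * k0 * gg 0 * A * (A * |zz t|) := by
      refine h1.trans ?_
      have e : |⟪u (t / s), V .Z⟫_ℝ / w| = A * |zz t| := by
        simp only [hzz, hx]
        have : ⟪u (t / s), V .Z⟫_ℝ / w = A * (⟪u (t / s), V .Z⟫_ℝ / A / w) := by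
          field_simp
        rw [this, abs_mul, abs_of_pos hA]
      rw [e]
      have : 8 * k0 * gg 0 * ‖u (t / s)‖ ≤ 8 * k0 * gg 0 * (2 * A) :=
        mul_le_mul_of_nonneg_left h2 (by positivity)
      calc 8 * k0 * gg 0 * ‖u (t / s)‖ * (A * |zz t|)
          ≤ 8 * k0 * gg 0 * (2 * A) * (A * |zz t|) :=
            mul_le_mul_of_nonneg_right this (by positivity)
        _ = _ := by ring
    have h4 : x .Z (t / s) = w * A * zz t := by
      simp only [hzz]
      field_simp
    have h5 : (-(ν * (grd NP NS NZ .Z / nrm w .Z)) * x .Z (t / s)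
        + ⟪tensL (u (t / s)), J .Z⟫_ℝ) / s / A / w
        = -(ν * NZ / (w * (k0 * A))) * zz t + ⟪tensL (u (t / s)), J .Z⟫_ℝ / s / A / w := by
      rw [h4]
      simp only [grd, nrm, hs]
      field_simp
    rw [h5]
    refine (abs_add_le _ _).trans ?_
    have h6 : |-(ν * NZ / (w * (k0 * A))) * zz t| ≤ 1 / 10 ^ 6 * |zz t| := by
      rw [abs_mul, abs_neg, abs_of_nonneg (by positivity : 0 ≤ ν * NZ / (w * (k0 * A)))]
      exact mul_le_mul_of_nonneg_right hA3 (abs_nonneg _)
    have h7 : |⟪tensL (u (t / s)), J .Z⟫_ℝ / s / A / w| ≤ 16 * gg 0 / w * |zz t| := by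
      rw [abs_div, abs_div, abs_div, abs_of_pos hs0, abs_of_pos hA, abs_of_pos hw]
      have : |⟪tensL (u (t / s)), J .Z⟫_ℝ| / s / A / w
          ≤ 16 * k0 * gg 0 * A * (A * |zz t|) / s / A / w := by gcongr
      refine this.trans (le_of_eq ?_)
      simp only [hs]
      field_simp
    have h8 : 16 * gg 0 / w ≤ 1 / 2 / 10 ^ 6 := by
      rw [div_le_iff₀ hw]
      have h9 := gg0_small
      have h10 := C.hw1
      nlinarith
    have h9 : 16 * gg 0 / w * |zz t| ≤ 1 / 2 / 10 ^ 6 * |zz t| :=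
      mul_le_mul_of_nonneg_right h8 (abs_nonneg _)
    have h10 : ρ * |zz t| = 1 / 10 ^ 6 * |zz t| + 1 / 2 / 10 ^ 6 * |zz t| := by
      rw [hρ]; ring
    linarith
  have hzsq : ∀ t ∈ Icc 0 TT, 1 / 4 ≤ zz t ^ 2 ∧ zz t ^ 2 ≤ 4 := by
    intro t ht
    have hd : ∀ r ∈ Icc 0 t, HasDerivWithinAt (fun r => zz r ^ 2)
        (2 * zz r * (g .Z (r / s) / s / A / w)) (Icc 0 t) r := by
      intro r hr
      have h1 := (hzd r ⟨hr.1, hr.2.trans ht.2⟩).mono (Icc_subset_Icc_right ht.2)
      have h2 := h1.mul h1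
      have e : (fun r => zz r ^ 2) = zz * zz := by
        funext r
        simp only [Pi.mul_apply]
        ring
      rw [e]
      refine h2.congr_deriv ?_
      ring
    have hb : ∀ r ∈ Icc 0 t, |2 * zz r * (g .Z (r / s) / s / A / w)| ≤ 2 * ρ * zz r ^ 2 := by
      intro r hr
      have h1 := hzb r ⟨hr.1, hr.2.trans ht.2⟩
      rw [abs_mul, abs_mul, abs_two]
      calc 2 * |zz r| * |g .Z (r / s) / s / A / w| ≤ 2 * |zz r| * (ρ * |zz r|) := by gcongr
        _ = 2 * ρ * (|zz r| * |zz r|) := by ring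
        _ = _ := by rw [abs_mul_abs_self]; ring
    have htT := ht.2
    rw [TT_eq] at htT
    constructor
    · have h1 := gron_low (c := -(2 * ρ)) ht.1 hd (fun r hr => by
        have h2 := (abs_le.mp (hb r hr)).1
        linarith)
      rw [hz0, one_pow, mul_one] at h1
      have h2 : (1 : ℝ) / 4 ≤ Real.exp (-(2 * ρ) * (t - 0)) := by
        have h3 : -(1 : ℝ) ≤ -(2 * ρ) * (t - 0) := by
          rw [hρ]
          nlinarith [ht.1]
        have h4 : (1 : ℝ) / 4 ≤ Real.exp (-1) := by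
          rw [Real.exp_neg, one_div]
          refine inv_anti₀ (Real.exp_pos _) ?_
          have := Real.exp_one_lt_d9
          linarith
        exact h4.trans (Real.exp_le_exp.mpr h3)
      exact h2.trans h1
    · have h1 := gron_up (c := 2 * ρ) (Γ := 0) ht.1 (by rw [hρ]; norm_num) le_rfl hd
        (fun r hr => by
          have h2 := (abs_le.mp (hb r hr)).2
          linarith)
      rw [hz0] at h1
      have h2 : Real.exp (2 * ρ * (t - 0)) ≤ 4 := by
        have h3 : 2 * ρ * (t - 0) ≤ 1 := by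
          rw [hρ]
          nlinarith [ht.1]
        have h4 : Real.exp 1 ≤ 4 := by
          have := Real.exp_one_lt_d9
          linarith
        exact (Real.exp_le_exp.mpr h3).trans h4
      rw [one_pow, zero_mul, add_zero, mul_one] at h1
      exact h1.trans h2
  have hkap : ∀ n, kap n = 32 ^ n := fun n => rfl
  refine chain_false (a := fun n t => x (.P n) (t / s) / A) (b := fun n t => x (.S n) (t / s) / A)
    (e := fun n => ν * NP / s * 16 ^ n) (f := fun n => ν * NS / s * 16 ^ n)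
    (γ := fun n t => 4 * gg n * zz t ^ 2) (K := B / √NP / A + B / √NS / A) ?_
  constructor
  · intro n; positivity
  · intro n
    exact mul_le_mul_of_nonneg_right hA1 (by positivity)
  · intro n; positivity
  · intro n
    exact mul_le_mul_of_nonneg_right hA2 (by positivity)
  · intro n t ht
    have ht' := hmaps t ht
    have h1 := resc (A := A) hs0 (hder (.P n)) t ht
    refine h1.congr_deriv ?_
    rw [hgv _ _ ht', K.cP C hΩ n (S.mem _ ht')]
    cases n with
    | zero =>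
      simp only [feed, fd, grd, nrm, hkap, hx, hs]
      field_simp
      ring
    | succ n =>
      simp only [feed, fd, grd, nrm, hkap, hx, hs]
      field_simp
      ring
  · intro n t ht
    have ht' := hmaps t ht
    have h1 := resc (A := A) hs0 (hder (.S n)) t ht
    refine h1.congr_deriv ?_
    rw [hgv _ _ ht', K.cS C hΩ n (S.mem _ ht')]
    simp only [grd, nrm, hkap, hx, hs, hzz]
    field_simp
    ring
  · intro n t ht
    have := (hzsq t ht).1
    have h1 := gg_pos n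
    nlinarith
  · intro n t ht
    have := (hzsq t ht).2
    have h1 := gg_pos n
    nlinarith
  · intro n t ht
    have h1 := hbes n _ (hmaps t ht)
    have e : ∀ y : ℝ, (y / A) ^ 2 = y ^ 2 / A ^ 2 := fun y => div_pow _ _ _
    simp only [e]
    rw [← add_div, ← add_div, ← add_div, ← add_div, div_le_iff₀ (by positivity)]
    linarith
  · intro n t ht
    have h1 := hgrb (.P n) NP n hNP rfl rfl _ (hmaps t ht)
    rw [abs_div, abs_of_pos hA, div_mul_eq_mul_div]
    have h2 : |x (.P n) (t / s)| * 4 ^ n / A ≤ B / √NP / A :=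
      div_le_div_of_nonneg_right h1 hA.le
    have h3 : 0 ≤ B / √NS / A := by positivity
    linarith
  · intro n t ht
    have h1 := hgrb (.S n) NS n hNS rfl rfl _ (hmaps t ht)
    rw [abs_div, abs_of_pos hA, div_mul_eq_mul_div]
    have h2 : |x (.S n) (t / s)| * 4 ^ n / A ≤ B / √NS / A :=
      div_le_div_of_nonneg_right h1 hA.le
    have h3 : 0 ≤ B / √NP / A := by positivity
    linarith
  · simp only [zero_div]
    rw [hini, ini_il2 C]
    simp only [C.gram, nrm, reduceCtorEq, if_false, if_true]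
    field_simp
    ring
  · intro n
    simp only [zero_div]
    rw [hini, ini_il2 C]
    simp [C.gram]
  · simp only [zero_div]
    rw [hini, ini_il2 C]
    simp only [C.gram, nrm, reduceCtorEq, if_false, if_true]
    field_simp
    ring
  · intro n
    simp only [zero_div]
    rw [hini, ini_il2 C]
    simp [C.gram]

end Pool.Agent.T2H10
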